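import Pool.Agent.H15.AVB.Kt

/-!
# The angular bound for one velocity

MODULE Ang. With `F σ = Θ (post v w σ) - Θ v` and the reflection `σ* = refl (dirk v w) σ`:
`post v w σ = v + (r/2)(σ - k)`, `r = len (v - w)`, `(σ - k) + (σ* - k) = -2(1 - cos) k` (`refl_sub_add`),
`|σ - k|² = 2 (1 - cos)` (`nsq_sub_dirk`), so by Taylor `|F σ + F σ*| ≤ K r (1-cos) + K r² (1-cos)` and
`≤ 4 K`. `∫ kt F = (1/2) ∫ kt (F + F*)` as in `inner_eq`; `bt ≤ 2 Cb (1-x)^(-β)` on `[0,1)` (`bt_le`); for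
`r ≤ 1` use `AngInt` with radius `1` (on `cos ≥ 0`, `1 - cos ≤ 1`), for `r > 1` with radius `r`
(`H.an`, `aw`). The constant does not depend on `ε`, `R`.
-/

set_option autoImplicit false

open MeasureTheory Set Filter Topology Pool.Agent.H25.Kin
open Pool.Agent.H82.BK (bt bcut Kn hh co BB dir)

namespace Pool.Agent.H15.AV

variable {d : ℕ} {γ s Cb Ca : ℝ} {b : ℝ → ℝ}

private lemma ang_taylor {R K : ℝ} {Θ : Vec d → ℝ} (h : Tst R K Θ) (v a : Vec d) :
    |Θ (v + a) - Θ v - fderiv ℝ Θ v a| ≤ K * ‖a‖ ^ 2 := by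
  have hT : Test Θ K := ⟨h.smooth, h.le0, h.le1, h.le2⟩
  have hd : Differentiable ℝ Θ := h.smooth.differentiable (by norm_num)
  have key := taylor_1d
    (h := fun τ => Θ (v + (1 * τ) • a))
    (h' := fun τ => 1 * fderiv ℝ Θ (v + (1 * τ) • a) a)
    (h'' := fun τ => 1 ^ 2 * fderiv ℝ (fderiv ℝ Θ) (v + (1 * τ) • a) a a)
    (fun τ => path1 hd v a 1 τ)
    (fun τ => path2 hT.diff1 v a 1 τ)
    (A := K * ‖a‖ ^ 2) (fun τ _ => by
      have a1 := apply2_le (h.le2 (v + (1 * τ) • a)) a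
      rw [one_pow, one_mul (fderiv ℝ (fderiv ℝ Θ) (v + (1 * τ) • a) a a)]
      exact a1)
  simp only [mul_one, one_smul, mul_zero, zero_smul, add_zero, one_mul] at key
  exact key

private lemma ang_second {R K : ℝ} {Θ : Vec d → ℝ} (h : Tst R K Θ) {v w σ : Vec d} (hvw : v ≠ w)
    (hσ : nsq σ = 1) :
    |(Θ (post v w σ) - Θ v) + (Θ (post v w (refl (dirk v w) σ)) - Θ v)| ≤
      K * (len (v - w) + len (v - w) ^ 2) * (1 - cosTh v w σ) ∧
    |(Θ (post v w σ) - Θ v) + (Θ (post v w (refl (dirk v w) σ)) - Θ v)| ≤ 4 * K := by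
  have hK : 0 ≤ K := (abs_nonneg _).trans (h.le0 0)
  set ρ := len (v - w) / 2 with hρ
  have hl := len_nonneg (v - w)
  have hρ0 : 0 ≤ ρ := by positivity
  set R := refl (dirk v w) σ with hR
  have hRσ : nsq R = 1 := by rw [hR, nsq_refl (nsq_dirk hvw), hσ]
  have hx := one_sub_cosTh_nonneg (v := v) (w := w) hσ
  constructor
  · have t1 := ang_taylor h v (ρ • (σ - dirk v w))
    have t2 := ang_taylor h v (ρ • (R - dirk v w))
    have n1 := norm_sq_sub_dirk hvw hσ
    have n2 := norm_sq_sub_dirk hvw hRσ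
    have ecos : cosTh v w R = cosTh v w σ := cosTh_refl hvw
    rw [ecos] at n2
    rw [norm_smul, mul_pow, Real.norm_eq_abs, sq_abs] at t1 t2
    have t3 : |fderiv ℝ Θ v (ρ • (σ - dirk v w)) + fderiv ℝ Θ v (ρ • (R - dirk v w))| ≤
        K * len (v - w) * (1 - cosTh v w σ) := by
      have e1 : fderiv ℝ Θ v (ρ • (σ - dirk v w)) + fderiv ℝ Θ v (ρ • (R - dirk v w)) =
          ρ * (fderiv ℝ Θ v) ((σ - dirk v w) + (R - dirk v w)) := by
        simp only [map_smul, smul_eq_mul, map_add]; ring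
      rw [e1, refl_sub_add, map_smul, smul_eq_mul, abs_mul, abs_mul, abs_neg,
        abs_of_nonneg hρ0, abs_of_nonneg (by linarith : 0 ≤ 2 * (1 - cosTh v w σ))]
      have h2 := apply_le (h.le1 v) (dirk v w)
      have h3 := norm_dirk_le hvw
      have h5 : K * ‖dirk v w‖ ≤ K * 1 := by gcongr
      calc ρ * (2 * (1 - cosTh v w σ) * |(fderiv ℝ Θ v) (dirk v w)|)
          ≤ ρ * (2 * (1 - cosTh v w σ) * (K * 1)) := by
            gcongr
            exact h2.trans h5
        _ = K * len (v - w) * (1 - cosTh v w σ) := by rw [hρ]; ring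
    rw [post_eq, post_eq, ← hρ]
    have c1 : K * (ρ ^ 2 * ‖σ - dirk v w‖ ^ 2) ≤ K * (ρ ^ 2 * (2 * (1 - cosTh v w σ))) := by
      gcongr
    have c2 : K * (ρ ^ 2 * ‖R - dirk v w‖ ^ 2) ≤ K * (ρ ^ 2 * (2 * (1 - cosTh v w σ))) := by
      gcongr
    have t1' := t1.trans c1
    have t2' := t2.trans c2
    have hfin : K * (ρ ^ 2 * (2 * (1 - cosTh v w σ))) + K * (ρ ^ 2 * (2 * (1 - cosTh v w σ))) +
        K * len (v - w) * (1 - cosTh v w σ) =
        K * (len (v - w) + len (v - w) ^ 2) * (1 - cosTh v w σ) := by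
      rw [hρ]; ring
    rw [← hfin]
    rw [abs_le] at t1' t2' t3 ⊢
    constructor
    · linarith [t1'.1, t2'.1, t3.1]
    · linarith [t1'.2, t2'.2, t3.2]
  · have b : ∀ u, -K ≤ Θ u ∧ Θ u ≤ K := fun u => abs_le.1 (h.le0 u)
    rw [abs_le]
    constructor
    · linarith [(b (post v w σ)).1, (b (post v w R)).1, (b v).2]
    · linarith [(b (post v w σ)).2, (b (post v w R)).2, (b v).1]

private lemma ang_kt_meas (γ : ℝ) (hb : Measurable b) (ε : ℝ) (v w : Vec d) :
    Measurable fun σ : Vec d => kt γ b ε (v, w, σ) :=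
  (kt_meas hb).comp (measurable_const.prodMk (measurable_const.prodMk measurable_id))

private lemma ang_int (H : Hyp d γ s b Cb Ca) {ε : ℝ} (hε : 0 < ε) {v w : Vec d} {F : Vec d → ℝ}
    (hF : Measurable F) {F0 : ℝ} (hF0 : ∀ σ, nsq σ = 1 → |F σ| ≤ F0) :
    Integrable (fun σ => kt γ b ε (v, w, σ) * F σ) (surf d) := by
  obtain ⟨A, hA, hk⟩ := kt_le (γ := γ) H hε
  have h2 := Real.rpow_nonneg (len_nonneg (v - w)) γ
  refine (integrable_const (A * len (v - w) ^ γ * F0)).mono'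
    ((ang_kt_meas γ H.bm ε v w).mul hF).aestronglyMeasurable ?_
  filter_upwards [surf_ae] with σ hσ
  rw [norm_mul, Real.norm_eq_abs, Real.norm_eq_abs,
    abs_of_nonneg (kt_nonneg H hε (p := (v, w, σ)) hσ)]
  exact mul_le_mul (hk (v, w, σ) hσ) (hF0 σ hσ) (abs_nonneg _) (by positivity)

private lemma ang_refl (γ : ℝ) (b : ℝ → ℝ) (ε : ℝ) {v w : Vec d} (hvw : v ≠ w) (σ : Vec d) :
    kt γ b ε (v, w, refl (dirk v w) σ) = kt γ b ε (v, w, σ) := by
  unfold kt
  simp only
  rw [cosTh_refl hvw]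

private lemma ang_eq (H : Hyp d γ s b Cb Ca) {ε : ℝ} (hε : 0 < ε) {v w : Vec d} (hvw : v ≠ w)
    {F : Vec d → ℝ} (hF : Measurable F) {F0 : ℝ} (hF0 : ∀ σ, nsq σ = 1 → |F σ| ≤ F0) :
    ∫ σ, kt γ b ε (v, w, σ) * F σ ∂(surf d) =
      ∫ σ, (1 / 2) * (kt γ b ε (v, w, σ) * (F σ + F (refl (dirk v w) σ))) ∂(surf d) := by
  set R : Vec d → Vec d := fun σ => refl (dirk v w) σ with hR
  have hRm : Measurable R := refl_meas _
  have hRp : MeasurePreserving R (surf d) (surf d) := refl_preserving H.hd1 (nsq_dirk hvw)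
  have i1 := ang_int H hε (v := v) (w := w) hF hF0
  have i2 := ang_int H hε (v := v) (w := w) (F := fun σ => F (R σ))
    (hF.comp hRm) (fun σ hσ => hF0 _ (by rw [hR, nsq_refl (nsq_dirk hvw), hσ]))
  have e1 : ∫ σ, kt γ b ε (v, w, σ) * F (R σ) ∂(surf d) =
      ∫ σ, kt γ b ε (v, w, σ) * F σ ∂(surf d) := by
    have h := integral_map (μ := surf d) (φ := R) hRm.aemeasurable
      (f := fun σ => kt γ b ε (v, w, σ) * F σ)
      ((ang_kt_meas γ H.bm ε v w).mul hF).aestronglyMeasurable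
    rw [hRp.map_eq] at h
    rw [h]
    refine integral_congr_ae (Eventually.of_forall fun σ => ?_)
    simp only [hR]
    rw [ang_refl γ b ε hvw]
  calc ∫ σ, kt γ b ε (v, w, σ) * F σ ∂(surf d) =
        (1 / 2) * ((∫ σ, kt γ b ε (v, w, σ) * F σ ∂(surf d)) +
        ∫ σ, kt γ b ε (v, w, σ) * F (R σ) ∂(surf d)) := by rw [e1]; ring
    _ = _ := by
        rw [← integral_add i1 i2, ← integral_const_mul]
        refine integral_congr_ae (Eventually.of_forall fun σ => ?_)
        simp only [hR]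
        ring

private lemma ang_bound (H : Hyp d γ s b Cb Ca) {ε : ℝ} (hε : 0 < ε) {v w : Vec d} (hvw : v ≠ w)
    {F : Vec d → ℝ} (hF : Measurable F) {F0 : ℝ} (hF0 : ∀ σ, nsq σ = 1 → |F σ| ≤ F0) {r D : ℝ}
    (hr : 0 < r) (hD : 0 ≤ D)
    (hsd : ∀ σ, nsq σ = 1 → 0 ≤ cosTh v w σ → |F σ + F (refl (dirk v w) σ)| ≤
      D * min (r ^ 2 * (1 - cosTh v w σ)) 1) :
    |∫ σ, kt γ b ε (v, w, σ) * F σ ∂(surf d)| ≤
      (Cb * len (v - w) ^ γ * D) * (Ca * r ^ (2 * s)) := by
  obtain ⟨i1, i2⟩ := H.an.2 v w hvw r hr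
  have hC0 := H.bd.1
  have h2 := Real.rpow_nonneg (len_nonneg (v - w)) γ
  rw [ang_eq H hε hvw hF hF0, ← Real.norm_eq_abs]
  calc ‖∫ σ, (1 / 2) * (kt γ b ε (v, w, σ) * (F σ + F (refl (dirk v w) σ))) ∂(surf d)‖
      ≤ ∫ σ, (Cb * len (v - w) ^ γ * D) * aw (((d : ℝ) - 1) / 2 + s) r v w σ ∂(surf d) := by
        refine norm_integral_le_of_norm_le (i1.const_mul _) ?_
        filter_upwards [surf_ae] with σ hσ
        have haw := aw_nonneg (((d : ℝ) - 1) / 2 + s) r (v := v) (w := w) hσ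
        have hRHS : 0 ≤ (Cb * len (v - w) ^ γ * D) * aw (((d : ℝ) - 1) / 2 + s) r v w σ := by
          positivity
        rcases lt_or_ge (cosTh v w σ) 0 with hc | hc
        · rw [kt_neg (γ := γ) (b := b) (ε := ε) (p := (v, w, σ)) hc, zero_mul, mul_zero,
            norm_zero]
          exact hRHS
        · have h1 := hsd σ hσ hc
          have hc1 := one_sub_cosTh_nonneg (v := v) (w := w) hσ
          rcases hc1.eq_or_lt with h0 | h0
          · rw [← h0, mul_zero, min_eq_left (zero_le_one), mul_zero] at h1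
            have h3 : F σ + F (refl (dirk v w) σ) = 0 := abs_nonpos_iff.1 h1
            rw [h3, mul_zero, mul_zero, norm_zero]
            exact hRHS
          · have hk := kt_nonneg H hε (p := (v, w, σ)) hσ
            have hk2 : kt γ b ε (v, w, σ) ≤
                len (v - w) ^ γ * (2 * Cb * (1 - cosTh v w σ) ^ (-(((d : ℝ) - 1) / 2 + s))) := by
              unfold kt
              exact mul_le_mul_of_nonneg_left
                (Pool.Agent.H82.BK.bt_le H.bd H.β0 hc (by linarith)) h2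
            rw [norm_mul, norm_mul, Real.norm_eq_abs, Real.norm_eq_abs, Real.norm_eq_abs,
              abs_of_nonneg hk, abs_of_nonneg (by norm_num : (0 : ℝ) ≤ 1 / 2)]
            unfold aw
            calc 1 / 2 * (kt γ b ε (v, w, σ) * |F σ + F (refl (dirk v w) σ)|)
                ≤ 1 / 2 * ((len (v - w) ^ γ *
                  (2 * Cb * (1 - cosTh v w σ) ^ (-(((d : ℝ) - 1) / 2 + s)))) *
                  (D * min (r ^ 2 * (1 - cosTh v w σ)) 1)) := by
                  refine mul_le_mul_of_nonneg_left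
                    (mul_le_mul hk2 h1 (abs_nonneg _) (hk.trans hk2)) (by norm_num)
              _ = _ := by ring
    _ ≤ _ := by
        rw [integral_const_mul]
        exact mul_le_mul_of_nonneg_left i2 (by positivity)

theorem ang_test (H : Hyp d γ s b Cb Ca) : ∃ A : ℝ, 0 ≤ A ∧ ∀ ε > 0, ∀ (R K : ℝ) (Θ : Vec d → ℝ),
    Tst R K Θ → ∀ v w : Vec d, v ≠ w →
      |∫ σ, kt γ b ε (v, w, σ) * (Θ (post v w σ) - Θ v) ∂(surf d)| ≤
        A * K * (len (v - w) ^ γ * ag s (len (v - w))) := by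
  have hC0 := H.bd.1
  have hCa := H.an.1
  refine ⟨4 * Cb * Ca, by positivity, fun ε hε R K Θ hΘ v w hvw => ?_⟩
  have hK : 0 ≤ K := (abs_nonneg _).trans (hΘ.le0 0)
  have hl : 0 < len (v - w) := len_pos (sub_ne_zero.2 hvw)
  have hlg := Real.rpow_nonneg hl.le γ
  set F : Vec d → ℝ := fun σ => Θ (post v w σ) - Θ v with hFdef
  have hF : Measurable F := by
    have h1 : Continuous fun σ : Vec d => post v w σ :=
      continuous_post.comp (continuous_const.prodMk (continuous_const.prodMk continuous_id))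
    exact ((hΘ.smooth.continuous.comp h1).sub continuous_const).measurable
  have hF0 : ∀ σ, nsq σ = 1 → |F σ| ≤ 2 * K := by
    intro σ _
    have h1 := hΘ.le0 (post v w σ)
    have h2 := hΘ.le0 v
    simp only [hFdef]
    calc |Θ (post v w σ) - Θ v| ≤ |Θ (post v w σ)| + |Θ v| := abs_sub _ _
      _ ≤ 2 * K := by linarith
  rcases le_or_gt (len (v - w)) 1 with hr | hr
  · have h1 := ang_bound H hε hvw hF hF0 (r := 1) (D := 2 * K * len (v - w)) one_pos
      (by positivity) (fun σ hσ hc => by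
        have h2 := (ang_second hΘ hvw hσ).1
        have hc1 := one_sub_cosTh_nonneg (v := v) (w := w) hσ
        rw [one_pow, one_mul, min_eq_left (by linarith)]
        refine h2.trans ?_
        have h3 : K * (len (v - w) + len (v - w) ^ 2) ≤ 2 * K * len (v - w) := by
          have h4 : len (v - w) ^ 2 ≤ len (v - w) := by nlinarith
          nlinarith
        exact mul_le_mul_of_nonneg_right h3 hc1)
    unfold ag
    rw [if_pos hr]
    refine h1.trans ?_
    rw [Real.one_rpow]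
    have h5 : 0 ≤ Cb * Ca * K * (len (v - w) ^ γ * len (v - w)) := by positivity
    nlinarith
  · have h1 := ang_bound H hε hvw hF hF0 (r := len (v - w)) (D := 4 * K) hl
      (by positivity) (fun σ hσ hc => by
        obtain ⟨h2, h3⟩ := ang_second hΘ hvw hσ
        have hc1 := one_sub_cosTh_nonneg (v := v) (w := w) hσ
        rw [mul_min_of_nonneg _ _ (by positivity : 0 ≤ 4 * K), mul_one]
        refine le_min (h2.trans ?_) h3
        have h4 : K * (len (v - w) + len (v - w) ^ 2) ≤ 4 * K * len (v - w) ^ 2 := by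
          have h5 : len (v - w) ≤ len (v - w) ^ 2 := by nlinarith
          nlinarith
        calc _ ≤ 4 * K * len (v - w) ^ 2 * (1 - cosTh v w σ) :=
              mul_le_mul_of_nonneg_right h4 hc1
          _ = _ := by ring)
    unfold ag
    rw [if_neg (not_le.2 hr)]
    refine h1.trans (le_of_eq ?_)
    ring

end Pool.Agent.H15.AV
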