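import Pool.Agent.H15.AV.SlcB
import Pool.Agent.H82.BK.Loss
import Pool.Agent.H25.Kin.BMain

/-!
# Hydrodynamic bounds in measure for the Boltzmann equation: definitions

`p = (v, w, σ)` is a collision, `vp p = v'`, `wp p = w'`, `kt` the kernel folded to `cos θ ≥ 0` with
the grazing collisions `cos θ > 1 - ε` removed.
-/

set_option autoImplicit false

open MeasureTheory Set Filter Topology Pool.Agent.H25.Kin
open Pool.Agent.H82.BK (bt bcut Kn hh co BB dir)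

namespace Pool.Agent.H15.AV

variable {d : ℕ}

/-- the folded kernel -/
noncomputable def kt (γ : ℝ) (b : ℝ → ℝ) (ε : ℝ) (p : Vec d × Vec d × Vec d) : ℝ :=
  len (p.1 - p.2.1) ^ γ * bt b ε (cosTh p.1 p.2.1 p.2.2)

/-- the velocity `v'` -/
noncomputable def vp (p : Vec d × Vec d × Vec d) : Vec d := post p.1 p.2.1 p.2.2

/-- the velocity `w'` -/
noncomputable def wp (p : Vec d × Vec d × Vec d) : Vec d := post' p.1 p.2.1 p.2.2

/-- bounded measurable functions with compact support -/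
structure BTst (R K : ℝ) (P : Vec d → ℝ) : Prop where
  meas : Measurable P
  supp : ∀ v, R ≤ ‖v‖ → P v = 0
  le : ∀ v, |P v| ≤ K

lemma Tst.btst {R K : ℝ} {P : Vec d → ℝ} (h : Tst R K P) : BTst R K P :=
  ⟨h.smooth.continuous.measurable, h.supp, h.le0⟩

/-- the excess density: the convexity defect and the cancellation terms -/
noncomputable def exc (δ : ℝ) (g : Vec d → ℝ) (p : Vec d × Vec d × Vec d) : ℝ :=
  g (wp p) * (kd δ (g p.1) * (g (vp p) - g p.1) - (uf δ (g p.1) - uf δ (g (vp p)))) +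
    (kd δ (g p.1) * g p.1 + uf δ (g p.1)) * (g (wp p) - g p.2.1)

/-- the functional `N(P) = ∫ kt P(v) exc`, positive for `P ≥ 0` -/
noncomputable def Nf (γ : ℝ) (b : ℝ → ℝ) (ε δ : ℝ) (g P : Vec d → ℝ) : ℝ :=
  ∫ p, kt γ b ε p * (P p.1 * exc δ g p) ∂(mu3 d)

/-- the functional `L(P) = ∫ kt g(w) u(v) (P(v) - P(v'))`, bounded for smooth `P` -/
noncomputable def Lf (γ : ℝ) (b : ℝ → ℝ) (ε δ : ℝ) (g P : Vec d → ℝ) : ℝ :=
  ∫ p, kt γ b ε p * (g p.2.1 * (uf δ (g p.1) * (P p.1 - P (vp p)))) ∂(mu3 d)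

/-- the radial factor of the angular bound -/
noncomputable def ag (s r : ℝ) : ℝ := if r ≤ 1 then r else r ^ (2 * s)

/-- truncated collisions: relative velocity in `[ρ, R]`, `0 ≤ cos θ ≤ 1 - ε` -/
def Tr (ε ρ R : ℝ) (v w σ : Vec d) : Prop :=
  ρ ≤ len (v - w) ∧ len (v - w) ≤ R ∧ 0 ≤ cosTh v w σ ∧ cosTh v w σ ≤ 1 - ε

/-- pairs of field particles seen from `a` in different directions -/
def PairG (ρ κ R : ℝ) (a z₁ z₀ : Vec d) : Prop :=
  ρ ≤ len (a - z₁) ∧ len (a - z₁) ≤ len (a - z₀) ∧ len (a - z₀) ≤ R ∧ len (z₀ - z₁) ≤ ρ / 4 ∧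
    κ ≤ nsq (a - z₁) * nsq (a - z₀) - dot (a - z₁) (a - z₀) ^ 2

end Pool.Agent.H15.AV
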