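import Pool.Agent.H15.AVB.BDef

/-!
# Chains of small steps

MODULE Chn. Choose `n` with `2 d R / n ≤ r`. `p_j = a + (j/n)(b - a)`, `j = 0..n`, lies in the (convex) ball,
`len (p_{j+1} - p_j) ≤ r`. `ofReal (u b - u a) ≤ ∑ ofReal (u p_{j+1} - u p_j)`, so (Cauchy-Schwarz)
`ofReal (..)^2 ≤ n ∑ ofReal (..)^2`. For fixed `j` the linear map `(a, b) ↦ (p_j, p_{j+1})` has determinant
`(1/n)^d`: substitute in two steps, for fixed `a`: `b ↦ p_{j+1}` (`b = a + (n/(j+1))(p - a)`), then
`p_j = (1 - j/(j+1)) a + (j/(j+1)) p`, for fixed `p` a dilation in `a` with factor `1/(j+1)`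
(`Measure.lintegral_comp_smul`-type lemmas, translations), total factor `n^d`.
-/

set_option autoImplicit false

open MeasureTheory Set Filter Topology Pool.Agent.H25.Kin
open scoped ENNReal

namespace Pool.Agent.H15.AV

variable {d : ℕ}

private lemma chn_aff {c : ℝ} (hc : c ≠ 0) (w : Vec d) {G : Vec d → ℝ≥0∞} (hG : Measurable G) :
    ∫⁻ a, G (c • a + w) = ENNReal.ofReal |(c ^ d)⁻¹| * ∫⁻ a, G a := by
  have h1 : ∫⁻ a, G (c • a + w) =
      ∫⁻ a, G (a + w) ∂(Measure.map (fun x : Vec d => c • x) volume) := by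
    have hm : Measurable fun x : Vec d => G (x + w) := hG.comp (measurable_add_const w)
    rw [lintegral_map hm (measurable_const_smul c)]
  rw [h1, Measure.map_addHaar_smul _ hc, lintegral_smul_measure,
    lintegral_add_right_eq_self (fun a => G a) w, Module.finrank_fin_fun, smul_eq_mul]

private lemma chn_sub {s t : ℝ} (ht : 0 < t) (hst : s < t) {F : Vec d × Vec d → ℝ≥0∞}
    (hF : Measurable F) :
    ∫⁻ a, ∫⁻ b, F (a + s • (b - a), a + t • (b - a)) =
      ENNReal.ofReal (((t - s) ^ d)⁻¹) * ∫⁻ x, ∫⁻ y, F (x, y) := by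
  have hts : 0 < 1 - s / t := by
    rw [sub_pos, div_lt_one ht]
    exact hst
  have e1 : ∀ a : Vec d, ∫⁻ b, F (a + s • (b - a), a + t • (b - a)) =
      ENNReal.ofReal |(t ^ d)⁻¹| * ∫⁻ y, F ((1 - s / t) • a + (s / t) • y, y) := by
    intro a
    have hm : Measurable fun y : Vec d => F ((1 - s / t) • a + (s / t) • y, y) := by
      refine hF.comp (Measurable.prodMk ?_ measurable_id)
      exact (measurable_const_smul (s / t)).const_add _
    rw [← chn_aff ht.ne' ((1 - t) • a) hm]
    refine lintegral_congr fun b => ?_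
    have e2 : t • b + (1 - t) • a = a + t • (b - a) := by
      rw [smul_sub, sub_smul, one_smul]
      abel
    have e3 : (1 - s / t) • a + (s / t) • (t • b + (1 - t) • a) = a + s • (b - a) := by
      rw [e2, smul_add, smul_smul, div_mul_cancel₀ _ ht.ne', sub_smul, one_smul]
      abel
    rw [e3, e2]
  have e4 : ∀ y : Vec d, ∫⁻ a, F ((1 - s / t) • a + (s / t) • y, y) =
      ENNReal.ofReal |((1 - s / t) ^ d)⁻¹| * ∫⁻ x, F (x, y) := by
    intro y
    have hm : Measurable fun x : Vec d => F (x, y) := hF.comp measurable_prodMk_right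
    exact chn_aff hts.ne' ((s / t) • y) hm
  have hm2 : Measurable fun q : Vec d × Vec d => F ((1 - s / t) • q.1 + (s / t) • q.2, q.2) := by
    have h1 : Measurable fun q : Vec d × Vec d => (1 - s / t) • q.1 :=
      (measurable_fst : Measurable (Prod.fst : Vec d × Vec d → Vec d)).const_smul (1 - s / t)
    have h2 : Measurable fun q : Vec d × Vec d => (s / t) • q.2 :=
      (measurable_snd : Measurable (Prod.snd : Vec d × Vec d → Vec d)).const_smul (s / t)
    exact hF.comp ((h1.add h2).prodMk measurable_snd)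
  have hF2 : Measurable (Function.uncurry fun x y : Vec d => F (x, y)) := hF
  have hsw := lintegral_lintegral_swap (μ := (volume : Measure (Vec d)))
    (ν := (volume : Measure (Vec d))) hF2.aemeasurable
  simp only [e1]
  rw [lintegral_const_mul _ hm2.lintegral_prod_right',
    lintegral_lintegral_swap hm2.aemeasurable]
  simp only [e4]
  rw [lintegral_const_mul _ hF.lintegral_prod_left', ← mul_assoc,
    ← ENNReal.ofReal_mul (abs_nonneg _), ← abs_mul, ← mul_inv, ← mul_pow,
    ← hsw]
  have e5 : t * (1 - s / t) = t - s := by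
    field_simp
  have e6 : 0 ≤ ((t - s) ^ d)⁻¹ := inv_nonneg.2 (pow_nonneg (by linarith) _)
  rw [e5, abs_of_nonneg e6]

private lemma chn_len (z : Vec d) : len z ≤ Real.sqrt d * ‖z‖ := by
  unfold len
  rw [← Real.sqrt_sq (norm_nonneg z), ← Real.sqrt_mul (Nat.cast_nonneg d)]
  refine Real.sqrt_le_sqrt ?_
  unfold nsq
  calc ∑ i, z i ^ 2 ≤ ∑ _i : Fin d, ‖z‖ ^ 2 := by
        refine Finset.sum_le_sum fun i _ => ?_
        rw [← sq_abs]
        exact pow_le_pow_left₀ (abs_nonneg _) (norm_le_pi_norm z i) 2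
    _ = d * ‖z‖ ^ 2 := by
        rw [Finset.sum_const, Finset.card_univ, Fintype.card_fin, nsmul_eq_mul]

private lemma chn_tel (u : Vec d → ℝ) (a b : Vec d) (m : ℕ) (hm : 0 < m) :
    ENNReal.ofReal (u b - u a) ^ 2 ≤ ENNReal.ofReal m * ∑ j ∈ Finset.range m,
      ENNReal.ofReal (u (a + ((j + 1 : ℝ) / m) • (b - a)) - u (a + ((j : ℝ) / m) • (b - a))) ^ 2 := by
  set x : ℕ → ℝ := fun j =>
    u (a + ((j + 1 : ℝ) / m) • (b - a)) - u (a + ((j : ℝ) / m) • (b - a)) with hx
  have hm0 : (m : ℝ) ≠ 0 := by exact_mod_cast hm.ne'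
  have h1 : u b - u a = ∑ j ∈ Finset.range m, x j := by
    have h2 := Finset.sum_range_sub (fun j : ℕ => u (a + ((j : ℝ) / m) • (b - a))) m
    simp only [hx]
    push_cast at h2
    rw [h2, div_self hm0, one_smul, zero_div, zero_smul, add_zero, add_sub_cancel]
  have h3 : ∀ y : ℝ, ENNReal.ofReal y ^ 2 = ENNReal.ofReal (max y 0 ^ 2) := by
    intro y
    rw [ENNReal.ofReal_pow (le_max_right _ _)]
    congr 1
    rcases le_total y 0 with hy | hy
    · rw [max_eq_right hy, ENNReal.ofReal_zero, ENNReal.ofReal_of_nonpos hy]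
    · rw [max_eq_left hy]
  have h4 : max (∑ j ∈ Finset.range m, x j) 0 ≤ ∑ j ∈ Finset.range m, max (x j) 0 :=
    max_le (Finset.sum_le_sum fun j _ => le_max_left _ _)
      (Finset.sum_nonneg fun j _ => le_max_right _ _)
  have h5 : max (∑ j ∈ Finset.range m, x j) 0 ^ 2 ≤
      m * ∑ j ∈ Finset.range m, max (x j) 0 ^ 2 := by
    refine (pow_le_pow_left₀ (le_max_right _ _) h4 2).trans ?_
    have h6 := sq_sum_le_card_mul_sum_sq (s := Finset.range m) (f := fun j => max (x j) 0)
    rwa [Finset.card_range] at h6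
  rw [h1, h3]
  refine (ENNReal.ofReal_le_ofReal h5).trans (le_of_eq ?_)
  rw [ENNReal.ofReal_mul (Nat.cast_nonneg m), ENNReal.ofReal_sum_of_nonneg
    (fun j _ => sq_nonneg _)]
  congr 1
  refine Finset.sum_congr rfl fun j _ => ?_
  rw [← h3]

/-- the function transported by the substitution -/
private noncomputable def chnF (R r : ℝ) (u : Vec d → ℝ) (q : Vec d × Vec d) : ℝ≥0∞ :=
  (Metric.closedBall (0 : Vec d) R ×ˢ (univ : Set (Vec d)) ∩
    {q : Vec d × Vec d | len (q.2 - q.1) ≤ r}).indicator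
    (fun q => ENNReal.ofReal (u q.2 - u q.1) ^ 2) q

private lemma chn_set (R r : ℝ) : MeasurableSet
    (Metric.closedBall (0 : Vec d) R ×ˢ (univ : Set (Vec d)) ∩
      {q : Vec d × Vec d | len (q.2 - q.1) ≤ r}) := by
  refine (Metric.isClosed_closedBall.measurableSet.prod MeasurableSet.univ).inter ?_
  refine measurableSet_le ?_ measurable_const
  have : Continuous fun q : Vec d × Vec d => len (q.2 - q.1) := by
    unfold len nsq
    fun_prop
  exact this.measurable

private lemma chn_F_meas (R r : ℝ) {u : Vec d → ℝ} (hu : Measurable u) :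
    Measurable (chnF (d := d) R r u) := by
  unfold chnF
  refine Measurable.indicator ?_ (chn_set R r)
  exact ((hu.comp measurable_snd).sub (hu.comp measurable_fst)).ennreal_ofReal.pow_const 2

private lemma chn_F_int (R r : ℝ) (u : Vec d → ℝ) :
    ∫⁻ x, ∫⁻ y, chnF (d := d) R r u (x, y) =
      ∫⁻ a in Metric.closedBall (0 : Vec d) R, ∫⁻ b in {b : Vec d | len (b - a) ≤ r},
            ENNReal.ofReal (u b - u a) ^ 2 := by
  have hB : MeasurableSet (Metric.closedBall (0 : Vec d) R) :=
    Metric.isClosed_closedBall.measurableSet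
  rw [← lintegral_indicator hB]
  refine lintegral_congr fun a => ?_
  have hS : MeasurableSet {b : Vec d | len (b - a) ≤ r} := by
    refine measurableSet_le ?_ measurable_const
    have : Continuous fun b : Vec d => len (b - a) := by
      unfold len nsq
      fun_prop
    exact this.measurable
  by_cases ha : a ∈ Metric.closedBall (0 : Vec d) R
  · rw [indicator_of_mem ha, ← lintegral_indicator hS]
    refine lintegral_congr fun b => ?_
    unfold chnF
    by_cases hb : len (b - a) ≤ r
    · rw [indicator_of_mem (show b ∈ {b : Vec d | len (b - a) ≤ r} from hb), indicator_of_mem]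
      exact ⟨⟨ha, mem_univ _⟩, hb⟩
    · rw [indicator_of_notMem (show b ∉ {b : Vec d | len (b - a) ≤ r} from hb),
        indicator_of_notMem]
      exact fun h => hb h.2
  · rw [indicator_of_notMem ha]
    rw [lintegral_eq_zero_of_ae_eq_zero]
    refine Eventually.of_forall fun b => ?_
    exact indicator_of_notMem (fun h => ha h.1.1) _

theorem chain_poi {R r : ℝ} (hR : 0 < R) (hr : 0 < r) : ∃ A : ℝ, 0 ≤ A ∧
    ∀ u : Vec d → ℝ, Measurable u →
      ∫⁻ a in Metric.closedBall (0 : Vec d) R, ∫⁻ b in Metric.closedBall (0 : Vec d) R,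
        ENNReal.ofReal (u b - u a) ^ 2 ≤ ENNReal.ofReal A *
          ∫⁻ a in Metric.closedBall (0 : Vec d) R, ∫⁻ b in {b : Vec d | len (b - a) ≤ r},
            ENNReal.ofReal (u b - u a) ^ 2 := by
  obtain ⟨n, hn⟩ := exists_nat_ge (Real.sqrt d * (2 * R) / r)
  obtain ⟨m, hm⟩ : ∃ m : ℕ, m = n + 1 := ⟨_, rfl⟩
  have hm0 : 0 < m := by omega
  have hm1 : (0 : ℝ) < m := by exact_mod_cast hm0
  have hmr : Real.sqrt d * (2 * R) ≤ r * m := by
    rw [div_le_iff₀ hr] at hn
    have : (n : ℝ) ≤ m := by
      rw [hm]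
      push_cast
      linarith
    nlinarith
  refine ⟨(m : ℝ) * (m * (m : ℝ) ^ d), by positivity, fun u hu => ?_⟩
  set B := Metric.closedBall (0 : Vec d) R with hBdef
  have hB : MeasurableSet B := Metric.isClosed_closedBall.measurableSet
  set J := ∫⁻ a in B, ∫⁻ b in {b : Vec d | len (b - a) ≤ r}, ENNReal.ofReal (u b - u a) ^ 2
    with hJ
  set D : ℕ → Vec d × Vec d → ℝ≥0∞ := fun j q =>
    ENNReal.ofReal (u (q.1 + ((j + 1 : ℝ) / m) • (q.2 - q.1)) -
      u (q.1 + ((j : ℝ) / m) • (q.2 - q.1))) ^ 2 with hD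
  have hDm : ∀ j, Measurable (D j) := by
    intro j
    have h1 : ∀ c : ℝ, Measurable fun q : Vec d × Vec d => u (q.1 + c • (q.2 - q.1)) := by
      intro c
      exact hu.comp (measurable_fst.add ((measurable_snd.sub measurable_fst).const_smul c))
    exact ((h1 _).sub (h1 _)).ennreal_ofReal.pow_const 2
  have key : ∀ j ∈ Finset.range m, ∫⁻ a in B, ∫⁻ b in B, D j (a, b) ≤
      ENNReal.ofReal ((m : ℝ) ^ d) * J := by
    intro j hj
    have hj1 : (j : ℝ) + 1 ≤ m := by
      have := Finset.mem_range.1 hj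
      exact_mod_cast this
    have hj0 : (0 : ℝ) ≤ j := Nat.cast_nonneg j
    have hs0 : 0 ≤ (j : ℝ) / m := by positivity
    have ht0 : 0 < ((j : ℝ) + 1) / m := by positivity
    have hst : (j : ℝ) / m < ((j : ℝ) + 1) / m := by
      rw [div_lt_div_iff_of_pos_right hm1]
      linarith
    have hsub : ((j : ℝ) + 1) / m - (j : ℝ) / m = (m : ℝ)⁻¹ := by
      rw [← sub_div, add_sub_cancel_left, one_div]
    have hs1 : (j : ℝ) / m ≤ 1 := by
      rw [div_le_one hm1]
      linarith
    have e1 := chn_sub ht0 hst (chn_F_meas (d := d) R r hu)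
    rw [chn_F_int, hsub, inv_pow, inv_inv] at e1
    rw [hJ, hBdef, ← e1]
    calc ∫⁻ a in B, ∫⁻ b in B, D j (a, b)
        ≤ ∫⁻ a in B, ∫⁻ b in B, chnF R r u (a + ((j : ℝ) / m) • (b - a),
            a + (((j : ℝ) + 1) / m) • (b - a)) := by
          refine setLIntegral_mono' hB fun a ha => setLIntegral_mono' hB fun b hb => ?_
          have hab : len (b - a) ≤ Real.sqrt d * (2 * R) := by
            refine (chn_len _).trans (mul_le_mul_of_nonneg_left ?_ (Real.sqrt_nonneg _))
            rw [mem_closedBall_zero_iff] at ha hb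
            exact (norm_sub_le _ _).trans (by linarith)
          have hin : a + ((j : ℝ) / m) • (b - a) ∈ B := by
            have h := (convex_closedBall (0 : Vec d) R) ha hb (sub_nonneg.2 hs1) hs0
              (sub_add_cancel _ _)
            have e : (1 - (j : ℝ) / m) • a + ((j : ℝ) / m) • b =
                a + ((j : ℝ) / m) • (b - a) := by
              rw [sub_smul, one_smul, smul_sub]
              abel
            rwa [e] at h
          have hdf : a + (((j : ℝ) + 1) / m) • (b - a) - (a + ((j : ℝ) / m) • (b - a)) =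
              (m : ℝ)⁻¹ • (b - a) := by
            rw [add_sub_add_left_eq_sub, ← sub_smul, hsub]
          have hln : len (a + (((j : ℝ) + 1) / m) • (b - a) - (a + ((j : ℝ) / m) • (b - a))) ≤
              r := by
            rw [hdf, len_smul (inv_nonneg.2 hm1.le), inv_mul_le_iff₀ hm1]
            linarith
          unfold chnF
          rw [indicator_of_mem]
          exact ⟨⟨hin, mem_univ _⟩, hln⟩
      _ ≤ ∫⁻ a, ∫⁻ b in B, chnF R r u (a + ((j : ℝ) / m) • (b - a),
            a + (((j : ℝ) + 1) / m) • (b - a)) := setLIntegral_le_lintegral _ _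
      _ ≤ _ := lintegral_mono fun a => setLIntegral_le_lintegral _ _
  have hDj : ∀ j, Measurable fun a => ∫⁻ b in B, D j (a, b) := fun j =>
    (hDm j).lintegral_prod_right'
  calc ∫⁻ a in B, ∫⁻ b in B, ENNReal.ofReal (u b - u a) ^ 2
      ≤ ∫⁻ a in B, ∫⁻ b in B, ENNReal.ofReal m * ∑ j ∈ Finset.range m, D j (a, b) :=
        lintegral_mono fun a => lintegral_mono fun b => chn_tel u a b m hm0
    _ = ENNReal.ofReal m * ∑ j ∈ Finset.range m, ∫⁻ a in B, ∫⁻ b in B, D j (a, b) := by
        rw [← lintegral_finsetSum _ fun j _ => hDj j, ← lintegral_const_mul _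
          (Finset.measurable_sum _ fun j _ => hDj j)]
        refine lintegral_congr fun a => ?_
        have hDa : ∀ j, Measurable fun b => D j (a, b) := fun j =>
          (hDm j).comp measurable_prodMk_left
        rw [← lintegral_finsetSum _ fun j _ => hDa j,
          ← lintegral_const_mul _ (Finset.measurable_sum _ fun j _ => hDa j)]
    _ ≤ ENNReal.ofReal m * ∑ _j ∈ Finset.range m, ENNReal.ofReal ((m : ℝ) ^ d) * J :=
        mul_le_mul_right (Finset.sum_le_sum key) _
    _ = ENNReal.ofReal (m * (m * (m : ℝ) ^ d)) * J := by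
        rw [Finset.sum_const, Finset.card_range, nsmul_eq_mul, ENNReal.ofReal_mul hm1.le,
          ENNReal.ofReal_mul hm1.le, ENNReal.ofReal_natCast]
        ring

end Pool.Agent.H15.AV
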