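import Pool.Agent.H15.AVB.Kt
import Pool.Agent.H82.BK.Coll

/-!
# The cancellation inequality

MODULE Canc. Both sides are finite (`int_src`, `int_los`), convert to `lintegral` and use Fubini; for
fixed `v`: `∫∫ kt g(w) ≤ ∫∫ kt g(w')`. By `coll_cv` with `β = bt b ε`, `Φ z _ = ofReal (g z)`, the right side
is `∫_m ∫_{m·σ>0} |m|^γ Kn(co) g(v-m)`; the left side is (`m = v - w`) `∫_m |m|^γ g(v-m) BB b ε (dir m)`, and
`BB b ε (dir m) = ∫ Kn(co) co^(d+γ) ≤ ∫ Kn(co)` by `BB_eq` (`0 < co ≤ 1`, `d + γ ≥ 0`, `Kn ≥ 0`).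
-/

set_option autoImplicit false

open MeasureTheory Set Filter Topology Pool.Agent.H25.Kin
open Pool.Agent.H82.BK (bt bcut Kn hh co BB dir)

namespace Pool.Agent.H15.AV

open scoped ENNReal

variable {d : ℕ} {γ s Cb Ca ε : ℝ} {b : ℝ → ℝ}

private theorem Canc_ang (H : Hyp d γ s b Cb Ca) (hε : 0 < ε) {m : Vec d} (hm : m ≠ 0) :
    BB b ε (dir m) ≤ ∫⁻ σ in {σ : Vec d | 0 < dot m σ}, ENNReal.ofReal
      (Kn d γ (bt b ε) (co m σ)) ∂(surf d) := by
  rw [← Pool.Agent.H82.BK.BB_eq H.hd γ H.bm ε hm]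
  refine lintegral_mono_ae ?_
  filter_upwards [ae_restrict_mem (Pool.Agent.H82.BK.measurableSet_half m),
    ae_restrict_of_ae surf_ae] with σ h1 hσ
  have h2 : 0 < co m σ := by
    unfold co
    exact div_pos h1 (len_pos hm)
  have h3 : co m σ ≤ 1 := by
    rw [Pool.Agent.H82.BK.co_eq]
    exact (abs_le.1 (dot_le_one (Pool.Agent.H82.BK.nsq_dir hm) hσ)).2
  have h4 : 0 ≤ Kn d γ (bt b ε) (co m σ) := by
    unfold Kn
    have h5 := Pool.Agent.H82.BK.bt_nonneg (b := b) H.bd hε (x := 2 * co m σ ^ 2 - 1)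
      (by nlinarith) (by nlinarith)
    have h6 := Real.rpow_nonneg h2.le (-2 - γ)
    positivity
  have h7 : co m σ ^ ((d : ℝ) + γ) ≤ 1 := by
    have h8 : (2 : ℝ) ≤ d := by exact_mod_cast H.hd
    have h9 := H.g1
    exact Real.rpow_le_one h2.le h3 (by linarith)
  exact ENNReal.ofReal_le_ofReal (mul_le_of_le_one_right h4 h7)

private theorem Canc_meas (hb : Measurable b) (m : Vec d) :
    Measurable fun σ : Vec d => ENNReal.ofReal (Kn d γ (bt b ε) (co m σ)) := by
  have h1 : Measurable fun σ : Vec d => co m σ := by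
    unfold co
    exact (dot_cont m).measurable.div_const _
  have h2 : Measurable fun c : ℝ => Kn d γ (bt b ε) c := by
    unfold Kn
    exact ((measurable_id.pow_const _).const_mul _).mul
      ((Pool.Agent.H82.BK.measurable_bt hb ε).comp (((measurable_id.pow_const 2).const_mul 2).sub_const 1))
  exact (h2.comp h1).ennreal_ofReal

private theorem Canc_v (H : Hyp d γ s b Cb Ca) (hε : 0 < ε) {G : Vec d → ℝ≥0∞}
    (hG : Measurable G) (v : Vec d) :
    ∫⁻ w, ∫⁻ σ, ENNReal.ofReal (len (v - w) ^ γ * bt b ε (cosTh v w σ)) * G w ∂(surf d) ≤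
      ∫⁻ w, ∫⁻ σ, ENNReal.ofReal (len (v - w) ^ γ * bt b ε (cosTh v w σ)) *
        G (post' v w σ) ∂(surf d) := by
  have hbt := Pool.Agent.H82.BK.measurable_bt H.bm ε
  have hcv := Pool.Agent.H82.BK.coll_cv H.hd γ hbt (Φ := fun a _ => G a)
    (hG.comp measurable_fst) v
  rw [hcv, ← lintegral_sub_left_eq_self _ v]
  have hne : Nonempty (Fin d) := ⟨⟨0, by have := H.hd1; omega⟩⟩
  have h0 : ∀ᵐ m : Vec d ∂volume, m ∉ ({0} : Set (Vec d)) :=
    (Set.countable_singleton 0).ae_notMem volume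
  refine lintegral_mono_ae ?_
  filter_upwards [h0] with m hm0
  have hm : m ≠ 0 := fun h => hm0 h
  have hl := Real.rpow_nonneg (len_nonneg m) γ
  have e1 : ∀ σ, cosTh v (v - m) σ = dot (dir m) σ := fun σ => by
    rw [cosTh_eq]
    unfold dirk dir
    rw [sub_sub_cancel]
  have hm1 : Measurable fun σ : Vec d => ENNReal.ofReal (bt b ε (dot (dir m) σ)) :=
    (hbt.comp (dot_cont (dir m)).measurable).ennreal_ofReal
  calc ∫⁻ σ, ENNReal.ofReal (len (v - (v - m)) ^ γ * bt b ε (cosTh v (v - m) σ)) * G (v - m)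
        ∂(surf d) = (ENNReal.ofReal (len m ^ γ) * G (v - m)) * BB b ε (dir m) := by
        unfold BB
        rw [← lintegral_const_mul _ hm1]
        refine lintegral_congr fun σ => ?_
        rw [e1, sub_sub_cancel, ENNReal.ofReal_mul hl]
        ring
    _ ≤ (ENNReal.ofReal (len m ^ γ) * G (v - m)) * ∫⁻ σ in {σ : Vec d | 0 < dot m σ},
        ENNReal.ofReal (Kn d γ (bt b ε) (co m σ)) ∂(surf d) := by
        gcongr
        exact Canc_ang H hε hm
    _ = _ := by
        rw [← lintegral_const_mul _ (Canc_meas H.bm m)]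
        refine lintegral_congr fun σ => ?_
        rw [ENNReal.ofReal_mul hl]
        ring

theorem canc (H : Hyp d γ s b Cb Ca) (hε : 0 < ε) {g : Vec d → ℝ} (hg : RD g)
    (hgc : Continuous g) (hg0 : ∀ v, 0 ≤ g v) {R K : ℝ} {P : Vec d → ℝ} (hP : BTst R K P)
    (hP0 : ∀ v, 0 ≤ P v) :
    ∫ p, kt γ b ε p * (g p.2.1 * P p.1) ∂(mu3 d) ≤
      ∫ p, kt γ b ε p * (g (wp p) * P p.1) ∂(mu3 d) := by
  have hgm := hgc.measurable
  have hIL := int_los H hε hg hgm (F := fun p => P p.1) (hP.meas.comp measurable_fst)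
    (A := K) (R := R) (fun p => hP.le _) (fun p hp => hP.supp _ hp)
  have hIR := int_src H hε hg hgm (F := fun p => P p.1) (hP.meas.comp measurable_fst)
    (A := K) (R := R) (fun p => hP.le _) (fun p hp => hP.supp _ hp)
  have nL : 0 ≤ᵐ[mu3 d] fun p => kt γ b ε p * (g p.2.1 * P p.1) := by
    filter_upwards [ae_good H.hd1] with p hp
    exact mul_nonneg (kt_nonneg H hε hp.2) (mul_nonneg (hg0 _) (hP0 _))
  have nR : 0 ≤ᵐ[mu3 d] fun p => kt γ b ε p * (g (wp p) * P p.1) := by
    filter_upwards [ae_good H.hd1] with p hp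
    exact mul_nonneg (kt_nonneg H hε hp.2) (mul_nonneg (hg0 _) (hP0 _))
  rw [integral_eq_lintegral_of_nonneg_ae nL hIL.1, integral_eq_lintegral_of_nonneg_ae nR hIR.1]
  refine ENNReal.toReal_mono ((hasFiniteIntegral_iff_ofReal nR).1 hIR.2).ne ?_
  have mL : Measurable fun p : Vec d × Vec d × Vec d =>
      ENNReal.ofReal (kt γ b ε p * (g p.2.1 * P p.1)) :=
    ((kt_meas H.bm).mul ((hgm.comp (measurable_fst.comp measurable_snd)).mul
      (hP.meas.comp measurable_fst))).ennreal_ofReal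
  have mR : Measurable fun p : Vec d × Vec d × Vec d =>
      ENNReal.ofReal (kt γ b ε p * (g (wp p) * P p.1)) :=
    ((kt_meas H.bm).mul ((hgm.comp measurable_wp).mul
      (hP.meas.comp measurable_fst))).ennreal_ofReal
  rw [lintegral_prod _ mL.aemeasurable, lintegral_prod _ mR.aemeasurable]
  refine lintegral_mono fun v => ?_
  have mL' : Measurable fun y : Vec d × Vec d =>
      ENNReal.ofReal (kt γ b ε (v, y) * (g (v, y).2.1 * P (v, y).1)) :=
    mL.comp measurable_prodMk_left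
  have mR' : Measurable fun y : Vec d × Vec d =>
      ENNReal.ofReal (kt γ b ε (v, y) * (g (wp (v, y)) * P (v, y).1)) :=
    mR.comp measurable_prodMk_left
  rw [lintegral_prod _ mL'.aemeasurable, lintegral_prod _ mR'.aemeasurable]
  have key := Canc_v H hε (G := fun u => ENNReal.ofReal (g u * P v))
    (hgm.mul_const _).ennreal_ofReal v
  refine (le_of_eq ?_).trans (key.trans (le_of_eq ?_))
  · refine lintegral_congr fun w => lintegral_congr fun σ => ?_
    exact ENNReal.ofReal_mul' (mul_nonneg (hg0 _) (hP0 _))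
  · refine lintegral_congr fun w => lintegral_congr fun σ => ?_
    exact (ENNReal.ofReal_mul' (mul_nonneg (hg0 _) (hP0 _))).symm

end Pool.Agent.H15.AV
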