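import Pool.Agent.H15.AVB.Fold
import Pool.Agent.H15.AVB.Canc

/-!
# The renormalized weak form

MODULE Cvx. `kd_conv`: `exp (uf a - uf b) = (1+a)(δ+b)/((δ+a)(1+b))`, `kd δ a = (1-δ)/((δ+a)(1+a))`, so the
claim is `(1-δ)(b-a)/((δ+a)(1+b)) ≤ (1-δ)(b-a)/((δ+a)(1+a))`.
`cut_split`: `cut_fold` with `P := P * kd δ ∘ g` (bounded: `kd_le`), then
`kd(g) (g'_* g' - g_* g) = exc + u(v) g(w) - u(v') g(w')` pointwise and `kt_swap`:
`∫ kt P(v) u(v') g(w') = ∫ kt P(v') u(v) g(w)`.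
`Nf_ge`: `kd_conv` for the first term of `exc`; the second term is `≥ 0` by `canc` with
`P (kd g + u)`, which is nonnegative and bounded (`mul_kd_le`, `uf_le_lam`).
-/

set_option autoImplicit false

open MeasureTheory Set Filter Topology Pool.Agent.H25.Kin
open Pool.Agent.H82.BK (bt bcut Kn hh co BB dir)

namespace Pool.Agent.H15.AV

variable {d : ℕ} {γ s Cb Ca ε δ : ℝ} {b : ℝ → ℝ}

theorem kd_conv (h0 : 0 < δ) (h1 : δ ≤ 1) {x y : ℝ} (hx : 0 ≤ x) (hy : 0 ≤ y) :
    Real.exp (uf δ x - uf δ y) - 1 ≤ kd δ x * (y - x) := by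
  have hA : 0 < δ + x := by linarith
  have hB : 0 < 1 + x := by linarith
  have hC : 0 < δ + y := by linarith
  have hD : 0 < 1 + y := by linarith
  have h2 : Real.exp (uf δ x - uf δ y) = (1 + x) * (δ + y) / ((δ + x) * (1 + y)) := by
    have h3 : uf δ x - uf δ y = Real.log ((1 + x) * (δ + y) / ((δ + x) * (1 + y))) := by
      rw [Real.log_div (by positivity) (by positivity), Real.log_mul hB.ne' hC.ne',
        Real.log_mul hA.ne' hD.ne']
      unfold uf
      ring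
    rw [h3, Real.exp_log (by positivity)]
  rw [h2]
  unfold kd
  have h4 : ((δ + x)⁻¹ - (1 + x)⁻¹) * (y - x) -
      ((1 + x) * (δ + y) / ((δ + x) * (1 + y)) - 1) =
      (1 - δ) * (y - x) ^ 2 / ((δ + x) * (1 + x) * (1 + y)) := by
    field_simp
    ring
  have h5 : 0 ≤ (1 - δ) * (y - x) ^ 2 / ((δ + x) * (1 + x) * (1 + y)) :=
    div_nonneg (mul_nonneg (by linarith) (sq_nonneg _)) (by positivity)
  linarith

private lemma cx_K {R K : ℝ} {P : Vec d → ℝ} (hP : BTst R K P) : 0 ≤ K :=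
  (abs_nonneg _).trans (hP.le 0)

private lemma cx_sup {g : Vec d → ℝ} (hg : RD g) : ∃ B : ℝ, 0 ≤ B ∧ ∀ v, |g v| ≤ B := by
  obtain ⟨C, hC⟩ := hg 0
  refine ⟨C, ?_, fun v => ?_⟩
  · have := hC 0
    rw [pow_zero, one_mul] at this
    exact (norm_nonneg _).trans this
  · have := hC v
    rwa [pow_zero, one_mul, Real.norm_eq_abs] at this

/-- a bounded measurable factor -/
private lemma cx_mul {R K A : ℝ} {P Q : Vec d → ℝ} (hP : BTst R K P) (hQ : Measurable Q)
    (hA : ∀ v, |Q v| ≤ A) : BTst R (K * A) fun v => P v * Q v :=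
  ⟨hP.meas.mul hQ, fun v hv => by rw [hP.supp v hv, zero_mul], fun v => by
    rw [abs_mul]
    exact mul_le_mul (hP.le v) (hA v) (abs_nonneg _) (cx_K hP)⟩

private lemma cx_mk {g : Vec d → ℝ} (hgc : Continuous g) : Measurable fun v => kd δ (g v) :=
  (measurable_kd δ).comp hgc.measurable

private lemma cx_mu {g : Vec d → ℝ} (hgc : Continuous g) : Measurable fun v => uf δ (g v) :=
  (measurable_uf δ).comp hgc.measurable

private lemma cx_kd {x : ℝ} (h0 : 0 < δ) (h1 : δ ≤ 1) (hx : 0 ≤ x) : |kd δ x| ≤ 1 / δ := by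
  rw [abs_of_nonneg (kd_nonneg h0 h1 hx)]
  exact kd_le h0 h1 hx

private lemma cx_uf {x : ℝ} (h0 : 0 < δ) (h1 : δ ≤ 1) (hx : 0 ≤ x) : |uf δ x| ≤ lam δ := by
  rw [abs_of_nonneg (uf_nonneg h0 h1 hx)]
  exact uf_le_lam h0 h1 hx

/-- the source part of `P exc` -/
private noncomputable def cxF (δ : ℝ) (g P : Vec d → ℝ) (p : Vec d × Vec d × Vec d) : ℝ :=
  P p.1 * (kd δ (g p.1) * g (vp p) + uf δ (g (vp p)))

/-- the loss part of `P exc` -/
private noncomputable def cxG (δ : ℝ) (g P : Vec d → ℝ) (p : Vec d × Vec d × Vec d) : ℝ :=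
  P p.1 * (kd δ (g p.1) * g p.1 + uf δ (g p.1))

private lemma cx_F_int (H : Hyp d γ s b Cb Ca) (hε : 0 < ε) (h0 : 0 < δ) (h1 : δ ≤ 1)
    {g : Vec d → ℝ} (hg : RD g) (hgc : Continuous g) (hg0 : ∀ v, 0 ≤ g v) {R K : ℝ}
    {P : Vec d → ℝ} (hP : BTst R K P) :
    Integrable (fun p => kt γ b ε p * (g (wp p) * cxF δ g P p)) (mu3 d) := by
  obtain ⟨B, hB0, hB⟩ := cx_sup hg
  refine int_src H hε hg hgc.measurable (R := R) (A := K * (1 / δ * B + lam δ)) ?_ ?_ ?_
  · have m1 : Measurable fun p : Vec d × Vec d × Vec d => P p.1 := hP.meas.comp measurable_fst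
    have m2 : Measurable fun p : Vec d × Vec d × Vec d => kd δ (g p.1) :=
      (cx_mk hgc).comp measurable_fst
    have m3 : Measurable fun p : Vec d × Vec d × Vec d => g (vp p) :=
      hgc.measurable.comp measurable_vp
    have m4 : Measurable fun p : Vec d × Vec d × Vec d => uf δ (g (vp p)) :=
      (cx_mu hgc).comp measurable_vp
    exact m1.mul ((m2.mul m3).add m4)
  · intro p
    unfold cxF
    rw [abs_mul]
    refine mul_le_mul (hP.le _) ?_ (abs_nonneg _) (cx_K hP)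
    refine (abs_add_le _ _).trans (add_le_add ?_ (cx_uf h0 h1 (hg0 _)))
    rw [abs_mul]
    exact mul_le_mul (cx_kd h0 h1 (hg0 _)) (hB _) (abs_nonneg _) (by positivity)
  · intro p hp
    unfold cxF
    rw [hP.supp _ hp, zero_mul]

private lemma cx_G_int (H : Hyp d γ s b Cb Ca) (hε : 0 < ε) (h0 : 0 < δ) (h1 : δ ≤ 1)
    {g : Vec d → ℝ} (hg : RD g) (hgc : Continuous g) (hg0 : ∀ v, 0 ≤ g v) {R K : ℝ}
    {P : Vec d → ℝ} (hP : BTst R K P) :
    Integrable (fun p => kt γ b ε p * (g p.2.1 * cxG δ g P p)) (mu3 d) := by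
  obtain ⟨B, hB0, hB⟩ := cx_sup hg
  refine int_los H hε hg hgc.measurable (R := R) (A := K * (1 / δ * B + lam δ)) ?_ ?_ ?_
  · have m1 : Measurable fun p : Vec d × Vec d × Vec d => P p.1 := hP.meas.comp measurable_fst
    have m2 : Measurable fun p : Vec d × Vec d × Vec d => kd δ (g p.1) :=
      (cx_mk hgc).comp measurable_fst
    have m3 : Measurable fun p : Vec d × Vec d × Vec d => g p.1 :=
      hgc.measurable.comp measurable_fst
    have m4 : Measurable fun p : Vec d × Vec d × Vec d => uf δ (g p.1) :=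
      (cx_mu hgc).comp measurable_fst
    exact m1.mul ((m2.mul m3).add m4)
  · intro p
    unfold cxG
    rw [abs_mul]
    refine mul_le_mul (hP.le _) ?_ (abs_nonneg _) (cx_K hP)
    refine (abs_add_le _ _).trans (add_le_add ?_ (cx_uf h0 h1 (hg0 _)))
    rw [abs_mul]
    exact mul_le_mul (cx_kd h0 h1 (hg0 _)) (hB _) (abs_nonneg _) (by positivity)
  · intro p hp
    unfold cxG
    rw [hP.supp _ hp, zero_mul]

private lemma cx_exc (g P : Vec d → ℝ) (p : Vec d × Vec d × Vec d) :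
    kt γ b ε p * (P p.1 * exc δ g p) =
      kt γ b ε p * (g (wp p) * cxF δ g P p) - kt γ b ε p * (g p.2.1 * cxG δ g P p) := by
  unfold exc cxF cxG
  ring

private lemma cx_Nint (H : Hyp d γ s b Cb Ca) (hε : 0 < ε) (h0 : 0 < δ) (h1 : δ ≤ 1)
    {g : Vec d → ℝ} (hg : RD g) (hgc : Continuous g) (hg0 : ∀ v, 0 ≤ g v) {R K : ℝ}
    {P : Vec d → ℝ} (hP : BTst R K P) :
    Integrable (fun p => kt γ b ε p * (P p.1 * exc δ g p)) (mu3 d) := by
  have h := (cx_F_int (δ := δ) H hε h0 h1 hg hgc hg0 hP).sub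
    (cx_G_int (δ := δ) H hε h0 h1 hg hgc hg0 hP)
  refine h.congr (Eventually.of_forall fun p => ?_)
  exact (cx_exc g P p).symm

theorem cut_split (H : Hyp d γ s b Cb Ca) (hε : 0 < ε) (h0 : 0 < δ) (h1 : δ ≤ 1) {g : Vec d → ℝ}
    (hg : RD g) (hgc : Continuous g) (hg0 : ∀ v, 0 ≤ g v) {R K : ℝ} {P : Vec d → ℝ}
    (hP : BTst R K P) :
    ∫ v, boltzCut γ b ε g v * (P v * kd δ (g v)) = Nf γ b ε δ g P + Lf γ b ε δ g P := by
  have hP2 : BTst R (K * (1 / δ)) fun v => P v * kd δ (g v) :=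
    cx_mul hP (cx_mk hgc) fun v => cx_kd h0 h1 (hg0 v)
  have e1 := cut_fold H hε hg hgc hP2
  have hd1 : 1 ≤ d := H.hd1
  -- the two linear terms
  have i1 : Integrable (fun p : Vec d × Vec d × Vec d =>
      kt γ b ε p * (g p.2.1 * (P p.1 * uf δ (g p.1)))) (mu3 d) := by
    refine int_los H hε hg hgc.measurable (R := R) (A := K * lam δ) ?_ ?_ ?_
    · exact (hP.meas.comp measurable_fst).mul ((cx_mu hgc).comp measurable_fst)
    · intro p
      rw [abs_mul]
      exact mul_le_mul (hP.le _) (cx_uf h0 h1 (hg0 _)) (abs_nonneg _) (cx_K hP)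
    · intro p hp
      rw [hP.supp _ hp, zero_mul]
  have i2 : Integrable (fun p : Vec d × Vec d × Vec d =>
      kt γ b ε p * (g (wp p) * (P p.1 * uf δ (g (vp p))))) (mu3 d) := by
    refine int_src H hε hg hgc.measurable (R := R) (A := K * lam δ) ?_ ?_ ?_
    · exact (hP.meas.comp measurable_fst).mul ((cx_mu hgc).comp measurable_vp)
    · intro p
      rw [abs_mul]
      exact mul_le_mul (hP.le _) (cx_uf h0 h1 (hg0 _)) (abs_nonneg _) (cx_K hP)
    · intro p hp
      rw [hP.supp _ hp, zero_mul]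
  have i3 : Integrable (fun p : Vec d × Vec d × Vec d =>
      kt γ b ε p * (g p.2.1 * (uf δ (g p.1) * P (vp p)))) (mu3 d) :=
    int_swp H hε hg hgc.measurable (cx_mu hgc) (fun v => cx_uf h0 h1 (hg0 v)) hP
  have sw : ∫ p, kt γ b ε p * (g (wp p) * (P p.1 * uf δ (g (vp p)))) ∂(mu3 d) =
      ∫ p, kt γ b ε p * (g p.2.1 * (uf δ (g p.1) * P (vp p))) ∂(mu3 d) := by
    have hF : Measurable fun q : Vec d × Vec d × Vec d × Vec d =>
        (fun v w v' w' : Vec d => g w * (uf δ (g v) * P v')) q.1 q.2.1 q.2.2.1 q.2.2.2 := by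
      have m1 : Measurable fun q : Vec d × Vec d × Vec d × Vec d => g q.2.1 :=
        hgc.measurable.comp (measurable_fst.comp measurable_snd)
      have m2 : Measurable fun q : Vec d × Vec d × Vec d × Vec d => uf δ (g q.1) :=
        (cx_mu hgc).comp measurable_fst
      have m3 : Measurable fun q : Vec d × Vec d × Vec d × Vec d => P q.2.2.1 :=
        hP.meas.comp (measurable_fst.comp (measurable_snd.comp measurable_snd))
      exact m1.mul (m2.mul m3)
    have h := kt_swap (γ := γ) (b := b) (ε := ε) hd1 H.bm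
      (F := fun v w v' w' : Vec d => g w * (uf δ (g v) * P v')) hF
    rw [← h]
    refine integral_congr_ae (Eventually.of_forall fun p => ?_)
    simp only
    ring
  have iN := cx_Nint (δ := δ) H hε h0 h1 hg hgc hg0 hP
  have e2 : ∫ p, kt γ b ε p * ((P p.1 * kd δ (g p.1)) *
      (g (wp p) * g (vp p) - g p.2.1 * g p.1)) ∂(mu3 d) =
      Nf γ b ε δ g P + (∫ p, kt γ b ε p * (g p.2.1 * (P p.1 * uf δ (g p.1))) ∂(mu3 d) -
        ∫ p, kt γ b ε p * (g (wp p) * (P p.1 * uf δ (g (vp p)))) ∂(mu3 d)) := by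
    have i12 : Integrable (fun p : Vec d × Vec d × Vec d =>
        kt γ b ε p * (g p.2.1 * (P p.1 * uf δ (g p.1))) -
          kt γ b ε p * (g (wp p) * (P p.1 * uf δ (g (vp p))))) (mu3 d) := i1.sub i2
    rw [Nf, ← integral_sub i1 i2, ← integral_add iN i12]
    refine integral_congr_ae (Eventually.of_forall fun p => ?_)
    simp only [exc]
    ring
  have e3 : Lf γ b ε δ g P = ∫ p, kt γ b ε p * (g p.2.1 * (P p.1 * uf δ (g p.1))) ∂(mu3 d) -
      ∫ p, kt γ b ε p * (g p.2.1 * (uf δ (g p.1) * P (vp p))) ∂(mu3 d) := by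
    rw [Lf, ← integral_sub i1 i3]
    refine integral_congr_ae (Eventually.of_forall fun p => ?_)
    simp only
    ring
  rw [e3, ← sw, ← e2]
  exact e1

theorem Nf_ge (H : Hyp d γ s b Cb Ca) (hε : 0 < ε) (h0 : 0 < δ) (h1 : δ ≤ 1) {g : Vec d → ℝ}
    (hg : RD g) (hgc : Continuous g) (hg0 : ∀ v, 0 ≤ g v) {R K : ℝ} {P : Vec d → ℝ}
    (hP : BTst R K P) (hP0 : ∀ v, 0 ≤ P v) :
    Integrable (fun p => kt γ b ε p * (g (wp p) * (P p.1 *
      (Real.exp (uf δ (g p.1) - uf δ (g (vp p))) - 1 - (uf δ (g p.1) - uf δ (g (vp p))))))) (mu3 d) ∧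
    ∫ p, kt γ b ε p * (g (wp p) * (P p.1 *
      (Real.exp (uf δ (g p.1) - uf δ (g (vp p))) - 1 - (uf δ (g p.1) - uf δ (g (vp p))))))
        ∂(mu3 d) ≤ Nf γ b ε δ g P := by
  have hl : 0 ≤ lam δ := (abs_nonneg _).trans (cx_uf h0 h1 (hg0 0))
  have iE : Integrable (fun p : Vec d × Vec d × Vec d => kt γ b ε p * (g (wp p) * (P p.1 *
      (Real.exp (uf δ (g p.1) - uf δ (g (vp p))) - 1 - (uf δ (g p.1) - uf δ (g (vp p)))))))
      (mu3 d) := by
    refine int_src H hε hg hgc.measurable (R := R)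
      (A := K * (Real.exp (lam δ) + 1 + lam δ)) ?_ ?_ ?_
    · have m4 : Measurable fun p : Vec d × Vec d × Vec d => uf δ (g (vp p)) :=
        (cx_mu hgc).comp measurable_vp
      have m3 : Measurable fun p : Vec d × Vec d × Vec d => uf δ (g p.1) :=
        (cx_mu hgc).comp measurable_fst
      exact (hP.meas.comp measurable_fst).mul
        (((Real.measurable_exp.comp (m3.sub m4)).sub measurable_const).sub (m3.sub m4))
    · intro p
      rw [abs_mul]
      refine mul_le_mul (hP.le _) ?_ (abs_nonneg _) (cx_K hP)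
      have a1 := uf_nonneg h0 h1 (hg0 p.1)
      have a2 := uf_le_lam h0 h1 (hg0 p.1)
      have a3 := uf_nonneg h0 h1 (hg0 (vp p))
      have a4 := uf_le_lam h0 h1 (hg0 (vp p))
      have a5 : Real.exp (uf δ (g p.1) - uf δ (g (vp p))) ≤ Real.exp (lam δ) :=
        Real.exp_le_exp.2 (by linarith)
      have a6 := Real.exp_pos (uf δ (g p.1) - uf δ (g (vp p)))
      have a7 := Real.exp_pos (lam δ)
      rw [abs_le]
      constructor <;> linarith
    · intro p hp
      rw [hP.supp _ hp, zero_mul]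
  refine ⟨iE, ?_⟩
  -- the cancellation part
  have hQ : BTst R (K * (1 + lam δ)) fun v => P v * (g v * kd δ (g v) + uf δ (g v)) := by
    refine cx_mul hP ((hgc.measurable.mul (cx_mk hgc)).add (cx_mu hgc)) fun v => ?_
    have a1 := mul_kd_le h0 h1 (hg0 v)
    have a2 := mul_nonneg (hg0 v) (kd_nonneg h0 h1 (hg0 v))
    have a3 := uf_nonneg h0 h1 (hg0 v)
    have a4 := uf_le_lam h0 h1 (hg0 v)
    rw [abs_of_nonneg (by linarith)]
    linarith
  have hQ0 : ∀ v, 0 ≤ P v * (g v * kd δ (g v) + uf δ (g v)) := fun v =>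
    mul_nonneg (hP0 v) (add_nonneg (mul_nonneg (hg0 v) (kd_nonneg h0 h1 (hg0 v)))
      (uf_nonneg h0 h1 (hg0 v)))
  have hc := canc H hε hg hgc hg0 hQ hQ0
  have j1 : Integrable (fun p : Vec d × Vec d × Vec d =>
      kt γ b ε p * (g p.2.1 * (P p.1 * (g p.1 * kd δ (g p.1) + uf δ (g p.1))))) (mu3 d) :=
    int_los H hε hg hgc.measurable (R := R) (A := K * (1 + lam δ))
      (hQ.meas.comp measurable_fst) (fun p => hQ.le _) (fun p hp => hQ.supp _ hp)
  have j2 : Integrable (fun p : Vec d × Vec d × Vec d =>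
      kt γ b ε p * (g (wp p) * (P p.1 * (g p.1 * kd δ (g p.1) + uf δ (g p.1))))) (mu3 d) :=
    int_src H hε hg hgc.measurable (R := R) (A := K * (1 + lam δ))
      (hQ.meas.comp measurable_fst) (fun p => hQ.le _) (fun p hp => hQ.supp _ hp)
  have iN := cx_Nint (δ := δ) H hε h0 h1 hg hgc hg0 hP
  have hmain : ∫ p, kt γ b ε p * (g (wp p) * (P p.1 *
      (Real.exp (uf δ (g p.1) - uf δ (g (vp p))) - 1 - (uf δ (g p.1) - uf δ (g (vp p))))))
        ∂(mu3 d) ≤ Nf γ b ε δ g P -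
        (∫ p, kt γ b ε p * (g (wp p) * (P p.1 * (g p.1 * kd δ (g p.1) + uf δ (g p.1)))) ∂(mu3 d) -
        ∫ p, kt γ b ε p * (g p.2.1 * (P p.1 * (g p.1 * kd δ (g p.1) + uf δ (g p.1))))
          ∂(mu3 d)) := by
    have j21 : Integrable (fun p : Vec d × Vec d × Vec d =>
        kt γ b ε p * (g (wp p) * (P p.1 * (g p.1 * kd δ (g p.1) + uf δ (g p.1)))) -
          kt γ b ε p * (g p.2.1 * (P p.1 * (g p.1 * kd δ (g p.1) + uf δ (g p.1)))))
        (mu3 d) := j2.sub j1
    rw [Nf, ← integral_sub j2 j1, ← integral_sub iN j21]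
    refine integral_mono_ae iE (iN.sub j21) ?_
    filter_upwards [ae_good (d := d) H.hd1] with p hp
    have hk := kt_nonneg (γ := γ) H hε hp.2
    have hcv := kd_conv h0 h1 (hg0 p.1) (hg0 (vp p))
    have h3 : 0 ≤ kt γ b ε p * (g (wp p) * (P p.1 *
        (kd δ (g p.1) * (g (vp p) - g p.1) -
          (Real.exp (uf δ (g p.1) - uf δ (g (vp p))) - 1)))) :=
      mul_nonneg hk (mul_nonneg (hg0 _) (mul_nonneg (hP0 _) (by linarith)))
    simp only [exc]
    have e : kt γ b ε p * (P p.1 *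
        (g (wp p) * (kd δ (g p.1) * (g (vp p) - g p.1) - (uf δ (g p.1) - uf δ (g (vp p)))) +
          (kd δ (g p.1) * g p.1 + uf δ (g p.1)) * (g (wp p) - g p.2.1))) -
        (kt γ b ε p * (g (wp p) * (P p.1 * (g p.1 * kd δ (g p.1) + uf δ (g p.1)))) -
          kt γ b ε p * (g p.2.1 * (P p.1 * (g p.1 * kd δ (g p.1) + uf δ (g p.1))))) =
        kt γ b ε p * (g (wp p) * (P p.1 *
          (Real.exp (uf δ (g p.1) - uf δ (g (vp p))) - 1 -
            (uf δ (g p.1) - uf δ (g (vp p)))))) +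
        kt γ b ε p * (g (wp p) * (P p.1 *
        (kd δ (g p.1) * (g (vp p) - g p.1) -
          (Real.exp (uf δ (g p.1) - uf δ (g (vp p))) - 1)))) := by
      ring
    rw [e]
    linarith
  linarith

private lemma cx_N0 (H : Hyp d γ s b Cb Ca) (hε : 0 < ε) (h0 : 0 < δ) (h1 : δ ≤ 1)
    {g : Vec d → ℝ} (hg : RD g) (hgc : Continuous g) (hg0 : ∀ v, 0 ≤ g v) {R K : ℝ}
    {P : Vec d → ℝ} (hP : BTst R K P) (hP0 : ∀ v, 0 ≤ P v) : 0 ≤ Nf γ b ε δ g P := by
  refine le_trans (integral_nonneg_of_ae ?_) (Nf_ge H hε h0 h1 hg hgc hg0 hP hP0).2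
  filter_upwards [ae_good (d := d) H.hd1] with p hp
  have hk := kt_nonneg (γ := γ) H hε hp.2
  have h3 := Real.add_one_le_exp (uf δ (g p.1) - uf δ (g (vp p)))
  exact mul_nonneg hk (mul_nonneg (hg0 _) (mul_nonneg (hP0 _) (by linarith)))

/-- `N` is a positive functional -/
theorem Nf_abs_le (H : Hyp d γ s b Cb Ca) (hε : 0 < ε) (h0 : 0 < δ) (h1 : δ ≤ 1) {g : Vec d → ℝ}
    (hg : RD g) (hgc : Continuous g) (hg0 : ∀ v, 0 ≤ g v) {R K R' K' : ℝ} {P P' : Vec d → ℝ}
    (hP : BTst R K P) (hP' : BTst R' K' P') (h : ∀ v, |P v| ≤ P' v) :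
    |Nf γ b ε δ g P| ≤ Nf γ b ε δ g P' := by
  have i1 := cx_Nint (δ := δ) H hε h0 h1 hg hgc hg0 hP
  have i2 := cx_Nint (δ := δ) H hε h0 h1 hg hgc hg0 hP'
  have hs : BTst (max R R') (K' + K) fun v => P' v - P v :=
    ⟨hP'.meas.sub hP.meas, fun v hv => by
      rw [hP.supp v ((le_max_left _ _).trans hv), hP'.supp v ((le_max_right _ _).trans hv),
        sub_zero], fun v => (abs_sub _ _).trans (add_le_add (hP'.le v) (hP.le v))⟩
  have ha : BTst (max R R') (K' + K) fun v => P' v + P v :=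
    ⟨hP'.meas.add hP.meas, fun v hv => by
      rw [hP.supp v ((le_max_left _ _).trans hv), hP'.supp v ((le_max_right _ _).trans hv),
        add_zero], fun v => (abs_add_le _ _).trans (add_le_add (hP'.le v) (hP.le v))⟩
  have n1 := cx_N0 (δ := δ) H hε h0 h1 hg hgc hg0 hs fun v => by
    have := (abs_le.1 (h v)).2
    linarith
  have n2 := cx_N0 (δ := δ) H hε h0 h1 hg hgc hg0 ha fun v => by
    have := (abs_le.1 (h v)).1
    linarith
  have e1 : Nf γ b ε δ g (fun v => P' v - P v) = Nf γ b ε δ g P' - Nf γ b ε δ g P := by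
    rw [Nf, Nf, Nf, ← integral_sub i2 i1]
    refine integral_congr_ae (Eventually.of_forall fun p => ?_)
    simp only
    ring
  have e2 : Nf γ b ε δ g (fun v => P' v + P v) = Nf γ b ε δ g P' + Nf γ b ε δ g P := by
    rw [Nf, Nf, Nf, ← integral_add i2 i1]
    refine integral_congr_ae (Eventually.of_forall fun p => ?_)
    simp only
    ring
  rw [abs_le]
  constructor <;> linarith

end Pool.Agent.H15.AV
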