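import Pool.Agent.H15.AVB.LBd
import Pool.Agent.H15.AVB.Cvx
import Pool.Agent.H15.AV.One

/-!
# Drift, source and dissipation estimates for the Boltzmann operator

MODULE FibB. `src_tendsto`: `boltz_weak_tendsto` with `φ = Ψ * kd δ ∘ g` (bounded measurable).
`drift_boltz`: `cut_split`, `Nf_ge` (the integrand is `≥ 0` since `1 + y ≤ exp y`), `Lf_bound`, `ε → 0`.
`source_boltz`: `δ = 1/2`, cut-off `φ = 1` on the ball of radius `R` (`exists_chi`), `|Θ| ≤ K φ`,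
`|∫ boltzCut .. Θ ..| ≤ |Nf Θ| + |Lf Θ| ≤ K Nf φ + |Lf Θ| = K (∫ boltzCut .. φ .. - Lf φ) + |Lf Θ|`, `Lf_bound`
and `ub_le` (`lam (1/2) ≤ 1`), `ε → 0`. For `K < 0` there is no `Θ`.
`diss_boltz`: on truncated collisions `kt ≥ c > 0` for `ε ≤ ε₁` (`IsKernel.grazing`; `len ^ γ ≥ c` on
`[ρ, R₁]`), `exp y - 1 - y ≥ (max y 0)²/2`; `Nf_ge` with `φ = 1` on the ball of radius `R`, then swap
(`coll_preserving`) and `ε → 0`.
-/

set_option autoImplicit false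

open MeasureTheory Set Filter Topology Pool.Agent.H25.Kin
open Pool.Agent.H82.BK (bt bcut Kn hh co BB dir)

namespace Pool.Agent.H15.AV

variable {d : ℕ} {γ s Cb Ca : ℝ} {b : ℝ → ℝ}

private lemma fb_K {R K : ℝ} {P : Vec d → ℝ} (h : BTst R K P) : 0 ≤ K :=
  (abs_nonneg (P 0)).trans (h.le 0)

private lemma fb_tst (a : ℝ) {R K K' : ℝ} {Θ : Vec d → ℝ} (t : Tst R K Θ)
    (hK : |a| * K ≤ K') : Tst R K' fun v => a * Θ v := by
  have d1 : Differentiable ℝ Θ := t.smooth.differentiable (by norm_num)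
  have c1 : ContDiff ℝ 1 (fderiv ℝ Θ) := t.smooth.fderiv_right (by norm_num)
  have dd1 : Differentiable ℝ (fderiv ℝ Θ) := c1.differentiable (by norm_num)
  have e1 : fderiv ℝ (fun v => a * Θ v) = fun v => a • fderiv ℝ Θ v := by
    funext v
    exact ((d1 v).hasFDerivAt.const_mul a).fderiv
  have e2 : ∀ v, fderiv ℝ (fun v => a • fderiv ℝ Θ v) v = a • fderiv ℝ (fderiv ℝ Θ) v := fun v =>
    ((dd1 v).hasFDerivAt.const_smul a).fderiv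
  refine ⟨contDiff_const.mul t.smooth, ?_, ?_, ?_, ?_⟩
  · intro v hv
    rw [t.supp v hv, mul_zero]
  · intro v
    rw [abs_mul]
    exact (mul_le_mul_of_nonneg_left (t.le0 v) (abs_nonneg a)).trans hK
  · intro v
    rw [e1]
    refine le_trans ?_ hK
    rw [norm_smul, Real.norm_eq_abs]
    exact mul_le_mul_of_nonneg_left (t.le1 v) (abs_nonneg a)
  · intro v
    rw [e1, e2]
    refine (ContinuousLinearMap.opNorm_smul_le a _).trans (le_trans ?_ hK)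
    rw [Real.norm_eq_abs]
    exact mul_le_mul_of_nonneg_left (t.le2 v) (abs_nonneg a)

private lemma fb_Nf_nonneg (H : Hyp d γ s b Cb Ca) {ε δ : ℝ} (hε : 0 < ε) (h0 : 0 < δ)
    (h1 : δ ≤ 1) {g : Vec d → ℝ} (hg : Nice g) (hg0 : ∀ v, 0 ≤ g v) {R K : ℝ} {P : Vec d → ℝ}
    (hP : BTst R K P) (hP0 : ∀ v, 0 ≤ P v) : 0 ≤ Nf γ b ε δ g P :=
  (abs_nonneg _).trans (Nf_abs_le H hε h0 h1 hg.rd hg.cont hg0 hP hP
    fun v => (abs_of_nonneg (hP0 v)).le)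

private lemma fb_Nf_smul (ε δ : ℝ) (g P : Vec d → ℝ) (a : ℝ) :
    Nf γ b ε δ g (fun v => a * P v) = a * Nf γ b ε δ g P := by
  unfold Nf
  rw [← integral_const_mul]
  congr 1
  funext p
  ring

private lemma fb_lam_half : lam (1 / 2) ≤ 1 := by
  unfold lam
  rw [one_div, Real.log_inv, neg_neg]
  exact Real.log_two_lt_d9.le.trans (by norm_num)

private lemma fb_ub {δ : ℝ} (h0 : 0 < δ) (h1 : δ ≤ 1) {C R : ℝ} (hC : 0 ≤ C) (hR : 0 ≤ R)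
    {g : Vec d → ℝ} (hg : Nice g) (hg0 : ∀ v, 0 ≤ g v) :
    C * ub δ R g + 1 * lam δ ≤ (C * (2 * R) ^ d + 1) * lam δ := by
  have h := mul_le_mul_of_nonneg_left (ub_le h0 h1 hR hg.cont hg0) hC
  linarith

private lemma fb_b (H : Hyp d γ s b Cb Ca) (hb : IsKernel d s b) : ∃ c > 0,
    ∀ x : ℝ, 0 ≤ x → x < 1 → c ≤ b x := by
  obtain ⟨c, hc, hgr⟩ := hb.grazing
  have hpi := Real.pi_pos
  refine ⟨c⁻¹ * (Real.pi / 2) ^ (-((d : ℝ) - 1) - 2 * s), by positivity, fun x hx0 hx1 => ?_⟩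
  have h1 : 0 < Real.arccos x := Real.arccos_pos.2 hx1
  have h2 : Real.arccos x ≤ Real.pi / 2 := Real.arccos_le_pi_div_two.2 hx0
  have h3 := (hgr (Real.arccos x) ⟨h1, h2⟩).1
  rw [Real.cos_arccos (by linarith) hx1.le] at h3
  refine le_trans ?_ h3
  refine mul_le_mul_of_nonneg_left ?_ (by positivity)
  refine Real.rpow_le_rpow_of_nonpos h1 h2 ?_
  have h4 : (2 : ℝ) ≤ d := by exact_mod_cast H.hd
  have h5 := H.hs
  linarith

private lemma fb_bt (H : Hyp d γ s b Cb Ca) (hb : IsKernel d s b) {ε₁ : ℝ} (hε₁ : 0 < ε₁) :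
    ∃ c > 0, ∀ ε ∈ Ioc (0 : ℝ) ε₁, ∀ x : ℝ, 0 ≤ x → x ≤ 1 - ε₁ → c ≤ bt b ε x := by
  obtain ⟨c, hc, hbc⟩ := fb_b H hb
  obtain ⟨c', hlar⟩ := hb.large
  refine ⟨c, hc, fun ε hε x hx0 hx1 => ?_⟩
  have h1 := hbc x hx0 (by linarith)
  have h2 : x ≤ 1 - ε := by linarith [hε.2]
  have h3 : -x ≤ 1 - ε := by linarith
  unfold bt bcut
  rw [if_pos hx0, if_pos h3, if_pos h2]
  have h4 := (hlar (-x) ⟨by linarith [hε.1], by linarith⟩).1
  rcases hx0.lt_or_eq with h | h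
  · rw [if_pos h]
    linarith
  · rw [if_neg (by rw [← h]; exact lt_irrefl _), zero_add, ← h, neg_zero]
    rw [← h] at h1
    exact h1

private lemma fb_kt (H : Hyp d γ s b Cb Ca) (hb : IsKernel d s b) {ε₁ ρ R₁ : ℝ} (hε₁ : 0 < ε₁)
    (hρ : 0 < ρ) : ∃ c > 0, ∀ ε ∈ Ioc (0 : ℝ) ε₁, ∀ p : Vec d × Vec d × Vec d,
      Tr ε₁ ρ R₁ p.1 p.2.1 p.2.2 → c ≤ kt γ b ε p := by
  obtain ⟨c, hc, hbt⟩ := fb_bt H hb hε₁
  have hM : 0 < max R₁ ρ := lt_max_of_lt_right hρ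
  have hm : 0 < min (ρ ^ γ) ((max R₁ ρ) ^ γ) :=
    lt_min (Real.rpow_pos_of_pos hρ γ) (Real.rpow_pos_of_pos hM γ)
  refine ⟨min (ρ ^ γ) ((max R₁ ρ) ^ γ) * c, mul_pos hm hc, fun ε hε p hp => ?_⟩
  obtain ⟨h1, h2, h3, h4⟩ := hp
  have hl : 0 < len (p.1 - p.2.1) := hρ.trans_le h1
  have h5 : min (ρ ^ γ) ((max R₁ ρ) ^ γ) ≤ len (p.1 - p.2.1) ^ γ := by
    rcases le_total 0 γ with h | h
    · exact (min_le_left _ _).trans (Real.rpow_le_rpow hρ.le h1 h)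
    · exact (min_le_right _ _).trans
        (Real.rpow_le_rpow_of_nonpos hl (h2.trans (le_max_left _ _)) h)
  unfold kt
  exact mul_le_mul h5 (hbt ε hε _ h3 h4) hc.le (Real.rpow_nonneg hl.le γ)

private lemma fb_meas (ε₁ ρ R₁ R : ℝ) : MeasurableSet
    {p : Vec d × Vec d × Vec d | Tr ε₁ ρ R₁ p.1 p.2.1 p.2.2 ∧ ‖vp p‖ ≤ R} := by
  have hl : Measurable fun p : Vec d × Vec d × Vec d => len (p.1 - p.2.1) :=
    (continuous_len.comp (by fun_prop : Continuous fun p : Vec d × Vec d × Vec d =>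
      p.1 - p.2.1)).measurable
  unfold Tr
  exact ((measurableSet_le measurable_const hl).inter
    ((measurableSet_le hl measurable_const).inter
      ((measurableSet_le measurable_const measurable_cosTh).inter
        (measurableSet_le measurable_cosTh measurable_const)))).inter
    (measurableSet_le measurable_vp.norm measurable_const)

private lemma fb_E (y : ℝ) : 0 ≤ Real.exp y - 1 - y := by
  have := Real.add_one_le_exp y
  linarith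

private lemma fb_E2 {y : ℝ} (h : 0 ≤ y) : y ^ 2 / 2 ≤ Real.exp y - 1 - y := by
  have := Real.quadratic_le_exp_of_nonneg h
  linarith

private lemma fb_pt {c k G y : ℝ} (hc : 0 < c) (hk : c ≤ k) (hG : 0 ≤ G) :
    ENNReal.ofReal G * ENNReal.ofReal y ^ 2 ≤
      ENNReal.ofReal (2 / c * (k * (G * (1 * (Real.exp y - 1 - y))))) := by
  rcases le_or_gt y 0 with h | h
  · rw [ENNReal.ofReal_of_nonpos h]
    simp
  · rw [← ENNReal.ofReal_pow h.le, ← ENNReal.ofReal_mul hG]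
    refine ENNReal.ofReal_le_ofReal ?_
    have h1 := fb_E2 h.le
    have h2 : 2 ≤ 2 / c * k := by
      rw [div_mul_eq_mul_div, le_div_iff₀ hc]
      linarith
    have h3 : 0 ≤ G * (Real.exp y - 1 - y) := mul_nonneg hG (fb_E y)
    calc G * y ^ 2 = 2 * (G * (y ^ 2 / 2)) := by ring
      _ ≤ 2 * (G * (Real.exp y - 1 - y)) := by
          have := mul_le_mul_of_nonneg_left h1 hG
          linarith
      _ ≤ 2 / c * k * (G * (Real.exp y - 1 - y)) := mul_le_mul_of_nonneg_right h2 h3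
      _ = _ := by ring

theorem src_tendsto (H : Hyp d γ s b Cb Ca) {δ : ℝ} (h0 : 0 < δ) (h1 : δ ≤ 1) {g : Vec d → ℝ}
    (hg : Nice g) (hg0 : ∀ v, 0 ≤ g v) {R K : ℝ} {P : Vec d → ℝ} (hP : BTst R K P) :
    Tendsto (fun ε => ∫ v, boltzCut γ b ε g v * (P v * kd δ (g v))) (𝓝[>] 0)
      (𝓝 (src (boltzQ γ b) δ g P)) := by
  have hK := fb_K hP
  have hφ : PG (fun v => P v * kd δ (g v)) := by
    refine ⟨0, K * (1 / δ), fun v => ?_⟩
    rw [pow_zero, mul_one, Real.norm_eq_abs, abs_mul, abs_of_nonneg (kd_nonneg h0 h1 (hg0 v))]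
    exact mul_le_mul (hP.le v) (kd_le h0 h1 (hg0 v)) (kd_nonneg h0 h1 (hg0 v)) hK
  have hm : Measurable fun v => P v * kd δ (g v) :=
    hP.meas.mul ((measurable_kd δ).comp hg.cont.measurable)
  have e : src (boltzQ γ b) δ g P = ∫ v, boltzQ γ b g v * (P v * kd δ (g v)) := by
    unfold src
    congr 1
    funext v
    ring
  rw [e]
  exact boltz_weak_tendsto H hg hφ hm

theorem drift_boltz (H : Hyp d γ s b Cb Ca) : ∀ R > 0, ∀ η > 0, ∃ C R' : ℝ, 0 ≤ C ∧ R ≤ R' ∧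
    ∀ δ ∈ Ioc (0 : ℝ) (1 / 2), ∀ g : Vec d → ℝ, Nice g → (∀ v, 0 ≤ g v) →
    ∀ (K : ℝ) (Ψ : Vec d → ℝ), Tst R K Ψ → (∀ v, 0 ≤ Ψ v) →
      -(K * kap (γ + 2 * s) g * (C * (1 + ub δ R' g) + η * lam δ)) ≤ src (boltzQ γ b) δ g Ψ := by
  intro R hR η hη
  obtain ⟨C, R', hC, hRR, hL⟩ := Lf_bound H hR hη
  refine ⟨C, R', hC, hRR, fun δ hδ g hg hg0 K Ψ hΨ hΨ0 => ?_⟩
  have hK := fb_K hΨ.btst
  have h1 : δ ≤ 1 := by linarith [hδ.2]
  have hkap := kap_nonneg (γ + 2 * s) hg0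
  refine ge_of_tendsto (src_tendsto H hδ.1 h1 hg hg0 hΨ.btst) ?_
  filter_upwards [self_mem_nhdsWithin] with ε hε
  rw [cut_split H hε hδ.1 h1 hg.rd hg.cont hg0 hΨ.btst]
  have hN := fb_Nf_nonneg H hε hδ.1 h1 hg hg0 hΨ.btst hΨ0
  have hl := (abs_le.1 (hL δ hδ g hg hg0 ε hε K Ψ hΨ)).1
  have h3 : K * kap (γ + 2 * s) g * (C * ub δ R' g + η * lam δ) ≤
      K * kap (γ + 2 * s) g * (C * (1 + ub δ R' g) + η * lam δ) :=
    mul_le_mul_of_nonneg_left (by linarith) (mul_nonneg hK hkap)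
  linarith

theorem source_boltz (H : Hyp d γ s b Cb Ca) : ∀ R > 0, ∃ (C R' : ℝ) (φ : Vec d → ℝ),
    0 ≤ C ∧ 0 < R' ∧ Tst R' C φ ∧ (∀ v, 0 ≤ φ v) ∧
    ∀ g : Vec d → ℝ, Nice g → (∀ v, 0 ≤ g v) →
    ∀ (K : ℝ) (Θ : Vec d → ℝ), Tst R K Θ →
      |src (boltzQ γ b) (1 / 2) g Θ| ≤
        K * (C * (kap (γ + 2 * s) g + src (boltzQ γ b) (1 / 2) g φ)) := by
  intro R hR
  have h2R : 0 < 2 * R := by linarith
  obtain ⟨K₀, χ, hχ, hχ0, hχ1, hχR⟩ := exists_chi d hR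
  obtain ⟨C₁, R₁, hC₁, hR₁, hL₁⟩ := Lf_bound H hR one_pos
  obtain ⟨C₂, R₂, hC₂, hR₂, hL₂⟩ := Lf_bound H h2R one_pos
  have hK₀ := fb_K hχ.btst
  have hR₁0 : 0 ≤ R₁ := hR.le.trans hR₁
  have hR₂0 : 0 ≤ R₂ := h2R.le.trans hR₂
  obtain ⟨B₁, hB₁⟩ : ∃ B, B = C₁ * (2 * R₁) ^ d + 1 := ⟨_, rfl⟩
  obtain ⟨B₂, hB₂⟩ : ∃ B, B = C₂ * (2 * R₂) ^ d + 1 := ⟨_, rfl⟩
  have hB₁0 : 0 ≤ B₁ := by rw [hB₁]; positivity
  have hB₂0 : 0 ≤ B₂ := by rw [hB₂]; positivity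
  have hKB : 0 ≤ K₀ * B₂ := mul_nonneg hK₀ hB₂0
  obtain ⟨C, hC⟩ : ∃ C, C = B₁ + K₀ * B₂ + K₀ + 1 := ⟨_, rfl⟩
  have hC1 : 1 ≤ C := by linarith
  have hCp : 0 < C := by linarith
  have hh0 : (0 : ℝ) < 1 / 2 := by norm_num
  have hh1 : (1 / 2 : ℝ) ≤ 1 := by norm_num
  have hhm : (1 / 2 : ℝ) ∈ Ioc (0 : ℝ) (1 / 2) := ⟨hh0, le_rfl⟩
  refine ⟨C, 2 * R, fun v => C⁻¹ * χ v, hCp.le, h2R, fb_tst C⁻¹ hχ ?_,
    fun v => mul_nonneg (inv_nonneg.2 hCp.le) (hχ0 v), fun g hg hg0 K Θ hΘ => ?_⟩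
  · rw [abs_of_pos (inv_pos.2 hCp)]
    have h3 : C⁻¹ ≤ 1 := inv_le_one_of_one_le₀ hC1
    have h4 : C⁻¹ * K₀ ≤ 1 * K₀ := mul_le_mul_of_nonneg_right h3 hK₀
    linarith
  have hsrc : src (boltzQ γ b) (1 / 2) g (fun v => C⁻¹ * χ v) =
      C⁻¹ * src (boltzQ γ b) (1 / 2) g χ := by
    unfold src
    rw [← integral_const_mul]
    congr 1
    funext v
    ring
  have hK := fb_K hΘ.btst
  obtain ⟨k, hk⟩ : ∃ k, k = kap (γ + 2 * s) g := ⟨_, rfl⟩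
  have hkap : 0 ≤ k := by rw [hk]; exact kap_nonneg (γ + 2 * s) hg0
  have T1 := (src_tendsto H hh0 hh1 hg hg0 hΘ.btst).abs
  have T2 := (((src_tendsto H hh0 hh1 hg hg0 hχ.btst).add_const (K₀ * k * B₂)).const_mul
    K).add_const (K * k * B₁)
  have main := le_of_tendsto_of_tendsto T1 T2 (by
    filter_upwards [self_mem_nhdsWithin] with ε hε
    rw [cut_split H hε hh0 hh1 hg.rd hg.cont hg0 hΘ.btst,
      cut_split H hε hh0 hh1 hg.rd hg.cont hg0 hχ.btst]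
    have hN : |Nf γ b ε (1 / 2) g Θ| ≤ K * Nf γ b ε (1 / 2) g χ := by
      rw [← fb_Nf_smul]
      refine Nf_abs_le H hε hh0 hh1 hg.rd hg.cont hg0 hΘ.btst
        (fb_tst K hχ le_rfl).btst fun v => ?_
      rcases le_or_gt ‖v‖ R with hv | hv
      · rw [hχR v hv, mul_one]
        exact hΘ.le0 v
      · rw [hΘ.supp v hv.le, abs_zero]
        exact mul_nonneg hK (hχ0 v)
    have hLΘ : |Lf γ b ε (1 / 2) g Θ| ≤ K * k * B₁ := by
      refine (hL₁ _ hhm g hg hg0 ε hε K Θ hΘ).trans ?_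
      rw [← hk]
      refine mul_le_mul_of_nonneg_left ?_ (mul_nonneg hK hkap)
      refine (fb_ub hh0 hh1 hC₁ hR₁0 hg hg0).trans ?_
      rw [← hB₁]
      exact mul_le_of_le_one_right hB₁0 fb_lam_half
    have hLχ : |Lf γ b ε (1 / 2) g χ| ≤ K₀ * k * B₂ := by
      refine (hL₂ _ hhm g hg hg0 ε hε K₀ χ hχ).trans ?_
      rw [← hk]
      refine mul_le_mul_of_nonneg_left ?_ (mul_nonneg hK₀ hkap)
      refine (fb_ub hh0 hh1 hC₂ hR₂0 hg hg0).trans ?_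
      rw [← hB₂]
      exact mul_le_of_le_one_right hB₂0 fb_lam_half
    have h5 := (abs_le.1 hLχ).1
    have h6 : K * Nf γ b ε (1 / 2) g χ ≤
        K * (Nf γ b ε (1 / 2) g χ + Lf γ b ε (1 / 2) g χ + K₀ * k * B₂) :=
      mul_le_mul_of_nonneg_left (by linarith) hK
    have h7 := abs_add_le (Nf γ b ε (1 / 2) g Θ) (Lf γ b ε (1 / 2) g Θ)
    linarith)
  rw [hsrc, ← hk]
  refine main.trans ?_
  have h8 : C * (k + C⁻¹ * src (boltzQ γ b) (1 / 2) g χ) =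
      C * k + src (boltzQ γ b) (1 / 2) g χ := by
    field_simp
  rw [h8, mul_assoc K k B₁, ← mul_add]
  refine mul_le_mul_of_nonneg_left ?_ hK
  have h9 : (B₁ + K₀ * B₂) * k ≤ C * k := mul_le_mul_of_nonneg_right (by linarith) hkap
  linarith

theorem diss_boltz (H : Hyp d γ s b Cb Ca) (hb : IsKernel d s b) {ε₁ ρ R₁ R : ℝ} (hε : 0 < ε₁)
    (hρ : 0 < ρ) (hR : 0 < R) : ∃ (C R' : ℝ) (φ : Vec d → ℝ), 0 ≤ C ∧ 0 < R' ∧ Tst R' C φ ∧
    (∀ v, 0 ≤ φ v) ∧ ∀ δ ∈ Ioc (0 : ℝ) (1 / 2), ∀ g : Vec d → ℝ, Nice g → (∀ v, 0 ≤ g v) →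
      0 ≤ src (boltzQ γ b) δ g φ + C * kap (γ + 2 * s) g * lam δ ∧
      ∫⁻ p in {p : Vec d × Vec d × Vec d | Tr ε₁ ρ R₁ p.1 p.2.1 p.2.2 ∧ ‖vp p‖ ≤ R},
        ENNReal.ofReal (g p.2.1) * ENNReal.ofReal (uf δ (g (vp p)) - uf δ (g p.1)) ^ 2 ∂(mu3 d) ≤
        ENNReal.ofReal (C * (src (boltzQ γ b) δ g φ + C * kap (γ + 2 * s) g * lam δ)) := by
  have h2R : 0 < 2 * R := by linarith
  obtain ⟨K₀, χ, hχ, hχ0, hχ1, hχR⟩ := exists_chi d hR
  obtain ⟨C₂, R₂, hC₂, hR₂, hL₂⟩ := Lf_bound H h2R one_pos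
  obtain ⟨c, hc, hkt⟩ := fb_kt (R₁ := R₁) H hb hε hρ
  have hK₀ := fb_K hχ.btst
  have hR₂0 : 0 ≤ R₂ := h2R.le.trans hR₂
  obtain ⟨B, hB⟩ : ∃ B, B = C₂ * (2 * R₂) ^ d + 1 := ⟨_, rfl⟩
  have hB0 : 0 ≤ B := by rw [hB]; positivity
  have hKB : 0 ≤ K₀ * B := mul_nonneg hK₀ hB0
  have h2c : 0 < 2 / c := by positivity
  obtain ⟨C, hC⟩ : ∃ C, C = K₀ + K₀ * B + 2 / c := ⟨_, rfl⟩
  have hC0 : 0 ≤ C := by rw [hC]; positivity
  have hKC : K₀ ≤ C := by linarith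
  refine ⟨C, 2 * R, χ, hC0, h2R, ⟨hχ.smooth, hχ.supp, fun v => (hχ.le0 v).trans hKC,
    fun v => (hχ.le1 v).trans hKC, fun v => (hχ.le2 v).trans hKC⟩, hχ0, fun δ hδ g hg hg0 => ?_⟩
  have h1 : δ ≤ 1 := by linarith [hδ.2]
  have hlam : 0 ≤ lam δ := (lam_pos hδ.1 (by linarith [hδ.2])).le
  obtain ⟨k, hk⟩ : ∃ k, k = kap (γ + 2 * s) g := ⟨_, rfl⟩
  have hkap : 0 ≤ k := by rw [hk]; exact kap_nonneg (γ + 2 * s) hg0
  rw [← hk]
  have hup : ∀ ε > 0, Nf γ b ε δ g χ ≤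
      (∫ v, boltzCut γ b ε g v * (χ v * kd δ (g v))) + K₀ * k * (B * lam δ) := by
    intro ε hε'
    rw [cut_split H hε' hδ.1 h1 hg.rd hg.cont hg0 hχ.btst]
    have hLχ : |Lf γ b ε δ g χ| ≤ K₀ * k * (B * lam δ) := by
      refine (hL₂ _ hδ g hg hg0 ε hε' K₀ χ hχ).trans ?_
      rw [← hk, hB]
      exact mul_le_mul_of_nonneg_left (fb_ub hδ.1 h1 hC₂ hR₂0 hg hg0) (mul_nonneg hK₀ hkap)
    have h5 := (abs_le.1 hLχ).1
    linarith
  have T' := (src_tendsto H hδ.1 h1 hg hg0 hχ.btst).add_const (K₀ * k * (B * lam δ))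
  have hx : 0 ≤ src (boltzQ γ b) δ g χ + K₀ * k * (B * lam δ) := by
    refine ge_of_tendsto T' ?_
    filter_upwards [self_mem_nhdsWithin] with ε hε'
    exact (fb_Nf_nonneg H hε' hδ.1 h1 hg hg0 hχ.btst hχ0).trans (hup ε hε')
  have hcmp : src (boltzQ γ b) δ g χ + K₀ * k * (B * lam δ) ≤
      src (boltzQ γ b) δ g χ + C * k * lam δ := by
    have h6 : K₀ * B * (k * lam δ) ≤ C * (k * lam δ) :=
      mul_le_mul_of_nonneg_right (by linarith) (mul_nonneg hkap hlam)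
    linarith
  refine ⟨hx.trans hcmp, ?_⟩
  have key : ∀ ε ∈ Ioc (0 : ℝ) ε₁,
      ∫⁻ p in {p : Vec d × Vec d × Vec d | Tr ε₁ ρ R₁ p.1 p.2.1 p.2.2 ∧ ‖vp p‖ ≤ R},
        ENNReal.ofReal (g p.2.1) * ENNReal.ofReal (uf δ (g (vp p)) - uf δ (g p.1)) ^ 2 ∂(mu3 d) ≤
        ENNReal.ofReal (2 / c * Nf γ b ε δ g χ) := by
    intro ε hε'
    obtain ⟨hI, hle⟩ := Nf_ge H hε'.1 hδ.1 h1 hg.rd hg.cont hg0 hχ.btst hχ0
    obtain ⟨F, hF⟩ : ∃ F : Vec d → Vec d → Vec d → Vec d → ℝ, F = fun a _ a' b' =>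
      g b' * (χ a * (Real.exp (uf δ (g a) - uf δ (g a')) - 1 - (uf δ (g a) - uf δ (g a')))) :=
      ⟨_, rfl⟩
    have mF : Measurable fun q : Vec d × Vec d × Vec d × Vec d => F q.1 q.2.1 q.2.2.1 q.2.2.2 := by
      rw [hF]
      have mg := hg.cont.measurable
      have mu := (measurable_uf δ).comp mg
      have m1 : Measurable fun q : Vec d × Vec d × Vec d × Vec d => uf δ (g q.1) :=
        mu.comp measurable_fst
      have m2 : Measurable fun q : Vec d × Vec d × Vec d × Vec d => uf δ (g q.2.2.1) :=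
        mu.comp (measurable_fst.comp (measurable_snd.comp measurable_snd))
      have m3 : Measurable fun q : Vec d × Vec d × Vec d × Vec d => g q.2.2.2 :=
        mg.comp (measurable_snd.comp (measurable_snd.comp measurable_snd))
      have m4 : Measurable fun q : Vec d × Vec d × Vec d × Vec d => χ q.1 :=
        hχ.btst.meas.comp measurable_fst
      exact m3.mul (m4.mul (((Real.measurable_exp.comp (m1.sub m2)).sub measurable_const).sub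
        (m1.sub m2)))
    have hI2 : Integrable (fun p => kt γ b ε p * F p.1 p.2.1 (vp p) (wp p)) (mu3 d) := by
      rw [hF]
      exact hI
    have hle2 : ∫ p, kt γ b ε p * F p.1 p.2.1 (vp p) (wp p) ∂(mu3 d) ≤ Nf γ b ε δ g χ := by
      rw [hF]
      exact hle
    have hI' := kt_swap_int (γ := γ) (ε := ε) H.hd1 H.bm mF hI2
    have hsw := kt_swap (γ := γ) (ε := ε) H.hd1 H.bm mF
    have hnn : 0 ≤ᵐ[mu3 d] fun p => 2 / c * (kt γ b ε p * F (vp p) (wp p) p.1 p.2.1) := by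
      filter_upwards [ae_good H.hd1] with p hp
      rw [hF]
      exact mul_nonneg h2c.le (mul_nonneg (kt_nonneg H hε'.1 hp.2)
        (mul_nonneg (hg0 _) (mul_nonneg (hχ0 _) (fb_E _))))
    have s1 : ∫⁻ p in {p : Vec d × Vec d × Vec d | Tr ε₁ ρ R₁ p.1 p.2.1 p.2.2 ∧ ‖vp p‖ ≤ R},
        ENNReal.ofReal (g p.2.1) * ENNReal.ofReal (uf δ (g (vp p)) - uf δ (g p.1)) ^ 2 ∂(mu3 d) ≤
        ∫⁻ p in {p : Vec d × Vec d × Vec d | Tr ε₁ ρ R₁ p.1 p.2.1 p.2.2 ∧ ‖vp p‖ ≤ R},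
          ENNReal.ofReal (2 / c * (kt γ b ε p * F (vp p) (wp p) p.1 p.2.1)) ∂(mu3 d) := by
      refine lintegral_mono_ae ?_
      filter_upwards [ae_restrict_mem (fb_meas ε₁ ρ R₁ R)] with p hp
      rw [hF]
      change _ ≤ ENNReal.ofReal (2 / c * (kt γ b ε p * (g p.2.1 * (χ (vp p) *
        (Real.exp (uf δ (g (vp p)) - uf δ (g p.1)) - 1 - (uf δ (g (vp p)) - uf δ (g p.1)))))))
      rw [hχR (vp p) hp.2]
      exact fb_pt hc (hkt ε hε' p hp.1) (hg0 _)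
    refine s1.trans ((setLIntegral_le_lintegral _ _).trans ?_)
    rw [← ofReal_integral_eq_lintegral_ofReal (hI'.const_mul (2 / c)) hnn, integral_const_mul, hsw]
    exact ENNReal.ofReal_le_ofReal (mul_le_mul_of_nonneg_left hle2 h2c.le)
  have T2 := ENNReal.tendsto_ofReal (T'.const_mul (2 / c))
  refine (ge_of_tendsto T2 ?_).trans (ENNReal.ofReal_le_ofReal ?_)
  · filter_upwards [Ioc_mem_nhdsGT hε] with ε hε'
    exact (key ε hε').trans (ENNReal.ofReal_le_ofReal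
      (mul_le_mul_of_nonneg_left (hup ε hε'.1) h2c.le))
  · exact mul_le_mul (by linarith) hcmp hx hC0

end Pool.Agent.H15.AV
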