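import Pool.Agent.H15.AVB.Dir
import Pool.Agent.H15.AVB.Chn
import Pool.Agent.H15.AVB.FibB

/-!
# Good fibers of the Boltzmann equation, and the fiber theory

MODULE GdB. `good_level`: `κ ≤ |E|`, `E = {‖v‖ ≤ R₁, ℓ ≤ g}`, `uf δ (g v) ≤ U = log (1 + 1/ℓ)` on `E` (`uf_le`).
`R₂ = max R R₁`, `B` the ball of radius `R₂`; `dir_poi` and `chain_poi` on `B`, `diss_boltz` with the
constants of `dir_poi`. For `a ∈ E`, `u b ≤ U + (u b - u a)₊`, so
`κ ∫_B u² ≤ 2 U² |B|² + 2 ∫_B ∫_B (u b - u a)₊² ≤ C + C X`, `X = src φ + C kap lam δ`. Then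
`u ≤ η' lam δ + u²/(η' lam δ)` and `1 ≤ kap/m ≤ C kap lam δ`.
`fibTh_boltz`: `⟨drift_boltz H, good_boltz H hb, source_boltz H⟩`.
-/

set_option autoImplicit false

open MeasureTheory Set Filter Topology Pool.Agent.H25.Kin
open scoped ENNReal

namespace Pool.Agent.H15.AV

variable {d : ℕ} {γ s Cb Ca : ℝ} {b : ℝ → ℝ}

private theorem GdB_mono {R K K' : ℝ} (hK : K ≤ K') {φ : Vec d → ℝ} (h : Tst R K φ) :
    Tst R K' φ :=
  ⟨h.smooth, h.supp, fun v => (h.le0 v).trans hK, fun v => (h.le1 v).trans hK,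
    fun v => (h.le2 v).trans hK⟩

private theorem GdB_kap {q : ℝ} (h0 : 0 ≤ q) (h2 : q ≤ 2) {g : Vec d → ℝ} (hg : Nice g)
    (hg0 : ∀ v, 0 ≤ g v) : ∫ v, g v ≤ kap q g := by
  have hPG : PG (fun w : Vec d => (1 + ‖w‖) ^ q) := by
    refine ⟨2, 1, fun w => ?_⟩
    have h1 : (1 : ℝ) ≤ 1 + ‖w‖ := by linarith [norm_nonneg w]
    rw [Real.norm_eq_abs, abs_of_nonneg (by positivity), one_mul]
    calc (1 + ‖w‖) ^ q ≤ (1 + ‖w‖) ^ (2 : ℝ) := Real.rpow_le_rpow_of_exponent_le h1 h2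
      _ = (1 + ‖w‖) ^ 2 := by norm_cast
  have hc : Continuous (fun w : Vec d => (1 + ‖w‖) ^ q) :=
    (continuous_const.add continuous_norm).rpow_const fun w => Or.inr h0
  have i1 : Integrable g := hg.rd.integrable hg.cont.aestronglyMeasurable
  have i2 : Integrable (fun w => g w * (1 + ‖w‖) ^ q) :=
    (hg.rd.mul_PG hPG).integrable (hg.cont.mul hc).aestronglyMeasurable
  refine integral_mono i1 i2 fun w => ?_
  have h1 : (1 : ℝ) ≤ 1 + ‖w‖ := by linarith [norm_nonneg w]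
  have h3 : (1 : ℝ) ≤ (1 + ‖w‖) ^ q := Real.one_le_rpow h1 h0
  have h4 := hg0 w
  show g w ≤ g w * (1 + ‖w‖) ^ q
  nlinarith

private theorem GdB_sq (t : ℝ) : ENNReal.ofReal t ^ 2 = ENNReal.ofReal (max t 0 ^ 2) := by
  rw [ENNReal.ofReal_pow (le_max_right _ _)]
  rcases le_total t 0 with h | h
  · rw [max_eq_right h, ENNReal.ofReal_of_nonpos h, ENNReal.ofReal_zero]
  · rw [max_eq_left h]

private theorem GdB_pt {x y U : ℝ} (hx : 0 ≤ x) (hU : 0 ≤ U) (hy : y ≤ U) :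
    ENNReal.ofReal x ^ 2 ≤ 2 * ENNReal.ofReal U ^ 2 + 2 * ENNReal.ofReal (x - y) ^ 2 := by
  rw [GdB_sq (x - y), ← ENNReal.ofReal_pow hx, ← ENNReal.ofReal_pow hU]
  have h2 : (2 : ℝ≥0∞) = ENNReal.ofReal 2 := by simp
  rw [h2, ← ENNReal.ofReal_mul (by norm_num), ← ENNReal.ofReal_mul (by norm_num),
    ← ENNReal.ofReal_add (by positivity) (by positivity)]
  refine ENNReal.ofReal_le_ofReal ?_
  have h3 : x ≤ U + max (x - y) 0 := by
    have := le_max_left (x - y) 0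
    linarith
  have h4 : 0 ≤ max (x - y) 0 := le_max_right _ _
  nlinarith [sq_nonneg (U - max (x - y) 0)]

private theorem GdB_lint {B E : Set (Vec d)} (hE : E ⊆ B) (hEm : MeasurableSet E)
    {u : Vec d → ℝ} (hu : Measurable u) (hu0 : ∀ v, 0 ≤ u v) {U : ℝ} (hU : 0 ≤ U)
    (huE : ∀ v ∈ E, u v ≤ U) :
    volume E * ∫⁻ b in B, ENNReal.ofReal (u b) ^ 2 ≤
      2 * ENNReal.ofReal U ^ 2 * volume B * volume B +
        2 * ∫⁻ a in B, ∫⁻ b in B, ENNReal.ofReal (u b - u a) ^ 2 := by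
  have hm2 : Measurable fun p : Vec d × Vec d => ENNReal.ofReal (u p.2 - u p.1) ^ 2 :=
    ((((hu.comp measurable_snd).sub (hu.comp measurable_fst)).ennreal_ofReal).pow_const 2)
  have hm3 : Measurable fun a : Vec d => ∫⁻ b in B, ENNReal.ofReal (u b - u a) ^ 2 :=
    hm2.lintegral_prod_right'
  calc volume E * ∫⁻ b in B, ENNReal.ofReal (u b) ^ 2
      = ∫⁻ _ in E, ∫⁻ b in B, ENNReal.ofReal (u b) ^ 2 := by
        rw [setLIntegral_const, mul_comm]
    _ ≤ ∫⁻ a in E, ∫⁻ b in B, (2 * ENNReal.ofReal U ^ 2 +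
          2 * ENNReal.ofReal (u b - u a) ^ 2) := by
        refine setLIntegral_mono' hEm fun a ha => lintegral_mono fun b => ?_
        exact GdB_pt (hu0 b) hU (huE a ha)
    _ ≤ ∫⁻ a in B, ∫⁻ b in B, (2 * ENNReal.ofReal U ^ 2 +
          2 * ENNReal.ofReal (u b - u a) ^ 2) := lintegral_mono_set hE
    _ = ∫⁻ a in B, (2 * ENNReal.ofReal U ^ 2 * volume B +
          2 * ∫⁻ b in B, ENNReal.ofReal (u b - u a) ^ 2) := by
        refine lintegral_congr fun a => ?_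
        have hma : Measurable fun b : Vec d => ENNReal.ofReal (u b - u a) ^ 2 :=
          ((hu.sub_const _).ennreal_ofReal).pow_const 2
        rw [lintegral_add_left measurable_const, setLIntegral_const, lintegral_const_mul _ hma]
    _ = 2 * ENNReal.ofReal U ^ 2 * volume B * volume B +
        2 * ∫⁻ a in B, ∫⁻ b in B, ENNReal.ofReal (u b - u a) ^ 2 := by
        rw [lintegral_add_left measurable_const, setLIntegral_const, lintegral_const_mul _ hm3]

theorem good_boltz (H : Hyp d γ s b Cb Ca) (hb : IsKernel d s b) : ∀ R > 0, ∀ m > 0, ∀ N : ℝ,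
    ∀ η > 0, ∃ (C R' δ₀ : ℝ) (φ : Vec d → ℝ),
    0 ≤ C ∧ 0 < R' ∧ 0 < δ₀ ∧ δ₀ ≤ 1 / 2 ∧ Tst R' C φ ∧ (∀ v, 0 ≤ φ v) ∧
    ∀ δ ∈ Ioc (0 : ℝ) δ₀, ∀ g : Vec d → ℝ, Nice g → (∀ v, 0 ≤ g v) → Good m N g →
      ub δ R g ≤ η * lam δ +
        C / lam δ * (src (boltzQ γ b) δ g φ + C * kap (γ + 2 * s) g * lam δ) := by
  intro R hR m hm N η hη
  obtain ⟨R₁, hR₁, ℓ, hℓ, κ, hκ, HE⟩ := good_level (d := d) hm N
  set R₂ : ℝ := max R R₁ with hR₂d
  have hR₂ : 0 < R₂ := lt_max_of_lt_left hR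
  obtain ⟨r, ε₁, ρ₁, R₃, R', A, hr, hε₁, hρ₁, hR', hA, HD⟩ := dir_poi H.hd hm N hR₂
  obtain ⟨A', hA', HC⟩ := chain_poi (d := d) hR₂ hr
  obtain ⟨C₀, R'', φ, hC₀, hR'', hT, hφ, HX⟩ :=
    diss_boltz H hb (ε₁ := ε₁) (ρ := ρ₁) (R₁ := R₃) (R := R') hε₁ hρ₁ hR'
  set U : ℝ := Real.log (1 + 1 / ℓ) with hUd
  have hU : 0 ≤ U := Real.log_nonneg (by have := one_div_pos.2 hℓ; linarith)
  set W : ℝ := (2 * R₂) ^ d with hW
  have hW0 : 0 < W := by positivity
  set η' : ℝ := η / W with hη'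
  have hη'0 : 0 < η' := div_pos hη hW0
  set C₁ : ℝ := 2 * (A' * (A * C₀)) / (η' * κ) with hC₁
  set C₂ : ℝ := 2 * U ^ 2 * W * W / (η' * κ) with hC₂
  have hC₁0 : 0 ≤ C₁ := by positivity
  have hC₂0 : 0 ≤ C₂ := by positivity
  set C : ℝ := C₀ + C₁ + 2 * C₂ / m + 1 with hC
  have hC₂m : 0 ≤ 2 * C₂ / m := by positivity
  refine ⟨C, R'', 1 / 2, φ, by positivity, hR'', by norm_num, le_rfl,
    GdB_mono (by rw [hC]; linarith) hT, hφ, ?_⟩
  rintro δ ⟨hδ0, hδ1⟩ g hg hg0 hG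
  have hδ1' : δ ≤ 1 := by linarith
  obtain ⟨hX0, HX1⟩ := HX δ ⟨hδ0, hδ1⟩ g hg hg0
  set X : ℝ := src (boltzQ γ b) δ g φ + C₀ * kap (γ + 2 * s) g * lam δ with hX
  have hlam : 1 / 2 ≤ lam δ := by
    have h1 : Real.log δ ≤ Real.log (1 / 2) := Real.log_le_log hδ0 hδ1
    have h2 : Real.log (1 / 2) = -Real.log 2 := by rw [one_div, Real.log_inv]
    have h3 := Real.log_two_gt_d9
    unfold lam
    linarith
  have hlam0 : 0 < lam δ := by linarith
  set u : Vec d → ℝ := fun v => uf δ (g v) with hu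
  have hum : Measurable u := (measurable_uf δ).comp hg.cont.measurable
  have hu0 : ∀ v, 0 ≤ u v := fun v => uf_nonneg hδ0 hδ1' (hg0 v)
  have hul : ∀ v, u v ≤ lam δ := fun v => uf_le_lam hδ0 hδ1' (hg0 v)
  set B : Set (Vec d) := Metric.closedBall (0 : Vec d) R₂ with hB
  set E : Set (Vec d) := {v : Vec d | ‖v‖ ≤ R₁ ∧ ℓ ≤ g v} with hE
  have hEB : E ⊆ B := by
    rintro v ⟨h1, -⟩
    rw [hB, Metric.mem_closedBall, dist_zero_right]
    exact h1.trans (le_max_right _ _)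
  have hEm : MeasurableSet E :=
    ((isClosed_le continuous_norm continuous_const).inter
      (isClosed_le continuous_const hg.cont)).measurableSet
  have hVB : volume B = ENNReal.ofReal W := by
    rw [hB, Real.volume_pi_closedBall _ hR₂.le, Fintype.card_fin]
  have hBf : volume B < ⊤ := by rw [hVB]; exact ENNReal.ofReal_lt_top
  -- the double integral
  have D1 : ∫⁻ a in B, ∫⁻ b in B, ENNReal.ofReal (u b - u a) ^ 2 ≤
      ENNReal.ofReal (A' * (A * (C₀ * X))) := by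
    refine (HC u hum).trans ?_
    rw [ENNReal.ofReal_mul hA', ENNReal.ofReal_mul hA]
    refine mul_le_mul_right ((HD g hg hg0 hG u hum).trans ?_) _
    exact mul_le_mul_right HX1 _
  have D2 := GdB_lint hEB hEm hum hu0 hU (fun v hv => uf_le hδ0 hℓ hv.2)
  -- the square integral
  have hui : IntegrableOn u B := by
    refine IntegrableOn.of_bound hBf hum.aestronglyMeasurable (lam δ) ?_
    refine Eventually.of_forall fun v => ?_
    rw [Real.norm_eq_abs, abs_of_nonneg (hu0 v)]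
    exact hul v
  have hu2 : IntegrableOn (fun v => u v ^ 2) B := by
    refine IntegrableOn.of_bound hBf (hum.pow_const 2).aestronglyMeasurable (lam δ ^ 2) ?_
    refine Eventually.of_forall fun v => ?_
    rw [Real.norm_eq_abs, abs_of_nonneg (sq_nonneg _)]
    exact pow_le_pow_left₀ (hu0 v) (hul v) 2
  set J : ℝ := ∫ v in B, u v ^ 2 with hJ
  have eJ : ∫⁻ b in B, ENNReal.ofReal (u b) ^ 2 = ENNReal.ofReal J := by
    rw [hJ, ofReal_integral_eq_lintegral_ofReal hu2 (Eventually.of_forall fun v => sq_nonneg _)]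
    refine lintegral_congr fun v => ?_
    rw [ENNReal.ofReal_pow (hu0 v)]
  have hJ0 : 0 ≤ J := integral_nonneg fun v => sq_nonneg _
  have hAX : 0 ≤ A' * (A * (C₀ * X)) := by positivity
  have D3 : κ * J ≤ 2 * U ^ 2 * W * W + 2 * (A' * (A * (C₀ * X))) := by
    have h1 : ENNReal.ofReal (κ * J) ≤
        ENNReal.ofReal (2 * U ^ 2 * W * W + 2 * (A' * (A * (C₀ * X)))) := by
      rw [ENNReal.ofReal_mul hκ.le, ← eJ]
      refine (mul_le_mul_left (HE g hg hg0 hG) _).trans (D2.trans ?_)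
      rw [ENNReal.ofReal_add (by positivity) (by positivity),
        ENNReal.ofReal_mul (by positivity), ENNReal.ofReal_mul (by positivity),
        ENNReal.ofReal_mul (by positivity), ENNReal.ofReal_mul (by positivity), hVB,
        ENNReal.ofReal_pow hU]
      have h2 : (2 : ℝ≥0∞) = ENNReal.ofReal 2 := by simp
      rw [h2]
      exact add_le_add le_rfl (mul_le_mul_right D1 _)
    exact (ENNReal.ofReal_le_ofReal_iff (by positivity)).1 h1
  -- the linear bound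
  have hsub : Metric.closedBall (0 : Vec d) R ⊆ B :=
    Metric.closedBall_subset_closedBall (le_max_left _ _)
  have L1 : ub δ R g ≤ ∫ v in B, u v :=
    setIntegral_mono_set hui (Eventually.of_forall fun v => hu0 v) hsub.eventuallyLE
  have ht : 0 < η' * lam δ := mul_pos hη'0 hlam0
  have L2 : ∫ v in B, u v ≤ ∫ v in B, (η' * lam δ + u v ^ 2 / (η' * lam δ)) := by
    refine integral_mono hui
      ((integrableOn_const hBf.ne).add (hu2.div_const _)) fun v => ?_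
    show u v ≤ η' * lam δ + u v ^ 2 / (η' * lam δ)
    have h1 : u v * (η' * lam δ) ≤ (η' * lam δ) * (η' * lam δ) + u v ^ 2 := by
      nlinarith [sq_nonneg (u v - η' * lam δ), sq_nonneg (u v), sq_nonneg (η' * lam δ)]
    have h2 : u v ≤ ((η' * lam δ) * (η' * lam δ) + u v ^ 2) / (η' * lam δ) := by
      rw [le_div_iff₀ ht]
      exact h1
    have h3 : ((η' * lam δ) * (η' * lam δ) + u v ^ 2) / (η' * lam δ) =
        η' * lam δ + u v ^ 2 / (η' * lam δ) := by
      field_simp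
    linarith
  have L3 : ∫ v in B, (η' * lam δ + u v ^ 2 / (η' * lam δ)) =
      W * (η' * lam δ) + J / (η' * lam δ) := by
    have i1 : IntegrableOn (fun _ : Vec d => η' * lam δ) B := integrableOn_const hBf.ne
    rw [integral_add i1 (hu2.div_const _), setIntegral_const, smul_eq_mul, integral_div,
      measureReal_def, hVB, ENNReal.toReal_ofReal hW0.le]
  have e1 : W * (η' * lam δ) = η * lam δ := by
    rw [hη']
    field_simp
  have hkm : m ≤ kap (γ + 2 * s) g := hG.mass.trans (GdB_kap H.h0 H.h2 hg hg0)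
  -- the constants
  have F1 : J / (η' * lam δ) ≤ (C₂ + C₁ * X) / lam δ := by
    have h1 : J ≤ (2 * U ^ 2 * W * W + 2 * (A' * (A * (C₀ * X)))) / κ := by
      rw [le_div_iff₀ hκ]
      linarith
    have h2 : J / (η' * lam δ) ≤
        ((2 * U ^ 2 * W * W + 2 * (A' * (A * (C₀ * X)))) / κ) / (η' * lam δ) :=
      div_le_div_of_nonneg_right h1 ht.le
    refine h2.trans (le_of_eq ?_)
    rw [hC₁, hC₂]
    field_simp
  have F2 : C₂ + C₁ * X ≤ C * (src (boltzQ γ b) δ g φ + C * kap (γ + 2 * s) g * lam δ) := by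
    have h1 : src (boltzQ γ b) δ g φ + C * kap (γ + 2 * s) g * lam δ =
        X + (C - C₀) * (kap (γ + 2 * s) g * lam δ) := by
      rw [hX]; ring
    rw [h1]
    have h2 : m / 2 ≤ kap (γ + 2 * s) g * lam δ := by
      nlinarith
    have h3 : C₁ * X ≤ C * X := mul_le_mul_of_nonneg_right (by rw [hC]; linarith) hX0
    have h4 : C₂ ≤ (C - C₀) * (kap (γ + 2 * s) g * lam δ) := by
      have h5 : 2 * C₂ / m * (m / 2) ≤ (C - C₀) * (kap (γ + 2 * s) g * lam δ) :=
        mul_le_mul (by rw [hC]; linarith) h2 (by positivity) (by rw [hC]; linarith)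
      have h6 : 2 * C₂ / m * (m / 2) = C₂ := by field_simp
      linarith
    have h7 : 1 ≤ C := by rw [hC]; linarith
    have h8 : 0 ≤ (C - C₀) * (kap (γ + 2 * s) g * lam δ) := hC₂0.trans h4
    nlinarith
  have F3 : (C₂ + C₁ * X) / lam δ ≤
      C / lam δ * (src (boltzQ γ b) δ g φ + C * kap (γ + 2 * s) g * lam δ) := by
    rw [div_mul_eq_mul_div C (lam δ)]
    exact div_le_div_of_nonneg_right F2 hlam0.le
  linarith

theorem fibTh_boltz (H : Hyp d γ s b Cb Ca) (hb : IsKernel d s b) :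
    FibTh (d := d) (γ + 2 * s) (boltzQ γ b) :=
  ⟨drift_boltz H, good_boltz H hb, source_boltz H⟩

end Pool.Agent.H15.AV
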