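import Pool.Agent.H15.AVB.DecU
import Pool.Agent.H15.AV.LH
import Pool.Agent.H25.Kin.BMain

/-!
# The H-theorem for the Boltzmann operator

MODULE HB. `cut_H`: `weak_cut` with `φ = log G`, and the same integral after `coll_preserving`
(`kerB_post`, `post_post`; integrability by `int_piece`): the result is
`-(1/4) ∫ kerB (G'G'_* - GG_*)(log (G'G'_*) - log (GG_*)) ≤ 0`.
`hth_boltz`: `G = g + δ M`, `M = gau` (`nice_gau`), `φ = log G` is `PG`. Pointwise
`GG_* = (1-δ) gg_* + δ (g+M)(g+M)_* + (δ²-δ) MM_*`, so by `weak_cut` for each term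
`∫ boltzCut G φ = (1-δ) ∫ boltzCut g φ + δ ∫ boltzCut (g+M) φ + (δ²-δ) ∫ boltzCut M φ`, the last one is `0`
(`M'M'_* = MM_*` by `energy_post`). Hence `(1-δ) ∫ boltzCut g φ ≤ δ |∫ boltzCut (g+M) φ| ≤ δ A (log (1/δ) + C')`
(`boltzCut_decay_unif` for `g + M`, `|φ v| ≤ log (1/δ) + nsq v + C'`); `ε → 0` by `boltz_weak_tendsto`.
-/

set_option autoImplicit false

open MeasureTheory Set Filter Topology Pool.Agent.H25.Kin

namespace Pool.Agent.H15.AV

variable {d : ℕ} {γ s Cb Ca : ℝ} {b : ℝ → ℝ}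

/-- the increment of a collision -/
private noncomputable def hbX (φ : Vec d → ℝ) (p : Vec d × Vec d × Vec d) : ℝ :=
  φ (post p.1 p.2.1 p.2.2) + φ (post' p.1 p.2.1 p.2.2) - φ p.1 - φ p.2.1

private theorem hbX_meas {φ : Vec d → ℝ} (hφm : Measurable φ) : Measurable (hbX φ) := by
  have mpost := (continuous_post (d := d)).measurable
  have mpost' := (continuous_post' (d := d)).measurable
  have mv : Measurable fun p : Vec d × Vec d × Vec d => p.1 := measurable_fst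
  have mw : Measurable fun p : Vec d × Vec d × Vec d => p.2.1 := measurable_fst.comp measurable_snd
  exact (((hφm.comp mpost).add (hφm.comp mpost')).sub (hφm.comp mv)).sub (hφm.comp mw)

private theorem hbX_le {φ : Vec d → ℝ} (hφ : PG φ) : ∃ (K : ℕ) (B : ℝ), 0 ≤ B ∧
    ∀ v w σ : Vec d, nsq σ = 1 → |hbX φ (v, w, σ)| ≤ B * ((1 + ‖v‖) * (1 + ‖w‖)) ^ K := by
  obtain ⟨K, B, hB0, hB⟩ := pg_post_le hφ
  refine ⟨K, 4 * B, by positivity, fun v w σ hσ => ?_⟩
  obtain ⟨h1, h2, h3, h4⟩ := hB v w σ hσ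
  change |φ (post v w σ) + φ (post' v w σ) - φ v - φ w| ≤ _
  obtain ⟨a1, a2⟩ := abs_le.1 h1
  obtain ⟨b1, b2⟩ := abs_le.1 h2
  obtain ⟨c1, c2⟩ := abs_le.1 h3
  obtain ⟨e1, e2⟩ := abs_le.1 h4
  rw [abs_le]
  constructor <;> linarith

private theorem hb_int (H : Hyp d γ s b Cb Ca) {ε : ℝ} (hε : 0 < ε) {h : Vec d → ℝ} (hh : RD h)
    (hhc : Continuous h) {φ : Vec d → ℝ} (hφ : PG φ) (hφm : Measurable φ) :
    Integrable (fun p : Vec d × Vec d × Vec d =>
      kerB γ b ε p.1 p.2.1 p.2.2 * (h p.2.1 * h p.1) * hbX φ p) (mu3 d) := by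
  obtain ⟨K, B, hB0, hB⟩ := hbX_le hφ
  obtain ⟨A2, hA2, hA2'⟩ := prod_le' hh (d + 1 + (d + 5) + K)
  have mv : Measurable fun p : Vec d × Vec d × Vec d => p.1 := measurable_fst
  have mw : Measurable fun p : Vec d × Vec d × Vec d => p.2.1 := measurable_fst.comp measurable_snd
  exact int_piece (P := fun p : Vec d × Vec d × Vec d => h p.2.1 * h p.1) (Φ := hbX φ)
    H.hd H.g1 H.g2 H.bm H.bd H.β0 hε
    ((hhc.measurable.comp mw).mul (hhc.measurable.comp mv)) (hbX_meas hφm) hA2 hB0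
    (fun v w σ _ => by have := hA2' v w; rw [mul_comm] at this; exact this)
    (fun v w σ hσ => hB v w σ hσ)

private theorem hb_int' (H : Hyp d γ s b Cb Ca) {ε : ℝ} (hε : 0 < ε) {h : Vec d → ℝ} (hh : RD h)
    (hhc : Continuous h) {φ : Vec d → ℝ} (hφ : PG φ) (hφm : Measurable φ) :
    Integrable (fun p : Vec d × Vec d × Vec d =>
      kerB γ b ε p.1 p.2.1 p.2.2 *
        (h (post p.1 p.2.1 p.2.2) * h (post' p.1 p.2.1 p.2.2)) * hbX φ p) (mu3 d) := by
  obtain ⟨K, B, hB0, hB⟩ := hbX_le hφ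
  obtain ⟨A1, hA1, hA1'⟩ := post_prod_le hh (d + 1 + (d + 5) + K)
  have mpost := (continuous_post (d := d)).measurable
  have mpost' := (continuous_post' (d := d)).measurable
  exact int_piece (P := fun p : Vec d × Vec d × Vec d =>
      h (post p.1 p.2.1 p.2.2) * h (post' p.1 p.2.1 p.2.2)) (Φ := hbX φ)
    H.hd H.g1 H.g2 H.bm H.bd H.β0 hε
    ((hhc.measurable.comp mpost).mul (hhc.measurable.comp mpost')) (hbX_meas hφm) hA1 hB0
    (fun v w σ hσ => hA1' v w σ hσ)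
    (fun v w σ hσ => hB v w σ hσ)

private theorem hb_weak (H : Hyp d γ s b Cb Ca) {ε : ℝ} (hε : 0 < ε) {h : Vec d → ℝ} (hh : RD h)
    (hhc : Continuous h) {φ : Vec d → ℝ} (hφ : PG φ) (hφm : Measurable φ) :
    ∫ v, boltzCut γ b ε h v * φ v = (1 / 2) * ∫ p : Vec d × Vec d × Vec d,
      kerB γ b ε p.1 p.2.1 p.2.2 * (h p.2.1 * h p.1) * hbX φ p ∂(mu3 d) :=
  weak_cut H.hd H.g1 H.g2 H.bm H.bd H.β0 hε hh hhc hφ hφm

theorem cut_H (H : Hyp d γ s b Cb Ca) {ε : ℝ} (hε : 0 < ε) {G : Vec d → ℝ} (hG : RD G)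
    (hGc : Continuous G) (pos : ∀ v, 0 < G v) (hl : PG fun v => Real.log (G v)) :
    ∫ v, boltzCut γ b ε G v * Real.log (G v) ≤ 0 := by
  have hlm : Measurable fun v => Real.log (G v) := hGc.measurable.log
  have i1 := hb_int H hε hG hGc hl hlm
  have i2 := hb_int' H hε hG hGc hl hlm
  rw [hb_weak H hε hG hGc hl hlm]
  set X := hbX fun v => Real.log (G v) with hX
  have mpost := (continuous_post (d := d)).measurable
  have mpost' := (continuous_post' (d := d)).measurable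
  have mP : Measurable fun p : Vec d × Vec d × Vec d => kerB γ b ε p.1 p.2.1 p.2.2 *
        (G (post p.1 p.2.1 p.2.2) * G (post' p.1 p.2.1 p.2.2)) * X p :=
    ((measurable_kerB γ H.bm ε).mul ((hGc.measurable.comp mpost).mul
      (hGc.measurable.comp mpost'))).mul (hbX_meas hlm)
  have e1 : ∫ p : Vec d × Vec d × Vec d, kerB γ b ε p.1 p.2.1 p.2.2 * (G p.2.1 * G p.1) * X p
        ∂(mu3 d) =
      -∫ p : Vec d × Vec d × Vec d, kerB γ b ε p.1 p.2.1 p.2.2 *
        (G (post p.1 p.2.1 p.2.2) * G (post' p.1 p.2.1 p.2.2)) * X p ∂(mu3 d) := by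
    rw [← integral_comp_mp (coll_preserving H.hd1) mP, ← integral_neg]
    refine integral_congr_ae ?_
    filter_upwards [ae_good H.hd1] with p hp
    obtain ⟨v, w, σ⟩ := p
    have hp1 : v ≠ w := hp.1
    have hp2 : nsq σ = 1 := hp.2
    simp only [coll, hX, hbX]
    rw [kerB_post γ b ε hp1 hp2, post_post hp1 hp2, post'_post hp1 hp2]
    ring
  have e2 : 2 * ∫ p : Vec d × Vec d × Vec d, kerB γ b ε p.1 p.2.1 p.2.2 * (G p.2.1 * G p.1) * X p
        ∂(mu3 d) =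
      ∫ p : Vec d × Vec d × Vec d, (kerB γ b ε p.1 p.2.1 p.2.2 * (G p.2.1 * G p.1) * X p -
        kerB γ b ε p.1 p.2.1 p.2.2 *
        (G (post p.1 p.2.1 p.2.2) * G (post' p.1 p.2.1 p.2.2)) * X p) ∂(mu3 d) := by
    rw [integral_sub i1 i2, two_mul]
    nth_rewrite 2 [e1]
    ring
  have e3 : ∫ p : Vec d × Vec d × Vec d, (kerB γ b ε p.1 p.2.1 p.2.2 * (G p.2.1 * G p.1) * X p -
        kerB γ b ε p.1 p.2.1 p.2.2 *
        (G (post p.1 p.2.1 p.2.2) * G (post' p.1 p.2.1 p.2.2)) * X p) ∂(mu3 d) ≤ 0 := by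
    refine integral_nonpos_of_ae ?_
    filter_upwards [ae_good H.hd1] with p hp
    obtain ⟨v, w, σ⟩ := p
    have hp2 : nsq σ = 1 := hp.2
    have hk : 0 ≤ kerB γ b ε v w σ := kerB_nonneg H.bd hε hp2
    have g1 := pos v
    have g2 := pos w
    have g3 := pos (post v w σ)
    have g4 := pos (post' v w σ)
    have hXe : X (v, w, σ) = Real.log (G (post v w σ) * G (post' v w σ)) - Real.log (G w * G v) := by
      rw [Real.log_mul g3.ne' g4.ne', Real.log_mul g2.ne' g1.ne']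
      simp only [hX, hbX]
      ring
    have hm : 0 ≤ (G (post v w σ) * G (post' v w σ) - G w * G v) *
        (Real.log (G (post v w σ) * G (post' v w σ)) - Real.log (G w * G v)) := by
      rcases le_total (G w * G v) (G (post v w σ) * G (post' v w σ)) with h | h
      · exact mul_nonneg (by linarith) (by
          have := Real.log_le_log (mul_pos g2 g1) h
          linarith)
      · exact mul_nonneg_of_nonpos_of_nonpos (by linarith) (by
          have := Real.log_le_log (mul_pos g3 g4) h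
          linarith)
    change kerB γ b ε v w σ * (G w * G v) * X (v, w, σ) - kerB γ b ε v w σ *
        (G (post v w σ) * G (post' v w σ)) * X (v, w, σ) ≤ 0
    rw [hXe]
    have := mul_nonneg hk hm
    linarith
  linarith

private theorem hb_gau_pos (v : Vec d) : 0 < gau v := Real.exp_pos _

private theorem hb_gau_le_one (v : Vec d) : gau v ≤ 1 := by
  unfold gau
  exact Real.exp_le_one_iff.2 (neg_nonpos.2 (sq_nonneg' v))

private theorem hb_nice_add {g : Vec d → ℝ} (hg : Nice g) (δ : ℝ) :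
    Nice fun v => g v + δ * gau v := by
  have hm := nice_gau (d := d)
  have e1 : fderiv ℝ (fun v => g v + δ * gau v) = fun v => fderiv ℝ g v + δ • fderiv ℝ gau v := by
    funext v
    exact ((hg.diff v).hasFDerivAt.add ((hm.diff v).hasFDerivAt.const_mul δ)).fderiv
  have e2 : fderiv ℝ (fderiv ℝ (fun v => g v + δ * gau v)) =
      fun v => fderiv ℝ (fderiv ℝ g) v + δ • fderiv ℝ (fderiv ℝ gau) v := by
    rw [e1]
    funext v
    exact ((hg.diff1 v).hasFDerivAt.add ((hm.diff1 v).hasFDerivAt.const_smul δ)).fderiv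
  have r : ∀ {E : Type} [NormedAddCommGroup E] [NormedSpace ℝ E] (h : Vec d → E), RD h →
      RD fun v => δ • h v := by
    intro E _ _ h hh
    refine hh.mono |δ| fun v => ?_
    rw [norm_smul, Real.norm_eq_abs]
  refine ⟨hg.smooth.add (contDiff_const.mul hm.smooth), ?_, ?_, ?_⟩
  · exact hg.rd.add (r _ hm.rd)
  · rw [e1]; exact hg.rd1.add (r _ hm.rd1)
  · rw [e2]; exact hg.rd2.add (r _ hm.rd2)

private theorem hb_fd1 {g : Vec d → ℝ} (hg : Nice g) (δ : ℝ) (v : Vec d) :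
    fderiv ℝ (fun v => g v + δ * gau v) v = fderiv ℝ g v + δ • fderiv ℝ gau v :=
  ((hg.diff v).hasFDerivAt.add (((nice_gau (d := d)).diff v).hasFDerivAt.const_mul δ)).fderiv

private theorem hb_fd2 {g : Vec d → ℝ} (hg : Nice g) (δ : ℝ) (v : Vec d) :
    fderiv ℝ (fderiv ℝ (fun v => g v + δ * gau v)) v =
      fderiv ℝ (fderiv ℝ g) v + δ • fderiv ℝ (fderiv ℝ gau) v := by
  have e1 : fderiv ℝ (fun v => g v + δ * gau v) = fun v => fderiv ℝ g v + δ • fderiv ℝ gau v :=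
    funext fun v => hb_fd1 hg δ v
  rw [e1]
  exact ((hg.diff1 v).hasFDerivAt.add
    (((nice_gau (d := d)).diff1 v).hasFDerivAt.const_smul δ)).fderiv

private theorem hb_unice {C : ℕ → ℝ} : ∃ C' : ℕ → ℝ, ∀ g : Vec d → ℝ, UNice C g →
    ∀ δ ∈ Ioc (0 : ℝ) 1, UNice C' fun v => g v + δ * gau v := by
  have hm := nice_gau (d := d)
  have h0 : ∀ N, ∃ a, ∀ v : Vec d, (1 + ‖v‖) ^ N * ‖gau v‖ ≤ a := hm.rd
  have h1 : ∀ N, ∃ a, ∀ v : Vec d, (1 + ‖v‖) ^ N * ‖fderiv ℝ gau v‖ ≤ a := hm.rd1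
  have h2 : ∀ N, ∃ a, ∀ v : Vec d, (1 + ‖v‖) ^ N * ‖fderiv ℝ (fderiv ℝ gau) v‖ ≤ a := hm.rd2
  choose a0 ha0 using h0
  choose a1 ha1 using h1
  choose a2 ha2 using h2
  refine ⟨fun N => C N + (a0 N + a1 N + a2 N), fun g hg δ hδ => ?_⟩
  have hδ0 : 0 < δ := hδ.1
  have hδ1 : δ ≤ 1 := hδ.2
  refine ⟨hb_nice_add hg.nice δ, fun v => add_nonneg (hg.nonneg v)
    (mul_nonneg hδ0.le (hb_gau_pos v).le), fun N v => ?_⟩
  have hw : 0 ≤ (1 + ‖v‖) ^ N := pow_nonneg (w_pos v).le _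
  rw [hb_fd1 hg.nice, hb_fd2 hg.nice]
  have b0 : δ * gau v ≤ ‖gau v‖ := by
    rw [Real.norm_eq_abs, abs_of_pos (hb_gau_pos v)]
    have := mul_le_mul_of_nonneg_right hδ1 (hb_gau_pos v).le
    rwa [one_mul] at this
  have b1 : ‖fderiv ℝ g v + δ • fderiv ℝ gau v‖ ≤ ‖fderiv ℝ g v‖ + ‖fderiv ℝ gau v‖ := by
    refine (norm_add_le _ _).trans (add_le_add le_rfl ?_)
    rw [norm_smul, Real.norm_eq_abs, abs_of_pos hδ0]
    have := mul_le_mul_of_nonneg_right hδ1 (norm_nonneg (fderiv ℝ (gau (d := d)) v))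
    rwa [one_mul] at this
  have b2 : ‖fderiv ℝ (fderiv ℝ g) v + δ • fderiv ℝ (fderiv ℝ gau) v‖ ≤
      ‖fderiv ℝ (fderiv ℝ g) v‖ + ‖fderiv ℝ (fderiv ℝ gau) v‖ := by
    refine (norm_add_le (fderiv ℝ (fderiv ℝ g) v)
      (δ • fderiv ℝ (fderiv ℝ gau) v)).trans (add_le_add le_rfl ?_)
    have hs : ‖δ • fderiv ℝ (fderiv ℝ (gau (d := d))) v‖ ≤
        ‖δ‖ * ‖fderiv ℝ (fderiv ℝ (gau (d := d))) v‖ :=
      ContinuousLinearMap.opNorm_smul_le δ (fderiv ℝ (fderiv ℝ (gau (d := d))) v)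
    refine hs.trans ?_
    rw [Real.norm_eq_abs, abs_of_pos hδ0]
    have hn : 0 ≤ ‖fderiv ℝ (fderiv ℝ (gau (d := d))) v‖ :=
      (fderiv ℝ (fderiv ℝ (gau (d := d))) v).opNorm_nonneg
    have := mul_le_mul_of_nonneg_right hδ1 hn
    rwa [one_mul] at this
  have hgl := hg.le N v
  have := ha0 N v
  have := ha1 N v
  have := ha2 N v
  calc (1 + ‖v‖) ^ N * (g v + δ * gau v + ‖fderiv ℝ g v + δ • fderiv ℝ gau v‖ +
        ‖fderiv ℝ (fderiv ℝ g) v + δ • fderiv ℝ (fderiv ℝ gau) v‖)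
      ≤ (1 + ‖v‖) ^ N * (g v + ‖gau v‖ + (‖fderiv ℝ g v‖ + ‖fderiv ℝ gau v‖) +
        (‖fderiv ℝ (fderiv ℝ g) v‖ + ‖fderiv ℝ (fderiv ℝ gau) v‖)) := by
        refine mul_le_mul_of_nonneg_left ?_ hw
        linarith
    _ = (1 + ‖v‖) ^ N * (g v + ‖fderiv ℝ g v‖ + ‖fderiv ℝ (fderiv ℝ g) v‖) +
        ((1 + ‖v‖) ^ N * ‖gau v‖ + (1 + ‖v‖) ^ N * ‖fderiv ℝ gau v‖ +
          (1 + ‖v‖) ^ N * ‖fderiv ℝ (fderiv ℝ gau) v‖) := by ring
    _ ≤ C N + (a0 N + a1 N + a2 N) := by linarith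

private theorem hb_small {D L c ε : ℝ} (hε : 0 < ε) :
    ∃ δ₀ > 0, δ₀ ≤ 1 / 2 ∧ ∀ δ ∈ Ioc (0 : ℝ) δ₀, δ * D * (-Real.log δ + c) * L ≤ ε := by
  have h1 : Tendsto (fun δ : ℝ => δ * D * (-Real.log δ + c) * L) (𝓝[>] 0) (𝓝 0) := by
    have h2 : Tendsto (fun δ : ℝ => Real.log δ * δ) (𝓝[>] 0) (𝓝 0) := by
      have := tendsto_log_mul_rpow_nhdsGT_zero (r := 1) one_pos
      simpa using this
    have h3 : Tendsto (fun δ : ℝ => δ) (𝓝[>] 0) (𝓝 0) := tendsto_nhdsWithin_of_tendsto_nhds tendsto_id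
    have h4 : Tendsto (fun δ : ℝ => (-(Real.log δ * δ) + c * δ) * (D * L)) (𝓝[>] 0)
        (𝓝 ((-0 + c * 0) * (D * L))) := ((h2.neg.add (h3.const_mul c)).mul_const _)
    have e : (-0 + c * 0) * (D * L) = 0 := by ring
    rw [e] at h4
    refine h4.congr fun δ => ?_
    ring
  have h5 : ∀ᶠ δ : ℝ in 𝓝[>] 0, δ * D * (-Real.log δ + c) * L < ε := (tendsto_order.1 h1).2 ε hε
  rw [eventually_nhdsWithin_iff, Metric.eventually_nhds_iff] at h5
  obtain ⟨r, hr, h6⟩ := h5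
  refine ⟨min (r / 2) (1 / 2), lt_min (by linarith) (by norm_num), min_le_right _ _,
    fun δ hδ => ?_⟩
  refine (h6 (y := δ) ?_ hδ.1).le
  rw [Real.dist_eq, sub_zero, abs_of_pos hδ.1]
  have := hδ.2.trans (min_le_left _ _)
  linarith

private theorem hb_gau_cut (ε : ℝ) (v : Vec d) : boltzCut γ b ε (gau (d := d)) v = 0 := by
  unfold boltzCut
  refine integral_eq_zero_of_ae (Eventually.of_forall fun w => ?_)
  refine integral_eq_zero_of_ae ?_
  filter_upwards [surf_ae (d := d)] with σ hσ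
  have h : gau (post' v w σ) * gau (post v w σ) = gau w * gau v := by
    unfold gau
    rw [← Real.exp_add, ← Real.exp_add]
    have := energy_post (v := v) (w := w) hσ
    congr 1
    linarith
  rw [h, sub_self, mul_zero]
  rfl

private theorem hb_decomp (H : Hyp d γ s b Cb Ca) {ε : ℝ} (hε : 0 < ε) {g : Vec d → ℝ} (hg : Nice g)
    (δ : ℝ) {φ : Vec d → ℝ} (hφ : PG φ) (hφm : Measurable φ) :
    ∫ v, boltzCut γ b ε (fun v => g v + δ * gau v) v * φ v =
      (1 - δ) * (∫ v, boltzCut γ b ε g v * φ v) +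
        δ * ∫ v, boltzCut γ b ε (fun v => g v + 1 * gau v) v * φ v := by
  have hG := hb_nice_add hg δ
  have hG1 := hb_nice_add hg 1
  have hM := nice_gau (d := d)
  have z : ∫ v, boltzCut γ b ε (gau (d := d)) v * φ v = 0 := by
    simp_rw [hb_gau_cut, zero_mul]
    exact integral_zero _ _
  rw [hb_weak H hε hM.rd hM.cont hφ hφm] at z
  have i0 := hb_int H hε hg.rd hg.cont hφ hφm
  have i1 := hb_int H hε hG1.rd hG1.cont hφ hφm
  have i2 := hb_int H hε hM.rd hM.cont hφ hφm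
  rw [hb_weak H hε hG.rd hG.cont hφ hφm, hb_weak H hε hg.rd hg.cont hφ hφm,
    hb_weak H hε hG1.rd hG1.cont hφ hφm]
  have e : ∫ p : Vec d × Vec d × Vec d, kerB γ b ε p.1 p.2.1 p.2.2 *
      ((g p.2.1 + δ * gau p.2.1) * (g p.1 + δ * gau p.1)) * hbX φ p ∂(mu3 d) =
      (1 - δ) * (∫ p : Vec d × Vec d × Vec d, kerB γ b ε p.1 p.2.1 p.2.2 *
        (g p.2.1 * g p.1) * hbX φ p ∂(mu3 d)) +
      δ * (∫ p : Vec d × Vec d × Vec d, kerB γ b ε p.1 p.2.1 p.2.2 *
        ((g p.2.1 + 1 * gau p.2.1) * (g p.1 + 1 * gau p.1)) * hbX φ p ∂(mu3 d)) +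
      (δ ^ 2 - δ) * ∫ p : Vec d × Vec d × Vec d, kerB γ b ε p.1 p.2.1 p.2.2 *
        (gau p.2.1 * gau p.1) * hbX φ p ∂(mu3 d) := by
    have i01 : Integrable (fun p : Vec d × Vec d × Vec d =>
        (1 - δ) * (kerB γ b ε p.1 p.2.1 p.2.2 * (g p.2.1 * g p.1) * hbX φ p) +
        δ * (kerB γ b ε p.1 p.2.1 p.2.2 *
          ((g p.2.1 + 1 * gau p.2.1) * (g p.1 + 1 * gau p.1)) * hbX φ p)) (mu3 d) :=
      (i0.const_mul _).add (i1.const_mul _)
    rw [← integral_const_mul, ← integral_const_mul, ← integral_const_mul,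
      ← integral_add (i0.const_mul _) (i1.const_mul _),
      ← integral_add i01 (i2.const_mul _)]
    refine integral_congr_ae (Eventually.of_forall fun p => ?_)
    simp only
    ring
  rw [e]
  have z' : ∫ p : Vec d × Vec d × Vec d, kerB γ b ε p.1 p.2.1 p.2.2 *
        (gau p.2.1 * gau p.1) * hbX φ p ∂(mu3 d) = 0 := by linarith
  rw [z']
  ring

theorem hth_boltz (H : Hyp d γ s b Cb Ca) : HTh (d := d) (boltzQ γ b) := by
  intro C ε hε
  obtain ⟨C1, hC1⟩ := hb_unice (d := d) (C := C)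
  obtain ⟨A, hA0, hA⟩ := boltzCut_decay_unif H C1 (d + 3)
  have hI0 : 0 ≤ ∫ z, wt d z := integral_nonneg fun z => wt_nonneg z
  have hlog0 : 0 ≤ Real.log (max (C 0) 0 + 1) := Real.log_nonneg (by
    have := le_max_right (C 0) 0; linarith)
  obtain ⟨δ₀, hδ₀, hδ₀1, hsm⟩ := hb_small (D := 2 * A) (L := ∫ z, wt d z)
    (c := (d : ℝ) + Real.log (max (C 0) 0 + 1)) hε
  refine ⟨δ₀, hδ₀, fun δ hδ g hg => ?_⟩
  have hδ0 : 0 < δ := hδ.1
  have hδh : δ ≤ 1 / 2 := hδ.2.trans hδ₀1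
  have hδI : δ ∈ Ioc (0 : ℝ) 1 := ⟨hδ.1, by linarith⟩
  have hG := hb_nice_add hg.nice δ
  have hGpos : ∀ v, 0 < g v + δ * gau v := fun v =>
    add_pos_of_nonneg_of_pos (hg.nonneg v) (mul_pos hδ0 (hb_gau_pos v))
  -- bounds of the logarithm
  have hlogle : ∀ v, |Real.log (g v + δ * gau v)| ≤
      -Real.log δ + nsq v + Real.log (max (C 0) 0 + 1) := by
    intro v
    have hlδ : Real.log δ ≤ 0 := Real.log_nonpos hδ0.le hδI.2
    have hn := sq_nonneg' v
    rw [abs_le]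
    constructor
    · have h3 : Real.log (δ * gau v) ≤ Real.log (g v + δ * gau v) :=
        Real.log_le_log (mul_pos hδ0 (hb_gau_pos v)) (by linarith [hg.nonneg v])
      have h4 : Real.log (δ * gau v) = Real.log δ - nsq v := by
        rw [Real.log_mul hδ0.ne' (hb_gau_pos v).ne']
        unfold gau
        rw [Real.log_exp]
        ring
      rw [h4] at h3
      linarith
    · have h3 : g v + δ * gau v ≤ max (C 0) 0 + 1 := by
        have h4 : g v ≤ C 0 := by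
          have := hg.le 0 v
          rw [pow_zero, one_mul] at this
          have := norm_nonneg (fderiv ℝ g v)
          have := norm_nonneg (fderiv ℝ (fderiv ℝ g) v)
          linarith
        have h5 : δ * gau v ≤ 1 := by
          have := mul_le_mul hδI.2 (hb_gau_le_one v) (hb_gau_pos v).le zero_le_one
          linarith
        have := le_max_left (C 0) 0
        linarith
      have h6 := Real.log_le_log (hGpos v) h3
      linarith
  have hlPG : PG fun v => Real.log (g v + δ * gau v) := by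
    have hp : PG fun v : Vec d => -Real.log δ + nsq v + Real.log (max (C 0) 0 + 1) :=
      ((PG.const (-Real.log δ)).add PG.nsq).add (PG.const _)
    obtain ⟨N, K, hK⟩ := hp
    refine ⟨N, K, fun v => ?_⟩
    rw [Real.norm_eq_abs]
    refine (hlogle v).trans ((le_abs_self _).trans ?_)
    have := hK v
    rwa [Real.norm_eq_abs] at this
  have hlm : Measurable fun v => Real.log (g v + δ * gau v) := hG.cont.measurable.log
  have hlim := boltz_weak_tendsto H hg.nice hlPG hlm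
  refine le_of_tendsto hlim ?_
  filter_upwards [self_mem_nhdsWithin] with ε' hε'
  have hε'0 : 0 < ε' := hε'
  have hH := cut_H H hε'0 hG.rd hG.cont hGpos hlPG
  rw [hb_decomp H hε'0 hg.nice δ hlPG hlm] at hH
  set J := ∫ v, boltzCut γ b ε' g v * Real.log (g v + δ * gau v) with hJ
  have e2 : |∫ v, boltzCut γ b ε' (fun v => g v + 1 * gau v) v * Real.log (g v + δ * gau v)| ≤
        ∫ v, A * (-Real.log δ + ((d : ℝ) + Real.log (max (C 0) 0 + 1))) * wt d v := by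
    rw [← Real.norm_eq_abs]
    refine norm_integral_le_of_norm_le (integrable_wt.const_mul _)
      (Eventually.of_forall fun v => ?_)
    rw [norm_mul, Real.norm_eq_abs, Real.norm_eq_abs]
    have hw := w_pos v
    have h3 := hA _ (hC1 g hg 1 ⟨one_pos, le_refl _⟩) ε' hε'0 v
    have h4 := hlogle v
    have hlδ : 0 ≤ -Real.log δ := neg_nonneg.2 (Real.log_nonpos hδ0.le hδI.2)
    have h5 : -Real.log δ + nsq v + Real.log (max (C 0) 0 + 1) ≤
        (-Real.log δ + ((d : ℝ) + Real.log (max (C 0) 0 + 1))) * (1 + ‖v‖) ^ 2 := by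
      have h6 := sq_le v
      have h7 : (1 : ℝ) ≤ (1 + ‖v‖) ^ 2 := one_le_pow₀ (one_le_w v)
      have h8 : ‖v‖ ^ 2 ≤ (1 + ‖v‖) ^ 2 :=
        pow_le_pow_left₀ (norm_nonneg v) (by linarith [norm_nonneg v]) 2
      have hd : (0 : ℝ) ≤ d := Nat.cast_nonneg d
      have h9 : nsq v ≤ d * (1 + ‖v‖) ^ 2 := h6.trans (mul_le_mul_of_nonneg_left h8 hd)
      have h10 := mul_le_mul_of_nonneg_left h7 hlδ
      have h11 := mul_le_mul_of_nonneg_left h7 hlog0
      nlinarith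
    have hwt : ((1 + ‖v‖) ^ (d + 3))⁻¹ * (1 + ‖v‖) ^ 2 = wt d v := by
      unfold wt
      have e7 : (1 + ‖v‖) ^ (d + 3) = (1 + ‖v‖) ^ (d + 1) * (1 + ‖v‖) ^ 2 := by ring
      have hne : (1 + ‖v‖) ^ 2 ≠ 0 := (pow_pos hw _).ne'
      rw [e7, mul_inv, mul_assoc, inv_mul_cancel₀ hne, mul_one]
    calc |boltzCut γ b ε' (fun v => g v + 1 * gau v) v| * |Real.log (g v + δ * gau v)|
        ≤ (A * ((1 + ‖v‖) ^ (d + 3))⁻¹) *
          ((-Real.log δ + ((d : ℝ) + Real.log (max (C 0) 0 + 1))) * (1 + ‖v‖) ^ 2) :=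
          mul_le_mul h3 (h4.trans h5) (abs_nonneg _) (by positivity)
      _ = A * (-Real.log δ + ((d : ℝ) + Real.log (max (C 0) 0 + 1))) *
          (((1 + ‖v‖) ^ (d + 3))⁻¹ * (1 + ‖v‖) ^ 2) := by ring
      _ = A * (-Real.log δ + ((d : ℝ) + Real.log (max (C 0) 0 + 1))) * wt d v := by rw [hwt]
  rw [integral_const_mul] at e2
  set U := A * (-Real.log δ + ((d : ℝ) + Real.log (max (C 0) 0 + 1))) * ∫ v, wt d v with hU
  have e5 := (abs_le.1 e2).1
  have hsm' := hsm δ hδ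
  have hlδ : 0 ≤ -Real.log δ := neg_nonneg.2 (Real.log_nonpos hδ0.le hδI.2)
  have hU0 : 0 ≤ U := by positivity
  have hU2 : δ * (2 * A) * (-Real.log δ + ((d : ℝ) + Real.log (max (C 0) 0 + 1))) *
      ∫ v, wt d v = 2 * δ * U := by rw [hU]; ring
  rw [hU2] at hsm'
  have h6 : (1 - δ) * J ≤ δ * U := by
    have := mul_le_mul_of_nonneg_left e5 hδ0.le
    linarith
  by_contra hcon
  have hcon' : ε < J := not_le.1 hcon
  have h7 : 0 < J := hε.trans hcon'
  nlinarith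

end Pool.Agent.H15.AV
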