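import Pool.Agent.H15.AV.Abs
import Pool.Agent.H15.AVB.GdB
import Pool.Agent.H15.AVB.HB
import Pool.Agent.H25.Kin.AdmisB

/-!
# Hydrodynamic bounds in measure for the Boltzmann equation without cut-off
-/

set_option autoImplicit false

open MeasureTheory Set Filter Topology Pool.Agent.H25.Kin
open scoped ContDiff

namespace Pool.Agent.H15.AV

variable {d : ℕ}

theorem slice_of_admissibleB {F : Vec d → Vec d → ℝ} (hF : IsAdmissibleB F) : Slice F :=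
  ⟨hF.nonneg, hF.periodic, hF.smooth.continuous, hF.decay⟩

theorem boltz_main (hd : 2 ≤ d) {γ s : ℝ} {b : ℝ → ℝ} (hs : s ∈ Ioo (0 : ℝ) 1)
    (h0 : 0 ≤ γ + 2 * s) (h2 : γ + 2 * s < 2) (hb : IsKernel d s b)
    {F₀ : Vec d → Vec d → ℝ} (hF : IsAdmissibleB F₀) {ε : ℝ} (hε : 0 < ε) :
    ∃ m > 0, ∃ M E H : ℝ, ∀ (T : ℝ) (f : ℝ → Vec d → Vec d → ℝ), IsBoltzmannSol γ b T f →
      f 0 = F₀ → ∀ t ∈ Ico 0 T,
        volume {x ∈ Icc (0 : Vec d) 1 | ¬ HydroBounds m M E H (f t x)} ≤ ENNReal.ofReal ε := by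
  obtain ⟨Cb, Ca, H⟩ := exists_hyp hd hs.1 hs.2 h0 h2.le hb
  exact hydro_in_measure (q := γ + 2 * s) (Q := boltzQ γ b) (fibTh_boltz H hb)
    (hth_boltz H) h0 h2 (fun T f hf => boltz_HasInvariants H hf)
    (contDiff_infty.1 hF.smooth 2) (slice_of_admissibleB hF) hF.mass_pos hε

end Pool.Agent.H15.AV
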