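import Pool.Agent.H15.AVB.BFin
import Pool.Agent.H15.AV.AbsU

/-!
# Hydrodynamic bounds in measure for the Boltzmann equation, quantitative form
-/

set_option autoImplicit false

open MeasureTheory Set Filter Topology Pool.Agent.H25.Kin
open scoped ContDiff

namespace Pool.Agent.H15.AV

variable {d : ℕ}

theorem boltz_universal (hd : 2 ≤ d) {γ s : ℝ} {b : ℝ → ℝ} (hs : s ∈ Ioo (0 : ℝ) 1)
    (h0 : 0 ≤ γ + 2 * s) (h2 : γ + 2 * s < 2) (hb : IsKernel d s b) {a : ℝ} (ha : 0 < a)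
    (A : ℝ) {h ε : ℝ} (hh : 0 < h) (hε : 0 < ε) :
    ∃ m > 0, ∃ M E H : ℝ, ∀ F₀ : Vec d → Vec d → ℝ, IsAdmissibleB F₀ →
      a ≤ ∫ x in Icc (0 : Vec d) 1, ∫ v, F₀ x v → ∫ x in Icc (0 : Vec d) 1, ∫ v, F₀ x v ≤ A →
      ∫ x in Icc (0 : Vec d) 1, ∫ v, F₀ x v * nsq v ≤ A →
      ∫ x in Icc (0 : Vec d) 1, ∫ v, F₀ x v * Real.log (F₀ x v) ≤ A →
      ∃ m₀ > 0, ∀ (T : ℝ) (f : ℝ → Vec d → Vec d → ℝ), IsBoltzmannSol γ b T f → f 0 = F₀ →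
        ∀ t ∈ Ico 0 T, volume {x ∈ Icc (0 : Vec d) 1 |
          ¬ HydroBounds (if t < h then m₀ else m) M E H (f t x)} ≤ ENNReal.ofReal ε := by
  obtain ⟨Cb, Ca, Hy⟩ := exists_hyp hd hs.1 hs.2 h0 h2.le hb
  obtain ⟨m, hm, M, E, H, hu⟩ := hydro_universal (q := γ + 2 * s) (Q := boltzQ γ b)
    (fibTh_boltz Hy hb) (hth_boltz Hy) h0 h2 (fun T f hf => boltz_HasInvariants Hy hf) ha A hh hε
  exact ⟨m, hm, M, E, H, fun F₀ hF => hu F₀ (contDiff_infty.1 hF.smooth 2)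
    (slice_of_admissibleB hF) hF.mass_pos⟩

end Pool.Agent.H15.AV
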