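import Pool.Agent.H15.AV.Defs
import Pool.Agent.H25.Kin.BLim

/-!
# Uniform decay of the cut-off operators on bounded sets

MODULE DecU. The proof of `boltzCut_decay` (H25/Kin/BLim, with `inner_Dl`, `second_diff_prod`, `Nice.size`,
`post_prod_le`, `prod_le'`) with constants which depend on the bounds `C` of `UNice C g` only.
-/

set_option autoImplicit false

open MeasureTheory Set Filter Topology Pool.Agent.H25.Kin

namespace Pool.Agent.H15.AV

variable {d : ℕ} {γ s Cb Ca : ℝ} {b : ℝ → ℝ}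

private lemma decU_size (C : ℕ → ℝ) (L : ℕ) {g : Vec d → ℝ} (hg : UNice C g) (v : Vec d) :
    |g v| ≤ |C L| * ((1 + ‖v‖) ^ L)⁻¹ ∧
    ‖fderiv ℝ g v‖ ≤ |C L| * ((1 + ‖v‖) ^ L)⁻¹ ∧
    ‖fderiv ℝ (fderiv ℝ g) v‖ ≤ |C L| * ((1 + ‖v‖) ^ L)⁻¹ := by
  have h := (hg.le L v).trans (le_abs_self (C L))
  have hw : 0 < (1 + ‖v‖) ^ L := pow_pos (w_pos v) L
  have h0 := hg.nonneg v
  have h1 := norm_nonneg (fderiv ℝ g v)
  have h2 := norm_nonneg (fderiv ℝ (fderiv ℝ g) v)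
  have m0 := mul_nonneg hw.le h0
  have m1 := mul_nonneg hw.le h1
  have m2 := mul_nonneg hw.le h2
  rw [mul_add, mul_add] at h
  refine ⟨?_, ?_, ?_⟩
  · rw [abs_of_nonneg h0, ← div_eq_mul_inv, le_div_iff₀ hw, mul_comm]
    linarith
  · rw [← div_eq_mul_inv, le_div_iff₀ hw, mul_comm]
    linarith
  · rw [← div_eq_mul_inv, le_div_iff₀ hw, mul_comm]
    linarith

/-- second difference of `g(v') g(w')`, with an explicit constant -/
private lemma decU_second {g : Vec d → ℝ} (hg : Nice g) (N : ℕ) {K : ℝ} (hK0 : 0 ≤ K)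
    (hK : ∀ v, |g v| ≤ K * ((1 + ‖v‖) ^ (2 * N))⁻¹ ∧
      ‖fderiv ℝ g v‖ ≤ K * ((1 + ‖v‖) ^ (2 * N))⁻¹ ∧
      ‖fderiv ℝ (fderiv ℝ g) v‖ ≤ K * ((1 + ‖v‖) ^ (2 * N))⁻¹)
    (v w σ : Vec d) (hvw : v ≠ w) (hσ : nsq σ = 1) :
    |(g (post' v w σ) * g (post v w σ) - g w * g v) +
      (g (post' v w (refl (dirk v w) σ)) * g (post v w (refl (dirk v w) σ)) - g w * g v)| ≤
      (K ^ 2 * (4 * cw d N + 2) + 4 * K ^ 2 * cw d N) * (1 + nsq (v - w)) * pw N v w *
        min (1 - cosTh v w σ) 1 := by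
  have hcw := one_le_cw (d := d) N
  set ρ := len (v - w) / 2 with hρ
  have hl := len_nonneg (v - w)
  have hρ0 : 0 ≤ ρ := by positivity
  set R := refl (dirk v w) σ with hR
  have hRσ : nsq R = 1 := by rw [hR, nsq_refl (nsq_dirk hvw), hσ]
  have hx := one_sub_cosTh_nonneg (v := v) (w := w) hσ
  have hns : nsq (v - w) = 4 * ρ ^ 2 := by rw [← len_sq, hρ]; ring
  have hP := pw_nonneg N v w
  have hK' : ∀ v, |g v| ≤ K * ((1 + ‖v‖) ^ (2 * N))⁻¹ := fun v => (hK v).1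
  have hpwmono : (((1 + ‖v‖) * (1 + ‖w‖)) ^ (2 * N))⁻¹ ≤ pw N v w := pw_mono (by omega) v w
  rcases le_total 0 (cosTh v w σ) with hc | hc
  · -- small angles
    have hmin : min (1 - cosTh v w σ) 1 = 1 - cosTh v w σ := min_eq_left (by linarith)
    rw [hmin]
    have n1 := norm_sq_sub_dirk hvw hσ
    have n2 := norm_sq_sub_dirk hvw hRσ
    have ecos : cosTh v w R = cosTh v w σ := cosTh_refl hvw
    rw [ecos] at n2
    have t1 := taylor_prod hg hK0 hK v w (ρ • (σ - dirk v w)) (A := cw d N * pw N v w)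
      (fun τ hτ => weight_pow (path_weight hvw hσ hc hτ) N)
    have t2 := taylor_prod hg hK0 hK v w (ρ • (R - dirk v w)) (A := cw d N * pw N v w)
      (fun τ hτ => weight_pow (path_weight hvw hRσ (by rw [ecos]; exact hc) hτ) N)
    rw [norm_smul, mul_pow, Real.norm_eq_abs, sq_abs] at t1 t2
    have t3 : |(fderiv ℝ g v (ρ • (σ - dirk v w)) * g w - g v * fderiv ℝ g w (ρ • (σ - dirk v w))) +
        (fderiv ℝ g v (ρ • (R - dirk v w)) * g w - g v * fderiv ℝ g w (ρ • (R - dirk v w)))| ≤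
        4 * ρ * K ^ 2 * pw N v w * (1 - cosTh v w σ) := by
      have e1 : (fderiv ℝ g v (ρ • (σ - dirk v w)) * g w - g v * fderiv ℝ g w (ρ • (σ - dirk v w))) +
        (fderiv ℝ g v (ρ • (R - dirk v w)) * g w - g v * fderiv ℝ g w (ρ • (R - dirk v w))) =
          ρ * (fderiv ℝ g v ((σ - dirk v w) + (R - dirk v w)) * g w -
            g v * fderiv ℝ g w ((σ - dirk v w) + (R - dirk v w))) := by
        simp only [map_smul, smul_eq_mul, map_add]; ring
      rw [e1, refl_sub_add, map_smul, map_smul, smul_eq_mul, smul_eq_mul]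
      have e2 : ρ * (-(2 * (1 - cosTh v w σ)) * fderiv ℝ g v (dirk v w) * g w -
          g v * (-(2 * (1 - cosTh v w σ)) * fderiv ℝ g w (dirk v w))) =
          -(2 * ρ * (1 - cosTh v w σ) * (fderiv ℝ g v (dirk v w) * g w -
            g v * fderiv ℝ g w (dirk v w))) := by ring
      rw [e2, abs_neg, abs_mul, abs_of_nonneg (by positivity : 0 ≤ 2 * ρ * (1 - cosTh v w σ))]
      have hk := norm_dirk_le hvw
      have b1 := apply_le (hK v).2.1 (dirk v w)
      have b2 := apply_le (hK w).2.1 (dirk v w)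
      have hv0 : 0 ≤ ((1 + ‖v‖) ^ (2 * N))⁻¹ := inv_nonneg.2 (pow_nonneg (w_pos v).le _)
      have hw0 : 0 ≤ ((1 + ‖w‖) ^ (2 * N))⁻¹ := inv_nonneg.2 (pow_nonneg (w_pos w).le _)
      have c1 : |fderiv ℝ g v (dirk v w)| ≤ K * ((1 + ‖v‖) ^ (2 * N))⁻¹ :=
        b1.trans (mul_le_of_le_one_right (by positivity) hk)
      have c2 : |fderiv ℝ g w (dirk v w)| ≤ K * ((1 + ‖w‖) ^ (2 * N))⁻¹ :=
        b2.trans (mul_le_of_le_one_right (by positivity) hk)
      have c3 : |fderiv ℝ g v (dirk v w) * g w - g v * fderiv ℝ g w (dirk v w)| ≤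
          2 * K ^ 2 * pw N v w := by
        refine (abs_sub _ _).trans ?_
        rw [abs_mul, abs_mul]
        have d1 := mul_le_mul c1 (hK w).1 (abs_nonneg _) (by positivity)
        have d2 := mul_le_mul (hK v).1 c2 (abs_nonneg _) (by positivity)
        have e3 : K * ((1 + ‖v‖) ^ (2 * N))⁻¹ * (K * ((1 + ‖w‖) ^ (2 * N))⁻¹) =
            K ^ 2 * (((1 + ‖v‖) * (1 + ‖w‖)) ^ (2 * N))⁻¹ := by
          rw [mul_pow (1 + ‖v‖), mul_inv]; ring
        rw [e3] at d1 d2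
        have d3 : K ^ 2 * (((1 + ‖v‖) * (1 + ‖w‖)) ^ (2 * N))⁻¹ ≤ K ^ 2 * pw N v w := by gcongr
        linarith
      calc 2 * ρ * (1 - cosTh v w σ) * |fderiv ℝ g v (dirk v w) * g w - g v * fderiv ℝ g w (dirk v w)|
          ≤ 2 * ρ * (1 - cosTh v w σ) * (2 * K ^ 2 * pw N v w) := by gcongr
        _ = _ := by ring
    rw [post_eq, post'_eq, post_eq, post'_eq, ← hρ]
    have c1 : 4 * K ^ 2 * (cw d N * pw N v w) * (ρ ^ 2 * ‖σ - dirk v w‖ ^ 2) ≤
        4 * K ^ 2 * (cw d N * pw N v w) * (ρ ^ 2 * (2 * (1 - cosTh v w σ))) := by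
      gcongr
    have c2 : 4 * K ^ 2 * (cw d N * pw N v w) * (ρ ^ 2 * ‖R - dirk v w‖ ^ 2) ≤
        4 * K ^ 2 * (cw d N * pw N v w) * (ρ ^ 2 * (2 * (1 - cosTh v w σ))) := by
      gcongr
    have t1' := t1.trans c1
    have t2' := t2.trans c2
    have hfin : 16 * K ^ 2 * cw d N * ρ ^ 2 * pw N v w * (1 - cosTh v w σ) +
        4 * ρ * K ^ 2 * pw N v w * (1 - cosTh v w σ) ≤
        (K ^ 2 * (4 * cw d N + 2) + 4 * K ^ 2 * cw d N) * (1 + nsq (v - w)) * pw N v w *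
          (1 - cosTh v w σ) := by
      have hX : 0 ≤ K ^ 2 * pw N v w * (1 - cosTh v w σ) := by positivity
      have hin : 16 * cw d N * ρ ^ 2 + 4 * ρ ≤ ((4 * cw d N + 2) + 4 * cw d N) * (1 + 4 * ρ ^ 2) := by
        nlinarith [sq_nonneg (ρ - 1), sq_nonneg ρ, mul_nonneg (by linarith : 0 ≤ cw d N) (sq_nonneg ρ),
          sq_nonneg (2 * ρ - 1)]
      rw [hns]
      calc 16 * K ^ 2 * cw d N * ρ ^ 2 * pw N v w * (1 - cosTh v w σ) +
          4 * ρ * K ^ 2 * pw N v w * (1 - cosTh v w σ) =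
          (16 * cw d N * ρ ^ 2 + 4 * ρ) * (K ^ 2 * pw N v w * (1 - cosTh v w σ)) := by ring
        _ ≤ (((4 * cw d N + 2) + 4 * cw d N) * (1 + 4 * ρ ^ 2)) *
            (K ^ 2 * pw N v w * (1 - cosTh v w σ)) := mul_le_mul_of_nonneg_right hin hX
        _ = _ := by ring
    refine le_trans ?_ hfin
    rw [abs_le] at t1' t2' t3 ⊢
    constructor
    · linarith [t1'.1, t2'.1, t3.1]
    · linarith [t1'.2, t2'.2, t3.2]
  · -- large angles
    have hmin : min (1 - cosTh v w σ) 1 = 1 := min_eq_right (by linarith)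
    rw [hmin, mul_one]
    have b1 := (prod_le hK0 hK' (post v w σ) (post' v w σ)).trans
      (mul_le_mul_of_nonneg_left (weight_post (v := v) (w := w) hσ N) (sq_nonneg K))
    have b2 := (prod_le hK0 hK' (post v w R) (post' v w R)).trans
      (mul_le_mul_of_nonneg_left (weight_post (v := v) (w := w) hRσ N) (sq_nonneg K))
    have b3 := (prod_le hK0 hK' v w).trans (mul_le_mul_of_nonneg_left hpwmono (sq_nonneg K))
    have e1 : (g (post' v w σ) * g (post v w σ) - g w * g v) +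
      (g (post' v w R) * g (post v w R) - g w * g v) =
      g (post v w σ) * g (post' v w σ) + g (post v w R) * g (post' v w R) - 2 * (g v * g w) := by ring
    rw [e1]
    have hfin : 2 * (K ^ 2 * (cw d N * pw N v w)) + 2 * (K ^ 2 * pw N v w) ≤
        (K ^ 2 * (4 * cw d N + 2) + 4 * K ^ 2 * cw d N) * (1 + nsq (v - w)) * pw N v w := by
      have hX : 0 ≤ K ^ 2 * pw N v w := by positivity
      have hin : 2 * cw d N + 2 ≤ ((4 * cw d N + 2) + 4 * cw d N) * (1 + nsq (v - w)) := by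
        nlinarith [sq_nonneg' (v - w), mul_nonneg (by linarith : 0 ≤ cw d N) (sq_nonneg' (v - w))]
      calc 2 * (K ^ 2 * (cw d N * pw N v w)) + 2 * (K ^ 2 * pw N v w) =
          (2 * cw d N + 2) * (K ^ 2 * pw N v w) := by ring
        _ ≤ (((4 * cw d N + 2) + 4 * cw d N) * (1 + nsq (v - w))) * (K ^ 2 * pw N v w) :=
            mul_le_mul_of_nonneg_right hin hX
        _ = _ := by ring
    refine le_trans ?_ hfin
    rw [abs_le] at b1 b2 b3 ⊢
    constructor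
    · linarith [b1.1, b2.1, b3.2]
    · linarith [b1.2, b2.2, b3.1]

/-- bound of the inner integral -/
private lemma decU_inner (H : Hyp d γ s b Cb Ca) (C : ℕ → ℝ) (M : ℕ) : ∃ A, 0 ≤ A ∧
    ∀ g : Vec d → ℝ, UNice C g →
    ∀ ε > 0, ∀ v w : Vec d, v ≠ w → |∫ σ, kerB γ b ε v w σ * Dl g v w σ ∂(surf d)| ≤
      A * (((1 + ‖v‖) ^ M)⁻¹ * kg γ (v - w)) := by
  set K := |C (2 * (M + (d + 5)))| with hKdef
  have hK0 : 0 ≤ K := abs_nonneg _
  set N := M + (d + 5) with hN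
  have hcw := one_le_cw (d := d) N
  set Cs := K ^ 2 * (4 * cw d N + 2) + 4 * K ^ 2 * cw d N with hCsdef
  have hCs : 0 ≤ Cs := by positivity
  have hC0 := H.bd.1
  have hCa0 := H.an.1
  refine ⟨1 / 2 * Cb * Cs * Ca, by positivity, fun g hg ε hε v w hvw => ?_⟩
  have hs := decU_second hg.nice N hK0 (fun u => decU_size C (2 * N) hg u)
  obtain ⟨F0, hF0⟩ := Dl_bdd hg.nice.rd v w
  have hl := Real.rpow_nonneg (len_nonneg (v - w)) γ
  have hn := sq_nonneg' (v - w)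
  have hp := pw_nonneg N v w
  have h1 := inner_bound (γ := γ) H.hd1 H.an H.bm H.bd H.β0 hε hvw (Dl_meas hg.nice.cont v w) hF0
    (r := 1) (D := Cs * (1 + nsq (v - w)) * pw N v w) one_pos (by positivity)
    (fun σ hσ => by
      rw [one_pow, one_mul]
      exact hs v w σ hvw hσ)
  rw [Real.one_rpow, mul_one] at h1
  refine h1.trans ?_
  have h2 := kg_bound γ M v w
  calc 1 / 2 * Cb * len (v - w) ^ γ * (Cs * (1 + nsq (v - w)) * pw N v w) * Ca
      = 1 / 2 * Cb * Cs * Ca * (len (v - w) ^ γ * (1 + nsq (v - w)) * pw N v w) := by ring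
    _ ≤ 1 / 2 * Cb * Cs * Ca * (((1 + ‖v‖) ^ M)⁻¹ * kg γ (v - w)) := by gcongr

theorem boltzCut_decay_unif (H : Hyp d γ s b Cb Ca) (C : ℕ → ℝ) (M : ℕ) : ∃ A : ℝ, 0 ≤ A ∧
    ∀ g : Vec d → ℝ, UNice C g → ∀ ε > 0, ∀ v : Vec d,
      |boltzCut γ b ε g v| ≤ A * ((1 + ‖v‖) ^ M)⁻¹ := by
  obtain ⟨A, hA0, hA⟩ := decU_inner H C M
  have hki := kg_integrable H.hd H.g1 H.g2
  have hk0 : 0 ≤ ∫ z, kg (d := d) γ z := integral_nonneg fun z => kg_nonneg γ z
  refine ⟨A * ∫ z, kg (d := d) γ z, by positivity, fun g hg ε hε v => ?_⟩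
  rw [boltzCut_eq, ← Real.norm_eq_abs]
  calc ‖∫ w, ∫ σ, kerB γ b ε v w σ * Dl g v w σ ∂(surf d)‖
      ≤ ∫ w, A * (((1 + ‖v‖) ^ M)⁻¹ * kg γ (v - w)) := by
        refine norm_integral_le_of_norm_le (((hki.comp_sub_left v).const_mul _).const_mul _) ?_
        filter_upwards [ae_ne H.hd1 v] with w hw
        exact hA g hg ε hε v w hw
    _ = A * (∫ z, kg (d := d) γ z) * ((1 + ‖v‖) ^ M)⁻¹ := by
        rw [integral_const_mul, integral_const_mul, integral_sub_left_eq_self (fun z => kg (d := d) γ z)]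
        ring

end Pool.Agent.H15.AV
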