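import Pool.Agent.H15.AVB.BDef
import Pool.Agent.H15.AV.Tub

/-!
# Pairs of field particles in good fibers

MODULE PairM. Fix `a`, `‖a‖ ≤ R`. `good_mass` gives `R₀`, `η₀`: the mass of `closedBall 0 R₀ \ A` is
`≥ m/2` if `|A ∩ closedBall 0 R₀| ≤ η₀`. Choose `ρ` with `|{len (a - z) < ρ}| ≤ η₀`. Cover
`closedBall 0 R₀` by `J` cubes of Euclidean diameter `≤ ρ/4`; one of them, intersected with
`{ρ ≤ len (a - z)}`, has mass `≥ μ = m/(2J)`. For `z₀` in it, the set of `z₁` in `closedBall 0 R₀` with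
`nsq x nsq y - (x·y)² < κ` (`x = a - z₀`, `y = a - z₁`) lies in a slab: choose `i` with `|x_i| = ‖x‖` and
`j ≠ i`, `(x_i y_j - x_j y_i)² ≤ nsq x nsq y - (x·y)²` (`lcv_two` in LCv, private there: copy it), so
`|y_j - (x_j/x_i) y_i| < √κ/|x_i|`, and `slab_volume` makes its volume small; the mass on a small set is
small: entropy (see the proof of `good_mass`; prove a lemma `small_mass` for all good `g`: for every
`μ' > 0` there is `η' > 0` with `∫_A g ≤ μ'` for `A ⊆ closedBall 0 R₀`, `|A| ≤ η'`). So the pairs have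
mass `≥ μ (μ - μ/4)`, and by symmetry those with `len (a - z₁) ≤ len (a - z₀)` have at least half of
it. `R₁ = d (R + R₀) + 1` bounds `len (a - z₀)`.
-/

set_option autoImplicit false

open MeasureTheory Set Filter Topology Pool.Agent.H25.Kin

namespace Pool.Agent.H15.AV

variable {d : ℕ}

private lemma pm_lagrange (z ξ : Vec d) :
    ∑ k, ∑ l, (z k * ξ l - z l * ξ k) ^ 2 = 2 * (nsq z * nsq ξ - dot z ξ ^ 2) := by
  have h1 : ∀ k l, (z k * ξ l - z l * ξ k) ^ 2 =
      z k ^ 2 * ξ l ^ 2 + ξ k ^ 2 * z l ^ 2 - 2 * ((z k * ξ k) * (z l * ξ l)) := by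
    intro k l
    ring
  simp_rw [h1, Finset.sum_sub_distrib, Finset.sum_add_distrib, ← Finset.mul_sum, ← Finset.sum_mul]
  unfold nsq dot
  ring

private lemma pm_two (z ξ : Vec d) {i j : Fin d} (hij : i ≠ j) :
    (z j * ξ i - z i * ξ j) ^ 2 ≤ nsq z * nsq ξ - dot z ξ ^ 2 := by
  have h1 := pm_lagrange z ξ
  have h2 : (z i * ξ j - z j * ξ i) ^ 2 + (z j * ξ i - z i * ξ j) ^ 2 ≤
      ∑ k, ∑ l, (z k * ξ l - z l * ξ k) ^ 2 := by
    rw [← Fintype.sum_prod_type' (f := fun k l => (z k * ξ l - z l * ξ k) ^ 2)]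
    have h3 : ∑ p ∈ ({(i, j), (j, i)} : Finset (Fin d × Fin d)),
        (z p.1 * ξ p.2 - z p.2 * ξ p.1) ^ 2 =
        (z i * ξ j - z j * ξ i) ^ 2 + (z j * ξ i - z i * ξ j) ^ 2 := by
      rw [Finset.sum_pair]
      intro h
      exact hij (congrArg Prod.fst h)
    rw [← h3]
    exact Finset.sum_le_sum_of_subset_of_nonneg (Finset.subset_univ _) fun p _ _ => sq_nonneg _
  have h4 : (z i * ξ j - z j * ξ i) ^ 2 = (z j * ξ i - z i * ξ j) ^ 2 := by ring
  rw [h4, h1] at h2
  linarith

private lemma pm_len_le (hd : 0 < d) (z : Vec d) : len z ≤ d * ‖z‖ := by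
  have hd1 : (1 : ℝ) ≤ d := by exact_mod_cast hd
  unfold len
  have h1 : nsq z ≤ d * ‖z‖ ^ 2 := by
    unfold nsq
    calc ∑ i, z i ^ 2 ≤ ∑ _i : Fin d, ‖z‖ ^ 2 := Finset.sum_le_sum fun i _ => by
          have h := norm_le_pi_norm z i
          rw [Real.norm_eq_abs] at h
          rw [← sq_abs]
          exact pow_le_pow_left₀ (abs_nonneg _) h 2
      _ = d * ‖z‖ ^ 2 := by simp
  refine Real.sqrt_le_iff.2 ⟨by positivity, h1.trans ?_⟩
  rw [mul_pow]
  have h2 : (d : ℝ) ≤ (d : ℝ) ^ 2 := by nlinarith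
  exact mul_le_mul_of_nonneg_right h2 (sq_nonneg _)

private lemma pm_bad (hd : 2 ≤ d) {a z : Vec d} {ρ κ R₀ : ℝ} (hρ : 0 < ρ) (hR : 0 ≤ R₀)
    (hz : ρ ≤ len (a - z)) :
    volume {w : Vec d | ‖w‖ ≤ R₀ ∧ nsq (a - z) * nsq (a - w) - dot (a - z) (a - w) ^ 2 < κ} ≤
      ENNReal.ofReal ((2 * R₀) ^ (d - 1) * (2 * (√κ * d / ρ))) := by
  have hd0 : (0 : ℝ) < d := by
    have : 0 < d := by omega
    exact_mod_cast this
  set x : Vec d := a - z with hx
  have hxn : ρ / d ≤ ‖x‖ := by
    rw [div_le_iff₀ hd0, mul_comm]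
    exact hz.trans (pm_len_le (by omega) x)
  have hρd : 0 < ρ / d := by positivity
  obtain ⟨i, hi⟩ : ∃ i, ‖x‖ ≤ |x i| := by
    by_contra hcon
    push Not at hcon
    have h1 : ‖x‖ < ‖x‖ :=
      (pi_norm_lt_iff (hρd.trans_le hxn)).2 fun i => by
        rw [Real.norm_eq_abs]
        exact hcon i
    exact lt_irrefl _ h1
  have hxi : ρ / d ≤ |x i| := hxn.trans hi
  have : Nontrivial (Fin d) := Fin.nontrivial_iff_two_le.2 hd
  obtain ⟨j, hj⟩ := exists_ne i
  have hxi0 : x i ≠ 0 := by
    intro h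
    rw [h, abs_zero] at hxi
    linarith
  refine (measure_mono ?_).trans
    (slab_volume hj.symm (a j - x j / x i * a i) (x j / x i) hR
      (ρ := √κ * d / ρ) (by positivity))
  rintro w ⟨hw1, hw2⟩
  refine ⟨hw1, ?_⟩
  have h1 := pm_two x (a - w) hj.symm
  have h2 : |x j * (a - w) i - x i * (a - w) j| < √κ := (Real.lt_sqrt (abs_nonneg _)).2 (by rw [sq_abs]; exact h1.trans_lt hw2)
  have h3 : x j * (a - w) i - x i * (a - w) j =
      x i * (w j - x j / x i * w i - (a j - x j / x i * a i)) := by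
    simp only [Pi.sub_apply]
    field_simp
    ring
  rw [h3, abs_mul] at h2
  have h4 : ρ / d * |w j - x j / x i * w i - (a j - x j / x i * a i)| < √κ :=
    lt_of_le_of_lt (mul_le_mul_of_nonneg_right hxi (abs_nonneg _)) h2
  rw [lt_div_iff₀ hρ]
  rw [div_mul_eq_mul_div, div_lt_iff₀ hd0] at h4
  linarith

private lemma small_mass (m N : ℝ) {μ' : ℝ} (hμ : 0 < μ') : ∃ η > 0, ∀ g : Vec d → ℝ, Nice g →
    (∀ v, 0 ≤ g v) → Good m N g → ∀ A : Set (Vec d), MeasurableSet A →
      volume A ≤ ENNReal.ofReal η → ∫⁻ v in A, ENNReal.ofReal (g v) ≤ ENNReal.ofReal μ' := by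
  set N' : ℝ := max N 0 with hN'
  have hN0 : 0 ≤ N' := le_max_right _ _
  have hz : 0 ≤ zg d := integral_nonneg fun _ => (Real.exp_pos _).le
  set L : ℝ := 2 * (2 * N' + zg d) / μ' + 1 with hL
  have hL1 : 1 ≤ L := by
    have : 0 ≤ 2 * (2 * N' + zg d) / μ' := by positivity
    linarith
  refine ⟨μ' / (2 * Real.exp L), by positivity, ?_⟩
  intro g hn hg0 hG A hA hvol
  have i1 : Integrable g := hn.rd.integrable hn.cont.aestronglyMeasurable
  have i2 : Integrable (fun v => g v * nsq v) :=
    (hn.rd.mul_PG PG.nsq).integrable (hn.cont.mul continuous_sq).aestronglyMeasurable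
  have i3 : Integrable (fun v : Vec d => Real.exp (-1 * nsq v)) :=
    (exp_RD one_pos).integrable
      (Real.continuous_exp.comp (continuous_const.mul continuous_sq)).aestronglyMeasurable
  have i4 : Integrable (fun v => g v * Real.log (g v)) :=
    (rd_mul_log hg0 hn.rd).integrable (Real.continuous_mul_log.comp hn.cont).aestronglyMeasurable
  have hNN : N ≤ N' := le_max_left _ _
  have hfin : volume A < ⊤ := hvol.trans_lt ENNReal.ofReal_lt_top
  set h : Vec d → ℝ := fun v => g v * Real.log (g v) + g v * nsq v + Real.exp (-1 * nsq v)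
    with hh
  have ih : Integrable h := (i4.add i2).add i3
  have hgib : ∀ v, 0 ≤ h v := by
    intro v
    have h1 := gibbs_pt (a := g v) (θ := Real.exp (-1)) (n := nsq v) (hg0 v) (Real.exp_pos _)
    rw [Real.log_exp] at h1
    have h2 : Real.exp (-1) ≤ 1 := Real.exp_le_one_iff.2 (by norm_num)
    have h3 : Real.exp (-1) * Real.exp (-1 * nsq v) ≤ 1 * Real.exp (-1 * nsq v) :=
      mul_le_mul_of_nonneg_right h2 (Real.exp_pos _).le
    simp only [hh]
    linarith
  have hpt : ∀ v, g v ≤ Real.exp L + h v / L := by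
    intro v
    have h0 : 0 ≤ h v / L := div_nonneg (hgib v) (by linarith)
    rcases le_or_gt (g v) (Real.exp L) with hc | hc
    · linarith
    · have h1 : L ≤ Real.log (g v) := by
        rw [Real.le_log_iff_exp_le ((Real.exp_pos L).trans hc)]
        exact hc.le
      have h2 : g v * L ≤ h v := by
        have h3 : g v * L ≤ g v * Real.log (g v) := mul_le_mul_of_nonneg_left h1 (hg0 v)
        have h4 : 0 ≤ g v * nsq v := mul_nonneg (hg0 v) (sq_nonneg' v)
        have h5 := (Real.exp_pos (-1 * nsq v)).le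
        simp only [hh]
        linarith
      have h6 : g v ≤ h v / L := by
        rw [le_div_iff₀ (by linarith)]
        exact h2
      linarith [Real.exp_pos L]
  have h1 : ∫ v in A, g v ≤ ∫ v in A, (Real.exp L + h v / L) :=
    integral_mono i1.integrableOn
      ((integrableOn_const hfin.ne).add (ih.div_const _).integrableOn) hpt
  have h2 : ∫ v in A, (Real.exp L + h v / L) =
      Real.exp L * volume.real A + ∫ v in A, h v / L := by
    have h3 : IntegrableOn (fun _ : Vec d => Real.exp L) A := integrableOn_const hfin.ne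
    rw [integral_add h3 (ih.div_const _).integrableOn, setIntegral_const, smul_eq_mul, mul_comm]
  have h4 : ∫ v in A, h v / L ≤ (∫ v, h v) / L := by
    rw [← integral_div]
    exact setIntegral_le_integral (ih.div_const _) (Eventually.of_forall fun v =>
      div_nonneg (hgib v) (by linarith))
  have h5 : ∫ v, h v ≤ 2 * N' + zg d := by
    have h6 : ∫ v, h v = (∫ v, g v * Real.log (g v)) + (∫ v, g v * nsq v) + zg d := by
      unfold zg
      have i5 : Integrable (fun v => g v * Real.log (g v) + g v * nsq v) := i4.add i2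
      simp only [hh]
      rw [integral_add i5 i3, integral_add i4 i2]
    rw [h6]
    linarith [hG.energy, hG.entropy]
  have h7 : (∫ v, h v) / L ≤ μ' / 2 := by
    rw [div_le_iff₀ (by linarith)]
    have h8 : μ' / 2 * L = (2 * N' + zg d) + μ' / 2 := by
      rw [hL]; field_simp
    linarith
  have h9 : volume.real A ≤ μ' / (2 * Real.exp L) := by
    rw [measureReal_def]
    exact ENNReal.toReal_le_of_le_ofReal (by positivity) hvol
  have h10 : Real.exp L * volume.real A ≤ μ' / 2 := by
    calc Real.exp L * volume.real A ≤ Real.exp L * (μ' / (2 * Real.exp L)) :=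
          mul_le_mul_of_nonneg_left h9 (Real.exp_pos L).le
      _ = μ' / 2 := by field_simp
  rw [← ofReal_integral_eq_lintegral_ofReal i1.integrableOn
    (Eventually.of_forall fun v => hg0 v)]
  exact ENNReal.ofReal_le_ofReal (by linarith)

theorem measurableSet_pairG (ρ κ R : ℝ) :
    MeasurableSet {q : Vec d × Vec d × Vec d | PairG ρ κ R q.1 q.2.1 q.2.2} := by
  have c1 : Continuous fun q : Vec d × Vec d × Vec d => len (q.1 - q.2.1) :=
    continuous_len.comp (by fun_prop)
  have c2 : Continuous fun q : Vec d × Vec d × Vec d => len (q.1 - q.2.2) :=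
    continuous_len.comp (by fun_prop)
  have c3 : Continuous fun q : Vec d × Vec d × Vec d => len (q.2.2 - q.2.1) :=
    continuous_len.comp (by fun_prop)
  have c4 : Continuous fun q : Vec d × Vec d × Vec d => nsq (q.1 - q.2.1) :=
    continuous_sq.comp (by fun_prop)
  have c5 : Continuous fun q : Vec d × Vec d × Vec d => nsq (q.1 - q.2.2) :=
    continuous_sq.comp (by fun_prop)
  have c6 : Continuous fun q : Vec d × Vec d × Vec d => dot (q.1 - q.2.1) (q.1 - q.2.2) :=
    continuous_dot.comp (by fun_prop : Continuous fun q : Vec d × Vec d × Vec d =>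
      (q.1 - q.2.1, q.1 - q.2.2))
  exact (((isClosed_le continuous_const c1).inter ((isClosed_le c1 c2).inter
    ((isClosed_le c2 continuous_const).inter ((isClosed_le c3 continuous_const).inter
      (isClosed_le continuous_const ((c4.mul c5).sub (c6.pow 2)))))))).measurableSet

open Classical in
theorem pair_mass (hd : 2 ≤ d) {m : ℝ} (hm : 0 < m) (N : ℝ) {R : ℝ} (hR : 0 < R) :
    ∃ ρ κ R₁ c : ℝ, 0 < ρ ∧ 0 < κ ∧ 0 < c ∧ ∀ g : Vec d → ℝ, Nice g → (∀ v, 0 ≤ g v) →
      Good m N g → ∀ a : Vec d, ‖a‖ ≤ R → ENNReal.ofReal c ≤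
        ∫⁻ z₁, ∫⁻ z₀, (if PairG ρ κ R₁ a z₁ z₀ then ENNReal.ofReal (g z₁) * ENNReal.ofReal (g z₀)
          else 0) := by
  have _ := hR
  have hd0 : 0 < d := by omega
  have hdr : (0 : ℝ) < d := by exact_mod_cast hd0
  obtain ⟨R₀, hR₀, η₀, hη₀, HM⟩ := good_mass (d := d) hm N
  set ρ : ℝ := min (1 / 2) (η₀ / 2) with hρdef
  have hρ : 0 < ρ := lt_min (by norm_num) (by positivity)
  have hρ1 : 2 * ρ ≤ 1 := by
    have : ρ ≤ 1 / 2 := min_le_left _ _
    linarith
  have hρ2 : 2 * ρ ≤ η₀ := by
    have : ρ ≤ η₀ / 2 := min_le_right _ _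
    linarith
  set r : ℝ := ρ / (8 * d) with hrdef
  have hr : 0 < r := by positivity
  obtain ⟨T, -, hTf, hT⟩ := (isCompact_closedBall (0 : Vec d) R₀).finite_cover_balls hr
  set J : ℕ := hTf.toFinset.card with hJ
  set μ : ℝ := m / (2 * (J + 1)) with hμdef
  have hμ : 0 < μ := by positivity
  obtain ⟨η, hη, HS⟩ := small_mass (d := d) m N (μ' := μ / 4) (by positivity)
  set D : ℝ := (2 * R₀) ^ (d - 1) with hDdef
  have hD : 0 < D := by positivity
  set τ : ℝ := η * ρ / (2 * d * D) with hτdef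
  have hτ : 0 < τ := by positivity
  refine ⟨ρ, τ ^ 2, d * (R + R₀), 3 * μ ^ 2 / 8, hρ, by positivity, by positivity, ?_⟩
  intro g hn hg0 hG a ha
  set G : Vec d → ENNReal := fun v => ENNReal.ofReal (g v) with hGdef
  have hGm : Measurable G := hn.cont.measurable.ennreal_ofReal
  have i1 : Integrable g := hn.rd.integrable hn.cont.aestronglyMeasurable
  set ν : Measure (Vec d) := volume.withDensity G with hν
  have hνa : ∀ A : Set (Vec d), MeasurableSet A → ν A = ∫⁻ v in A, G v := fun A hA =>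
    withDensity_apply G hA
  -- the set of points not too close to `a`
  set A : Set (Vec d) := {z | len (a - z) < ρ} with hAdef
  have hAm : MeasurableSet A :=
    (isOpen_lt (continuous_len.comp (by fun_prop : Continuous fun z : Vec d => a - z))
      continuous_const).measurableSet
  set S : Set (Vec d) := Metric.closedBall 0 R₀ \ A with hSdef
  have hSm : MeasurableSet S := measurableSet_closedBall.diff hAm
  have hAvol : volume (A ∩ Metric.closedBall 0 R₀) ≤ ENNReal.ofReal η₀ := by
    refine (measure_mono (t := Metric.ball a ρ) ?_).trans ?_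
    · rintro z ⟨hz, -⟩
      rw [Metric.mem_ball, dist_comm, dist_eq_norm]
      exact (norm_le_len _).trans_lt hz
    · rw [Real.volume_pi_ball a hρ, Fintype.card_fin]
      refine ENNReal.ofReal_le_ofReal (le_trans ?_ hρ2)
      exact pow_le_of_le_one (by positivity) hρ1 (by omega)
  have hSmass : ENNReal.ofReal (m / 2) ≤ ν S := by
    rw [hνa S hSm, ← ofReal_integral_eq_lintegral_ofReal i1.integrableOn
      (Eventually.of_forall fun v => hg0 v)]
    exact ENNReal.ofReal_le_ofReal (HM g hn hg0 hG A hAm hAvol)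
  -- one of the balls carries mass
  obtain ⟨c, hc⟩ : ∃ c, ENNReal.ofReal μ ≤ ν (S ∩ Metric.ball c r) := by
    by_contra hcon
    push Not at hcon
    have h1 : ν S ≤ ∑ c ∈ hTf.toFinset, ν (S ∩ Metric.ball c r) := by
      refine (measure_mono ?_).trans (measure_biUnion_finset_le _ _)
      intro z hz
      have h2 := hT hz.1
      simp only [mem_iUnion] at h2 ⊢
      obtain ⟨c, hcT, hzc⟩ := h2
      exact ⟨c, hTf.mem_toFinset.2 hcT, hz, hzc⟩
    have h2 : ∑ c ∈ hTf.toFinset, ν (S ∩ Metric.ball c r) ≤ J * ENNReal.ofReal μ := by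
      refine (Finset.sum_le_sum fun c _ => (hcon c).le).trans (le_of_eq ?_)
      rw [Finset.sum_const, nsmul_eq_mul]
    have h3 : (J : ENNReal) * ENNReal.ofReal μ < ENNReal.ofReal (m / 2) := by
      rw [← ENNReal.ofReal_natCast, ← ENNReal.ofReal_mul (by positivity)]
      refine (ENNReal.ofReal_lt_ofReal_iff (by positivity)).2 ?_
      have h4 : (J : ℝ) * μ = m / 2 - m / (2 * (J + 1)) := by
        rw [hμdef]
        field_simp
        ring
      have h5 : 0 < m / (2 * ((J : ℝ) + 1)) := by positivity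
      linarith
    exact absurd (hSmass.trans (h1.trans h2)) (not_le.2 h3)
  set Q : Set (Vec d) := S ∩ Metric.ball c r with hQdef
  have hQm : MeasurableSet Q := hSm.inter measurableSet_ball
  -- the bad sets
  set Bd : Vec d → Set (Vec d) := fun z =>
    {w | ‖w‖ ≤ R₀ ∧ nsq (a - z) * nsq (a - w) - dot (a - z) (a - w) ^ 2 < τ ^ 2} with hBd
  have hBm : ∀ z, MeasurableSet (Bd z) := by
    intro z
    have e1 : Continuous fun w : Vec d => nsq (a - w) := continuous_sq.comp (by fun_prop)
    have e2 : Continuous fun w : Vec d => dot (a - z) (a - w) :=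
      continuous_dot.comp (by fun_prop : Continuous fun w : Vec d => (a - z, a - w))
    exact (isClosed_le continuous_norm continuous_const).measurableSet.inter
      (isOpen_lt ((continuous_const.mul e1).sub (e2.pow 2)) continuous_const).measurableSet
  have hQge : ∀ z ∈ Q, ρ ≤ len (a - z) := fun z hz => not_lt.1 hz.1.2
  have hBν : ∀ z ∈ Q, ν (Bd z) ≤ ENNReal.ofReal (μ / 4) := by
    intro z hz
    rw [hνa _ (hBm z)]
    refine HS g hn hg0 hG _ (hBm z) ((pm_bad hd hρ hR₀.le (hQge z hz)).trans ?_)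
    refine ENNReal.ofReal_le_ofReal (le_of_eq ?_)
    rw [Real.sqrt_sq hτ.le, ← hDdef, hτdef]
    field_simp
  have hQB : ∀ z ∈ Q, ENNReal.ofReal (3 * μ / 4) ≤ ν (Q \ Bd z) := by
    intro z hz
    have h1 : ν Q ≤ ν (Q \ Bd z) + ν (Bd z) := by
      refine (measure_mono ?_).trans (measure_union_le _ _)
      intro w hw
      by_cases h : w ∈ Bd z
      · exact Or.inr h
      · exact Or.inl ⟨hw, h⟩
    have h2 : ENNReal.ofReal (3 * μ / 4) + ENNReal.ofReal (μ / 4) ≤
        ν (Q \ Bd z) + ENNReal.ofReal (μ / 4) := by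
      rw [← ENNReal.ofReal_add (by positivity) (by positivity)]
      have h3 : 3 * μ / 4 + μ / 4 = μ := by ring
      rw [h3]
      exact hc.trans (h1.trans (add_le_add_right (hBν z hz) _))
    exact (ENNReal.add_le_add_iff_right ENNReal.ofReal_ne_top).1 h2
  -- the symmetrised integral
  set F : Vec d × Vec d → ENNReal := fun p =>
    if PairG ρ (τ ^ 2) (d * (R + R₀)) a p.1 p.2 then G p.1 * G p.2 else 0 with hFdef
  have hFm : Measurable F := by
    refine Measurable.ite ?_ ((hGm.comp measurable_fst).mul (hGm.comp measurable_snd))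
      measurable_const
    exact (measurableSet_pairG ρ (τ ^ 2) (d * (R + R₀))).preimage
      (measurable_const.prodMk measurable_id : Measurable fun p : Vec d × Vec d => (a, p))
  have hI : ∫⁻ z₁, ∫⁻ z₀, (if PairG ρ (τ ^ 2) (d * (R + R₀)) a z₁ z₀ then
      ENNReal.ofReal (g z₁) * ENNReal.ofReal (g z₀) else 0) = ∫⁻ p : Vec d × Vec d, F p := by
    rw [Measure.volume_eq_prod, lintegral_prod _ hFm.aemeasurable]
  have hswap : ∫⁻ p : Vec d × Vec d, F p.swap = ∫⁻ p : Vec d × Vec d, F p := by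
    rw [Measure.volume_eq_prod, lintegral_prod_swap]
  have hpt : ∀ z₁ z₀, (Q.indicator (fun z₁ => G z₁ * (Q \ Bd z₁).indicator G z₀) z₁) ≤
      F (z₁, z₀) + F (z₁, z₀).swap := by
    intro z₁ z₀
    by_cases h1 : z₁ ∈ Q
    · rw [indicator_of_mem h1]
      by_cases h2 : z₀ ∈ Q \ Bd z₁
      · rw [indicator_of_mem h2]
        have hb1 : ‖z₁‖ ≤ R₀ := by simpa using h1.1.1
        have hb0 : ‖z₀‖ ≤ R₀ := by simpa using h2.1.1.1
        have hκ : τ ^ 2 ≤ nsq (a - z₁) * nsq (a - z₀) - dot (a - z₁) (a - z₀) ^ 2 := by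
          by_contra hcon
          exact h2.2 ⟨hb0, not_le.1 hcon⟩
        have hlen : ∀ z : Vec d, ‖z‖ ≤ R₀ → len (a - z) ≤ d * (R + R₀) := by
          intro z hz
          refine (pm_len_le hd0 _).trans (mul_le_mul_of_nonneg_left ?_ hdr.le)
          exact (norm_sub_le _ _).trans (add_le_add ha hz)
        have hdist : ∀ z ∈ Q, ∀ w ∈ Q, len (z - w) ≤ ρ / 4 := by
          intro z hz w hw
          refine (pm_len_le hd0 _).trans ?_
          have h3 : ‖z - w‖ ≤ 2 * r := by
            have h4 : dist z c < r := hz.2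
            have h5 : dist w c < r := hw.2
            rw [← dist_eq_norm]
            linarith [dist_triangle_right z w c]
          calc (d : ℝ) * ‖z - w‖ ≤ d * (2 * r) := mul_le_mul_of_nonneg_left h3 hdr.le
            _ = ρ / 4 := by rw [hrdef]; field_simp; norm_num
        rcases le_total (len (a - z₁)) (len (a - z₀)) with hle | hle
        · have hp : PairG ρ (τ ^ 2) (d * (R + R₀)) a z₁ z₀ :=
            ⟨hQge z₁ h1, hle, hlen z₀ hb0, hdist z₀ h2.1 z₁ h1, hκ⟩
          have : F (z₁, z₀) = G z₁ * G z₀ := if_pos hp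
          rw [this]
          exact le_self_add
        · have hdc : dot (a - z₀) (a - z₁) = dot (a - z₁) (a - z₀) := by
            unfold dot
            exact Finset.sum_congr rfl fun i _ => mul_comm _ _
          have hp : PairG ρ (τ ^ 2) (d * (R + R₀)) a z₀ z₁ :=
            ⟨hQge z₀ h2.1, hle, hlen z₁ hb1, hdist z₁ h1 z₀ h2.1, by
              rw [hdc, mul_comm (nsq (a - z₀))]; exact hκ⟩
          have : F (z₁, z₀).swap = G z₀ * G z₁ := if_pos hp
          rw [this, mul_comm (G z₀)]
          exact le_add_self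
      · rw [indicator_of_notMem h2, mul_zero]
        exact zero_le
    · rw [indicator_of_notMem h1]
      exact zero_le
  have hlow : ENNReal.ofReal μ * ENNReal.ofReal (3 * μ / 4) ≤
      (∫⁻ p : Vec d × Vec d, F p) + ∫⁻ p : Vec d × Vec d, F p := by
    nth_rewrite 2 [← hswap]
    have hFF : Measurable fun p : Vec d × Vec d => F p + F p.swap :=
      hFm.add (hFm.comp measurable_swap)
    rw [← lintegral_add_left hFm, Measure.volume_eq_prod, lintegral_prod _ hFF.aemeasurable]
    calc ENNReal.ofReal μ * ENNReal.ofReal (3 * μ / 4)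
        ≤ ν Q * ENNReal.ofReal (3 * μ / 4) := mul_le_mul_left hc _
      _ = ∫⁻ z₁, Q.indicator G z₁ * ENNReal.ofReal (3 * μ / 4) := by
          rw [lintegral_mul_const _ (hGm.indicator hQm), lintegral_indicator hQm, hνa Q hQm]
      _ ≤ ∫⁻ z₁, ∫⁻ z₀, (F (z₁, z₀) + F (z₁, z₀).swap) := by
          refine lintegral_mono fun z₁ => ?_
          by_cases h1 : z₁ ∈ Q
          · rw [indicator_of_mem h1]
            calc G z₁ * ENNReal.ofReal (3 * μ / 4) ≤ G z₁ * ν (Q \ Bd z₁) :=
                  mul_le_mul_right (hQB z₁ h1) _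
              _ = ∫⁻ z₀, G z₁ * (Q \ Bd z₁).indicator G z₀ := by
                  rw [lintegral_const_mul _ (hGm.indicator (hQm.diff (hBm z₁))),
                    lintegral_indicator (hQm.diff (hBm z₁)), hνa _ (hQm.diff (hBm z₁))]
              _ ≤ ∫⁻ z₀, (F (z₁, z₀) + F (z₁, z₀).swap) := by
                  refine lintegral_mono fun z₀ => ?_
                  have h2 := hpt z₁ z₀
                  rw [indicator_of_mem h1] at h2
                  exact h2
          · rw [indicator_of_notMem h1, zero_mul]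
            exact zero_le
  rw [hI]
  by_contra hcon
  rw [not_le] at hcon
  have h1 : (∫⁻ p : Vec d × Vec d, F p) + ∫⁻ p : Vec d × Vec d, F p <
      ENNReal.ofReal (3 * μ ^ 2 / 8) + ENNReal.ofReal (3 * μ ^ 2 / 8) :=
    ENNReal.add_lt_add hcon hcon
  rw [← ENNReal.ofReal_add (by positivity) (by positivity)] at h1
  rw [← ENNReal.ofReal_mul hμ.le] at hlow
  have h2 : 3 * μ ^ 2 / 8 + 3 * μ ^ 2 / 8 = μ * (3 * μ / 4) := by ring
  rw [h2] at h1
  exact absurd hlow (not_le.2 h1)

end Pool.Agent.H15.AV
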