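import Pool.Agent.H15.AVB.Two
import Pool.Agent.H15.AVB.PairM
import Pool.Agent.H15.AVB.Push

/-!
# The directed Poincaré inequality at small distances

MODULE Dir. For `a` in the ball, `ofReal c * ∫_b (u b - u a)₊² ≤ ∫_{z₁} ∫_{z₀} g g 1[PairG] ∫_b (..)`
(`pair_mass`), and `two_step` with `F b = ofReal (u b - u a)^2`. Then
`(u v₀ - u a)₊² ≤ 2 (u v₁ - u a)₊² + 2 (u v₀ - u v₁)₊²`, `v₁ = post a z₁ σ₁`, `v₀ = post v₁ z₀ σ₀`. First
term: integrate out `σ₀` (`surf d univ`) and `z₀` (`∫ g ≤ N`). Second term: `push_le` for each `z₁` with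
`G v₁ = ∫_{z₀} g z₀ ∫_{σ₀} 1[Tr] 1[‖v₀‖ ≤ R'] ofReal(u v₀ - u v₁)^2`. `‖v₁‖ ≤ R + R₂`, `‖v₀‖ ≤ R + 2R₂ = R'`
(`post_eq`, `len (v' - v) ≤ len (v - w)`).
-/

set_option autoImplicit false

open MeasureTheory Set Filter Topology Pool.Agent.H25.Kin
open scoped ENNReal

namespace Pool.Agent.H15.AV

variable {d : ℕ}

private lemma dir_norm {a z σ : Vec d} (hσ : nsq σ = 1) :
    ‖post a z σ‖ ≤ ‖a‖ + len (a - z) := by
  have h1 : post a z σ = a - (1 / 2 : ℝ) • (a - z) + (len (a - z) / 2) • σ := by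
    unfold post
    congr 1
    ext i
    simp
    ring
  have h2 : ‖σ‖ ≤ 1 := by
    refine (norm_le_len σ).trans (le_of_eq ?_)
    unfold len
    rw [hσ, Real.sqrt_one]
  have h3 := norm_le_len (a - z)
  have h4 := len_nonneg (a - z)
  rw [h1]
  refine (norm_add_le _ _).trans ?_
  refine (add_le_add (norm_sub_le _ _) le_rfl).trans ?_
  rw [norm_smul, norm_smul, Real.norm_of_nonneg (by norm_num : (0 : ℝ) ≤ 1 / 2),
    Real.norm_of_nonneg (by positivity : 0 ≤ len (a - z) / 2)]
  nlinarith [norm_nonneg σ]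

private lemma dir_sq {x y z : ℝ} : ENNReal.ofReal (z - x) ^ 2 ≤
    2 * ENNReal.ofReal (y - x) ^ 2 + 2 * ENNReal.ofReal (z - y) ^ 2 := by
  have h1 : ENNReal.ofReal (z - x) ≤ ENNReal.ofReal (y - x) + ENNReal.ofReal (z - y) := by
    refine le_trans (le_of_eq ?_) (ENNReal.ofReal_add_le (p := y - x) (q := z - y))
    congr 1
    ring
  refine (pow_le_pow_left' h1 2).trans ?_
  have hpt : ENNReal.ofReal (y - x) ≠ ⊤ := ENNReal.ofReal_ne_top
  have hqt : ENNReal.ofReal (z - y) ≠ ⊤ := ENNReal.ofReal_ne_top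
  generalize ENNReal.ofReal (y - x) = p at *
  generalize ENNReal.ofReal (z - y) = q at *
  lift p to NNReal using hpt
  lift q to NNReal using hqt
  have : (p + q) ^ 2 ≤ 2 * p ^ 2 + 2 * q ^ 2 := by
    rw [← NNReal.coe_le_coe]
    push_cast
    nlinarith [sq_nonneg ((p : ℝ) - q)]
  exact_mod_cast this

theorem dir_poi (hd : 2 ≤ d) {m : ℝ} (hm : 0 < m) (N : ℝ) {R : ℝ} (hR : 0 < R) :
    ∃ r ε₁ ρ₁ R₂ R' A : ℝ, 0 < r ∧ 0 < ε₁ ∧ 0 < ρ₁ ∧ 0 < R' ∧ 0 ≤ A ∧ ∀ g : Vec d → ℝ, Nice g →
      (∀ v, 0 ≤ g v) → Good m N g → ∀ u : Vec d → ℝ, Measurable u →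
      ∫⁻ a in Metric.closedBall (0 : Vec d) R, ∫⁻ b in {b : Vec d | len (b - a) ≤ r},
        ENNReal.ofReal (u b - u a) ^ 2 ≤ ENNReal.ofReal A *
          ∫⁻ p in {p : Vec d × Vec d × Vec d | Tr ε₁ ρ₁ R₂ p.1 p.2.1 p.2.2 ∧ ‖vp p‖ ≤ R'},
            ENNReal.ofReal (g p.2.1) * ENNReal.ofReal (u (vp p) - u p.1) ^ 2 ∂(mu3 d) := by
  classical
  obtain ⟨ρ, κ, R₁, c, hρ, hκ, hc, hpm⟩ := pair_mass hd hm N hR
  obtain ⟨r, ε₁, ρ₁, R₂, A₂, hr, hε, hρ₁, hA₂, htwo⟩ := two_step (R := R₁) hd hρ hκ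
  obtain ⟨A₃, hA₃, hpush⟩ := push_le hd
  set S : ℝ := (surf d univ).toReal with hS
  have hS0 : 0 ≤ S := ENNReal.toReal_nonneg
  have hSe : surf d univ = ENNReal.ofReal S := (ENNReal.ofReal_toReal (measure_ne_top _ _)).symm
  set R' : ℝ := R + 2 * |R₂| with hR'
  refine ⟨r, ε₁, ρ₁, R₂, R', c⁻¹ * A₂ * (2 * (S * |N|) + 2 * (|N| * A₃)), hr, hε, hρ₁, by positivity,
    by positivity, ?_⟩
  intro g hg hg0 hgood u hu
  have hgm : Measurable fun z => ENNReal.ofReal (g z) := hg.cont.measurable.ennreal_ofReal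
  -- the truncated energy density
  set W : Vec d × Vec d × Vec d → ℝ≥0∞ := fun p =>
    if Tr ε₁ ρ₁ R₂ p.1 p.2.1 p.2.2 ∧ ‖post p.1 p.2.1 p.2.2‖ ≤ R' then
      ENNReal.ofReal (u (post p.1 p.2.1 p.2.2) - u p.1) ^ 2 else 0 with hW
  have hpost : Measurable fun p : Vec d × Vec d × Vec d => post p.1 p.2.1 p.2.2 :=
    continuous_post.measurable
  have hset : MeasurableSet {p : Vec d × Vec d × Vec d |
      Tr ε₁ ρ₁ R₂ p.1 p.2.1 p.2.2 ∧ ‖post p.1 p.2.1 p.2.2‖ ≤ R'} :=
    (measurableSet_Tr ε₁ ρ₁ R₂).inter (measurableSet_le hpost.norm measurable_const)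
  have hWm : Measurable W := by
    refine Measurable.ite hset ?_ measurable_const
    exact (((hu.comp hpost).sub (hu.comp measurable_fst)).ennreal_ofReal).pow_const 2
  set w : Vec d × Vec d → ℝ≥0∞ := fun q => ∫⁻ σ, W (q.1, q.2, σ) ∂(surf d) with hw
  have hwm : Measurable w := by
    refine Measurable.lintegral_prod_right' (f := fun x : (Vec d × Vec d) × Vec d =>
      W (x.1.1, x.1.2, x.2)) ?_
    exact hWm.comp (by fun_prop)
  set H : Vec d → ℝ≥0∞ := fun v => ∫⁻ z, ENNReal.ofReal (g z) * w (v, z) with hH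
  have hHm : Measurable H := by
    refine Measurable.lintegral_prod_right' (f := fun x : Vec d × Vec d =>
      ENNReal.ofReal (g x.2) * w (x.1, x.2)) ?_
    exact (hgm.comp measurable_snd).mul hwm
  -- the right-hand side
  have hRHS : ∫⁻ p in {p : Vec d × Vec d × Vec d | Tr ε₁ ρ₁ R₂ p.1 p.2.1 p.2.2 ∧ ‖vp p‖ ≤ R'},
      ENNReal.ofReal (g p.2.1) * ENNReal.ofReal (u (vp p) - u p.1) ^ 2 ∂(mu3 d) = ∫⁻ v, H v := by
    have h1 : ∫⁻ p in {p : Vec d × Vec d × Vec d | Tr ε₁ ρ₁ R₂ p.1 p.2.1 p.2.2 ∧ ‖vp p‖ ≤ R'},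
        ENNReal.ofReal (g p.2.1) * ENNReal.ofReal (u (vp p) - u p.1) ^ 2 ∂(mu3 d) =
        ∫⁻ p, ENNReal.ofReal (g p.2.1) * W p ∂(mu3 d) := by
      rw [← lintegral_indicator (by exact hset)]
      refine lintegral_congr fun p => ?_
      by_cases hp : Tr ε₁ ρ₁ R₂ p.1 p.2.1 p.2.2 ∧ ‖vp p‖ ≤ R'
      · rw [indicator_of_mem (by exact hp)]
        show _ = _ * W p
        rw [hW]
        show _ = _ * ite _ _ _
        rw [if_pos (by exact hp)]
        rfl
      · rw [indicator_of_notMem (by exact hp)]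
        rw [hW]
        show _ = _ * ite _ _ _
        rw [if_neg (by exact hp), mul_zero]
    have hm3 : Measurable fun p : Vec d × Vec d × Vec d => ENNReal.ofReal (g p.2.1) * W p :=
      (hgm.comp (measurable_fst.comp measurable_snd)).mul hWm
    rw [h1, lintegral_prod _ hm3.aemeasurable]
    refine lintegral_congr fun v => ?_
    have hm4 : Measurable fun q : Vec d × Vec d => ENNReal.ofReal (g q.1) * W (v, q) :=
      hm3.comp (measurable_const.prodMk measurable_id)
    rw [lintegral_prod _ hm4.aemeasurable]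
    refine lintegral_congr fun z => ?_
    exact lintegral_const_mul (ENNReal.ofReal (g z)) (f := fun σ => W (v, z, σ))
      (hWm.comp (by fun_prop : Measurable fun σ : Vec d => ((v, z, σ) : Vec d × Vec d × Vec d)))
  rw [hRHS]
  -- total mass
  set N₀ : ℝ≥0∞ := ∫⁻ z, ENNReal.ofReal (g z) with hN₀
  have hN : N₀ ≤ ENNReal.ofReal |N| := by
    have hgi : Integrable g := hg.rd.integrable hg.cont.aestronglyMeasurable
    rw [hN₀, ← ofReal_integral_eq_lintegral_ofReal hgi (Eventually.of_forall hg0)]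
    exact ENNReal.ofReal_le_ofReal (hgood.massU.trans (le_abs_self N))
  set J : Vec d × Vec d × Vec d → ℝ≥0∞ := fun p =>
    if 0 ≤ cosTh p.1 p.2.1 p.2.2 then 1 else 0 with hJ
  have hJm : Measurable J :=
    Measurable.ite (measurableSet_le measurable_const measurable_cosTh) measurable_const
      measurable_const
  set k : Vec d × Vec d → ℝ≥0∞ := fun q => ∫⁻ σ, J (q.1, q.2, σ) * H (post q.1 q.2 σ) ∂(surf d)
    with hk
  have hkm : Measurable k := by
    refine Measurable.lintegral_prod_right' (f := fun x : (Vec d × Vec d) × Vec d =>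
      J (x.1.1, x.1.2, x.2) * H (post x.1.1 x.1.2 x.2)) ?_
    have h1 : Measurable fun x : (Vec d × Vec d) × Vec d => ((x.1.1, x.1.2, x.2) :
      Vec d × Vec d × Vec d) := by fun_prop
    exact (hJm.comp h1).mul (hHm.comp (hpost.comp h1))
  set K : Vec d → ℝ≥0∞ := fun a => ∫⁻ z, ENNReal.ofReal (g z) * k (a, z) with hK
  have hKm : Measurable K := by
    refine Measurable.lintegral_prod_right' (f := fun x : Vec d × Vec d =>
      ENNReal.ofReal (g x.2) * k (x.1, x.2)) ?_
    exact (hgm.comp measurable_snd).mul hkm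
  have hKint : ∫⁻ a, K a ≤ N₀ * (ENNReal.ofReal A₃ * ∫⁻ v, H v) := by
    have h1 : ∫⁻ a, K a = ∫⁻ z, ENNReal.ofReal (g z) * ∫⁻ a, k (a, z) := by
      rw [hK]
      rw [lintegral_lintegral_swap]
      · refine lintegral_congr fun z => ?_
        exact lintegral_const_mul (ENNReal.ofReal (g z)) (f := fun a => k (a, z))
          (hkm.comp (by fun_prop : Measurable fun a : Vec d => ((a, z) : Vec d × Vec d)))
      · exact ((hgm.comp measurable_snd).mul hkm).aemeasurable
    rw [h1, hN₀, ← lintegral_mul_const _ hgm]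
    refine lintegral_mono fun z => ?_
    refine mul_le_mul' le_rfl ?_
    refine le_trans (le_of_eq ?_) (hpush z H hHm)
    refine lintegral_congr fun a => ?_
    rw [hk]
    show ∫⁻ σ, J (a, z, σ) * H (post a z σ) ∂(surf d) = _
    have hms : MeasurableSet {σ : Vec d | 0 ≤ cosTh a z σ} :=
      measurableSet_le measurable_const (measurable_cosTh.comp (by fun_prop :
        Measurable fun σ : Vec d => ((a, z, σ) : Vec d × Vec d × Vec d)))
    rw [← lintegral_indicator hms]
    refine lintegral_congr fun σ => ?_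
    by_cases hσ : 0 ≤ cosTh a z σ
    · rw [indicator_of_mem (by exact hσ), hJ]
      show ite _ _ _ * _ = _
      rw [if_pos (by exact hσ), one_mul]
    · rw [indicator_of_notMem (by exact hσ), hJ]
      show ite _ _ _ * _ = _
      rw [if_neg (by exact hσ), zero_mul]
  -- the key estimate
  have hkey : ∀ a ∈ Metric.closedBall (0 : Vec d) R,
      ∫⁻ b in {b : Vec d | len (b - a) ≤ r}, ENNReal.ofReal (u b - u a) ^ 2 ≤
        ENNReal.ofReal (c⁻¹ * A₂) * (2 * (ENNReal.ofReal S * N₀ * H a) + 2 * K a) := by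
    intro a ha
    have haR : ‖a‖ ≤ R := by simpa using ha
    set L : ℝ≥0∞ := ∫⁻ b in {b : Vec d | len (b - a) ≤ r}, ENNReal.ofReal (u b - u a) ^ 2 with hL
    -- pointwise bound of the truncated double collision
    have hpt : ∀ z₁ z₀ σ₁ σ₀ : Vec d, nsq σ₁ = 1 → nsq σ₀ = 1 →
        (if Tr ε₁ ρ₁ R₂ a z₁ σ₁ ∧ Tr ε₁ ρ₁ R₂ (post a z₁ σ₁) z₀ σ₀ then
          ENNReal.ofReal (u (post (post a z₁ σ₁) z₀ σ₀) - u a) ^ 2 else 0) ≤
        2 * W (a, z₁, σ₁) + 2 * (J (a, z₁, σ₁) * W (post a z₁ σ₁, z₀, σ₀)) := by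
      intro z₁ z₀ σ₁ σ₀ h1 h0
      split_ifs with h
      · have hR2 : R₂ ≤ |R₂| := le_abs_self _
        have hn1 : ‖post a z₁ σ₁‖ ≤ R + |R₂| := by
          have := dir_norm (a := a) (z := z₁) h1
          linarith [h.1.2.1]
        have hn0 : ‖post (post a z₁ σ₁) z₀ σ₀‖ ≤ R' := by
          have := dir_norm (a := post a z₁ σ₁) (z := z₀) h0
          rw [hR']
          linarith [h.2.2.1]
        have hw1 : W (a, z₁, σ₁) = ENNReal.ofReal (u (post a z₁ σ₁) - u a) ^ 2 :=
          if_pos ⟨h.1, by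
            show ‖post a z₁ σ₁‖ ≤ R'
            rw [hR']
            linarith [abs_nonneg R₂]⟩
        have hw0 : W (post a z₁ σ₁, z₀, σ₀) =
            ENNReal.ofReal (u (post (post a z₁ σ₁) z₀ σ₀) - u (post a z₁ σ₁)) ^ 2 :=
          if_pos ⟨h.2, hn0⟩
        have hj : J (a, z₁, σ₁) = 1 := if_pos h.1.2.2.1
        rw [hw1, hw0, hj, one_mul]
        exact dir_sq
      · exact bot_le
    -- inner integrals over the two spheres
    have hsph : ∀ z₁ z₀ : Vec d, ∫⁻ σ₁, ∫⁻ σ₀,
        (if Tr ε₁ ρ₁ R₂ a z₁ σ₁ ∧ Tr ε₁ ρ₁ R₂ (post a z₁ σ₁) z₀ σ₀ then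
          ENNReal.ofReal (u (post (post a z₁ σ₁) z₀ σ₀) - u a) ^ 2 else 0) ∂(surf d) ∂(surf d) ≤
        2 * (ENNReal.ofReal S * w (a, z₁)) +
          2 * ∫⁻ σ₁, J (a, z₁, σ₁) * w (post a z₁ σ₁, z₀) ∂(surf d) := by
      intro z₁ z₀
      have hWa : Measurable fun σ : Vec d => W (a, z₁, σ) := hWm.comp (by fun_prop :
        Measurable fun σ : Vec d => ((a, z₁, σ) : Vec d × Vec d × Vec d))
      have hpa : Measurable fun σ : Vec d => post a z₁ σ := hpost.comp (by fun_prop :
        Measurable fun σ : Vec d => ((a, z₁, σ) : Vec d × Vec d × Vec d))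
      have hJa : Measurable fun σ : Vec d => J (a, z₁, σ) := hJm.comp (by fun_prop :
        Measurable fun σ : Vec d => ((a, z₁, σ) : Vec d × Vec d × Vec d))
      have hwa : Measurable fun σ : Vec d => w (post a z₁ σ, z₀) :=
        hwm.comp (hpa.prodMk measurable_const)
      calc _ ≤ ∫⁻ σ₁, (2 * (ENNReal.ofReal S * W (a, z₁, σ₁)) +
              2 * (J (a, z₁, σ₁) * w (post a z₁ σ₁, z₀))) ∂(surf d) := by
            refine lintegral_mono_ae ?_
            filter_upwards [surf_ae] with σ₁ h1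
            calc _ ≤ ∫⁻ σ₀, (2 * W (a, z₁, σ₁) +
                    2 * (J (a, z₁, σ₁) * W (post a z₁ σ₁, z₀, σ₀))) ∂(surf d) := by
                  refine lintegral_mono_ae ?_
                  filter_upwards [surf_ae] with σ₀ h0
                  exact hpt z₁ z₀ σ₁ σ₀ h1 h0
              _ = _ := by
                  have hm1 : Measurable fun σ₀ : Vec d => W (post a z₁ σ₁, z₀, σ₀) :=
                    hWm.comp (by fun_prop :
                      Measurable fun σ : Vec d => ((post a z₁ σ₁, z₀, σ) : Vec d × Vec d × Vec d))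
                  rw [lintegral_add_left measurable_const, lintegral_const, hSe,
                    lintegral_const_mul 2 (hm1.const_mul _), lintegral_const_mul _ hm1]
                  ring
        _ = _ := by
            rw [lintegral_add_left ((hWa.const_mul _).const_mul _),
              lintegral_const_mul 2 (hWa.const_mul _), lintegral_const_mul _ hWa,
              lintegral_const_mul 2 (f := fun σ => J (a, z₁, σ) * w (post a z₁ σ, z₀))
                (hJa.mul hwa)]
    -- the pairs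
    have hpair : ENNReal.ofReal c * L ≤ ENNReal.ofReal A₂ *
        ∫⁻ z₁, ∫⁻ z₀, ENNReal.ofReal (g z₁) * ENNReal.ofReal (g z₀) *
          (2 * (ENNReal.ofReal S * w (a, z₁)) +
          2 * ∫⁻ σ₁, J (a, z₁, σ₁) * w (post a z₁ σ₁, z₀) ∂(surf d)) := by
      refine (mul_le_mul' (hpm g hg hg0 hgood a haR) (le_refl L)).trans ?_
      refine (lintegral_mul_const_le _ _).trans ?_
      rw [← lintegral_const_mul' _ _ ENNReal.ofReal_ne_top]
      refine lintegral_mono fun z₁ => ?_
      refine (lintegral_mul_const_le _ _).trans ?_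
      rw [← lintegral_const_mul' _ _ ENNReal.ofReal_ne_top]
      refine lintegral_mono fun z₀ => ?_
      split_ifs with hpg
      · have h1 := htwo a z₁ z₀ hpg (fun b => ENNReal.ofReal (u b - u a) ^ 2)
          (((hu.sub measurable_const).ennreal_ofReal).pow_const 2)
        calc ENNReal.ofReal (g z₁) * ENNReal.ofReal (g z₀) * L 
            ≤ ENNReal.ofReal (g z₁) * ENNReal.ofReal (g z₀) * (ENNReal.ofReal A₂ *
              (2 * (ENNReal.ofReal S * w (a, z₁)) +
              2 * ∫⁻ σ₁, J (a, z₁, σ₁) * w (post a z₁ σ₁, z₀) ∂(surf d))) :=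
              mul_le_mul' le_rfl (h1.trans (mul_le_mul' le_rfl (hsph z₁ z₀)))
          _ = _ := by ring
      · rw [zero_mul]
        exact bot_le
    have hsum : ∫⁻ z₁, ∫⁻ z₀, ENNReal.ofReal (g z₁) * ENNReal.ofReal (g z₀) *
          (2 * (ENNReal.ofReal S * w (a, z₁)) +
          2 * ∫⁻ σ₁, J (a, z₁, σ₁) * w (post a z₁ σ₁, z₀) ∂(surf d)) =
        2 * (ENNReal.ofReal S * N₀ * H a) + 2 * K a := by
      have hwa1 : Measurable fun z : Vec d => w (a, z) := hwm.comp (by fun_prop :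
        Measurable fun z : Vec d => ((a, z) : Vec d × Vec d))
      have hka1 : Measurable fun z : Vec d => k (a, z) := hkm.comp (by fun_prop :
        Measurable fun z : Vec d => ((a, z) : Vec d × Vec d))
      have hin : ∀ z₁ : Vec d, ∫⁻ z₀, ENNReal.ofReal (g z₁) * ENNReal.ofReal (g z₀) *
          (2 * (ENNReal.ofReal S * w (a, z₁)) +
          2 * ∫⁻ σ₁, J (a, z₁, σ₁) * w (post a z₁ σ₁, z₀) ∂(surf d)) =
          2 * (ENNReal.ofReal S * N₀ * (ENNReal.ofReal (g z₁) * w (a, z₁))) +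
            2 * (ENNReal.ofReal (g z₁) * k (a, z₁)) := by
        intro z₁
        have hpa : Measurable fun σ : Vec d => post a z₁ σ := hpost.comp (by fun_prop :
          Measurable fun σ : Vec d => ((a, z₁, σ) : Vec d × Vec d × Vec d))
        have hJa : Measurable fun σ : Vec d => J (a, z₁, σ) := hJm.comp (by fun_prop :
          Measurable fun σ : Vec d => ((a, z₁, σ) : Vec d × Vec d × Vec d))
        have hjw : Measurable fun x : Vec d × Vec d =>
            J (a, z₁, x.2) * w (post a z₁ x.2, x.1) :=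
          (hJa.comp measurable_snd).mul
            (hwm.comp ((hpa.comp measurable_snd).prodMk measurable_fst))
        have hgjw : Measurable fun x : Vec d × Vec d =>
            ENNReal.ofReal (g x.1) * (J (a, z₁, x.2) * w (post a z₁ x.2, x.1)) :=
          (hgm.comp measurable_fst).mul hjw
        have hmi : Measurable fun z₀ : Vec d =>
            ENNReal.ofReal (g z₀) * ∫⁻ σ₁, J (a, z₁, σ₁) * w (post a z₁ σ₁, z₀) ∂(surf d) :=
          hgm.mul (Measurable.lintegral_prod_right' (f := fun x : Vec d × Vec d =>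
            J (a, z₁, x.2) * w (post a z₁ x.2, x.1)) hjw)
        have hsw : ∫⁻ z₀, ENNReal.ofReal (g z₀) *
            ∫⁻ σ₁, J (a, z₁, σ₁) * w (post a z₁ σ₁, z₀) ∂(surf d) = k (a, z₁) := by
          calc _ = ∫⁻ z₀, ∫⁻ σ₁, ENNReal.ofReal (g z₀) *
                (J (a, z₁, σ₁) * w (post a z₁ σ₁, z₀)) ∂(surf d) := by
                refine lintegral_congr fun z₀ => ?_
                exact (lintegral_const_mul' _ _ ENNReal.ofReal_ne_top).symm
            _ = ∫⁻ σ₁, (∫⁻ z₀, ENNReal.ofReal (g z₀) *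
                (J (a, z₁, σ₁) * w (post a z₁ σ₁, z₀))) ∂(surf d) :=
                lintegral_lintegral_swap hgjw.aemeasurable
            _ = ∫⁻ σ₁, J (a, z₁, σ₁) * H (post a z₁ σ₁) ∂(surf d) := by
                refine lintegral_congr fun σ₁ => ?_
                have hm1 : Measurable fun z₀ : Vec d =>
                    ENNReal.ofReal (g z₀) * w (post a z₁ σ₁, z₀) :=
                  hgm.mul (hwm.comp (measurable_const.prodMk measurable_id))
                rw [hH, ← lintegral_const_mul _ hm1]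
                refine lintegral_congr fun z₀ => ?_
                ring
        have e0 : ∀ z₀ : Vec d, ENNReal.ofReal (g z₁) * ENNReal.ofReal (g z₀) *
            (2 * (ENNReal.ofReal S * w (a, z₁)) +
            2 * ∫⁻ σ₁, J (a, z₁, σ₁) * w (post a z₁ σ₁, z₀) ∂(surf d)) =
            ENNReal.ofReal (g z₁) * (2 * (ENNReal.ofReal S * w (a, z₁))) * ENNReal.ofReal (g z₀) +
            ENNReal.ofReal (g z₁) * 2 * (ENNReal.ofReal (g z₀) *
              ∫⁻ σ₁, J (a, z₁, σ₁) * w (post a z₁ σ₁, z₀) ∂(surf d)) := by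
          intro z₀
          ring
        rw [lintegral_congr e0, lintegral_add_left (hgm.const_mul _),
          lintegral_const_mul _ hgm, lintegral_const_mul _ hmi, hsw]
        ring
      rw [lintegral_congr hin]
      have hm2 : Measurable fun z₁ : Vec d => ENNReal.ofReal (g z₁) * w (a, z₁) := hgm.mul hwa1
      have hm3 : Measurable fun z₁ : Vec d => ENNReal.ofReal (g z₁) * k (a, z₁) := hgm.mul hka1
      rw [lintegral_add_left ((hm2.const_mul _).const_mul _), lintegral_const_mul 2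
        (hm2.const_mul _), lintegral_const_mul _ hm2, lintegral_const_mul 2 hm3]
    rw [hsum] at hpair
    have hc1 : ENNReal.ofReal c⁻¹ * ENNReal.ofReal c = 1 := by
      rw [← ENNReal.ofReal_mul (by positivity), inv_mul_cancel₀ hc.ne', ENNReal.ofReal_one]
    calc L = ENNReal.ofReal c⁻¹ * (ENNReal.ofReal c * L) := by rw [← mul_assoc, hc1, one_mul]
      _ ≤ ENNReal.ofReal c⁻¹ * (ENNReal.ofReal A₂ * (2 * (ENNReal.ofReal S * N₀ * H a) + 2 * K a)) :=
          mul_le_mul' le_rfl hpair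
      _ = _ := by rw [← mul_assoc, ← ENNReal.ofReal_mul (by positivity)]
  calc ∫⁻ a in Metric.closedBall (0 : Vec d) R, ∫⁻ b in {b : Vec d | len (b - a) ≤ r},
        ENNReal.ofReal (u b - u a) ^ 2 
      ≤ ∫⁻ a in Metric.closedBall (0 : Vec d) R,
        ENNReal.ofReal (c⁻¹ * A₂) * (2 * (ENNReal.ofReal S * N₀ * H a) + 2 * K a) :=
        setLIntegral_mono' Metric.isClosed_closedBall.measurableSet hkey
    _ ≤ ∫⁻ a, ENNReal.ofReal (c⁻¹ * A₂) * (2 * (ENNReal.ofReal S * N₀ * H a) + 2 * K a) :=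
        setLIntegral_le_lintegral _ _
    _ = ENNReal.ofReal (c⁻¹ * A₂) * (2 * (ENNReal.ofReal S * N₀ * ∫⁻ a, H a) + 2 * ∫⁻ a, K a) := by
        have e1 := lintegral_const_mul (ENNReal.ofReal (c⁻¹ * A₂))
          (f := fun a => 2 * (ENNReal.ofReal S * N₀ * H a) + 2 * K a) (μ := volume)
          (((hHm.const_mul _).const_mul _).add (hKm.const_mul _))
        have e2 := lintegral_add_left (f := fun a => 2 * (ENNReal.ofReal S * N₀ * H a))
          (μ := volume) ((hHm.const_mul _).const_mul _) (fun a => 2 * K a)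
        have e3 := lintegral_const_mul 2 (f := fun a => ENNReal.ofReal S * N₀ * H a)
          (μ := volume) (hHm.const_mul _)
        have e4 := lintegral_const_mul (ENNReal.ofReal S * N₀) (f := H) (μ := volume) hHm
        have e5 := lintegral_const_mul 2 (f := K) (μ := volume) hKm
        rw [e1, e2, e3, e4, e5]
    _ ≤ ENNReal.ofReal (c⁻¹ * A₂) * (2 * (ENNReal.ofReal S * ENNReal.ofReal |N| * ∫⁻ a, H a) +
          2 * (ENNReal.ofReal |N| * (ENNReal.ofReal A₃ * ∫⁻ v, H v))) := by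
        gcongr
        exact hKint.trans (by gcongr)
    _ = _ := by
        rw [ENNReal.ofReal_mul (by positivity : 0 ≤ c⁻¹ * A₂),
          ENNReal.ofReal_add (by positivity) (by positivity),
          ENNReal.ofReal_mul (by norm_num : (0 : ℝ) ≤ 2), ENNReal.ofReal_mul hS0,
          ENNReal.ofReal_mul (by norm_num : (0 : ℝ) ≤ 2), ENNReal.ofReal_mul (abs_nonneg N),
          ENNReal.ofReal_ofNat]
        ring

end Pool.Agent.H15.AV
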