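import Pool.Agent.H15.AVB.Kt

/-!
# The folded weak form of the cut-off operator

MODULE Fold. For fixed `v ≠ w` the function `Dl g v w` is even in `σ` (`post v w (-σ) = post' v w σ`), and
`kerB = kerB 1[cos > 0] + kerB 1[cos ≤ 0]`; flip `σ` in the second term (`neg_preserving`, `cosTh` is odd
in `σ`): `∫ kerB Dl dσ = ∫ kt Dl dσ` (`inner_integrable` for integrability; at `cos = 0` use the two
`ite` of `bt`). Then Fubini (`int_src`, `int_los` give the integrability of `kt φ Dl` over `mu3`).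
-/

set_option autoImplicit false

open MeasureTheory Set Filter Topology Pool.Agent.H25.Kin
open Pool.Agent.H82.BK (bt bcut Kn hh co BB dir)

namespace Pool.Agent.H15.AV

variable {d : ℕ} {γ s Cb Ca ε : ℝ} {b : ℝ → ℝ}

private lemma Fold_post (v w σ : Vec d) : post v w (-σ) = post' v w σ := by
  unfold post post'; rw [smul_neg, ← sub_eq_add_neg]

private lemma Fold_post' (v w σ : Vec d) : post' v w (-σ) = post v w σ := by
  unfold post post'; rw [smul_neg, sub_neg_eq_add]

private lemma Fold_cos (v w σ : Vec d) : cosTh v w (-σ) = -cosTh v w σ := by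
  unfold cosTh; rw [neg_dot, neg_div]

private lemma Fold_ker (γ : ℝ) (b : ℝ → ℝ) (ε : ℝ) (v w σ : Vec d) :
    kerB γ b ε v w σ = len (v - w) ^ γ * bcut b ε (cosTh v w σ) := by
  unfold kerB bcut
  split_ifs
  · rfl
  · rw [mul_zero]

private lemma Fold_inner (H : Hyp d γ s b Cb Ca) (hε : 0 < ε) {D : Vec d → ℝ}
    (hD : Measurable D) {D0 : ℝ} (hD0 : ∀ σ, nsq σ = 1 → |D σ| ≤ D0)
    (hev : ∀ σ, D (-σ) = D σ) (v w : Vec d) :
    ∫ σ, kerB γ b ε v w σ * D σ ∂(surf d) = ∫ σ, kt γ b ε (v, w, σ) * D σ ∂(surf d) := by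
  classical
  have hc := measurable_cosTh' v w
  set Fp : Vec d → ℝ := fun σ => if 0 < cosTh v w σ then D σ else 0 with hFp
  set Fm : Vec d → ℝ := fun σ => if cosTh v w σ ≤ 0 then D σ else 0 with hFm
  have mp : Measurable Fp := Measurable.ite (hc measurableSet_Ioi) hD measurable_const
  have mm : Measurable Fm := Measurable.ite (hc measurableSet_Iic) hD measurable_const
  have bp : ∀ σ, nsq σ = 1 → |Fp σ| ≤ D0 := by
    intro σ hσ
    simp only [hFp]
    split_ifs
    · exact hD0 σ hσ
    · rw [abs_zero]; exact (abs_nonneg _).trans (hD0 σ hσ)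
  have bm : ∀ σ, nsq σ = 1 → |Fm σ| ≤ D0 := by
    intro σ hσ
    simp only [hFm]
    split_ifs
    · exact hD0 σ hσ
    · rw [abs_zero]; exact (abs_nonneg _).trans (hD0 σ hσ)
  have ip := inner_integrable (γ := γ) (v := v) (w := w) H.bm H.bd H.β0 hε mp bp
  have im := inner_integrable (γ := γ) (v := v) (w := w) H.bm H.bd H.β0 hε mm bm
  have hneg := neg_preserving (d := d) H.hd1
  have mkm : Measurable fun σ => kerB γ b ε v w σ * Fm σ :=
    (measurable_kerB' γ H.bm ε v w).mul mm
  have im' : Integrable (fun σ => kerB γ b ε v w (-σ) * Fm (-σ)) (surf d) :=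
    hneg.integrable_comp_of_integrable im
  have e1 : ∫ σ, kerB γ b ε v w (-σ) * Fm (-σ) ∂(surf d) =
      ∫ σ, kerB γ b ε v w σ * Fm σ ∂(surf d) := by
    have h := integral_map (μ := surf d) (φ := fun σ : Vec d => -σ)
      hneg.measurable.aemeasurable (f := fun σ => kerB γ b ε v w σ * Fm σ)
      mkm.aestronglyMeasurable
    rw [hneg.map_eq] at h
    exact h.symm
  have e2 : ∫ σ, kerB γ b ε v w σ * D σ ∂(surf d) =
      (∫ σ, kerB γ b ε v w σ * Fp σ ∂(surf d)) + ∫ σ, kerB γ b ε v w σ * Fm σ ∂(surf d) := by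
    rw [← integral_add ip im]
    refine integral_congr_ae (Eventually.of_forall fun σ => ?_)
    simp only [hFp, hFm]
    by_cases h : 0 < cosTh v w σ
    · rw [if_pos h, if_neg (not_le.2 h)]; ring
    · rw [if_neg h, if_pos (not_lt.1 h)]; ring
  rw [e2, ← e1, ← integral_add ip im']
  refine integral_congr_ae (Eventually.of_forall fun σ => ?_)
  simp only [hFp, hFm, Fold_ker, Fold_cos, hev]
  unfold kt bt
  simp only
  rcases lt_trichotomy (cosTh v w σ) 0 with h | h | h
  · have h1 : ¬ -cosTh v w σ ≤ 0 := by linarith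
    rw [if_neg (not_lt.2 h.le), if_neg h1, if_neg (not_lt.2 h.le), if_neg (not_le.2 h)]
    ring
  · rw [h]
    simp
  · have h1 : -cosTh v w σ ≤ 0 := by linarith
    rw [if_pos h, if_pos h1, if_pos h, if_pos h.le]
    ring

theorem boltzCut_fold (H : Hyp d γ s b Cb Ca) (hε : 0 < ε) {g : Vec d → ℝ} (hg : RD g)
    (hgc : Continuous g) (v : Vec d) : boltzCut γ b ε g v =
      ∫ w, ∫ σ, kt γ b ε (v, w, σ) * (g (post' v w σ) * g (post v w σ) - g w * g v) ∂(surf d) := by
  unfold boltzCut
  refine integral_congr_ae (Eventually.of_forall fun w => ?_)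
  obtain ⟨F0, hF0⟩ := Dl_bdd hg v w
  exact Fold_inner H hε (D := fun σ => Dl g v w σ) (Dl_meas hgc v w) hF0 (fun σ => by
    unfold Dl
    rw [Fold_post, Fold_post']
    ring) v w

theorem cut_fold (H : Hyp d γ s b Cb Ca) (hε : 0 < ε) {g : Vec d → ℝ} (hg : RD g)
    (hgc : Continuous g) {R K : ℝ} {P : Vec d → ℝ} (hP : BTst R K P) :
    ∫ v, boltzCut γ b ε g v * P v =
      ∫ p, kt γ b ε p * (P p.1 * (g (wp p) * g (vp p) - g p.2.1 * g p.1)) ∂(mu3 d) := by
  obtain ⟨C0, hC0⟩ := hg 0
  have hgb : ∀ u, |g u| ≤ C0 := fun u => by simpa using hC0 u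
  have hC00 : 0 ≤ C0 := (abs_nonneg _).trans (hgb 0)
  have hK0 : 0 ≤ K := (abs_nonneg _).trans (hP.le 0)
  have i1 : Integrable (fun p => kt γ b ε p * (g (wp p) * (P p.1 * g (vp p)))) (mu3 d) := by
    refine int_src H hε hg hgc.measurable (F := fun p => P p.1 * g (vp p)) (A := K * C0) (R := R)
      ((hP.meas.comp measurable_fst).mul (hgc.measurable.comp measurable_vp)) (fun p => ?_)
      (fun p hp => ?_)
    · rw [abs_mul]
      exact mul_le_mul (hP.le _) (hgb _) (abs_nonneg _) hK0
    · rw [hP.supp _ hp, zero_mul]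
  have i2 : Integrable (fun p => kt γ b ε p * (g p.2.1 * (P p.1 * g p.1))) (mu3 d) := by
    refine int_los H hε hg hgc.measurable (F := fun p => P p.1 * g p.1) (A := K * C0) (R := R)
      ((hP.meas.comp measurable_fst).mul (hgc.measurable.comp measurable_fst)) (fun p => ?_)
      (fun p hp => ?_)
    · rw [abs_mul]
      exact mul_le_mul (hP.le _) (hgb _) (abs_nonneg _) hK0
    · rw [hP.supp _ hp, zero_mul]
  have i3 : Integrable (fun p => kt γ b ε p *
      (P p.1 * (g (wp p) * g (vp p) - g p.2.1 * g p.1))) (mu3 d) := by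
    refine (i1.sub i2).congr (Eventually.of_forall fun p => ?_)
    simp only [Pi.sub_apply]
    ring
  rw [integral_prod _ i3]
  refine integral_congr_ae ?_
  filter_upwards [i3.prod_right_ae] with v hv
  rw [integral_prod _ hv, boltzCut_fold H hε hg hgc v, mul_comm, ← integral_const_mul]
  refine integral_congr_ae (Eventually.of_forall fun w => ?_)
  simp only
  rw [← integral_const_mul]
  refine integral_congr_ae (Eventually.of_forall fun σ => ?_)
  simp only [wp, vp]
  ring

end Pool.Agent.H15.AV
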