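import Pool.Agent.H15.AVB.BDef
import Pool.Agent.H82.BK.HA

/-!
# The half angle formula for general functions

MODULE HAg. `half_angle_gen`: the proof of `half_angle` (H82/BK/HA.lean, copy it) works for
`F(k) = c_k^d Φ(k^) 1[|k| c_k < 1]`, `k^ = dir k`, `c_k = √((1+k^·e)/2)`: for `k = kap e m` one has
`dir k = refl (dir m) e = 2 (dir m · e) dir m - e`.
`post_polar_ge`: `post v w (refl η e) = w + ((v-w)·η) η` for `e = dirk v w`, `cosTh = 2(e·η)²-1`; the
weight `2^(d-1) (e·η)^(d-2)` is `≥ 1` for `(e·η)² ≥ 1/2`.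
-/

set_option autoImplicit false

open MeasureTheory Set Filter Topology Pool.Agent.H25.Kin
open scoped ENNReal

namespace Pool.Agent.H15.AV

variable {d : ℕ}

private noncomputable def hcs (x : ℝ) : ℝ := Real.sqrt ((1 + x) / 2)

private lemma hcs_meas : Measurable hcs := by
  unfold hcs
  exact (Real.continuous_sqrt.comp (by fun_prop)).measurable

private lemma hdir_meas : Measurable (Pool.Agent.H82.BK.dir : Vec d → Vec d) := by
  unfold Pool.Agent.H82.BK.dir
  exact (continuous_len.measurable.inv).smul measurable_id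

open Classical in
private noncomputable def HF (d : ℕ) (Φ : Vec d → ℝ≥0∞) (e k : Vec d) : ℝ≥0∞ :=
  if len k * hcs (dot e (Pool.Agent.H82.BK.dir k)) < 1 then
    ENNReal.ofReal (hcs (dot e (Pool.Agent.H82.BK.dir k)) ^ d) * Φ (Pool.Agent.H82.BK.dir k) else 0

private lemma HF_meas {Φ : Vec d → ℝ≥0∞} (hΦ : Measurable Φ) (e : Vec d) :
    Measurable (HF d Φ e) := by
  unfold HF
  have h1 : Measurable fun k : Vec d => dot e (Pool.Agent.H82.BK.dir k) :=
    (dot_cont e).measurable.comp hdir_meas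
  have h2 : Measurable fun k : Vec d => hcs (dot e (Pool.Agent.H82.BK.dir k)) := hcs_meas.comp h1
  refine Measurable.ite ?_ ?_ measurable_const
  · exact measurableSet_lt (continuous_len.measurable.mul h2) measurable_const
  · exact ((h2.pow_const d).ennreal_ofReal).mul (hΦ.comp hdir_meas)

private lemma hrad_lt (hd : 1 ≤ d) {c : ℝ} (hc : 0 < c) :
    rad d {ρ | ρ.1 * c < 1} = ENNReal.ofReal ((1 / c) ^ d / d) := by
  have hc' : 0 < 1 / c := by positivity
  have h := Measure.volumeIoiPow_apply_Iio (d - 1) (⟨1 / c, hc'⟩ : Ioi (0 : ℝ))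
  have e : {ρ : Ioi (0 : ℝ) | ρ.1 * c < 1} = Iio (⟨1 / c, hc'⟩ : Ioi (0 : ℝ)) := by
    ext ρ
    simp only [mem_Iio, ← Subtype.coe_lt_coe, mem_setOf_eq]
    exact (lt_div_iff₀ hc).symm
  rw [e, h]
  have h1 : d - 1 + 1 = d := by omega
  have h2 : ((d - 1 : ℕ) : ℝ) + 1 = d := by exact_mod_cast h1
  simp only [h1, h2]

private lemma HF_polar (hd : 1 ≤ d) {e : Vec d} (he : nsq e = 1) {Φ : Vec d → ℝ≥0∞}
    (hΦ : Measurable Φ) (h1 : ∀ σ, dot e σ = -1 → Φ σ = 0) :
    ∫⁻ k, HF d Φ e k = ENNReal.ofReal (1 / d) * ∫⁻ σ, Φ σ ∂(surf d) := by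
  have hd0 : (0 : ℝ) < d := by exact_mod_cast hd
  rw [polar hd (HF_meas hΦ e), ← lintegral_const_mul _ hΦ]
  refine lintegral_congr_ae ?_
  filter_upwards [surf_ae] with σ hσ
  have h1σ := h1 σ
  set x := dot e σ with hx
  have hxle : |x| ≤ 1 := dot_le_one he hσ
  have hval : ∀ ρ : Ioi (0 : ℝ), HF d Φ e (ρ.1 • σ) =
      ({ρ : Ioi (0 : ℝ) | ρ.1 * hcs x < 1}).indicator
        (fun _ => ENNReal.ofReal (hcs x ^ d) * Φ σ) ρ := by
    intro ρ
    have hρ : 0 < ρ.1 := ρ.2
    have h2 : len (ρ.1 • σ) = ρ.1 := by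
      rw [len_smul hρ.le]
      unfold len
      rw [hσ, Real.sqrt_one, mul_one]
    have h3 : Pool.Agent.H82.BK.dir (ρ.1 • σ) = σ := by
      unfold Pool.Agent.H82.BK.dir
      rw [h2, inv_smul_smul₀ hρ.ne']
    unfold HF
    rw [h2, h3, ← hx]
    by_cases hlt : ρ.1 * hcs x < 1
    · rw [if_pos hlt, indicator_of_mem (by exact hlt)]
    · rw [if_neg hlt, indicator_of_notMem (by exact hlt)]
  simp_rw [hval]
  have hms : MeasurableSet {ρ : Ioi (0 : ℝ) | ρ.1 * hcs x < 1} :=
    measurableSet_lt (measurable_subtype_coe.mul_const _) measurable_const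
  rw [lintegral_indicator hms, lintegral_const, Measure.restrict_apply MeasurableSet.univ,
    univ_inter]
  by_cases hxm : x = -1
  · rw [h1σ hxm]; simp
  · have hx1 : -1 < x := lt_of_le_of_ne (abs_le.1 hxle).1 (Ne.symm hxm)
    have hcs0 : 0 < hcs x := by
      unfold hcs
      exact Real.sqrt_pos.2 (by linarith)
    rw [hrad_lt hd hcs0]
    have h4 : ENNReal.ofReal (hcs x ^ d) * ENNReal.ofReal ((1 / hcs x) ^ d / d) =
        ENNReal.ofReal (1 / d) := by
      rw [← ENNReal.ofReal_mul (by positivity)]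
      congr 1
      have h5 : hcs x ^ d * (1 / hcs x) ^ d = 1 := by
        rw [← mul_pow, mul_one_div_cancel hcs0.ne', one_pow]
      rw [← mul_div_assoc, h5]
    calc ENNReal.ofReal (hcs x ^ d) * Φ σ * ENNReal.ofReal ((1 / hcs x) ^ d / d)
        = (ENNReal.ofReal (hcs x ^ d) * ENNReal.ofReal ((1 / hcs x) ^ d / d)) * Φ σ := by ring
      _ = ENNReal.ofReal (1 / d) * Φ σ := by rw [h4]

private lemma hkap_data {e m : Vec d} (he : nsq e = 1) (h : 0 < dot m e) :
    0 < len m ∧ dot m e / len m ≤ 1 ∧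
      len (Pool.Agent.H82.BK.kap e m) = len m / (dot m e / len m) ∧
      Pool.Agent.H82.BK.dir (Pool.Agent.H82.BK.kap e m) = refl ((len m)⁻¹ • m) e := by
  have hm : m ≠ 0 := by
    rintro rfl
    have : dot (0 : Vec d) e = 0 := by unfold dot; simp
    rw [this] at h
    exact lt_irrefl _ h
  have hL : 0 < len m := len_pos hm
  have hLs : len m ^ 2 = nsq m := len_sq m
  have h1 : dot m e / len m ≤ 1 := by
    rw [div_le_one hL]
    have h2 := dot_sq_le m e
    rw [he, mul_one, ← hLs] at h2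
    exact (le_abs_self _).trans (abs_le_of_sq_le_sq h2 hL.le)
  have h2 : nsq (Pool.Agent.H82.BK.kap e m) = (nsq m / dot m e) ^ 2 := by
    unfold Pool.Agent.H82.BK.kap
    rw [nsq_sub, nsq_smul, nsq_smul, he, dot_smul, smul_dot]
    field_simp
    ring
  have h3 : len (Pool.Agent.H82.BK.kap e m) = nsq m / dot m e := by
    unfold len
    rw [h2, Real.sqrt_sq]
    rw [← hLs]
    positivity
  have h4 : len (Pool.Agent.H82.BK.kap e m) = len m / (dot m e / len m) := by
    rw [h3, ← hLs]
    field_simp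
  refine ⟨hL, h1, h4, ?_⟩
  unfold Pool.Agent.H82.BK.dir
  rw [h3, ← hLs, refl_apply, smul_dot]
  unfold Pool.Agent.H82.BK.kap
  rw [← hLs]
  ext i
  simp only [Pi.smul_apply, Pi.sub_apply, smul_eq_mul]
  field_simp

theorem half_angle_gen (hd : 2 ≤ d) {e : Vec d} (he : nsq e = 1) {Φ : Vec d → ℝ≥0∞}
    (hΦ : Measurable Φ) (h1 : ∀ σ, dot e σ = -1 → Φ σ = 0) :
    ∫⁻ η in {η : Vec d | 0 < dot e η},
      ENNReal.ofReal (2 ^ (d - 1) * dot e η ^ (d - 2)) * Φ (refl η e) ∂(surf d) =
      ∫⁻ σ, Φ σ ∂(surf d) := by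
  have hd1 : 1 ≤ d := by omega
  have hd0 : (0 : ℝ) < d := by exact_mod_cast hd1
  have hem : Measurable fun σ : Vec d => dot e σ := (dot_cont e).measurable
  have hS : MeasurableSet {σ : Vec d | 0 < dot e σ} := measurableSet_lt measurable_const hem
  have hS' : MeasurableSet {σ : Vec d | 0 < dot σ e} := by
    have : {σ : Vec d | 0 < dot σ e} = {σ : Vec d | 0 < dot e σ} := by
      ext σ; rw [mem_setOf_eq, mem_setOf_eq, dot_comm]
    rw [this]; exact hS
  have hrm : Measurable fun η : Vec d => refl η e := by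
    have h2 : (fun η : Vec d => refl η e) = fun η => (2 * dot e η) • η - e := by
      funext η
      rw [refl_apply, dot_comm η e]
    rw [h2]
    exact ((hem.const_mul _).smul measurable_id).sub_const _
  set g : Vec d → ℝ≥0∞ := fun σ =>
    ENNReal.ofReal (2 ^ (d - 1) * dot e σ ^ (d - 2)) * Φ (refl σ e) with hg
  have hgm : Measurable g := by
    refine Measurable.mul ?_ (hΦ.comp hrm)
    exact ((hem.pow_const _).const_mul _).ennreal_ofReal
  have hGm : Measurable ({σ : Vec d | 0 < dot e σ}.indicator g) := hgm.indicator hS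
  have hA : ∫⁻ k, HF d Φ e k = ENNReal.ofReal (1 / d) *
      ∫⁻ σ, ({σ : Vec d | 0 < dot e σ}.indicator g) σ ∂(surf d) := by
    rw [Pool.Agent.H82.BK.cv hd he (HF_meas hΦ e), ← ball_formula hd1 hGm,
      ← lintegral_indicator hS',
      ← lintegral_indicator (isOpen_lt continuous_sq continuous_const).measurableSet]
    refine lintegral_congr fun m => ?_
    have hdm : dot e ((len m)⁻¹ • m) = dot m e / len m := by
      rw [dot_smul, dot_comm e m]; ring
    by_cases h : 0 < dot m e
    · obtain ⟨hL, hc1, hlk, hdk⟩ := hkap_data he h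
      have hn1 : nsq ((len m)⁻¹ • m) = 1 := by
        rw [nsq_smul, ← len_sq]
        field_simp
      have hdd : dot e (refl ((len m)⁻¹ • m) e) = 2 * (dot m e / len m) ^ 2 - 1 := by
        rw [refl_apply, dot_sub, dot_smul, dot_comm ((len m)⁻¹ • m) e, hdm, dot_self, he]
        ring
      set c := dot m e / len m with hc
      have hc0 : 0 < c := div_pos h hL
      have hcs0 : hcs (2 * c ^ 2 - 1) = c := by
        unfold hcs
        rw [show (1 + (2 * c ^ 2 - 1)) / 2 = c ^ 2 by ring, Real.sqrt_sq hc0.le]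
      rw [indicator_of_mem (by exact h)]
      have hq : nsq m / dot m e ^ 2 = 1 / c ^ 2 := by
        rw [hc, ← len_sq m]
        field_simp
      have hlt : nsq m < 1 ↔ len m < 1 := by
        rw [← len_sq m]
        constructor
        · intro h'; nlinarith
        · intro h'; nlinarith
      have hcd : c ^ d = c ^ 2 * c ^ (d - 2) := by
        rw [← pow_add]; congr 1; omega
      unfold HF
      rw [hdk, hdd, hcs0, hlk, hq, div_mul_cancel₀ _ hc0.ne']
      by_cases hl : len m < 1
      · rw [if_pos hl, indicator_of_mem (by exact hlt.2 hl),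
          indicator_of_mem (by
            change 0 < dot e ((len m)⁻¹ • m)
            rw [hdm]; exact hc0)]
        simp only [hg]
        rw [hdm]
        rw [mul_right_comm, ← ENNReal.ofReal_mul (by positivity)]
        congr 2
        rw [hcd]
        field_simp
      · rw [if_neg hl, indicator_of_notMem (by exact fun h' => hl (hlt.1 h')), zero_mul]
    · rw [indicator_of_notMem (by exact h)]
      symm
      by_cases hl : nsq m < 1
      · rw [indicator_of_mem (by exact hl), indicator_of_notMem]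
        change ¬ (0 < dot e ((len m)⁻¹ • m))
        rw [hdm]
        intro h'
        apply h
        have hL := len_nonneg m
        by_contra h2
        exact absurd h' (not_lt.2 (div_nonpos_of_nonpos_of_nonneg (not_lt.1 h2) hL))
      · rw [indicator_of_notMem (by exact hl)]
  rw [HF_polar hd1 he hΦ h1, lintegral_indicator hS] at hA
  have hne0 : ENNReal.ofReal (1 / d) ≠ 0 := by
    rw [Ne, ENNReal.ofReal_eq_zero, not_le]; positivity
  exact ((ENNReal.mul_right_inj hne0 ENNReal.ofReal_ne_top).1 hA).symm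

open Classical in
theorem post_polar_ge (hd : 2 ≤ d) {v w : Vec d} (hvw : v ≠ w) {ε : ℝ} (hε : 0 < ε)
    {F : Vec d → ℝ≥0∞} (hF : Measurable F) :
    ∫⁻ η, (if 0 < dot (dirk v w) η ∧ 1 / 2 ≤ dot (dirk v w) η ^ 2 ∧
        dot (dirk v w) η ^ 2 ≤ 1 - ε / 2 then F (w + dot (v - w) η • η) else 0) ∂(surf d) ≤
      ∫⁻ σ, (if 0 ≤ cosTh v w σ ∧ cosTh v w σ ≤ 1 - ε then F (post v w σ) else 0) ∂(surf d) := by
  have he : nsq (dirk v w) = 1 := nsq_dirk hvw
  have hem : Measurable fun σ : Vec d => dot (dirk v w) σ := (dot_cont _).measurable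
  have hpm : Measurable fun σ : Vec d => post v w σ := by
    have hc : Continuous fun σ : Vec d => post v w σ := by
      unfold post
      fun_prop
    exact hc.measurable
  have hΦ : Measurable fun σ : Vec d =>
      (if 0 ≤ cosTh v w σ ∧ cosTh v w σ ≤ 1 - ε then F (post v w σ) else 0) := by
    simp only [cosTh_eq]
    refine Measurable.ite ?_ (hF.comp hpm) measurable_const
    exact (measurableSet_le measurable_const hem).inter (measurableSet_le hem measurable_const)
  have key := half_angle_gen hd he hΦ (fun σ hσ => by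
    rw [if_neg]
    rw [cosTh_eq, hσ]
    intro h
    linarith [h.1])
  rw [← key, ← lintegral_indicator (measurableSet_lt measurable_const hem)]
  refine lintegral_mono_ae ?_
  filter_upwards [surf_ae] with η hη
  by_cases hc : 0 < dot (dirk v w) η ∧ 1 / 2 ≤ dot (dirk v w) η ^ 2 ∧
        dot (dirk v w) η ^ 2 ≤ 1 - ε / 2
  · rw [if_pos hc, indicator_of_mem (by exact hc.1)]
    obtain ⟨c1, c2, c3⟩ := hc
    set c := dot (dirk v w) η with hcdef
    have hcr : cosTh v w (refl η (dirk v w)) = 2 * c ^ 2 - 1 := by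
      rw [cosTh_eq, refl_apply, dot_sub, dot_smul, dot_comm η (dirk v w), dot_self, he, ← hcdef]
      ring
    have hpost : post v w (refl η (dirk v w)) = w + dot (v - w) η • η := by
      have h1 := len_smul_dirk v w
      have h2 : dot (v - w) η = len (v - w) * c := by
        rw [← h1, smul_dot, h1]
      unfold post
      rw [refl_apply, dot_comm η (dirk v w), ← hcdef, smul_sub, smul_smul, h2]
      have h3 : (len (v - w) / 2) • dirk v w = (1 / 2 : ℝ) • (v - w) := by
        nth_rewrite 2 [← h1]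
        rw [smul_smul]
        congr 1
        ring
      rw [h3]
      ext i
      simp only [Pi.add_apply, Pi.sub_apply, Pi.smul_apply, smul_eq_mul]
      ring
    rw [hcr, hpost, if_pos ⟨by linarith, by linarith⟩]
    have hw : (1 : ℝ) ≤ 2 ^ (d - 1) * c ^ (d - 2) := by
      have hch : 1 / 2 ≤ c := by nlinarith
      have h5 : (1 / 2 : ℝ) ^ (d - 2) ≤ c ^ (d - 2) := by gcongr
      have h6 : (2 : ℝ) ^ (d - 1) = 2 * 2 ^ (d - 2) := by
        rw [← pow_succ']
        congr 1
        omega
      have h7 : (2 : ℝ) ^ (d - 2) * (1 / 2) ^ (d - 2) = 1 := by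
        rw [← mul_pow]
        norm_num
      have h8 : (0 : ℝ) < 2 ^ (d - 2) := by positivity
      calc (1 : ℝ) ≤ 2 * (2 ^ (d - 2) * (1 / 2) ^ (d - 2)) := by rw [h7]; norm_num
        _ ≤ 2 * (2 ^ (d - 2) * c ^ (d - 2)) := by gcongr
        _ = 2 ^ (d - 1) * c ^ (d - 2) := by rw [h6]; ring
    have h9 : (1 : ℝ≥0∞) ≤ ENNReal.ofReal (2 ^ (d - 1) * c ^ (d - 2)) := by
      rw [← ENNReal.ofReal_one]
      exact ENNReal.ofReal_le_ofReal hw
    calc F (w + dot (v - w) η • η) = 1 * F (w + dot (v - w) η • η) := (one_mul _).symm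
      _ ≤ _ := by gcongr
  · rw [if_neg hc]
    exact zero_le

end Pool.Agent.H15.AV
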