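import Pool.Agent.H15.AVB.BDef

/-!
# The folded kernel

MODULE Kt. `bt_nonneg`, `bt_neg`, `measurable_bt` (H82/BK/Geo); `bt ≤ C ε^(-β) + C` on `[0,1]` from `H.bd`.
`kt_coll`, `vp_coll`, `wp_coll`: `cosTh_post`, `len_post`, `post_post`, `post'_post`.
`kt_int`: `int3` (H25/Kin/BWeak) with `F := kt * F`; `kt = 0` for `cosTh < 0`.
`wp_weight`: for `cosTh ≥ 0`, `|v - w|² ≤ 2 |v - w'|²` (`v - w' = (|z|/2)(ẑ + σ)`, so
`|v-w'|² = |z|²(1+cosTh)/2`), hence `1 + ‖w‖ ≤ C_R (1 + ‖w'‖)` for `‖v‖ ≤ R`.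
`kt_swap`: `integral_comp_mp (coll_preserving ..)` and `ae_good`. `int_swp` from `int_src` by
`MeasurePreserving.integrable_comp` and `ae_good`.
-/

set_option autoImplicit false

open MeasureTheory Set Filter Topology Pool.Agent.H25.Kin
open Pool.Agent.H82.BK (bt bcut Kn hh co BB dir)

namespace Pool.Agent.H15.AV

variable {d : ℕ} {γ s Cb Ca ε : ℝ} {b : ℝ → ℝ}

theorem kt_nonneg (H : Hyp d γ s b Cb Ca) (hε : 0 < ε) {p : Vec d × Vec d × Vec d}
    (hp : nsq p.2.2 = 1) : 0 ≤ kt γ b ε p := by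
  unfold kt
  have h1 := abs_le.1 (abs_cosTh_le (v := p.1) (w := p.2.1) hp)
  exact mul_nonneg (Real.rpow_nonneg (len_nonneg _) _) (Pool.Agent.H82.BK.bt_nonneg H.bd hε h1.1 h1.2)

theorem kt_neg {p : Vec d × Vec d × Vec d} (h : cosTh p.1 p.2.1 p.2.2 < 0) : kt γ b ε p = 0 := by
  unfold kt
  rw [Pool.Agent.H82.BK.bt_neg h, mul_zero]

theorem kt_le (H : Hyp d γ s b Cb Ca) (hε : 0 < ε) : ∃ A : ℝ, 0 ≤ A ∧
    ∀ p : Vec d × Vec d × Vec d, nsq p.2.2 = 1 → kt γ b ε p ≤ A * len (p.1 - p.2.1) ^ γ := by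
  have hC0 := H.bd.1
  have hβ := H.β0
  have h3 := Real.rpow_nonneg hε.le (-(((d : ℝ) - 1) / 2 + s))
  refine ⟨Cb * ε ^ (-(((d : ℝ) - 1) / 2 + s)) + Cb, by positivity, fun p hp => ?_⟩
  have h1 := abs_le.1 (abs_cosTh_le (v := p.1) (w := p.2.1) hp)
  have h2 := Real.rpow_nonneg (len_nonneg (p.1 - p.2.1)) γ
  have h4 : (if 0 < cosTh p.1 p.2.1 p.2.2 then bcut b ε (cosTh p.1 p.2.1 p.2.2) else 0) ≤
      Cb * ε ^ (-(((d : ℝ) - 1) / 2 + s)) := by
    unfold bcut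
    split_ifs with h5 h6
    · refine (H.bd.2 _ h1.1 (by linarith)).2.trans ?_
      refine mul_le_mul_of_nonneg_left ?_ hC0
      exact Real.rpow_le_rpow_of_nonpos hε (by linarith) (by linarith)
    · positivity
    · positivity
  have h5 : (if 0 ≤ cosTh p.1 p.2.1 p.2.2 then bcut b ε (-cosTh p.1 p.2.1 p.2.2) else 0) ≤ Cb := by
    unfold bcut
    split_ifs with h5 h6
    · refine (H.bd.2 _ (by linarith [h1.2]) (by linarith)).2.trans ?_
      have h7 : (1 - -cosTh p.1 p.2.1 p.2.2) ^ (-(((d : ℝ) - 1) / 2 + s)) ≤ 1 :=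
        Real.rpow_le_one_of_one_le_of_nonpos (by linarith) (by linarith)
      calc Cb * (1 - -cosTh p.1 p.2.1 p.2.2) ^ (-(((d : ℝ) - 1) / 2 + s)) ≤ Cb * 1 := by gcongr
        _ = Cb := mul_one _
    · exact hC0
    · exact hC0
  unfold kt bt
  rw [mul_comm]
  gcongr

theorem kt_meas (hb : Measurable b) : Measurable (kt (d := d) γ b ε) := by
  unfold kt
  exact (measurable_lenpow γ).mul ((Pool.Agent.H82.BK.measurable_bt hb ε).comp measurable_cosTh)

theorem measurable_vp : Measurable (vp (d := d)) := by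
  exact continuous_post.measurable

theorem measurable_wp : Measurable (wp (d := d)) := by
  exact continuous_post'.measurable

theorem kt_coll {p : Vec d × Vec d × Vec d} (h : p.1 ≠ p.2.1) (hσ : nsq p.2.2 = 1) :
    kt γ b ε (coll p) = kt γ b ε p := by
  unfold kt coll
  rw [cosTh_post h hσ, len_post hσ]

theorem vp_coll {p : Vec d × Vec d × Vec d} (h : p.1 ≠ p.2.1) (hσ : nsq p.2.2 = 1) :
    vp (coll p) = p.1 := by
  exact post_post h hσ

theorem wp_coll {p : Vec d × Vec d × Vec d} (h : p.1 ≠ p.2.1) (hσ : nsq p.2.2 = 1) :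
    wp (coll p) = p.2.1 := by
  exact post'_post h hσ

/-- on folded collisions the relative velocity is controlled by `|v - w'|` -/
theorem nsq_le_wp {p : Vec d × Vec d × Vec d} (hσ : nsq p.2.2 = 1)
    (h : 0 ≤ cosTh p.1 p.2.1 p.2.2) : nsq (p.1 - p.2.1) ≤ 2 * nsq (p.1 - wp p) := by
  obtain ⟨v, w, σ⟩ := p
  simp only at hσ h
  change nsq (v - w) ≤ 2 * nsq (v - post' v w σ)
  have e1 : v - post' v w σ = (1 / 2 : ℝ) • (v - w) + (len (v - w) / 2) • σ := by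
    unfold post'
    ext i
    simp
    ring
  have e2 : dot (v - w) σ = len (v - w) * cosTh v w σ := by
    by_cases hz : v - w = 0
    · rw [hz, len_zero, zero_mul]
      unfold dot
      simp
    · have hp := (len_pos hz).ne'
      unfold cosTh
      rw [dot_comm σ (v - w)]
      field_simp
  have e3 : nsq (v - post' v w σ) = nsq (v - w) / 2 * (1 + cosTh v w σ) := by
    rw [e1, nsq_add, nsq_smul, nsq_smul, smul_dot, dot_smul, e2, hσ, ← len_sq]
    ring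
  rw [e3]
  have h0 := sq_nonneg' (v - w)
  nlinarith [mul_nonneg h0 h]

theorem kt_int (H : Hyp d γ s b Cb Ca) (hε : 0 < ε) {F : Vec d × Vec d × Vec d → ℝ}
    (hF : Measurable F) {A : ℝ} (hA : 0 ≤ A)
    (hb : ∀ p : Vec d × Vec d × Vec d, nsq p.2.2 = 1 → 0 ≤ cosTh p.1 p.2.1 p.2.2 →
      |F p| ≤ A * pw (d + 1 + (d + 5)) p.1 p.2.1) :
    Integrable (fun p => kt γ b ε p * F p) (mu3 d) := by
  obtain ⟨B, hB, hk⟩ := kt_le (γ := γ) H hε
  refine int3 H.hd H.g1 H.g2 ((kt_meas H.bm).mul hF) (A := B * A) (mul_nonneg hB hA)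
    fun v w σ hσ => ?_
  have hl := Real.rpow_nonneg (len_nonneg (v - w)) γ
  have hp := pw_nonneg (d + 1 + (d + 5)) v w
  have hs := sq_nonneg' (v - w)
  change |kt γ b ε (v, w, σ) * F (v, w, σ)| ≤ _
  rcases lt_or_ge (cosTh v w σ) 0 with h | h
  · rw [kt_neg (γ := γ) (b := b) (ε := ε) (p := (v, w, σ)) h, zero_mul, abs_zero]
    positivity
  · have h1 := hk (v, w, σ) hσ
    have h2 := hb (v, w, σ) hσ h
    simp only at h1 h2
    rw [abs_mul, abs_of_nonneg (kt_nonneg H hε (p := (v, w, σ)) hσ)]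
    calc kt γ b ε (v, w, σ) * |F (v, w, σ)|
        ≤ (B * len (v - w) ^ γ) * (A * pw (d + 1 + (d + 5)) v w) :=
          mul_le_mul h1 h2 (abs_nonneg _) (by positivity)
      _ = B * A * (len (v - w) ^ γ * 1 * pw (d + 1 + (d + 5)) v w) := by ring
      _ ≤ _ := by
          gcongr
          linarith

theorem int_src (H : Hyp d γ s b Cb Ca) (hε : 0 < ε) {g : Vec d → ℝ} (hg : RD g)
    (hgm : Measurable g) {F : Vec d × Vec d × Vec d → ℝ} (hF : Measurable F) {A R : ℝ}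
    (hA : ∀ p, |F p| ≤ A) (hs : ∀ p, R ≤ ‖p.1‖ → F p = 0) :
    Integrable (fun p => kt γ b ε p * (g (wp p) * F p)) (mu3 d) := by
  obtain ⟨K, hK0, hK⟩ := hg.bound (d + 1 + (d + 5))
  have hA0 : 0 ≤ A := (abs_nonneg _).trans (hA 0)
  have hd0 : (0 : ℝ) ≤ d := Nat.cast_nonneg d
  have hR0 := abs_nonneg R
  refine kt_int H hε ((hgm.comp measurable_wp).mul hF)
    (A := K * A * ((1 + |R| + 2 * d * |R| + 2 * d) * (1 + |R|)) ^ (d + 1 + (d + 5)))
    (by positivity) fun p hσ hc => ?_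
  have hpw := pw_nonneg (d + 1 + (d + 5)) p.1 p.2.1
  by_cases hFp : F p = 0
  · change |g (wp p) * F p| ≤ _
    rw [hFp, mul_zero, abs_zero]
    positivity
  have hv : ‖p.1‖ < R := by
    by_contra hcon
    exact hFp (hs p (not_lt.1 hcon))
  have hR : |R| = R := abs_of_nonneg ((norm_nonneg _).trans hv.le)
  rw [hR]
  have hR1 : 0 ≤ R := (norm_nonneg _).trans hv.le
  have h1 : ‖p.1 - p.2.1‖ ≤ 2 * d * ‖p.1 - wp p‖ := by
    have a1 := norm_sq_le_sq (p.1 - p.2.1)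
    have a2 := nsq_le_wp hσ hc
    have a3 := sq_le (p.1 - wp p)
    have a4 : (1 : ℝ) ≤ d := by exact_mod_cast H.hd1
    have a5 : ‖p.1 - p.2.1‖ ^ 2 ≤ (2 * d * ‖p.1 - wp p‖) ^ 2 := by
      have a6 : (2 : ℝ) * d ≤ (2 * d) ^ 2 := by nlinarith
      calc ‖p.1 - p.2.1‖ ^ 2 ≤ 2 * d * ‖p.1 - wp p‖ ^ 2 := by linarith
        _ ≤ (2 * d) ^ 2 * ‖p.1 - wp p‖ ^ 2 := by gcongr
        _ = _ := by ring
    exact (pow_le_pow_iff_left₀ (norm_nonneg _) (by positivity) (by norm_num)).1 a5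
  have h2 : 1 + ‖p.2.1‖ ≤ (1 + R + 2 * d * R + 2 * d) * (1 + ‖wp p‖) := by
    have b1 : ‖p.2.1‖ ≤ ‖p.1‖ + ‖p.1 - p.2.1‖ := by
      have := norm_sub_le p.1 (p.1 - p.2.1)
      rwa [sub_sub_cancel] at this
    have b2 : ‖p.1 - wp p‖ ≤ ‖p.1‖ + ‖wp p‖ := norm_sub_le _ _
    have b3 := norm_nonneg (wp p)
    have b4 : ‖p.1 - p.2.1‖ ≤ 2 * d * (R + ‖wp p‖) := h1.trans (by gcongr; linarith)
    have b5 : 0 ≤ R * ‖wp p‖ := mul_nonneg hR1 b3
    have b6 : 0 ≤ (d : ℝ) * (R * ‖wp p‖) := mul_nonneg hd0 b5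
    nlinarith
  have hN : |g (wp p)| ≤ K * ((1 + ‖wp p‖) ^ (d + 1 + (d + 5)))⁻¹ := by
    have := hK (wp p)
    rwa [Real.norm_eq_abs] at this
  have h3 : ((1 + ‖wp p‖) ^ (d + 1 + (d + 5)))⁻¹ ≤
      ((1 + R + 2 * d * R + 2 * d) * (1 + R)) ^ (d + 1 + (d + 5)) *
        pw (d + 1 + (d + 5)) p.1 p.2.1 := by
    unfold pw
    have c1 : 0 < 1 + ‖wp p‖ := w_pos _
    have c2 : 0 < (1 + ‖p.1‖) * (1 + ‖p.2.1‖) := mul_pos (w_pos _) (w_pos _)
    rw [← div_eq_mul_inv, ← div_pow, ← inv_pow]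
    refine pow_le_pow_left₀ (inv_nonneg.2 c1.le) ?_ _
    rw [inv_eq_one_div, div_le_div_iff₀ c1 c2, one_mul]
    calc (1 + ‖p.1‖) * (1 + ‖p.2.1‖) ≤
        (1 + R) * ((1 + R + 2 * d * R + 2 * d) * (1 + ‖wp p‖)) := by
          gcongr
      _ = _ := by ring
  change |g (wp p) * F p| ≤ _
  rw [abs_mul]
  calc |g (wp p)| * |F p| ≤ (K * ((1 + ‖wp p‖) ^ (d + 1 + (d + 5)))⁻¹) * A :=
        mul_le_mul hN (hA p) (abs_nonneg _) (by positivity)
    _ ≤ (K * (((1 + R + 2 * d * R + 2 * d) * (1 + R)) ^ (d + 1 + (d + 5)) *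
        pw (d + 1 + (d + 5)) p.1 p.2.1)) * A := by gcongr
    _ = _ := by ring

theorem int_los (H : Hyp d γ s b Cb Ca) (hε : 0 < ε) {g : Vec d → ℝ} (hg : RD g)
    (hgm : Measurable g) {F : Vec d × Vec d × Vec d → ℝ} (hF : Measurable F) {A R : ℝ}
    (hA : ∀ p, |F p| ≤ A) (hs : ∀ p, R ≤ ‖p.1‖ → F p = 0) :
    Integrable (fun p => kt γ b ε p * (g p.2.1 * F p)) (mu3 d) := by
  obtain ⟨K, hK0, hK⟩ := hg.bound (d + 1 + (d + 5))
  have hA0 : 0 ≤ A := (abs_nonneg _).trans (hA 0)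
  have hR0 := abs_nonneg R
  refine kt_int H hε ((hgm.comp (measurable_fst.comp measurable_snd)).mul hF)
    (A := K * A * (1 + |R|) ^ (d + 1 + (d + 5))) (by positivity) fun p hσ hc => ?_
  have hpw := pw_nonneg (d + 1 + (d + 5)) p.1 p.2.1
  by_cases hFp : F p = 0
  · change |g p.2.1 * F p| ≤ _
    rw [hFp, mul_zero, abs_zero]
    positivity
  have hv : ‖p.1‖ < R := by
    by_contra hcon
    exact hFp (hs p (not_lt.1 hcon))
  have hR1 : 0 ≤ R := (norm_nonneg _).trans hv.le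
  have hR : |R| = R := abs_of_nonneg hR1
  rw [hR]
  have hN : |g p.2.1| ≤ K * ((1 + ‖p.2.1‖) ^ (d + 1 + (d + 5)))⁻¹ := by
    have := hK p.2.1
    rwa [Real.norm_eq_abs] at this
  have h3 : ((1 + ‖p.2.1‖) ^ (d + 1 + (d + 5)))⁻¹ ≤
      (1 + R) ^ (d + 1 + (d + 5)) * pw (d + 1 + (d + 5)) p.1 p.2.1 := by
    unfold pw
    have c1 : 0 < 1 + ‖p.2.1‖ := w_pos _
    have c2 : 0 < (1 + ‖p.1‖) * (1 + ‖p.2.1‖) := mul_pos (w_pos _) (w_pos _)
    rw [← div_eq_mul_inv, ← div_pow, ← inv_pow]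
    refine pow_le_pow_left₀ (inv_nonneg.2 c1.le) ?_ _
    rw [inv_eq_one_div, div_le_div_iff₀ c1 c2, one_mul]
    gcongr
  change |g p.2.1 * F p| ≤ _
  rw [abs_mul]
  calc |g p.2.1| * |F p| ≤ (K * ((1 + ‖p.2.1‖) ^ (d + 1 + (d + 5)))⁻¹) * A :=
        mul_le_mul hN (hA p) (abs_nonneg _) (by positivity)
    _ ≤ (K * ((1 + R) ^ (d + 1 + (d + 5)) * pw (d + 1 + (d + 5)) p.1 p.2.1)) * A := by gcongr
    _ = _ := by ring

/-- the collision `(v', w') → (v, w)`: integrals of functions of the four velocities -/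
theorem kt_swap (hd : 1 ≤ d) (hb : Measurable b) {F : Vec d → Vec d → Vec d → Vec d → ℝ}
    (hF : Measurable fun q : Vec d × Vec d × Vec d × Vec d => F q.1 q.2.1 q.2.2.1 q.2.2.2) :
    ∫ p, kt γ b ε p * F (vp p) (wp p) p.1 p.2.1 ∂(mu3 d) =
      ∫ p, kt γ b ε p * F p.1 p.2.1 (vp p) (wp p) ∂(mu3 d) := by
  have hm : Measurable fun p : Vec d × Vec d × Vec d =>
      kt γ b ε p * F p.1 p.2.1 (vp p) (wp p) :=
    (kt_meas hb).mul (hF.comp (measurable_fst.prodMk ((measurable_fst.comp measurable_snd).prodMk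
      (measurable_vp.prodMk measurable_wp))))
  refine Eq.trans ?_ (integral_comp_mp (coll_preserving hd) hm)
  refine integral_congr_ae ?_
  filter_upwards [ae_good hd] with p hp
  rw [kt_coll hp.1 hp.2, vp_coll hp.1 hp.2, wp_coll hp.1 hp.2]
  rfl

theorem kt_swap_int (hd : 1 ≤ d) (hb : Measurable b) {F : Vec d → Vec d → Vec d → Vec d → ℝ}
    (hF : Measurable fun q : Vec d × Vec d × Vec d × Vec d => F q.1 q.2.1 q.2.2.1 q.2.2.2)
    (h : Integrable (fun p => kt γ b ε p * F p.1 p.2.1 (vp p) (wp p)) (mu3 d)) :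
    Integrable (fun p => kt γ b ε p * F (vp p) (wp p) p.1 p.2.1) (mu3 d) := by
  have hm : Measurable fun p : Vec d × Vec d × Vec d =>
      kt γ b ε p * F p.1 p.2.1 (vp p) (wp p) :=
    (kt_meas hb).mul (hF.comp (measurable_fst.prodMk ((measurable_fst.comp measurable_snd).prodMk
      (measurable_vp.prodMk measurable_wp))))
  have h1 := (coll_preserving hd).integrable_comp_of_integrable h
  refine h1.congr ?_
  filter_upwards [ae_good hd] with p hp
  rw [Function.comp_apply, kt_coll hp.1 hp.2, vp_coll hp.1 hp.2, wp_coll hp.1 hp.2]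
  rfl

theorem int_swp (H : Hyp d γ s b Cb Ca) (hε : 0 < ε) {g : Vec d → ℝ} (hg : RD g)
    (hgm : Measurable g) {G : Vec d → ℝ} (hG : Measurable G) {A : ℝ} (hA : ∀ v, |G v| ≤ A)
    {P : Vec d → ℝ} {R K : ℝ} (hP : BTst R K P) :
    Integrable (fun p => kt γ b ε p * (g p.2.1 * (G p.1 * P (vp p)))) (mu3 d) := by
  have hA0 : 0 ≤ A := (abs_nonneg _).trans (hA 0)
  have h1 := int_src H hε hg hgm (F := fun p => G (vp p) * P p.1) (A := A * K) (R := R)
    ((hG.comp measurable_vp).mul (hP.meas.comp measurable_fst))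
    (fun p => by
      rw [abs_mul]
      exact mul_le_mul (hA _) (hP.le _) (abs_nonneg _) hA0)
    (fun p hp => by
      change G (vp p) * P p.1 = 0
      rw [hP.supp _ hp, mul_zero])
  exact kt_swap_int H.hd1 H.bm (F := fun a _ c e => g e * (G c * P a))
    ((hgm.comp (measurable_snd.comp (measurable_snd.comp measurable_snd))).mul
      ((hG.comp (measurable_fst.comp (measurable_snd.comp measurable_snd))).mul
        (hP.meas.comp measurable_fst))) h1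

end Pool.Agent.H15.AV
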