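import Pool.Agent.H15.AVB.Kt

/-!
# The singular convolution against the deficit

MODULE Near. `k(z) = |z|^γ ag(|z|)` is `|z|^(γ+1)` for `|z| ≤ 1` and `|z|^(γ+2s)` for `|z| > 1`, where
`γ + 1 > -1 > -d` and `γ + 2s ≥ 0`. `k = k 1[|z| ≤ ρ] + k 1[|z| > ρ]`, `∫ k 1[|z| ≤ ρ] → 0` as `ρ → 0`
(dominated convergence; `|z|^(γ+1)` is integrable on the unit ball, see `kg_integrable`,
`int_norm_rpow`), and `k(v-w) 1[|v-w| > ρ] ≤ C (1 + ‖w‖)^(γ+2s)` for `‖v‖ ≤ R`. Fubini.
-/

set_option autoImplicit false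

open MeasureTheory Set Filter Topology Pool.Agent.H25.Kin
open Pool.Agent.H82.BK (bt bcut Kn hh co BB dir)

namespace Pool.Agent.H15.AV

variable {d : ℕ} {γ s Cb Ca : ℝ} {b : ℝ → ℝ}

/-- the kernel -/
private noncomputable def nk (γ s : ℝ) (z : Vec d) : ℝ := len z ^ γ * ag s (len z)

/-- its singular part -/
private noncomputable def kn (γ s ρ : ℝ) (z : Vec d) : ℝ := if len z ≤ ρ then nk γ s z else 0

private lemma ag_nonneg {r : ℝ} (h : 0 ≤ r) : 0 ≤ ag s r := by
  unfold ag
  split_ifs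
  · exact h
  · exact Real.rpow_nonneg h _

private lemma ag_meas : Measurable (ag s) := by
  unfold ag
  exact Measurable.ite measurableSet_Iic measurable_id (measurable_id.pow_const _)

private lemma nk_nonneg (z : Vec d) : 0 ≤ nk γ s z :=
  mul_nonneg (Real.rpow_nonneg (len_nonneg z) _) (ag_nonneg (len_nonneg z))

private lemma nk_meas : Measurable (nk (d := d) γ s) :=
  (continuous_len.measurable.pow_const γ).mul (ag_meas.comp continuous_len.measurable)

private lemma kn_nonneg (ρ : ℝ) (z : Vec d) : 0 ≤ kn γ s ρ z := by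
  unfold kn
  split_ifs
  · exact nk_nonneg z
  · exact le_rfl

private lemma kn_meas (ρ : ℝ) : Measurable (kn (d := d) γ s ρ) :=
  Measurable.ite (measurableSet_le continuous_len.measurable measurable_const) nk_meas
    measurable_const

private lemma nk_le (H : Hyp d γ s b Cb Ca) (z : Vec d) :
    nk γ s z ≤ len z ^ γ * (1 + nsq z) := by
  unfold nk
  refine mul_le_mul_of_nonneg_left ?_ (Real.rpow_nonneg (len_nonneg z) _)
  have h0 := sq_nonneg' z
  unfold ag
  split_ifs with h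
  · linarith
  · push Not at h
    have h1 : len z ^ (2 * s) ≤ len z ^ (2 : ℝ) :=
      Real.rpow_le_rpow_of_exponent_le h.le (by have := H.hs1; linarith)
    rw [Real.rpow_two, len_sq] at h1
    linarith

private lemma nk_le_kg (H : Hyp d γ s b Cb Ca) (z : Vec d) :
    nk γ s z ≤ (1 + ‖z‖) ^ (d + 5) * kg γ z := by
  refine (nk_le H z).trans (le_of_eq ?_)
  unfold kg
  have h := (pow_pos (w_pos z) (d + 5)).ne'
  field_simp

private lemma kn_le_kg (H : Hyp d γ s b Cb Ca) {ρ : ℝ} (hρ : ρ ≤ 1) (z : Vec d) :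
    kn γ s ρ z ≤ 2 ^ (d + 5) * kg γ z := by
  unfold kn
  split_ifs with h
  · refine (nk_le_kg H z).trans (mul_le_mul_of_nonneg_right ?_ (kg_nonneg γ z))
    have h1 := norm_le_len z
    exact pow_le_pow_left₀ (w_pos z).le (by linarith) _
  · exact mul_nonneg (by positivity) (kg_nonneg γ z)

private lemma kn_int (H : Hyp d γ s b Cb Ca) {ρ : ℝ} (hρ : ρ ≤ 1) :
    Integrable (kn (d := d) γ s ρ) := by
  refine ((kg_integrable H.hd H.g1 H.g2).const_mul (2 ^ (d + 5))).mono'
    (kn_meas ρ).aestronglyMeasurable (Eventually.of_forall fun z => ?_)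
  rw [Real.norm_eq_abs, abs_of_nonneg (kn_nonneg ρ z)]
  exact kn_le_kg H hρ z

private lemma kn_small (H : Hyp d γ s b Cb Ca) {η : ℝ} (hη : 0 < η) :
    ∃ ρ : ℝ, 0 < ρ ∧ ρ ≤ 1 ∧ ∫ z : Vec d, kn γ s ρ z ≤ η := by
  have hlim : Tendsto (fun n : ℕ => ∫ z : Vec d, kn γ s (1 / ((n : ℝ) + 1)) z) atTop
      (𝓝 (∫ _z : Vec d, (0 : ℝ))) := by
    refine tendsto_integral_of_dominated_convergence (fun z => 2 ^ (d + 5) * kg γ z)
      (fun n => (kn_meas _).aestronglyMeasurable)
      ((kg_integrable H.hd H.g1 H.g2).const_mul (2 ^ (d + 5))) (fun n => ?_) ?_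
    · refine Eventually.of_forall fun z => ?_
      rw [Real.norm_eq_abs, abs_of_nonneg (kn_nonneg _ z)]
      refine kn_le_kg H ?_ z
      rw [div_le_one (by positivity)]
      have := Nat.cast_nonneg (α := ℝ) n
      linarith
    · refine Eventually.of_forall fun z => ?_
      by_cases hz : z = 0
      · have h0 : ∀ n : ℕ, kn γ s (1 / ((n : ℝ) + 1)) z = 0 := fun n => by
          unfold kn nk ag
          rw [hz, len_zero]
          simp
        simp_rw [h0]
        exact tendsto_const_nhds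
      · have hl := len_pos hz
        obtain ⟨n₀, hn₀⟩ := exists_nat_one_div_lt hl
        refine tendsto_atTop_of_eventually_const (i₀ := n₀) fun n hn => ?_
        unfold kn
        rw [if_neg]
        rw [not_le]
        refine lt_of_le_of_lt ?_ hn₀
        exact one_div_le_one_div_of_le (by positivity) (by
          have : (n₀ : ℝ) ≤ n := by exact_mod_cast hn
          linarith)
  rw [integral_zero] at hlim
  obtain ⟨n, hn⟩ := (hlim.eventually (gt_mem_nhds hη)).exists
  refine ⟨1 / ((n : ℝ) + 1), by positivity, ?_, hn.le⟩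
  rw [div_le_one (by positivity)]
  have := Nat.cast_nonneg (α := ℝ) n
  linarith

private lemma len_le_norm (hd : 1 ≤ d) (z : Vec d) : len z ≤ d * ‖z‖ := by
  have h1 := sq_le z
  rw [← len_sq] at h1
  have hd' : (1 : ℝ) ≤ d := by exact_mod_cast hd
  refine le_of_sq_le_sq (h1.trans ?_) (by positivity)
  rw [mul_pow]
  refine mul_le_mul_of_nonneg_right ?_ (sq_nonneg _)
  nlinarith

private lemma nk_far (H : Hyp d γ s b Cb Ca) {R ρ : ℝ} (hR : 0 < R) (hρ : 0 < ρ) {v w : Vec d}
    (hv : ‖v‖ ≤ R) (h : ρ < len (v - w)) :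
    nk γ s (v - w) ≤
      ((ρ ^ 2)⁻¹ + ((d : ℝ) * (1 + R)) ^ (γ + 2 * s)) * (1 + ‖w‖) ^ (γ + 2 * s) := by
  have h0 := H.h0
  have hw : 1 ≤ (1 + ‖w‖) ^ (γ + 2 * s) := Real.one_le_rpow (one_le_w w) h0
  have hd' : (1 : ℝ) ≤ d := by exact_mod_cast H.hd1
  have hA : 0 ≤ ((d : ℝ) * (1 + R)) ^ (γ + 2 * s) := Real.rpow_nonneg (by positivity) _
  have hB : 0 ≤ (ρ ^ 2)⁻¹ := by positivity
  have hl : 0 < len (v - w) := hρ.trans h
  unfold nk ag
  split_ifs with h1
  · have h2 : len (v - w) ^ γ ≤ len (v - w) ^ (-2 : ℝ) :=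
      Real.rpow_le_rpow_of_exponent_ge hl h1 H.g1.le
    have h3 : len (v - w) ^ (-2 : ℝ) ≤ (ρ ^ 2)⁻¹ := by
      rw [Real.rpow_neg hl.le, Real.rpow_two]
      exact inv_anti₀ (by positivity) (pow_le_pow_left₀ hρ.le h.le 2)
    calc len (v - w) ^ γ * len (v - w) ≤ (ρ ^ 2)⁻¹ * 1 :=
          mul_le_mul (h2.trans h3) h1 hl.le hB
      _ ≤ ((ρ ^ 2)⁻¹ + ((d : ℝ) * (1 + R)) ^ (γ + 2 * s)) * (1 + ‖w‖) ^ (γ + 2 * s) :=
          mul_le_mul (by linarith) hw zero_le_one (by linarith)
  · rw [← Real.rpow_add hl]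
    have h2 : len (v - w) ≤ (d : ℝ) * (1 + R) * (1 + ‖w‖) := by
      refine (len_le_norm H.hd1 _).trans ?_
      rw [mul_assoc]
      refine mul_le_mul_of_nonneg_left ?_ (by positivity)
      have h3 := norm_sub_le v w
      have h4 := norm_nonneg w
      nlinarith
    calc len (v - w) ^ (γ + 2 * s) ≤ ((d : ℝ) * (1 + R) * (1 + ‖w‖)) ^ (γ + 2 * s) :=
          Real.rpow_le_rpow hl.le h2 h0
      _ = ((d : ℝ) * (1 + R)) ^ (γ + 2 * s) * (1 + ‖w‖) ^ (γ + 2 * s) :=
          Real.mul_rpow (by positivity) (w_pos w).le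
      _ ≤ _ := mul_le_mul_of_nonneg_right (by linarith) (by linarith)

private lemma gq_int (H : Hyp d γ s b Cb Ca) {g : Vec d → ℝ} (hg : RD g) (hgc : Continuous g) :
    Integrable fun w => g w * (1 + ‖w‖) ^ (γ + 2 * s) := by
  refine RD.integrable (hg.mul_PG ⟨2, 1, fun v => ?_⟩) ?_
  · rw [Real.norm_eq_abs, abs_of_nonneg (Real.rpow_nonneg (w_pos v).le _), one_mul,
      ← Real.rpow_two]
    exact Real.rpow_le_rpow_of_exponent_le (one_le_w v) H.h2
  · have h1 : Continuous fun w : Vec d => (1 + ‖w‖) ^ (γ + 2 * s) :=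
      (continuous_const.add continuous_norm).rpow_const fun w => Or.inl (w_pos w).ne'
    exact (hgc.mul h1).aestronglyMeasurable

private lemma nk_dom (H : Hyp d γ s b Cb Ca) {g : Vec d → ℝ} (hg : RD g) :
    ∃ C : ℝ, 0 ≤ C ∧ ∀ v w : Vec d, |g w * nk γ s (v - w)| ≤
      C * (1 + ‖v‖) ^ ((d + 1) + (d + 5)) * (wt d v * kg γ (v - w)) := by
  obtain ⟨C, hC0, hC⟩ := hg.bound ((d + 1) + (d + 5))
  refine ⟨C, hC0, fun v w => ?_⟩
  have h1 := kg_bound γ (d + 1) v w
  have h2 := nk_le H (v - w)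
  have h3 := nk_nonneg (γ := γ) (s := s) (v - w)
  have hv := pow_pos (w_pos v) ((d + 1) + (d + 5))
  have hw := pow_pos (w_pos w) ((d + 1) + (d + 5))
  rw [abs_mul, abs_of_nonneg h3]
  have h4 : |g w| ≤ C * (1 + ‖v‖) ^ ((d + 1) + (d + 5)) * pw ((d + 1) + (d + 5)) v w := by
    refine (hC w).trans (le_of_eq ?_)
    unfold pw
    rw [mul_pow, mul_inv]
    field_simp
  have hp := pw_nonneg ((d + 1) + (d + 5)) v w
  calc |g w| * nk γ s (v - w)
      ≤ (C * (1 + ‖v‖) ^ ((d + 1) + (d + 5)) * pw ((d + 1) + (d + 5)) v w) *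
        (len (v - w) ^ γ * (1 + nsq (v - w))) := mul_le_mul h4 h2 h3 (by positivity)
    _ = C * (1 + ‖v‖) ^ ((d + 1) + (d + 5)) *
        (len (v - w) ^ γ * (1 + nsq (v - w)) * pw ((d + 1) + (d + 5)) v w) := by ring
    _ ≤ C * (1 + ‖v‖) ^ ((d + 1) + (d + 5)) * (wt d v * kg γ (v - w)) :=
        mul_le_mul_of_nonneg_left h1 (by positivity)

theorem near_bound (H : Hyp d γ s b Cb Ca) {R : ℝ} (hR : 0 < R) {η : ℝ} (hη : 0 < η) :
    ∃ C : ℝ, 0 ≤ C ∧ ∀ (Λ : ℝ) (u g : Vec d → ℝ), Measurable u → (∀ v, 0 ≤ u v) → (∀ v, u v ≤ Λ) →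
      RD g → Continuous g → (∀ v, 0 ≤ g v) →
      Integrable (fun q : Vec d × Vec d => g q.2 * (len (q.1 - q.2) ^ γ * ag s (len (q.1 - q.2))))
        ((volume.restrict (Metric.closedBall (0 : Vec d) R)).prod volume) ∧
      ∫ v in Metric.closedBall (0 : Vec d) R, u v *
        ∫ w, g w * (len (v - w) ^ γ * ag s (len (v - w))) ≤
        kap (γ + 2 * s) g * (C * (∫ v in Metric.closedBall (0 : Vec d) R, u v) + η * Λ) := by
  obtain ⟨ρ, hρ, hρ1, hρη⟩ := kn_small H hη
  refine ⟨(ρ ^ 2)⁻¹ + ((d : ℝ) * (1 + R)) ^ (γ + 2 * s), ?_, ?_⟩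
  · have h1 : 0 ≤ ((d : ℝ) * (1 + R)) ^ (γ + 2 * s) := Real.rpow_nonneg (by positivity) _
    positivity
  intro Λ u g hum hu0 huΛ hg hgc hg0
  change Integrable (fun q : Vec d × Vec d => g q.2 * nk γ s (q.1 - q.2))
    ((volume.restrict (Metric.closedBall (0 : Vec d) R)).prod volume) ∧
    ∫ v in Metric.closedBall (0 : Vec d) R, u v * ∫ w, g w * nk γ s (v - w) ≤ _
  set C : ℝ := (ρ ^ 2)⁻¹ + ((d : ℝ) * (1 + R)) ^ (γ + 2 * s) with hCdef
  set B : Set (Vec d) := Metric.closedBall (0 : Vec d) R with hB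
  have hBm : MeasurableSet B := Metric.isClosed_closedBall.measurableSet
  have hBf : volume B < ⊤ := measure_closedBall_lt_top
  obtain ⟨D, hD0, hD⟩ := nk_dom (γ := γ) (s := s) H hg
  have hΛ : 0 ≤ Λ := (hu0 0).trans (huΛ 0)
  have hint : Integrable (fun q : Vec d × Vec d => g q.2 * nk γ s (q.1 - q.2))
      ((volume.restrict B).prod volume) := by
    have h1 : (volume.restrict B).prod (volume : Measure (Vec d)) =
        ((volume : Measure (Vec d)).prod volume).restrict (B ×ˢ univ) := by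
      rw [← Measure.prod_restrict, Measure.restrict_univ]
    have h2 := ((kg_pair (d := d) H.hd H.g1 H.g2).const_mul
      (D * (1 + R) ^ ((d + 1) + (d + 5)))).integrableOn (s := B ×ˢ univ)
    rw [IntegrableOn, ← h1] at h2
    have hm : Measurable fun q : Vec d × Vec d => g q.2 * nk γ s (q.1 - q.2) :=
      (hgc.measurable.comp measurable_snd).mul
        (nk_meas.comp (measurable_fst.sub measurable_snd))
    refine h2.mono' hm.aestronglyMeasurable ?_
    rw [h1]
    filter_upwards [ae_restrict_mem (hBm.prod MeasurableSet.univ)] with q hq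
    have hq1 : ‖q.1‖ ≤ R := by
      have := hq.1
      rwa [hB, mem_closedBall_zero_iff] at this
    refine (hD q.1 q.2).trans ?_
    refine mul_le_mul_of_nonneg_right (mul_le_mul_of_nonneg_left
      (pow_le_pow_left₀ (w_pos q.1).le (by linarith) _) hD0)
      (mul_nonneg (wt_nonneg _) (kg_nonneg _ _))
  refine ⟨hint, ?_⟩
  -- the inner integral
  have hgi : Integrable g := hg.integrable hgc.aestronglyMeasurable
  have hkni : Integrable (kn (d := d) γ s ρ) := kn_int H hρ1
  have hgq := gq_int H hg hgc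
  have hin : ∀ v : Vec d, Integrable fun w => g w * nk γ s (v - w) := fun v => by
    refine (((kg_integrable H.hd H.g1 H.g2).comp_sub_left v).const_mul
      (D * (1 + ‖v‖) ^ ((d + 1) + (d + 5)) * wt d v)).mono'
      (hgc.measurable.mul (nk_meas.comp (measurable_const.sub measurable_id))).aestronglyMeasurable
      (Eventually.of_forall fun w => ?_)
    refine (hD v w).trans (le_of_eq ?_)
    ring
  have hnear : ∀ v : Vec d, Integrable fun w => g w * kn γ s ρ (v - w) := fun v => by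
    refine (hin v).mono'
      (hgc.measurable.mul ((kn_meas ρ).comp (measurable_const.sub measurable_id))).aestronglyMeasurable
      (Eventually.of_forall fun w => ?_)
    rw [Real.norm_eq_abs, abs_of_nonneg (mul_nonneg (hg0 w) (kn_nonneg _ _))]
    refine mul_le_mul_of_nonneg_left ?_ (hg0 w)
    unfold kn
    split_ifs
    · exact le_rfl
    · exact nk_nonneg _
  have hJ : ∀ v ∈ B, ∫ w, g w * nk γ s (v - w) ≤
      (∫ w, g w * kn γ s ρ (v - w)) + C * kap (γ + 2 * s) g := fun v hv => by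
    have hv1 : ‖v‖ ≤ R := by rwa [hB, mem_closedBall_zero_iff] at hv
    unfold kap
    rw [← integral_const_mul, ← integral_add (hnear v) (hgq.const_mul C)]
    refine integral_mono (hin v) ((hnear v).add (hgq.const_mul C)) fun w => ?_
    have hq : 0 ≤ (1 + ‖w‖) ^ (γ + 2 * s) := Real.rpow_nonneg (w_pos w).le _
    have hC0 : 0 ≤ C := by
      have h1 : 0 ≤ ((d : ℝ) * (1 + R)) ^ (γ + 2 * s) := Real.rpow_nonneg (by positivity) _
      rw [hCdef]
      positivity
    change g w * nk γ s (v - w) ≤ g w * kn γ s ρ (v - w) + C * (g w * (1 + ‖w‖) ^ (γ + 2 * s))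
    unfold kn
    split_ifs with h1
    · have := mul_nonneg hC0 (mul_nonneg (hg0 w) hq)
      linarith
    · have h2 := mul_le_mul_of_nonneg_left (nk_far H hR hρ hv1 (not_le.1 h1)) (hg0 w)
      rw [← hCdef] at h2
      linarith
  -- the singular part
  have hconvI : Integrable (fun v : Vec d => ∫ w, g w * kn γ s ρ (v - w)) := by
    have h1 := hgi.integrable_convolution (ContinuousLinearMap.mul ℝ ℝ) hkni
    exact h1
  have hconv : ∫ v : Vec d, ∫ w, g w * kn γ s ρ (v - w) = (∫ w, g w) * ∫ z : Vec d, kn γ s ρ z := by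
    have h1 := integral_convolution (ContinuousLinearMap.mul ℝ ℝ) (μ := (volume : Measure (Vec d)))
      (ν := (volume : Measure (Vec d))) hgi hkni
    exact h1
  have hI0 : ∀ v : Vec d, 0 ≤ ∫ w, g w * kn γ s ρ (v - w) := fun v =>
    integral_nonneg fun w => mul_nonneg (hg0 w) (kn_nonneg _ _)
  have hgk : ∫ w, g w ≤ kap (γ + 2 * s) g := by
    unfold kap
    refine integral_mono hgi hgq fun w => ?_
    have h1 : 1 ≤ (1 + ‖w‖) ^ (γ + 2 * s) := Real.one_le_rpow (one_le_w w) H.h0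
    exact le_mul_of_one_le_right (hg0 w) h1
  have hk0 : 0 ≤ kap (γ + 2 * s) g := (integral_nonneg hg0).trans hgk
  have hBfin : IsFiniteMeasure (volume.restrict B) := ⟨by
    rw [Measure.restrict_apply_univ]
    exact hBf⟩
  have hub : ∀ v, ‖u v‖ ≤ Λ := fun v => by
    rw [Real.norm_eq_abs, abs_of_nonneg (hu0 v)]
    exact huΛ v
  have hui : IntegrableOn u B :=
    Integrable.of_bound hum.aestronglyMeasurable Λ (Eventually.of_forall hub)
  have huJ : IntegrableOn (fun v => u v * ∫ w, g w * nk γ s (v - w)) B := by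
    have h1 := hint.integral_prod_left
    exact h1.bdd_mul hum.aestronglyMeasurable (Eventually.of_forall hub)
  have huI : IntegrableOn (fun v => u v * ∫ w, g w * kn γ s ρ (v - w)) B :=
    hconvI.integrableOn.bdd_mul hum.aestronglyMeasurable (Eventually.of_forall hub)
  calc ∫ v in B, u v * ∫ w, g w * nk γ s (v - w)
      ≤ ∫ v in B, (u v * (∫ w, g w * kn γ s ρ (v - w)) + C * kap (γ + 2 * s) g * u v) := by
        refine setIntegral_mono_on huJ (huI.add (hui.const_mul _)) hBm fun v hv => ?_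
        have h1 := mul_le_mul_of_nonneg_left (hJ v hv) (hu0 v)
        linarith
    _ = (∫ v in B, u v * ∫ w, g w * kn γ s ρ (v - w)) +
        C * kap (γ + 2 * s) g * ∫ v in B, u v := by
        rw [integral_add huI (hui.const_mul _), integral_const_mul]
    _ ≤ Λ * (∫ v in B, ∫ w, g w * kn γ s ρ (v - w)) +
        C * kap (γ + 2 * s) g * ∫ v in B, u v := by
        refine add_le_add ?_ le_rfl
        rw [← integral_const_mul]
        refine setIntegral_mono_on huI (hconvI.integrableOn.const_mul _) hBm fun v _ => ?_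
        exact mul_le_mul_of_nonneg_right (huΛ v) (hI0 v)
    _ ≤ Λ * (kap (γ + 2 * s) g * η) + C * kap (γ + 2 * s) g * ∫ v in B, u v := by
        refine add_le_add (mul_le_mul_of_nonneg_left ?_ hΛ) le_rfl
        refine (setIntegral_le_integral hconvI (Eventually.of_forall hI0)).trans ?_
        rw [hconv]
        exact mul_le_mul hgk hρη (integral_nonneg fun z => kn_nonneg _ _) hk0
    _ = _ := by ring

end Pool.Agent.H15.AV
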