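import Pool.Agent.H15.AVB.Kt
import Pool.Agent.H82.BK.Coll

/-!
# Collisions from far away

MODULE Tail. Fix `v` with `‖v‖ ≤ R` and use `coll_cv` with `β = bt b ε`,
`Φ z v' = ofReal (g z) 1[R' ≤ ‖v'‖]`: the integral is `∫_m ∫_{m·σ>0} |m|^γ Kn(co) g(v-m) 1[R' ≤ ‖v + hh σ m‖]`.
There `R' - R ≤ ‖hh‖ ≤ len hh`, `nsq hh = |m|² (1-c²)/c²` (`nsq_hh`) and `c² ≥ 1/2` (else `bt (2c²-1) = 0`),
so with `r = |m|/(R'-R)`, `x = 2c²-1`: `1 ≤ min (r² (1-x)) 1`. `c^(-2-γ) ≤ 2^(d/2+γ/2+..) c^(d-2)`, and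
`half_angle` turns the angular integral into `C ∫ bt(e·σ) min(r²(1-e·σ), 1) dσ ≤ C' r^(2s)` (`bt_le`,
`angular`). Finally `|m|^(γ+2s) ≤ C_R (1 + ‖v-m‖)^(γ+2s)`.
-/

set_option autoImplicit false

open MeasureTheory Set Filter Topology Pool.Agent.H25.Kin
open Pool.Agent.H82.BK (bt bcut Kn hh co BB dir)

namespace Pool.Agent.H15.AV

variable {d : ℕ} {γ s Cb Ca : ℝ} {b : ℝ → ℝ}

open Classical in
/-- the indicator of large velocities -/
private noncomputable def tailChi (R' : ℝ) (z : Vec d) : ENNReal := if R' ≤ ‖z‖ then 1 else 0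

private lemma tailChi_meas (R' : ℝ) : Measurable (tailChi (d := d) R') := by
  unfold tailChi
  exact Measurable.ite (measurableSet_le measurable_const measurable_norm) measurable_const
    measurable_const

open Classical in
/-- the angular weight -/
private noncomputable def tailB (β r x : ℝ) : ENNReal :=
  if 0 ≤ x then ENNReal.ofReal ((1 - x) ^ (-β) * min (r ^ 2 * (1 - x)) 1) else 0

private lemma tailB_meas (β r : ℝ) : Measurable (tailB β r) := by
  unfold tailB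
  refine Measurable.ite measurableSet_Ici (Measurable.ennreal_ofReal ?_) measurable_const
  have h : Measurable fun x : ℝ => 1 - x := measurable_const.sub measurable_id
  exact (h.pow_const _).mul ((measurable_const.mul h).min measurable_const)

/-- the real inequality -/
private lemma tail_real (H : Hyp d γ s b Cb Ca) {ε : ℝ} {L : ℝ} (hL : 0 < L)
    {m σ : Vec d} (hσ : nsq σ = 1) (hm : 0 < dot m σ) (hh1 : L ≤ len (hh σ m))
    (hx : 0 ≤ 2 * co m σ ^ 2 - 1) :
    Kn d γ (bt b ε) (co m σ) ≤ (2 ^ (((d : ℝ) + γ) / 2) * (2 * Cb)) *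
      ((2 ^ (d - 1) * co m σ ^ (d - 2)) *
        ((1 - (2 * co m σ ^ 2 - 1)) ^ (-(((d : ℝ) - 1) / 2 + s)) *
          min ((len m / L) ^ 2 * (1 - (2 * co m σ ^ 2 - 1))) 1)) := by
  have hd := H.hd
  have hg1 := H.g1
  have hC0 := H.bd.1
  have hm0 : m ≠ 0 := Pool.Agent.H82.BK.ne_zero_of_dot hm
  have hlm := len_pos hm0
  have hc0 := Pool.Agent.H82.BK.co_pos hm
  have hc1 := Pool.Agent.H82.BK.co_le_one (m := m) hσ
  have hn := Pool.Agent.H82.BK.nsq_hh hσ hm
  set c := co m σ with hc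
  have hc2 : 1 / 2 ≤ c ^ 2 := by linarith
  have hc2' : 0 < c ^ 2 := by positivity
  have hcle : c ^ 2 ≤ 1 := by nlinarith
  have hL2 : L ^ 2 ≤ nsq m * ((1 - c ^ 2) / c ^ 2) := by
    rw [← hn, ← len_sq]
    exact pow_le_pow_left₀ hL.le hh1 2
  have hnm : 0 < nsq m := by rw [← len_sq]; positivity
  have h3 : (1 - c ^ 2) / c ^ 2 ≤ 1 - (2 * c ^ 2 - 1) := by
    rw [div_le_iff₀ hc2']
    nlinarith
  have h4 : L ^ 2 ≤ nsq m * (1 - (2 * c ^ 2 - 1)) :=
    hL2.trans (mul_le_mul_of_nonneg_left h3 hnm.le)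
  have h5 : 1 ≤ (len m / L) ^ 2 * (1 - (2 * c ^ 2 - 1)) := by
    rw [div_pow, len_sq, div_mul_eq_mul_div, le_div_iff₀ (by positivity), one_mul]
    exact h4
  rw [min_eq_right h5, mul_one]
  have hx1 : 2 * c ^ 2 - 1 < 1 := by
    by_contra hcon
    have : 1 - (2 * c ^ 2 - 1) ≤ 0 := by linarith
    have h6 : nsq m * (1 - (2 * c ^ 2 - 1)) ≤ 0 :=
      mul_nonpos_of_nonneg_of_nonpos hnm.le this
    have : 0 < L ^ 2 := by positivity
    linarith
  have h6 : bt b ε (2 * c ^ 2 - 1) ≤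
      2 * Cb * (1 - (2 * c ^ 2 - 1)) ^ (-(((d : ℝ) - 1) / 2 + s)) :=
    Pool.Agent.H82.BK.bt_le H.bd H.β0 hx hx1
  have h7 : c ^ (-2 - γ) ≤ c ^ (d - 2) * 2 ^ (((d : ℝ) + γ) / 2) := by
    have e1 : c ^ (-2 - γ) = c ^ (d - 2) * (c ^ 2) ^ (-(((d : ℝ) + γ) / 2)) := by
      rw [← Real.rpow_natCast c 2, ← Real.rpow_mul hc0.le, ← Real.rpow_natCast c (d - 2),
        ← Real.rpow_add hc0]
      congr 1
      rw [Nat.cast_sub hd]
      push_cast
      ring
    have hd2 : (2 : ℝ) ≤ d := by exact_mod_cast hd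
    have e2 : (c ^ 2) ^ (-(((d : ℝ) + γ) / 2)) ≤ (1 / 2 : ℝ) ^ (-(((d : ℝ) + γ) / 2)) :=
      Real.rpow_le_rpow_of_nonpos (by norm_num) hc2 (by linarith)
    have e3 : (1 / 2 : ℝ) ^ (-(((d : ℝ) + γ) / 2)) = 2 ^ (((d : ℝ) + γ) / 2) := by
      rw [one_div, Real.inv_rpow (by norm_num), Real.rpow_neg (by norm_num), inv_inv]
    rw [e1, ← e3]
    exact mul_le_mul_of_nonneg_left e2 (by positivity)
  have h8 : 0 ≤ (1 - (2 * c ^ 2 - 1)) ^ (-(((d : ℝ) - 1) / 2 + s)) :=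
    Real.rpow_nonneg (by linarith) _
  unfold Kn
  calc 2 ^ (d - 1) * c ^ (-2 - γ) * bt b ε (2 * c ^ 2 - 1)
      ≤ 2 ^ (d - 1) * c ^ (-2 - γ) *
        (2 * Cb * (1 - (2 * c ^ 2 - 1)) ^ (-(((d : ℝ) - 1) / 2 + s))) := by
        refine mul_le_mul_of_nonneg_left h6 ?_
        have := Real.rpow_nonneg hc0.le (-2 - γ)
        positivity
    _ ≤ 2 ^ (d - 1) * (c ^ (d - 2) * 2 ^ (((d : ℝ) + γ) / 2)) *
        (2 * Cb * (1 - (2 * c ^ 2 - 1)) ^ (-(((d : ℝ) - 1) / 2 + s))) := by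
        gcongr
    _ = _ := by ring

private lemma tail_inner (H : Hyp d γ s b Cb Ca) {C' : ℝ} (hC' : 0 ≤ C')
    (hang : ∀ k : Vec d, nsq k = 1 → ∀ r : ℝ, 0 < r →
      ∫⁻ σ, ENNReal.ofReal ((1 - dot k σ) ^ (-(((d : ℝ) - 1) / 2 + s)) *
        min (r ^ 2 * (1 - dot k σ)) 1) ∂(surf d) ≤ ENNReal.ofReal (C' * r ^ (2 * s)))
    {R R' : ℝ} (hR' : R + 1 ≤ R') {ε : ℝ} {g : Vec d → ℝ}
    {v : Vec d} (hv : ‖v‖ ≤ R) (m : Vec d) :
    ∫⁻ σ in {σ : Vec d | 0 < dot m σ}, ENNReal.ofReal (len m ^ γ * Kn d γ (bt b ε) (co m σ)) *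
        (ENNReal.ofReal (g (v - m)) * tailChi R' (v + hh σ m)) ∂(surf d) ≤
      ENNReal.ofReal (len m ^ γ * (2 ^ (((d : ℝ) + γ) / 2) * (2 * Cb))) *
        ENNReal.ofReal (g (v - m)) *
        ENNReal.ofReal (C' * (len m / (R' - R)) ^ (2 * s)) := by
  classical
  have hL : 0 < R' - R := by linarith
  have hC0 := H.bd.1
  rcases eq_or_ne m 0 with hm0 | hm0
  · have hemp : {σ : Vec d | 0 < dot m σ} = ∅ := by
      ext σ
      rw [hm0]
      simp [dot]
    rw [hemp, Measure.restrict_empty, lintegral_zero_measure]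
    exact zero_le
  have hlm := len_pos hm0
  have hlg := Real.rpow_nonneg hlm.le γ
  set r := len m / (R' - R) with hr
  have hr0 : 0 < r := div_pos hlm hL
  have he : nsq (dir m) = 1 := by
    unfold dir
    rw [nsq_smul, ← len_sq]
    field_simp
  have hco : ∀ σ, co m σ = dot (dir m) σ := fun σ => Pool.Agent.H82.BK.co_eq m σ
  have hset : {σ : Vec d | 0 < dot m σ} = {σ : Vec d | 0 < dot (dir m) σ} := by
    ext σ
    rw [mem_ofPred_eq, mem_ofPred_eq, ← hco]
    unfold co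
    exact ⟨fun h => div_pos h hlm, fun h => by
      by_contra hcon
      exact absurd h (not_lt.2 (div_nonpos_of_nonpos_of_nonneg (not_lt.1 hcon) hlm.le))⟩
  have hcont : Continuous fun σ : Vec d => dot (dir m) σ := by
    unfold dot
    fun_prop
  have hSm : MeasurableSet {σ : Vec d | 0 < dot (dir m) σ} :=
    measurableSet_lt measurable_const hcont.measurable
  set K1 : ℝ := 2 ^ (((d : ℝ) + γ) / 2) * (2 * Cb) with hK1
  have hK10 : 0 ≤ K1 := by positivity
  have hpt : ∀ᵐ σ ∂(surf d), σ ∈ {σ : Vec d | 0 < dot m σ} →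
      ENNReal.ofReal (len m ^ γ * Kn d γ (bt b ε) (co m σ)) *
        (ENNReal.ofReal (g (v - m)) * tailChi R' (v + hh σ m)) ≤
      (ENNReal.ofReal (len m ^ γ * K1) * ENNReal.ofReal (g (v - m))) *
        (ENNReal.ofReal (2 ^ (d - 1) * dot (dir m) σ ^ (d - 2)) *
          tailB (((d : ℝ) - 1) / 2 + s) r (2 * dot (dir m) σ ^ 2 - 1)) := by
    filter_upwards [surf_ae] with σ hσ hmem
    have hmσ : 0 < dot m σ := hmem
    have hc0 := Pool.Agent.H82.BK.co_pos hmσ
    by_cases hχ : R' ≤ ‖v + hh σ m‖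
    · have hχ1 : tailChi R' (v + hh σ m) = 1 := if_pos hχ
      rw [hχ1, mul_one]
      have hlen : R' - R ≤ len (hh σ m) := by
        have h1 : ‖v + hh σ m‖ ≤ ‖v‖ + ‖hh σ m‖ := norm_add_le _ _
        have h2 := norm_le_len (hh σ m)
        linarith
      by_cases hx : 0 ≤ 2 * co m σ ^ 2 - 1
      · have h1 := tail_real H (ε := ε) hL hσ hmσ hlen hx
        rw [← hK1, ← hr] at h1
        have hB : tailB (((d : ℝ) - 1) / 2 + s) r (2 * dot (dir m) σ ^ 2 - 1) =
            ENNReal.ofReal ((1 - (2 * co m σ ^ 2 - 1)) ^ (-(((d : ℝ) - 1) / 2 + s)) *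
              min (r ^ 2 * (1 - (2 * co m σ ^ 2 - 1))) 1) := by
          rw [← hco]
          exact if_pos hx
        rw [hB, ← hco]
        have hp1 : 0 ≤ 2 ^ (d - 1) * co m σ ^ (d - 2) := by positivity
        rw [← ENNReal.ofReal_mul hp1]
        have h2 : len m ^ γ * Kn d γ (bt b ε) (co m σ) ≤ (len m ^ γ * K1) *
            ((2 ^ (d - 1) * co m σ ^ (d - 2)) *
              ((1 - (2 * co m σ ^ 2 - 1)) ^ (-(((d : ℝ) - 1) / 2 + s)) *
                min (r ^ 2 * (1 - (2 * co m σ ^ 2 - 1))) 1)) := by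
          rw [mul_assoc]
          exact mul_le_mul_of_nonneg_left h1 hlg
        calc ENNReal.ofReal (len m ^ γ * Kn d γ (bt b ε) (co m σ)) * ENNReal.ofReal (g (v - m))
            ≤ ENNReal.ofReal ((len m ^ γ * K1) *
            ((2 ^ (d - 1) * co m σ ^ (d - 2)) *
              ((1 - (2 * co m σ ^ 2 - 1)) ^ (-(((d : ℝ) - 1) / 2 + s)) *
                min (r ^ 2 * (1 - (2 * co m σ ^ 2 - 1))) 1))) * ENNReal.ofReal (g (v - m)) := by
              gcongr
          _ = _ := by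
              rw [ENNReal.ofReal_mul (by positivity : 0 ≤ len m ^ γ * K1)]
              ring
      · have hneg : 2 * co m σ ^ 2 - 1 < 0 := not_le.1 hx
        have hK : Kn d γ (bt b ε) (co m σ) = 0 := by
          unfold Kn
          rw [Pool.Agent.H82.BK.bt_neg hneg, mul_zero]
        rw [hK, mul_zero, ENNReal.ofReal_zero, zero_mul]
        exact zero_le
    · have hχ0 : tailChi R' (v + hh σ m) = 0 := if_neg hχ
      rw [hχ0, mul_zero, mul_zero]
      exact zero_le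
  have hne1 : tailB (((d : ℝ) - 1) / 2 + s) r (-1) = 0 := if_neg (by norm_num)
  have hha := Pool.Agent.H82.BK.half_angle H.hd he
    (tailB_meas (((d : ℝ) - 1) / 2 + s) r) hne1
  calc ∫⁻ σ in {σ : Vec d | 0 < dot m σ}, ENNReal.ofReal (len m ^ γ * Kn d γ (bt b ε) (co m σ)) *
        (ENNReal.ofReal (g (v - m)) * tailChi R' (v + hh σ m)) ∂(surf d)
      ≤ ∫⁻ σ in {σ : Vec d | 0 < dot m σ},
        (ENNReal.ofReal (len m ^ γ * K1) * ENNReal.ofReal (g (v - m))) *
        (ENNReal.ofReal (2 ^ (d - 1) * dot (dir m) σ ^ (d - 2)) *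
          tailB (((d : ℝ) - 1) / 2 + s) r (2 * dot (dir m) σ ^ 2 - 1)) ∂(surf d) := by
        refine lintegral_mono_ae ?_
        rw [hset]
        rw [ae_restrict_iff' hSm]
        rw [hset] at hpt
        exact hpt
    _ = (ENNReal.ofReal (len m ^ γ * K1) * ENNReal.ofReal (g (v - m))) *
        ∫⁻ σ, tailB (((d : ℝ) - 1) / 2 + s) r (dot (dir m) σ) ∂(surf d) := by
        rw [hset, lintegral_const_mul', hha]
        exact ENNReal.mul_ne_top ENNReal.ofReal_ne_top ENNReal.ofReal_ne_top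
    _ ≤ (ENNReal.ofReal (len m ^ γ * K1) * ENNReal.ofReal (g (v - m))) *
        ENNReal.ofReal (C' * r ^ (2 * s)) := by
        refine mul_le_mul_right (le_trans (lintegral_mono fun σ => ?_) (hang _ he r hr0)) _
        unfold tailB
        split_ifs with h
        · exact le_refl _
        · exact zero_le

private lemma tail_rdint {q : ℝ} {g : Vec d → ℝ} (hg : RD g) (hgc : Continuous g)
    (hq : 0 ≤ q) : Integrable fun w : Vec d => g w * (1 + ‖w‖) ^ q := by
  have hPG : PG fun w : Vec d => (1 + ‖w‖) ^ q := by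
    refine ⟨⌈q⌉₊, 1, fun w => ?_⟩
    have h1 := one_le_w w
    rw [Real.norm_eq_abs, abs_of_nonneg (Real.rpow_nonneg (by linarith) _), one_mul,
      ← Real.rpow_natCast]
    exact Real.rpow_le_rpow_of_exponent_le h1 (Nat.le_ceil q)
  refine (hg.mul_PG hPG).integrable ?_
  refine (hgc.mul ?_).aestronglyMeasurable
  exact (continuous_const.add continuous_norm).rpow_const fun w => Or.inr hq

private lemma tail_outer (H : Hyp d γ s b Cb Ca) {C' : ℝ} (hC' : 0 ≤ C')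
    (hang : ∀ k : Vec d, nsq k = 1 → ∀ r : ℝ, 0 < r →
      ∫⁻ σ, ENNReal.ofReal ((1 - dot k σ) ^ (-(((d : ℝ) - 1) / 2 + s)) *
        min (r ^ 2 * (1 - dot k σ)) 1) ∂(surf d) ≤ ENNReal.ofReal (C' * r ^ (2 * s)))
    {R R' : ℝ} (hR : 0 < R) (hR' : R + 1 ≤ R') {ε : ℝ} {g : Vec d → ℝ} (hg : RD g)
    (hgc : Continuous g) (hg0 : ∀ v, 0 ≤ g v) {v : Vec d} (hv : ‖v‖ ≤ R) :
    ∫⁻ w, ∫⁻ σ, ENNReal.ofReal (len (v - w) ^ γ * bt b ε (cosTh v w σ)) *
        (ENNReal.ofReal (g (post' v w σ)) * tailChi R' (post v w σ)) ∂(surf d) ≤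
      ENNReal.ofReal ((2 ^ (((d : ℝ) + γ) / 2) * (2 * Cb)) * C' *
        (Real.sqrt d * (R + 1)) ^ (γ + 2 * s) * (R' - R) ^ (-(2 * s)) *
          kap (γ + 2 * s) g) := by
  have hL : 0 < R' - R := by linarith
  have hC0 := H.bd.1
  have hs := H.hs
  have hq := H.h0
  set K1 : ℝ := 2 ^ (((d : ℝ) + γ) / 2) * (2 * Cb) with hK1
  have hK10 : 0 ≤ K1 := by positivity
  have hcv := Pool.Agent.H82.BK.coll_cv H.hd γ (Pool.Agent.H82.BK.measurable_bt H.bm ε)
    (Φ := fun z v' => ENNReal.ofReal (g z) * tailChi R' v')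
    (((hgc.measurable.comp measurable_fst).ennreal_ofReal).mul
      ((tailChi_meas R').comp measurable_snd)) v
  rw [hcv]
  set K2 : ℝ := K1 * C' * (Real.sqrt d * (R + 1)) ^ (γ + 2 * s) * (R' - R) ^ (-(2 * s)) with hK2
  have hK20 : 0 ≤ K2 := by positivity
  have hpt : ∀ m : Vec d, ∫⁻ σ in {σ : Vec d | 0 < dot m σ},
      ENNReal.ofReal (len m ^ γ * Kn d γ (bt b ε) (co m σ)) *
        (ENNReal.ofReal (g (v - m)) * tailChi R' (v + hh σ m)) ∂(surf d) ≤
      ENNReal.ofReal (K2 * (g (v - m) * (1 + ‖v - m‖) ^ (γ + 2 * s))) := by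
    intro m
    rcases eq_or_ne m 0 with hm0 | hm0
    · have hemp : {σ : Vec d | 0 < dot m σ} = ∅ := by
        ext σ
        rw [hm0]
        simp [dot]
      rw [hemp, Measure.restrict_empty, lintegral_zero_measure]
      exact zero_le
    refine (tail_inner H hC' hang hR' hv m).trans ?_
    have hlm := len_pos hm0
    have hlg := Real.rpow_nonneg hlm.le γ
    have hgm := hg0 (v - m)
    rw [← hK1, ← ENNReal.ofReal_mul (by positivity), ← ENNReal.ofReal_mul (by positivity)]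
    refine ENNReal.ofReal_le_ofReal ?_
    have e1 : len m ^ γ * len m ^ (2 * s) = len m ^ (γ + 2 * s) := (Real.rpow_add hlm _ _).symm
    have e2 : (len m / (R' - R)) ^ (2 * s) = len m ^ (2 * s) * (R' - R) ^ (-(2 * s)) := by
      rw [Real.div_rpow hlm.le hL.le, Real.rpow_neg hL.le, div_eq_mul_inv]
    have e3 : len m ^ (γ + 2 * s) ≤
        (Real.sqrt d * (R + 1)) ^ (γ + 2 * s) * (1 + ‖v - m‖) ^ (γ + 2 * s) := by
      rw [← Real.mul_rpow (by positivity) (by positivity)]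
      refine Real.rpow_le_rpow hlm.le ?_ hq
      have h1 : len m ≤ Real.sqrt d * ‖m‖ := by
        unfold len
        rw [← Real.sqrt_sq (norm_nonneg m), ← Real.sqrt_mul (Nat.cast_nonneg d)]
        exact Real.sqrt_le_sqrt (sq_le m)
      have h2 : ‖m‖ ≤ (R + 1) * (1 + ‖v - m‖) := by
        have h3 : ‖m‖ ≤ ‖v‖ + ‖v - m‖ := by
          have := norm_sub_le v (v - m)
          rwa [sub_sub_cancel] at this
        nlinarith [norm_nonneg (v - m)]
      calc len m ≤ Real.sqrt d * ‖m‖ := h1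
        _ ≤ Real.sqrt d * ((R + 1) * (1 + ‖v - m‖)) :=
            mul_le_mul_of_nonneg_left h2 (Real.sqrt_nonneg _)
        _ = _ := by ring
    calc len m ^ γ * K1 * g (v - m) * (C' * (len m / (R' - R)) ^ (2 * s))
        = K1 * C' * (R' - R) ^ (-(2 * s)) * g (v - m) * len m ^ (γ + 2 * s) := by
          rw [e2, ← e1]; ring
      _ ≤ K1 * C' * (R' - R) ^ (-(2 * s)) * g (v - m) *
          ((Real.sqrt d * (R + 1)) ^ (γ + 2 * s) * (1 + ‖v - m‖) ^ (γ + 2 * s)) := by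
          refine mul_le_mul_of_nonneg_left e3 ?_
          have := Real.rpow_nonneg hL.le (-(2 * s))
          positivity
      _ = _ := by rw [hK2]; ring
  refine (lintegral_mono hpt).trans ?_
  have h1 : ∫⁻ m, ENNReal.ofReal (K2 * (g (v - m) * (1 + ‖v - m‖) ^ (γ + 2 * s))) =
      ∫⁻ z : Vec d, ENNReal.ofReal (K2 * (g z * (1 + ‖z‖) ^ (γ + 2 * s))) :=
    lintegral_sub_left_eq_self
      (fun z : Vec d => ENNReal.ofReal (K2 * (g z * (1 + ‖z‖) ^ (γ + 2 * s)))) v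
  rw [h1, ← ofReal_integral_eq_lintegral_ofReal ((tail_rdint hg hgc hq).const_mul K2)
    (Eventually.of_forall fun z => mul_nonneg hK20 (mul_nonneg (hg0 z)
      (Real.rpow_nonneg (by positivity) _))), integral_const_mul]
  exact le_refl _

theorem tail_bound (H : Hyp d γ s b Cb Ca) {R : ℝ} (hR : 0 < R) : ∃ A : ℝ, 0 ≤ A ∧
    ∀ R' ≥ R + 1, ∀ ε > 0, ∀ g : Vec d → ℝ, RD g → Continuous g → (∀ v, 0 ≤ g v) →
      ∫⁻ p in {p : Vec d × Vec d × Vec d | ‖p.1‖ ≤ R ∧ R' ≤ ‖vp p‖},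
        ENNReal.ofReal (kt γ b ε p * g (wp p)) ∂(mu3 d) ≤
          ENNReal.ofReal (A * (R' - R) ^ (-(2 * s)) * kap (γ + 2 * s) g) := by
  classical
  obtain ⟨C', hC', hang⟩ := angular H.hd1 H.hs H.hs1
  have hC0 := H.bd.1
  set V : ℝ := (volume (Metric.closedBall (0 : Vec d) R)).toReal with hV
  have hVtop : volume (Metric.closedBall (0 : Vec d) R) ≠ ⊤ :=
    (isCompact_closedBall _ _).measure_lt_top.ne
  have hV0 : 0 ≤ V := ENNReal.toReal_nonneg
  refine ⟨(2 ^ (((d : ℝ) + γ) / 2) * (2 * Cb)) * C' *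
    (Real.sqrt d * (R + 1)) ^ (γ + 2 * s) * V, by positivity, fun R' hR' ε _ g hg hgc hg0 => ?_⟩
  have hL : 0 < R' - R := by linarith
  set B : ℝ := (2 ^ (((d : ℝ) + γ) / 2) * (2 * Cb)) * C' *
        (Real.sqrt d * (R + 1)) ^ (γ + 2 * s) * (R' - R) ^ (-(2 * s)) *
          kap (γ + 2 * s) g with hB
  set F : Vec d × Vec d × Vec d → ENNReal := fun p =>
    ENNReal.ofReal (kt γ b ε p) * (ENNReal.ofReal (g (wp p)) * tailChi R' (vp p)) with hF
  have hFm : Measurable F :=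
    (kt_meas H.bm).ennreal_ofReal.mul
      ((hgc.measurable.comp measurable_wp).ennreal_ofReal.mul
        ((tailChi_meas R').comp measurable_vp))
  have hBm : MeasurableSet {p : Vec d × Vec d × Vec d | ‖p.1‖ ≤ R} :=
    measurableSet_le (measurable_norm.comp measurable_fst) measurable_const
  have hSm : MeasurableSet {p : Vec d × Vec d × Vec d | ‖p.1‖ ≤ R ∧ R' ≤ ‖vp p‖} :=
    hBm.inter (measurableSet_le measurable_const (measurable_norm.comp measurable_vp))
  have h1 : ∫⁻ p in {p : Vec d × Vec d × Vec d | ‖p.1‖ ≤ R ∧ R' ≤ ‖vp p‖},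
        ENNReal.ofReal (kt γ b ε p * g (wp p)) ∂(mu3 d) ≤
      ∫⁻ p, ({p : Vec d × Vec d × Vec d | ‖p.1‖ ≤ R}.indicator F) p ∂(mu3 d) := by
    rw [← lintegral_indicator hSm]
    refine lintegral_mono fun p => ?_
    by_cases hp : p ∈ {p : Vec d × Vec d × Vec d | ‖p.1‖ ≤ R ∧ R' ≤ ‖vp p‖}
    · rw [indicator_of_mem hp, indicator_of_mem (show p ∈ {p : Vec d × Vec d × Vec d |
        ‖p.1‖ ≤ R} from hp.1)]
      have : tailChi R' (vp p) = 1 := if_pos hp.2
      simp only [hF]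
      rw [this, mul_one, ENNReal.ofReal_mul' (hg0 _)]
    · rw [indicator_of_notMem hp]
      exact zero_le
  refine h1.trans ?_
  rw [lintegral_prod _ (hFm.indicator hBm).aemeasurable]
  have h2 : ∀ v : Vec d, ∫⁻ y, ({p : Vec d × Vec d × Vec d | ‖p.1‖ ≤ R}.indicator F) (v, y)
      ∂((volume : Measure (Vec d)).prod (surf d)) ≤
      (Metric.closedBall (0 : Vec d) R).indicator (fun _ => ENNReal.ofReal B) v := by
    intro v
    by_cases hv : ‖v‖ ≤ R
    · rw [indicator_of_mem (by simpa using hv : v ∈ Metric.closedBall (0 : Vec d) R)]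
      have h3 : ∀ y : Vec d × Vec d,
          ({p : Vec d × Vec d × Vec d | ‖p.1‖ ≤ R}.indicator F) (v, y) = F (v, y) := fun y =>
        indicator_of_mem (show (v, y) ∈ {p : Vec d × Vec d × Vec d | ‖p.1‖ ≤ R} from hv) F
      simp only [h3]
      have hFv : Measurable fun y : Vec d × Vec d => F (v, y) :=
        hFm.comp (measurable_const.prodMk measurable_id)
      rw [lintegral_prod _ hFv.aemeasurable]
      exact tail_outer H hC' hang hR hR' hg hgc hg0 hv
    · have h3 : ∀ y : Vec d × Vec d,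
          ({p : Vec d × Vec d × Vec d | ‖p.1‖ ≤ R}.indicator F) (v, y) = 0 := fun y =>
        indicator_of_notMem (show (v, y) ∉ {p : Vec d × Vec d × Vec d | ‖p.1‖ ≤ R} from hv) F
      simp only [h3, lintegral_zero]
      exact zero_le
  refine (lintegral_mono h2).trans ?_
  rw [lintegral_indicator Metric.isClosed_closedBall.measurableSet, setLIntegral_const,
    ← ENNReal.ofReal_toReal hVtop, ← hV, ← ENNReal.ofReal_mul' hV0]
  refine ENNReal.ofReal_le_ofReal (le_of_eq ?_)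
  rw [hB]
  ring

end Pool.Agent.H15.AV
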