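import Pool.Agent.H15.AVB.Ang
import Pool.Agent.H15.AVB.Tail
import Pool.Agent.H15.AVB.Near

/-!
# The linear functional

MODULE LBd. Split `Lf` at `‖v‖ ≤ R'` (`R' ≥ R + 1`). Inside: Fubini (`int_los`, `int_swp`), `ang_test`,
`near_bound`. Outside: `Θ v = 0`, the absolute value is at most
`lam δ K ∫ kt g(w) 1[‖vp p‖ ≤ R] 1[‖v‖ > R']`, which is (`kt_swap`, as lintegrals or with indicators)
`∫ kt g(w') 1[‖v‖ ≤ R] 1[‖vp p‖ > R']`, so `tail_bound`; choose `R'` with `A (R'-R)^(-2s) ≤ η/2`.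
-/

set_option autoImplicit false

open MeasureTheory Set Filter Topology Pool.Agent.H25.Kin
open Pool.Agent.H82.BK (bt bcut Kn hh co BB dir)

namespace Pool.Agent.H15.AV

variable {d : ℕ} {γ s Cb Ca : ℝ} {b : ℝ → ℝ}

/-- collisions of the outer region -/
private theorem LBd_out (H : Hyp d γ s b Cb Ca) {R R' A ε K Λ : ℝ} (hRR : R ≤ R') (hε : 0 < ε)
    (hA : 0 ≤ A) {g u Θ : Vec d → ℝ} (hgc : Continuous g) (hg0 : ∀ v, 0 ≤ g v)
    (hu0 : ∀ v, 0 ≤ u v) (hu1 : ∀ v, u v ≤ Λ) (hΘ : Tst R K Θ)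
    (ht : ∫⁻ p in {p : Vec d × Vec d × Vec d | ‖p.1‖ ≤ R ∧ R' ≤ ‖vp p‖},
        ENNReal.ofReal (kt γ b ε p * g (wp p)) ∂(mu3 d) ≤ ENNReal.ofReal A) :
    |∫ p in {p : Vec d × Vec d × Vec d | ‖p.1‖ ≤ R'}ᶜ,
      kt γ b ε p * (g p.2.1 * (u p.1 * (Θ p.1 - Θ (vp p)))) ∂(mu3 d)| ≤ Λ * K * A := by
  have hK : 0 ≤ K := (abs_nonneg _).trans (hΘ.le0 0)
  have hΛ : 0 ≤ Λ := (hu0 0).trans (hu1 0)
  obtain ⟨T, hT⟩ : ∃ T : Set (Vec d × Vec d × Vec d), T = {p | ‖p.1‖ ≤ R ∧ R' ≤ ‖vp p‖} := ⟨_, rfl⟩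
  have hTm : MeasurableSet T := by
    rw [hT]
    exact (measurableSet_le measurable_fst.norm measurable_const).inter
      (measurableSet_le measurable_const measurable_vp.norm)
  obtain ⟨G, hG⟩ : ∃ G : Vec d × Vec d × Vec d → ENNReal,
      G = T.indicator fun p => ENNReal.ofReal (kt γ b ε p * g (wp p)) := ⟨_, rfl⟩
  have hGm : Measurable G := by
    rw [hG]
    exact (((kt_meas H.bm).mul (hgc.measurable.comp measurable_wp)).ennreal_ofReal).indicator hTm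
  have h1 : ∫⁻ p, G (coll p) ∂(mu3 d) ≤ ENNReal.ofReal A := by
    rw [(coll_preserving H.hd1).lintegral_comp hGm, hG, lintegral_indicator hTm, hT]
    exact ht
  have h2 : ∫⁻ p in {p : Vec d × Vec d × Vec d | ‖p.1‖ ≤ R'}ᶜ,
      ENNReal.ofReal ‖kt γ b ε p * (g p.2.1 * (u p.1 * (Θ p.1 - Θ (vp p))))‖ ∂(mu3 d) ≤
      ENNReal.ofReal (Λ * K * A) := by
    have h3 : ∫⁻ p in {p : Vec d × Vec d × Vec d | ‖p.1‖ ≤ R'}ᶜ,
      ENNReal.ofReal ‖kt γ b ε p * (g p.2.1 * (u p.1 * (Θ p.1 - Θ (vp p))))‖ ∂(mu3 d) ≤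
        ∫⁻ p in {p : Vec d × Vec d × Vec d | ‖p.1‖ ≤ R'}ᶜ,
          ENNReal.ofReal (Λ * K) * G (coll p) ∂(mu3 d) := by
      have hSm : MeasurableSet {p : Vec d × Vec d × Vec d | ‖p.1‖ ≤ R'}ᶜ :=
        (measurableSet_le measurable_fst.norm measurable_const).compl
      refine lintegral_mono_ae ?_
      filter_upwards [ae_restrict_mem hSm, ae_restrict_of_ae (ae_good H.hd1)] with p hp hgd
      have hp1 : R' < ‖p.1‖ := not_le.1 hp
      have hΘ0 : Θ p.1 = 0 := hΘ.supp _ (by linarith)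
      have hk := kt_nonneg (γ := γ) H hε (p := p) hgd.2
      rcases le_or_gt R ‖vp p‖ with h4 | h4
      · rw [hΘ0, hΘ.supp _ h4]
        simp
      · have hm : coll p ∈ T := by
          rw [hT]
          refine ⟨h4.le, ?_⟩
          rw [vp_coll hgd.1 hgd.2]
          exact hp1.le
        rw [hG, indicator_of_mem hm, kt_coll hgd.1 hgd.2, wp_coll hgd.1 hgd.2,
          ← ENNReal.ofReal_mul (mul_nonneg hΛ hK)]
        refine ENNReal.ofReal_le_ofReal ?_
        rw [hΘ0, zero_sub, norm_mul, norm_mul, norm_mul, norm_neg, Real.norm_of_nonneg hk,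
          Real.norm_of_nonneg (hg0 _), Real.norm_of_nonneg (hu0 _), Real.norm_eq_abs]
        have a1 : u p.1 * |Θ (vp p)| ≤ Λ * K :=
          mul_le_mul (hu1 _) (hΘ.le0 _) (abs_nonneg _) hΛ
        calc kt γ b ε p * (g p.2.1 * (u p.1 * |Θ (vp p)|)) ≤
            kt γ b ε p * (g p.2.1 * (Λ * K)) :=
              mul_le_mul_of_nonneg_left (mul_le_mul_of_nonneg_left a1 (hg0 _)) hk
          _ = Λ * K * (kt γ b ε p * g p.2.1) := by ring
    refine h3.trans ?_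
    calc ∫⁻ p in {p : Vec d × Vec d × Vec d | ‖p.1‖ ≤ R'}ᶜ,
          ENNReal.ofReal (Λ * K) * G (coll p) ∂(mu3 d) ≤
        ∫⁻ p, ENNReal.ofReal (Λ * K) * G (coll p) ∂(mu3 d) := setLIntegral_le_lintegral _ _
      _ = ENNReal.ofReal (Λ * K) * ∫⁻ p, G (coll p) ∂(mu3 d) :=
        lintegral_const_mul _ (hGm.comp (coll_preserving H.hd1).measurable)
      _ ≤ ENNReal.ofReal (Λ * K) * ENNReal.ofReal A := by gcongr
      _ = ENNReal.ofReal (Λ * K * A) := (ENNReal.ofReal_mul (mul_nonneg hΛ hK)).symm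
  rw [← Real.norm_eq_abs]
  refine (norm_integral_le_lintegral_norm _).trans ?_
  exact ENNReal.toReal_le_of_le_ofReal (by positivity) h2

/-- collisions of the inner region -/
private theorem LBd_in (H : Hyp d γ s b Cb Ca) {R R' A ε K Λ : ℝ}
    {g u Θ : Vec d → ℝ} (hg0 : ∀ v, 0 ≤ g v) (hum : Measurable u)
    (hu0 : ∀ v, 0 ≤ u v) (hu1 : ∀ v, u v ≤ Λ) (hΘ : Tst R K Θ)
    (hang : ∀ v w : Vec d, v ≠ w →
      |∫ σ, kt γ b ε (v, w, σ) * (Θ (post v w σ) - Θ v) ∂(surf d)| ≤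
        A * K * (len (v - w) ^ γ * ag s (len (v - w))))
    (hI : Integrable (fun q : Vec d × Vec d => g q.2 * (len (q.1 - q.2) ^ γ * ag s (len (q.1 - q.2))))
        ((volume.restrict (Metric.closedBall (0 : Vec d) R')).prod volume))
    (hF : Integrable (fun p => kt γ b ε p * (g p.2.1 * (u p.1 * (Θ p.1 - Θ (vp p))))) (mu3 d)) :
    |∫ p in {p : Vec d × Vec d × Vec d | ‖p.1‖ ≤ R'},
      kt γ b ε p * (g p.2.1 * (u p.1 * (Θ p.1 - Θ (vp p)))) ∂(mu3 d)| ≤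
      A * K * ∫ v in Metric.closedBall (0 : Vec d) R', u v *
        ∫ w, g w * (len (v - w) ^ γ * ag s (len (v - w))) := by
  have hK : 0 ≤ K := (abs_nonneg _).trans (hΘ.le0 0)
  have hΛ : 0 ≤ Λ := (hu0 0).trans (hu1 0)
  obtain ⟨B, hB⟩ : ∃ B : Set (Vec d), B = Metric.closedBall (0 : Vec d) R' := ⟨_, rfl⟩
  have hS : {p : Vec d × Vec d × Vec d | ‖p.1‖ ≤ R'} = B ×ˢ (univ : Set (Vec d × Vec d)) := by
    ext p
    rw [hB]
    simp
  have hres : (mu3 d).restrict {p : Vec d × Vec d × Vec d | ‖p.1‖ ≤ R'} =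
      (volume.restrict B).prod ((volume : Measure (Vec d)).prod (surf d)) := by
    rw [hS]
    have := Measure.prod_restrict (μ := (volume : Measure (Vec d)))
      (ν := (volume : Measure (Vec d)).prod (surf d)) B univ
    rw [Measure.restrict_univ] at this
    exact this.symm
  have hF' : Integrable (fun p => kt γ b ε p * (g p.2.1 * (u p.1 * (Θ p.1 - Θ (vp p)))))
      ((volume.restrict B).prod ((volume : Measure (Vec d)).prod (surf d))) := by
    rw [← hres]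
    exact hF.restrict
  rw [← hB] at hI ⊢
  rw [hres, integral_prod _ hF', ← integral_const_mul, ← Real.norm_eq_abs]
  have hJ : Integrable (fun v => ∫ w, g w * (len (v - w) ^ γ * ag s (len (v - w))))
      (volume.restrict B) := hI.integral_prod_left
  have huJ : Integrable (fun v => u v * ∫ w, g w * (len (v - w) ^ γ * ag s (len (v - w))))
      (volume.restrict B) := by
    refine hJ.bdd_mul (c := Λ) hum.aestronglyMeasurable (Eventually.of_forall fun v => ?_)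
    rw [Real.norm_of_nonneg (hu0 v)]
    exact hu1 v
  refine norm_integral_le_of_norm_le (huJ.const_mul _) ?_
  filter_upwards [hF'.prod_right_ae, hI.prod_right_ae] with v h1 h2
  rw [integral_prod _ h1]
  have h3 : Integrable (fun w => A * K * (u v * (g w * (len (v - w) ^ γ * ag s (len (v - w))))))
      (volume : Measure (Vec d)) := (h2.const_mul (u v)).const_mul (A * K)
  have h4 : A * K * (u v * ∫ w, g w * (len (v - w) ^ γ * ag s (len (v - w)))) =
      ∫ w, A * K * (u v * (g w * (len (v - w) ^ γ * ag s (len (v - w))))) := by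
    rw [integral_const_mul, integral_const_mul]
  rw [h4]
  refine norm_integral_le_of_norm_le h3 ?_
  filter_upwards [ae_ne H.hd1 v] with w hw
  have h5 : (fun σ => kt γ b ε (v, w, σ) * (g w * (u v * (Θ v - Θ (vp (v, w, σ)))))) =
      fun σ => -(g w * u v) * (kt γ b ε (v, w, σ) * (Θ (post v w σ) - Θ v)) := by
    funext σ
    change kt γ b ε (v, w, σ) * (g w * (u v * (Θ v - Θ (post v w σ)))) = _
    ring
  change ‖∫ σ, kt γ b ε (v, w, σ) * (g w * (u v * (Θ v - Θ (vp (v, w, σ))))) ∂(surf d)‖ ≤ _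
  rw [h5, integral_const_mul, norm_mul, norm_neg, Real.norm_of_nonneg (mul_nonneg (hg0 w) (hu0 v)),
    Real.norm_eq_abs]
  calc g w * u v * |∫ σ, kt γ b ε (v, w, σ) * (Θ (post v w σ) - Θ v) ∂(surf d)| ≤
      g w * u v * (A * K * (len (v - w) ^ γ * ag s (len (v - w)))) :=
        mul_le_mul_of_nonneg_left (hang v w hw) (mul_nonneg (hg0 w) (hu0 v))
    _ = _ := by ring

theorem Lf_bound (H : Hyp d γ s b Cb Ca) {R : ℝ} (hR : 0 < R) {η : ℝ} (hη : 0 < η) :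
    ∃ C R' : ℝ, 0 ≤ C ∧ R ≤ R' ∧ ∀ δ ∈ Ioc (0 : ℝ) (1 / 2), ∀ g : Vec d → ℝ, Nice g →
      (∀ v, 0 ≤ g v) → ∀ ε > 0, ∀ (K : ℝ) (Θ : Vec d → ℝ), Tst R K Θ →
        |Lf γ b ε δ g Θ| ≤ K * kap (γ + 2 * s) g * (C * ub δ R' g + η * lam δ) := by
  obtain ⟨A₁, hA₁, hang⟩ := ang_test H
  obtain ⟨A₂, hA₂, htail⟩ := tail_bound H hR
  have hs := H.hs
  obtain ⟨x, hx1, hx2⟩ : ∃ x : ℝ, 1 ≤ x ∧ A₂ * x ^ (-(2 * s)) ≤ η / 2 := by
    have h1 : Tendsto (fun x : ℝ => A₂ * x ^ (-(2 * s))) atTop (𝓝 (A₂ * 0)) :=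
      (tendsto_rpow_neg_atTop (by linarith)).const_mul A₂
    rw [mul_zero] at h1
    have h2 : ∀ᶠ x : ℝ in atTop, A₂ * x ^ (-(2 * s)) ≤ η / 2 :=
      h1.eventually (Iic_mem_nhds (by linarith))
    exact ((eventually_ge_atTop 1).and h2).exists
  obtain ⟨R', hR'⟩ : ∃ R', R' = R + x := ⟨_, rfl⟩
  have hR'0 : 0 < R' := by linarith
  have hη' : 0 < η / (2 * (A₁ + 1)) := by positivity
  obtain ⟨C₀, hC₀, hnear⟩ := near_bound H hR'0 hη'
  refine ⟨A₁ * C₀, R', mul_nonneg hA₁ hC₀, by linarith, ?_⟩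
  intro δ hδ g hg hg0 ε hε K Θ hΘ
  have hK : 0 ≤ K := (abs_nonneg _).trans (hΘ.le0 0)
  have hδ1 : δ ≤ 1 := hδ.2.trans (by norm_num)
  have hlam : 0 < lam δ := lam_pos hδ.1 (by linarith [hδ.2])
  obtain ⟨u, hu⟩ : ∃ u : Vec d → ℝ, u = fun v => uf δ (g v) := ⟨_, rfl⟩
  have hu0 : ∀ v, 0 ≤ u v := fun v => by rw [hu]; exact uf_nonneg hδ.1 hδ1 (hg0 v)
  have hu1 : ∀ v, u v ≤ lam δ := fun v => by rw [hu]; exact uf_le_lam hδ.1 hδ1 (hg0 v)
  have hum : Measurable u := by rw [hu]; exact (measurable_uf δ).comp hg.cont.measurable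
  have hkap : 0 ≤ kap (γ + 2 * s) g := integral_nonneg fun w =>
    mul_nonneg (hg0 w) (Real.rpow_nonneg (by positivity) _)
  obtain ⟨hI, hn⟩ := hnear (lam δ) u g hum hu0 hu1 hg.rd hg.cont hg0
  have hLf : Lf γ b ε δ g Θ =
      ∫ p, kt γ b ε p * (g p.2.1 * (u p.1 * (Θ p.1 - Θ (vp p)))) ∂(mu3 d) := by
    rw [hu]
    rfl
  have hΘm : Measurable Θ := hΘ.smooth.continuous.measurable
  have hF : Integrable (fun p => kt γ b ε p * (g p.2.1 * (u p.1 * (Θ p.1 - Θ (vp p)))))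
      (mu3 d) := by
    have h1 := int_los H hε hg.rd hg.cont.measurable (F := fun p => u p.1 * Θ p.1)
      (A := lam δ * K) (R := R) ((hum.comp measurable_fst).mul (hΘm.comp measurable_fst))
      (fun p => by
        rw [abs_mul, abs_of_nonneg (hu0 _)]
        exact mul_le_mul (hu1 _) (hΘ.le0 _) (abs_nonneg _) hlam.le)
      (fun p hp => by
        rw [hΘ.supp _ hp, mul_zero])
    have h2 := int_swp H hε hg.rd hg.cont.measurable (G := u) hum (A := lam δ)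
      (fun v => by rw [abs_of_nonneg (hu0 v)]; exact hu1 v) hΘ.btst
    refine (h1.sub h2).congr (Eventually.of_forall fun p => ?_)
    change kt γ b ε p * (g p.2.1 * (u p.1 * Θ p.1)) -
      kt γ b ε p * (g p.2.1 * (u p.1 * Θ (vp p))) = _
    ring
  have hSm : MeasurableSet {p : Vec d × Vec d × Vec d | ‖p.1‖ ≤ R'} :=
    measurableSet_le measurable_fst.norm measurable_const
  have hsplit := integral_add_compl hSm hF
  have hin := LBd_in H hg0 hum hu0 hu1 hΘ (hang ε hε R K Θ hΘ) hI hF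
  have ht := htail R' (by linarith) ε hε g hg.rd hg.cont hg0
  have hxR : R' - R = x := by linarith
  rw [hxR] at ht
  have hx0 : 0 ≤ x ^ (-(2 * s)) := Real.rpow_nonneg (by linarith) _
  have hout := LBd_out H (R := R) (R' := R') (by linarith) hε
    (mul_nonneg (mul_nonneg hA₂ hx0) hkap) hg.cont hg0 hu0 hu1 hΘ ht
  have hub : ub δ R' g = ∫ v in Metric.closedBall (0 : Vec d) R', u v := by
    rw [hu]
    rfl
  rw [← hub] at hn
  rw [hLf, ← hsplit]
  refine (abs_add_le _ _).trans ((add_le_add hin hout).trans ?_)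
  have e1 : A₁ * (η / (2 * (A₁ + 1))) ≤ η / 2 := by
    have h1 : A₁ * (η / (2 * (A₁ + 1))) = η / 2 * (A₁ / (A₁ + 1)) := by
      field_simp
    rw [h1]
    have h2 : A₁ / (A₁ + 1) ≤ 1 := by
      rw [div_le_one (by positivity)]
      linarith
    calc η / 2 * (A₁ / (A₁ + 1)) ≤ η / 2 * 1 := by gcongr
      _ = η / 2 := mul_one _
  calc A₁ * K * (∫ v in Metric.closedBall (0 : Vec d) R', u v *
        ∫ w, g w * (len (v - w) ^ γ * ag s (len (v - w)))) +
        lam δ * K * (A₂ * x ^ (-(2 * s)) * kap (γ + 2 * s) g) ≤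
      A₁ * K * (kap (γ + 2 * s) g * (C₀ * ub δ R' g + η / (2 * (A₁ + 1)) * lam δ)) +
        lam δ * K * (η / 2 * kap (γ + 2 * s) g) := by gcongr
    _ = K * kap (γ + 2 * s) g * (A₁ * C₀ * ub δ R' g +
        (A₁ * (η / (2 * (A₁ + 1))) + η / 2) * lam δ) := by ring
    _ ≤ K * kap (γ + 2 * s) g * (A₁ * C₀ * ub δ R' g + (η / 2 + η / 2) * lam δ) := by gcongr
    _ = _ := by rw [add_halves]

end Pool.Agent.H15.AV
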