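import Pool.Agent.H15.AVB.BDef

/-!
# Projection of a spherical cap to a line

MODULE Proj. `surf_formula`: `∫_S F = d ∫_{|z|<1} F(z/|z|) dz`. Let `y₀ = σ₀/2`, `t₀ = σ₀·η`,
`e = (η - t₀ σ₀)/√(1-t₀²)` (unit, `e·σ₀ = 0`, `e·η = √(1-t₀²) ≥ √c`), `T z = (z·η)/|z|`. For small `κ₁`:
`|z - y₀| ≤ 2κ₁` implies `|z| < 1` and `len (z/|z| - σ₀) ≤ κ`. Translation averaging: for every `|τ| ≤ κ₁`,
`∫_{|z-y₀|≤κ₁} φ(T(z+τe)) dz ≤ ∫_{|z-y₀|≤2κ₁} φ(T z) dz`; integrate over `τ` and exchange. For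
`|z - y₀| ≤ κ₂ ≤ κ₁` the function `τ ↦ T(z+τe)` has derivative `(e·η)/|y| - (y·η)(y·e)/|y|³`, `y = z+τe`,
which lies in `[√c/2, 8]` (`|y·e| ≤ κ₁+κ₂`, `1/4 ≤ |y| ≤ 1`), so its image contains `[t₀-j, t₀+j]`, and
`lintegral_image_eq_lintegral_abs_deriv_mul` gives `∫_{[t₀-j,t₀+j]} φ ≤ 8 ∫_{|τ|≤κ₁} φ(T(z+τe)) dτ`.
-/

set_option autoImplicit false

open MeasureTheory Set Filter Topology Pool.Agent.H25.Kin
open scoped ENNReal

namespace Pool.Agent.H15.AV

variable {d : ℕ}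

private theorem pj_line {f f' : ℝ → ℝ} {K L t j : ℝ} (hK : 0 < K) (hL : 0 < L)
    (hf : ∀ x ∈ Icc (-K) K, HasDerivAt f (f' x) x) (h1 : ∀ x ∈ Icc (-K) K, L ≤ f' x)
    (h2 : ∀ x ∈ Icc (-K) K, f' x ≤ 8) (ht : |f 0 - t| ≤ L * K - j) (φ : ℝ → ℝ≥0∞) :
    ∫⁻ τ in Icc (t - j) (t + j), φ τ ≤ 8 * ∫⁻ τ in Icc (-K) K, φ (f τ) := by
  have cont : ContinuousOn f (Icc (-K) K) := fun x hx => (hf x hx).continuousAt.continuousWithinAt
  have hI : ∀ x ∈ interior (Icc (-K) K), x ∈ Icc (-K) K := fun x hx => interior_subset hx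
  have hinj : InjOn f (Icc (-K) K) := by
    refine (strictMonoOn_of_hasDerivWithinAt_pos (f' := f') (convex_Icc _ _) cont ?_ ?_).injOn
    · intro x hx
      exact (hf x (hI x hx)).hasDerivWithinAt
    · intro x hx
      exact hL.trans_le (h1 x (hI x hx))
  have hmv : ∀ x ∈ Icc (-K) K, ∀ y ∈ Icc (-K) K, x ≤ y → L * (y - x) ≤ f y - f x := by
    refine Convex.mul_sub_le_image_sub_of_le_deriv (convex_Icc _ _) cont ?_ ?_
    · intro x hx
      exact (hf x (hI x hx)).differentiableAt.differentiableWithinAt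
    · intro x hx
      rw [(hf x (hI x hx)).deriv]
      exact h1 x (hI x hx)
  have m0 : (0 : ℝ) ∈ Icc (-K) K := ⟨by linarith, hK.le⟩
  have mK : K ∈ Icc (-K) K := ⟨by linarith, le_refl _⟩
  have mk : -K ∈ Icc (-K) K := ⟨le_refl _, by linarith⟩
  have a1 := hmv 0 m0 K mK hK.le
  have a2 := hmv (-K) mk 0 m0 (by linarith)
  obtain ⟨b1, b2⟩ := abs_le.1 ht
  have hsub : Icc (t - j) (t + j) ⊆ f '' Icc (-K) K := by
    refine Subset.trans (Icc_subset_Icc ?_ ?_) (intermediate_value_Icc (by linarith) cont)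
    · linarith
    · linarith
  calc ∫⁻ τ in Icc (t - j) (t + j), φ τ ≤ ∫⁻ τ in f '' Icc (-K) K, φ τ := lintegral_mono_set hsub
    _ = ∫⁻ x in Icc (-K) K, ENNReal.ofReal |f' x| * φ (f x) :=
        lintegral_image_eq_lintegral_abs_deriv_mul measurableSet_Icc
          (fun x hx => (hf x hx).hasDerivWithinAt) hinj φ
    _ ≤ ∫⁻ x in Icc (-K) K, 8 * φ (f x) := by
        refine setLIntegral_mono' measurableSet_Icc fun x hx => ?_
        refine mul_le_mul_left ?_ _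
        rw [abs_of_pos (hL.trans_le (h1 x hx))]
        refine (ENNReal.ofReal_le_ofReal (h2 x hx)).trans ?_
        rw [ENNReal.ofReal_ofNat]
    _ = 8 * ∫⁻ τ in Icc (-K) K, φ (f τ) := lintegral_const_mul' 8 _ (by simp)

private theorem pj_bound {S u w p q K : ℝ} (hS1 : 3 / 8 ≤ S) (hS2 : S ≤ 5 / 8) (hu : |u| ≤ S)
    (hw : |w| ≤ 2 * K) (hK0 : 0 < K) (hK1 : K ≤ 1 / 16) (hK2 : K ≤ q / 32) (hq : q ≤ p) (hp : p ≤ 1) :
    q / 2 ≤ (p * S - u * (w / S)) / S ^ 2 ∧ (p * S - u * (w / S)) / S ^ 2 ≤ 8 := by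
  have hS : 0 < S := by linarith
  have hq0 : 0 < q := by linarith
  have hb : |u * (w / S)| ≤ 2 * K := by
    rw [abs_mul, abs_div, abs_of_pos hS]
    calc |u| * (|w| / S) ≤ S * (2 * K / S) := by gcongr
      _ = 2 * K := by field_simp
  obtain ⟨c1, c2⟩ := abs_le.1 hb
  have hS3 : 9 / 64 ≤ S ^ 2 := by nlinarith
  have hS4 : S ^ 2 ≤ 25 / 64 := by nlinarith
  have hpS : q * (3 / 8) ≤ p * S := mul_le_mul hq hS1 (by norm_num) (by linarith)
  have hpS2 : p * S ≤ 1 * (5 / 8) := mul_le_mul hp hS2 hS.le zero_le_one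
  constructor
  · rw [le_div_iff₀ (by positivity)]
    nlinarith
  · rw [div_le_iff₀ (by positivity)]
    nlinarith

private theorem pj_deriv {a p n m x : ℝ} (hn : 0 < n + 2 * x * m + x ^ 2) :
    HasDerivAt (fun τ : ℝ => (a + τ * p) / Real.sqrt (n + 2 * τ * m + τ ^ 2))
      ((p * Real.sqrt (n + 2 * x * m + x ^ 2) -
        (a + x * p) * ((m + x) / Real.sqrt (n + 2 * x * m + x ^ 2))) /
        Real.sqrt (n + 2 * x * m + x ^ 2) ^ 2) x := by
  have h1 : HasDerivAt (fun τ : ℝ => a + τ * p) p x := by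
    simpa using ((hasDerivAt_id x).mul_const p).const_add a
  have h2 : HasDerivAt (fun τ : ℝ => n + 2 * τ * m + τ ^ 2) (2 * m + 2 * x) x := by
    have a1 : HasDerivAt (fun τ : ℝ => n + 2 * τ * m) (2 * m) x := by
      have := (((hasDerivAt_id x).const_mul 2).mul_const m).const_add n
      simpa using this
    have a2 : HasDerivAt (fun τ : ℝ => τ ^ 2) (2 * x) x := by
      simpa using hasDerivAt_pow 2 x
    exact a1.add a2
  have h3 := h2.sqrt hn.ne'
  have hs : Real.sqrt (n + 2 * x * m + x ^ 2) ≠ 0 := (Real.sqrt_pos.2 hn).ne'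
  have h4 := h1.div h3 hs
  have e : (2 * m + 2 * x) / (2 * Real.sqrt (n + 2 * x * m + x ^ 2)) =
      (m + x) / Real.sqrt (n + 2 * x * m + x ^ 2) := by
    rw [← mul_add, mul_div_mul_left _ _ (by norm_num : (2 : ℝ) ≠ 0)]
  rw [e] at h4
  exact h4

private theorem pj_dot_le (a b : Vec d) : |dot a b| ≤ len a * len b := by
  apply abs_le_of_sq_le_sq _ (mul_nonneg (len_nonneg _) (len_nonneg _))
  rw [mul_pow, len_sq, len_sq]
  exact dot_sq_le a b

private theorem pj_tri (a b : Vec d) : len (a + b) ≤ len a + len b := by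
  apply le_of_sq_le_sq _ (add_nonneg (len_nonneg _) (len_nonneg _))
  rw [len_sq, nsq_add, add_sq, len_sq, len_sq]
  have := (abs_le.1 (pj_dot_le a b)).2
  linarith

private theorem pj_len_sub (a b : Vec d) : |len a - len b| ≤ len (a - b) := by
  rw [abs_le]
  constructor
  · have h2 : len b ≤ len a + len (b - a) := by
      have := pj_tri a (b - a)
      rwa [add_sub_cancel] at this
    rw [← len_neg (b - a), neg_sub] at h2
    linarith
  · have h := pj_tri b (a - b)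
    rw [add_sub_cancel] at h
    linarith

/-- the direction of a vector near `σ₀ / 2` -/
private theorem pj_dir {σ₀ z : Vec d} (h0 : nsq σ₀ = 1) {r : ℝ} (hr : r ≤ 1 / 8)
    (hz : len (z - (1 / 2 : ℝ) • σ₀) ≤ r) :
    3 / 8 ≤ len z ∧ len z ≤ 5 / 8 ∧ len ((len z)⁻¹ • z - σ₀) ≤ 4 * r := by
  have hl0 : len σ₀ = 1 := by unfold len; rw [h0, Real.sqrt_one]
  have hl1 : len ((1 / 2 : ℝ) • σ₀) = 1 / 2 := by rw [len_smul (by norm_num), hl0, mul_one]
  have h1 := pj_len_sub z ((1 / 2 : ℝ) • σ₀)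
  rw [hl1] at h1
  obtain ⟨h2, h3⟩ := abs_le.1 (h1.trans hz)
  have hlz : 0 < len z := by linarith
  refine ⟨by linarith, by linarith, ?_⟩
  have e : (len z)⁻¹ • z - σ₀ = ((len z)⁻¹ - 2) • z + (2 : ℝ) • (z - (1 / 2 : ℝ) • σ₀) := by
    ext i
    simp
    ring
  rw [e]
  refine (pj_tri _ _).trans ?_
  rw [len_smul (a := (2 : ℝ)) (by norm_num)]
  have h4 : len (((len z)⁻¹ - 2) • z) = |1 - 2 * len z| := by
    have : len (((len z)⁻¹ - 2) • z) = Real.sqrt ((((len z)⁻¹ - 2) * len z) ^ 2) := by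
      unfold len
      rw [nsq_smul, mul_pow, Real.sq_sqrt (sq_nonneg' z)]
    rw [this, Real.sqrt_sq_eq_abs, sub_mul, inv_mul_cancel₀ hlz.ne']
  rw [h4]
  have h5 : |1 - 2 * len z| ≤ 2 * r := by
    rw [abs_le]; constructor <;> linarith
  linarith

/-- the orthogonal direction -/
private theorem pj_e {σ₀ η : Vec d} {c : ℝ} (hc : 0 < c) (h0 : nsq σ₀ = 1) (h1 : nsq η = 1)
    (h2 : dot σ₀ η ^ 2 ≤ 1 - c) : ∃ e : Vec d, nsq e = 1 ∧ dot e σ₀ = 0 ∧
      Real.sqrt c ≤ dot e η ∧ dot e η ≤ 1 := by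
  set t := dot σ₀ η with ht
  have hn : nsq (η - t • σ₀) = 1 - t ^ 2 := by
    rw [nsq_sub, h1, nsq_smul, h0, dot_smul, dot_comm η σ₀, ← ht]; ring
  have hp : 0 < 1 - t ^ 2 := by linarith
  set s := Real.sqrt (1 - t ^ 2) with hs
  have hs0 : 0 < s := Real.sqrt_pos.2 hp
  have hss : s ^ 2 = 1 - t ^ 2 := Real.sq_sqrt hp.le
  have hde : dot (s⁻¹ • (η - t • σ₀)) η = s := by
    rw [smul_dot, dot_comm, dot_sub, dot_self, h1, dot_smul, dot_comm η σ₀, ← ht]
    have : 1 - t * t = s ^ 2 := by rw [hss]; ring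
    rw [this]
    field_simp
  have hne : nsq (s⁻¹ • (η - t • σ₀)) = 1 := by
    rw [nsq_smul, hn, ← hss, inv_pow, inv_mul_cancel₀ (by positivity)]
  refine ⟨s⁻¹ • (η - t • σ₀), hne, ?_, ?_, ?_⟩
  · rw [smul_dot, dot_comm, dot_sub, dot_smul, dot_self, h0, ← ht]
    ring
  · rw [hde, hs]
    exact Real.sqrt_le_sqrt (by linarith)
  · exact (abs_le.1 (dot_le_one hne h1)).2

private theorem pj_fiber {σ₀ η e z : Vec d} {q K r j : ℝ} (h0 : nsq σ₀ = 1) (h1 : nsq η = 1)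
    (he : nsq e = 1) (heσ : dot e σ₀ = 0) (hq0 : 0 < q) (hq : q ≤ dot e η) (hp : dot e η ≤ 1)
    (hK0 : 0 < K) (hK1 : K ≤ 1 / 16) (hK2 : K ≤ q / 32) (hr : r ≤ K) (hr0 : 0 ≤ r)
    (hz : len (z - (1 / 2 : ℝ) • σ₀) ≤ r) (hj : 4 * r ≤ q / 2 * K - j) (φ : ℝ → ℝ≥0∞) :
    ∫⁻ τ in Icc (dot σ₀ η - j) (dot σ₀ η + j), φ τ ≤
      8 * ∫⁻ τ in Icc (-K) K, φ (dot (z + τ • e) η / len (z + τ • e)) := by
  have hle : len e = 1 := by unfold len; rw [he, Real.sqrt_one]
  have hn : ∀ τ : ℝ, nsq (z + τ • e) = nsq z + 2 * τ * dot z e + τ ^ 2 := by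
    intro τ
    rw [nsq_add, dot_smul, nsq_smul, he]; ring
  have hl : ∀ τ : ℝ, len (z + τ • e) = Real.sqrt (nsq z + 2 * τ * dot z e + τ ^ 2) := by
    intro τ
    unfold len
    rw [hn]
  have hd1 : ∀ τ : ℝ, dot (z + τ • e) η = dot z η + τ * dot e η := by
    intro τ
    rw [dot_comm, dot_add, dot_smul, dot_comm η z, dot_comm η e]
  have hnear : ∀ τ ∈ Icc (-K) K, len (z + τ • e - (1 / 2 : ℝ) • σ₀) ≤ 2 * K := by
    intro τ hτ
    have e1 : z + τ • e - (1 / 2 : ℝ) • σ₀ = (z - (1 / 2 : ℝ) • σ₀) + τ • e := by abel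
    rw [e1]
    refine (pj_tri _ _).trans ?_
    have e2 : len (τ • e) = |τ| := by
      unfold len
      rw [nsq_smul, he, mul_one, Real.sqrt_sq_eq_abs]
    rw [e2]
    have := abs_le.2 hτ
    linarith
  have hL : ∀ τ ∈ Icc (-K) K, 3 / 8 ≤ len (z + τ • e) ∧ len (z + τ • e) ≤ 5 / 8 := by
    intro τ hτ
    obtain ⟨a1, a2, _⟩ := pj_dir h0 (r := 2 * K) (by linarith) (hnear τ hτ)
    exact ⟨a1, a2⟩
  have hu : ∀ τ : ℝ, |dot z η + τ * dot e η| ≤ len (z + τ • e) := by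
    intro τ
    rw [← hd1]
    have := pj_dot_le (z + τ • e) η
    have e3 : len η = 1 := by unfold len; rw [h1, Real.sqrt_one]
    rwa [e3, mul_one] at this
  have hw : ∀ τ ∈ Icc (-K) K, |dot z e + τ| ≤ 2 * K := by
    intro τ hτ
    have e1 : dot z e = dot (z - (1 / 2 : ℝ) • σ₀) e := by
      rw [dot_comm (z - (1 / 2 : ℝ) • σ₀) e, dot_sub, dot_smul, heσ, dot_comm]; ring
    have e2 : |dot z e| ≤ r := by
      rw [e1]
      have := pj_dot_le (z - (1 / 2 : ℝ) • σ₀) e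
      rw [hle, mul_one] at this
      exact this.trans hz
    have e3 := abs_le.2 hτ
    exact (abs_add_le _ _).trans (by linarith)
  have hpos : ∀ τ ∈ Icc (-K) K, 0 < nsq z + 2 * τ * dot z e + τ ^ 2 := by
    intro τ hτ
    have := (hL τ hτ).1
    rw [hl τ] at this
    exact Real.sqrt_pos.1 (by linarith)
  have key := pj_line (f := fun τ : ℝ => (dot z η + τ * dot e η) /
      Real.sqrt (nsq z + 2 * τ * dot z e + τ ^ 2))
    (f' := fun x : ℝ => (dot e η * Real.sqrt (nsq z + 2 * x * dot z e + x ^ 2) -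
        (dot z η + x * dot e η) * ((dot z e + x) / Real.sqrt (nsq z + 2 * x * dot z e + x ^ 2))) /
        Real.sqrt (nsq z + 2 * x * dot z e + x ^ 2) ^ 2)
    (K := K) (L := q / 2) (t := dot σ₀ η) (j := j) hK0 (by linarith)
    (fun x hx => pj_deriv (hpos x hx))
    (fun x hx => by
      have := hL x hx
      rw [hl x] at this
      have hux := hu x
      rw [hl x] at hux
      exact (pj_bound this.1 this.2 hux (hw x hx) hK0 hK1 hK2 hq hp).1)
    (fun x hx => by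
      have := hL x hx
      rw [hl x] at this
      have hux := hu x
      rw [hl x] at hux
      exact (pj_bound this.1 this.2 hux (hw x hx) hK0 hK1 hK2 hq hp).2)
    ?_ φ
  · simp_rw [hl, hd1]
    exact key
  · refine le_trans ?_ hj
    have e1 : (dot z η + 0 * dot e η) / Real.sqrt (nsq z + 2 * 0 * dot z e + 0 ^ 2) - dot σ₀ η =
        dot ((len z)⁻¹ • z - σ₀) η := by
      rw [dot_comm ((len z)⁻¹ • z - σ₀) η, dot_sub, dot_smul, dot_comm η z, dot_comm η σ₀]
      have : nsq z + 2 * 0 * dot z e + 0 ^ 2 = nsq z := by ring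
      rw [this]
      unfold len
      ring
    rw [e1]
    have h5 := pj_dot_le ((len z)⁻¹ • z - σ₀) η
    have e3 : len η = 1 := by unfold len; rw [h1, Real.sqrt_one]
    rw [e3, mul_one] at h5
    exact h5.trans (pj_dir h0 (by linarith) hz).2.2

private theorem pj_meas_ball (y : Vec d) (r : ℝ) : MeasurableSet {z : Vec d | len (z - y) ≤ r} :=
  (isClosed_le (continuous_len.comp (continuous_id.sub continuous_const))
    continuous_const).measurableSet

private theorem pj_vol (y : Vec d) (r : ℝ) :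
    volume {z : Vec d | len (z - y) ≤ r} = volume {z : Vec d | len z ≤ r} := by
  have : {z : Vec d | len (z - y) ≤ r} = (fun z => z + -y) ⁻¹' {z : Vec d | len z ≤ r} := by
    ext z
    simp [sub_eq_add_neg]
  rw [this, measure_preimage_add_right]

private theorem pj_vol_pos {r : ℝ} (hr : 0 < r) : volume {z : Vec d | len z ≤ r} ≠ 0 := by
  have h1 : IsOpen {z : Vec d | len z < r} := isOpen_lt continuous_len continuous_const
  have h2 : 0 < volume {z : Vec d | len z < r} := by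
    refine h1.measure_pos _ ⟨0, ?_⟩
    change len (0 : Vec d) < r
    rw [len_zero]
    exact hr
  exact (h2.trans_le (measure_mono fun z (hz : len z < r) => le_of_lt hz)).ne'

private theorem pj_vol_fin (r : ℝ) : volume {z : Vec d | len z ≤ r} ≠ ⊤ := by
  refine ((measure_mono fun z (hz : len z ≤ r) => ?_).trans_lt
    (measure_closedBall_lt_top (x := (0 : Vec d)) (r := r))).ne
  rw [Metric.mem_closedBall, dist_zero_right]
  exact (norm_le_len z).trans hz

theorem proj_cap (hd : 2 ≤ d) {c κ : ℝ} (hc : 0 < c) (hκ : 0 < κ) : ∃ j A : ℝ, 0 < j ∧ 0 ≤ A ∧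
    ∀ σ₀ η : Vec d, nsq σ₀ = 1 → nsq η = 1 → dot σ₀ η ^ 2 ≤ 1 - c →
    ∀ φ : ℝ → ℝ≥0∞, Measurable φ →
      ∫⁻ τ in Icc (dot σ₀ η - j) (dot σ₀ η + j), φ τ ≤
        ENNReal.ofReal A * ∫⁻ σ in {σ : Vec d | len (σ - σ₀) ≤ κ}, φ (dot σ η) ∂(surf d) := by
  have hd1 : 1 ≤ d := by omega
  set q := Real.sqrt c with hqd
  have hq0 : 0 < q := Real.sqrt_pos.2 hc
  obtain ⟨K, hK0, hK1, hK2, hK3⟩ : ∃ K : ℝ, 0 < K ∧ K ≤ 1 / 16 ∧ K ≤ q / 32 ∧ 8 * K ≤ κ := by
    refine ⟨min (1 / 16) (min (q / 32) (κ / 8)), by positivity, min_le_left _ _,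
      (min_le_right _ _).trans (min_le_left _ _), ?_⟩
    have := (min_le_right (1 / 16 : ℝ) (min (q / 32) (κ / 8))).trans (min_le_right _ _)
    linarith
  set r := q * K / 16 with hr
  have hr0 : 0 < r := by positivity
  set V := volume {z : Vec d | len z ≤ r} with hV
  have hV0 : V ≠ 0 := pj_vol_pos hr0
  have hVt : V ≠ ⊤ := pj_vol_fin r
  set A' : ℝ≥0∞ := V⁻¹ * (8 * (ENNReal.ofReal (2 * K) * ENNReal.ofReal (1 / d))) with hA'
  have hA't : A' ≠ ⊤ := by
    refine ENNReal.mul_ne_top (ENNReal.inv_ne_top.2 hV0) (ENNReal.mul_ne_top (by simp)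
      (ENNReal.mul_ne_top ENNReal.ofReal_ne_top ENNReal.ofReal_ne_top))
  refine ⟨q * K / 4, A'.toReal, by positivity, ENNReal.toReal_nonneg, ?_⟩
  intro σ₀ η h0 h1 h2 φ hφ
  rw [ENNReal.ofReal_toReal hA't]
  obtain ⟨e, he, heσ, hq, hp⟩ := pj_e hc h0 h1 h2
  rw [← hqd] at hq
  have hq1 : q ≤ 1 := hq.trans hp
  have hrK : r ≤ K := by rw [hr]; nlinarith
  set I := ∫⁻ τ in Icc (dot σ₀ η - q * K / 4) (dot σ₀ η + q * K / 4), φ τ with hI
  set y₀ : Vec d := (1 / 2 : ℝ) • σ₀ with hy₀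
  set T : Vec d → ℝ := fun z => dot z η / len z with hT
  have hTm : Measurable T := by
    have c1 : Continuous fun z : Vec d => dot z η := by
      have := dot_cont η
      have e5 : (fun z : Vec d => dot z η) = fun z => dot η z := funext fun z => dot_comm z η
      rw [e5]; exact this
    exact c1.measurable.div continuous_len.measurable
  set S : Set (Vec d) := {σ : Vec d | len (σ - σ₀) ≤ κ} with hS
  have hSm : MeasurableSet S := pj_meas_ball σ₀ κ
  set F : Vec d → ℝ≥0∞ := S.indicator fun σ => φ (dot σ η) with hF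
  have hφd : Measurable fun σ : Vec d => φ (dot σ η) := by
    have e5 : (fun z : Vec d => dot z η) = fun z => dot η z := funext fun z => dot_comm z η
    have : Measurable fun z : Vec d => dot z η := by rw [e5]; exact (dot_cont η).measurable
    exact hφ.comp this
  have hFm : Measurable F := hφd.indicator hSm
  have hE : ∫⁻ σ in S, φ (dot σ η) ∂(surf d) = ∫⁻ σ, F σ ∂(surf d) := by
    rw [hF, lintegral_indicator hSm]
  rw [hE]
  have hball := ball_formula hd1 hFm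
  -- the cone
  have s1 : ∫⁻ z in {z : Vec d | len (z - y₀) ≤ 2 * K}, φ (T z) ≤
      ∫⁻ z in {z : Vec d | nsq z < 1}, F ((len z)⁻¹ • z) := by
    have hsub : {z : Vec d | len (z - y₀) ≤ 2 * K} ⊆ {z : Vec d | nsq z < 1} := by
      intro z hz
      obtain ⟨a1, a2, _⟩ := pj_dir h0 (r := 2 * K) (by linarith) hz
      change nsq z < 1
      rw [← len_sq]
      nlinarith
    refine le_trans (le_of_eq ?_) (lintegral_mono_set hsub)
    refine setLIntegral_congr_fun (pj_meas_ball y₀ _) fun z hz => ?_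
    obtain ⟨a1, a2, a3⟩ := pj_dir h0 (r := 2 * K) (by linarith) hz
    have hm : (len z)⁻¹ • z ∈ S := by
      change len ((len z)⁻¹ • z - σ₀) ≤ κ
      linarith
    simp only [hF, hT]
    rw [indicator_of_mem hm, smul_dot, inv_mul_eq_div]
  -- translation
  have s2 : ∀ τ ∈ Icc (-K) K, ∫⁻ z in {z : Vec d | len (z - y₀) ≤ r}, φ (T (z + τ • e)) ≤
      ∫⁻ z in {z : Vec d | len (z - y₀) ≤ 2 * K}, φ (T z) := by
    intro τ hτ
    rw [← lintegral_indicator (pj_meas_ball y₀ r), ← lintegral_indicator (pj_meas_ball y₀ (2 * K)),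
      ← lintegral_add_right_eq_self ({z : Vec d | len (z - y₀) ≤ 2 * K}.indicator fun z => φ (T z))
        (τ • e)]
    refine lintegral_mono fun z => ?_
    by_cases hz : len (z - y₀) ≤ r
    · have hz' : len (z + τ • e - y₀) ≤ 2 * K := by
        have e1 : z + τ • e - y₀ = (z - y₀) + τ • e := by abel
        rw [e1]
        refine (pj_tri _ _).trans ?_
        have e2 : len (τ • e) = |τ| := by
          unfold len
          rw [nsq_smul, he, mul_one, Real.sqrt_sq_eq_abs]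
        rw [e2]
        have := abs_le.2 hτ
        linarith
      rw [indicator_of_mem (by exact hz), indicator_of_mem (by exact hz')]
    · rw [indicator_of_notMem (by exact hz)]
      exact bot_le
  have mτ : Measurable fun p : ℝ × Vec d => φ (T (p.2 + p.1 • e)) := by
    refine hφ.comp (hTm.comp ?_)
    have : Continuous fun p : ℝ × Vec d => p.2 + p.1 • e := by fun_prop
    exact this.measurable
  -- integrate over the translations
  have s3 : ∫⁻ z in {z : Vec d | len (z - y₀) ≤ r}, ∫⁻ τ in Icc (-K) K, φ (T (z + τ • e)) ≤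
      ENNReal.ofReal (2 * K) * ∫⁻ z in {z : Vec d | len (z - y₀) ≤ 2 * K}, φ (T z) := by
    rw [lintegral_lintegral_swap (by
      have : Measurable fun p : Vec d × ℝ => φ (T (p.1 + p.2 • e)) := mτ.comp measurable_swap
      exact this.aemeasurable)]
    calc ∫⁻ τ in Icc (-K) K, ∫⁻ z in {z : Vec d | len (z - y₀) ≤ r}, φ (T (z + τ • e))
        ≤ ∫⁻ τ in Icc (-K) K, ∫⁻ z in {z : Vec d | len (z - y₀) ≤ 2 * K}, φ (T z) :=
          setLIntegral_mono' measurableSet_Icc fun τ hτ => s2 τ hτ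
      _ = _ := by
          rw [lintegral_const, Measure.restrict_apply MeasurableSet.univ, univ_inter,
            Real.volume_Icc, mul_comm]
          congr 2
          ring
  have s4 : I * V ≤ 8 * ∫⁻ z in {z : Vec d | len (z - y₀) ≤ r},
      ∫⁻ τ in Icc (-K) K, φ (T (z + τ • e)) := by
    calc I * V = ∫⁻ z in {z : Vec d | len (z - y₀) ≤ r}, I := by
          rw [lintegral_const, Measure.restrict_apply MeasurableSet.univ, univ_inter, pj_vol]
      _ ≤ ∫⁻ z in {z : Vec d | len (z - y₀) ≤ r}, 8 * ∫⁻ τ in Icc (-K) K, φ (T (z + τ • e)) := by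
          refine setLIntegral_mono' (pj_meas_ball y₀ r) fun z hz => ?_
          refine pj_fiber h0 h1 he heσ hq0 hq hp hK0 hK1 hK2 hrK hr0.le hz ?_ φ
          rw [hr]
          nlinarith
      _ = _ := lintegral_const_mul' 8 _ (by simp)
  have s5 : I * V ≤ 8 * (ENNReal.ofReal (2 * K) * ENNReal.ofReal (1 / d)) *
      ∫⁻ σ, F σ ∂(surf d) := by
    calc I * V ≤ 8 * (ENNReal.ofReal (2 * K) *
          ∫⁻ z in {z : Vec d | len (z - y₀) ≤ 2 * K}, φ (T z)) := s4.trans (by gcongr)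
      _ ≤ 8 * (ENNReal.ofReal (2 * K) * (ENNReal.ofReal (1 / d) * ∫⁻ σ, F σ ∂(surf d))) := by
          rw [← hball]
          gcongr
      _ = _ := by ring
  calc I = V⁻¹ * (I * V) := by
        rw [mul_comm I V, ← mul_assoc, ENNReal.inv_mul_cancel hV0 hVt, one_mul]
    _ ≤ V⁻¹ * (8 * (ENNReal.ofReal (2 * K) * ENNReal.ofReal (1 / d)) * ∫⁻ σ, F σ ∂(surf d)) := by
        gcongr
    _ = A' * ∫⁻ σ, F σ ∂(surf d) := by rw [hA']; ring

end Pool.Agent.H15.AV
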