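import Pool.Agent.H15.AVB.BDef

/-!
# The geometry of two collisions

MODULE TwoG. Notation `Y = a - z₁`, `X = a - z₀`, `n = Y/|Y|`, `η₀ = X/|X|`, `t₀ = n·η₀`; `ρ ≤ |Y| ≤ |X| ≤ R`,
`|X - Y| ≤ ρ/4 ≤ |Y|/4`, so `t₀ > 0`, `1 - t₀² ≤ 1/16` (`|Y|² - (Y·η₀)² ≤ |Y - X|²`), and
`1 - t₀² ≥ c₁ = κ/R⁴`. For `η` near `η₀`, `t = n·η`, and `σ` near `refl η n = 2tη - n`: `cosTh a z₁ σ = n·σ` is
near `2t₀²-1 ∈ [7/8, 1-2c₁]`; `v₁ = post a z₁ σ = a + (|Y|/2)(σ-n)`, `V = v₁ - z₀` is near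
`V₀ = X + |Y|(t₀η₀ - n)`, `V₀·η₀ = |X|`, `|V₀|² = |X|² + |Y|²(1-t₀²)`, so `(e·η)²`, `e = V/|V|`, is near
`|X|²/|V₀|² ∈ [16/17, 1/(1+ρ²c₁/R²)]`. All errors are Lipschitz in `len (η - η₀)`, `len (σ - refl η n)`.
-/

set_option autoImplicit false

open MeasureTheory Set Filter Topology Pool.Agent.H25.Kin

namespace Pool.Agent.H15.AV

variable {d : ℕ}

private lemma tg_sq {a b : ℝ} (h : a ^ 2 ≤ b ^ 2) (hb : 0 ≤ b) : a ≤ b :=
  le_of_abs_le (abs_le_of_sq_le_sq h hb)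

private lemma tg_cs (u v : Vec d) : |dot u v| ≤ len u * len v := by
  have h := dot_sq_le u v
  rw [← len_sq, ← len_sq, ← mul_pow] at h
  exact abs_le_of_sq_le_sq h (mul_nonneg (len_nonneg _) (len_nonneg _))

private lemma tg_tri (u v : Vec d) : len (u + v) ≤ len u + len v := by
  have h := tg_cs u v
  have h1 := le_abs_self (dot u v)
  have h2 : len (u + v) ^ 2 ≤ (len u + len v) ^ 2 := by
    rw [len_sq, nsq_add, ← len_sq, ← len_sq]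
    nlinarith
  exact tg_sq h2 (add_nonneg (len_nonneg _) (len_nonneg _))

private lemma tg_len_one {u : Vec d} (h : nsq u = 1) : len u = 1 := by
  unfold len; rw [h, Real.sqrt_one]

private lemma tg_num {x R ρ c q s L₀ w D N : ℝ} (hρ : 0 < ρ) (hx : ρ ≤ x) (hxR : x ≤ R)
    (hq : 0 < q) (hqs : q ≤ 1 / 1600) (hRq : R ^ 2 * q = ρ ^ 2 * c / 100)
    (hs1 : ρ ^ 2 * c ≤ s) (hs2 : s ≤ x ^ 2 / 16) (_ : 0 ≤ L₀) (hw0 : 0 ≤ w)
    (hL : L₀ ^ 2 = x ^ 2 + s) (hw : w ≤ 5 / 2 * R * q) (hD : |D| ≤ L₀ * w)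
    (hN : N = L₀ ^ 2 + 2 * D + w ^ 2) :
    x ^ 2 + 94 / 100 * (ρ ^ 2 * c) ≤ N ∧ N ≤ 17 / 16 * x ^ 2 + 6 / 100 * (ρ ^ 2 * c) := by
  have hx0 : 0 < x := by linarith
  have hR0 : 0 < R := by linarith
  have hL1 : L₀ ≤ 17 / 16 * x := by
    have h1 : L₀ ^ 2 ≤ (17 / 16 * x) ^ 2 := by rw [hL]; nlinarith
    exact tg_sq h1 (by positivity)
  have hA : L₀ * w ≤ 17 / 16 * (5 / 2) * (R ^ 2 * q) := by
    calc L₀ * w ≤ (17 / 16 * x) * (5 / 2 * R * q) := by gcongr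
      _ ≤ (17 / 16 * R) * (5 / 2 * R * q) := by gcongr
      _ = 17 / 16 * (5 / 2) * (R ^ 2 * q) := by ring
  have hB : w ^ 2 ≤ 25 / 4 * (R ^ 2 * q) * (1 / 1600) := by
    calc w ^ 2 ≤ (5 / 2 * R * q) ^ 2 := by gcongr
      _ = 25 / 4 * (R ^ 2 * q) * q := by ring
      _ ≤ 25 / 4 * (R ^ 2 * q) * (1 / 1600) := by gcongr
  have hB0 : 0 ≤ w ^ 2 := sq_nonneg w
  have hD' := abs_le.1 (hD.trans hA)
  rw [hRq] at hD' hB
  constructor
  · rw [hN, hL]; linarith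
  · rw [hN, hL]; linarith

private lemma tg_num2 {x R ρ c q m N P : ℝ} (hρ : 0 < ρ) (hx : ρ ≤ x) (hxR : x ≤ R) (hc : 0 < c)
    (hc1 : c ≤ 1 / 16) (hq : 0 < q) (hqs : q ≤ 1 / 1600) (hRq : R ^ 2 * q = ρ ^ 2 * c / 100)
    (hm : m = 100 * q) (hlo : x ^ 2 + 94 / 100 * (ρ ^ 2 * c) ≤ N)
    (hup : N ≤ 17 / 16 * x ^ 2 + 6 / 100 * (ρ ^ 2 * c)) (hP : |P - x| ≤ 36 / 10 * R * q) :
    0 < P ∧ P ^ 2 ≤ (1 - m / 2) * N ∧ N ≤ 2 * P ^ 2 := by
  have hx0 : 0 < x := by linarith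
  have hR0 : 0 < R := by linarith
  have hP' := abs_le.1 hP
  have hxx : ρ ^ 2 ≤ x ^ 2 := by gcongr
  have hρc : ρ ^ 2 * c ≤ x ^ 2 * (1 / 16) := by gcongr
  have hxR2 : x ^ 2 ≤ R ^ 2 := by gcongr
  have hRqx : R * q ≤ x / 1600 := by
    have h1 : R * (R * q) ≤ R * (x / 1600) := by
      have h2 : R * (R * q) = ρ ^ 2 * c / 100 := by rw [← hRq]; ring
      have h3 : x ^ 2 ≤ R * x := by nlinarith
      rw [h2]
      linarith
    exact le_of_mul_le_mul_left h1 hR0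
  have hRq0 : 0 < R * q := by positivity
  refine ⟨by linarith, ?_, ?_⟩
  · have h1 : P ^ 2 ≤ (x + 36 / 10 * (R * q)) ^ 2 := by
      have h0 : 0 ≤ P := by linarith
      have : P ≤ x + 36 / 10 * (R * q) := by linarith
      gcongr
    have h2 : x * (R * q) ≤ ρ ^ 2 * c / 100 := by
      rw [← hRq]
      calc x * (R * q) ≤ R * (R * q) := by gcongr
        _ = R ^ 2 * q := by ring
    have h3 : m * N ≤ 11 / 10 * (ρ ^ 2 * c) := by
      have hR2 : 0 < R ^ 2 := by positivity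
      have h4 : N ≤ 11 / 10 * R ^ 2 := by linarith
      have hm0 : 0 ≤ m := by rw [hm]; positivity
      calc m * N ≤ m * (11 / 10 * R ^ 2) := by gcongr
        _ = 110 * (R ^ 2 * q) := by rw [hm]; ring
        _ = 11 / 10 * (ρ ^ 2 * c) := by rw [hRq]; ring
    have h5 : (R * q) ^ 2 ≤ ρ ^ 2 * c / 100 * (1 / 1600) := by
      rw [← hRq]
      calc (R * q) ^ 2 = R ^ 2 * q * q := by ring
        _ ≤ R ^ 2 * q * (1 / 1600) := by gcongr
    have h6 : (x + 36 / 10 * (R * q)) ^ 2 =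
        x ^ 2 + 72 / 10 * (x * (R * q)) + (36 / 10) ^ 2 * (R * q) ^ 2 := by ring
    have h7 : 0 < ρ ^ 2 * c := by positivity
    rw [h6] at h1
    linarith
  · have h1 : (x * (99 / 100)) ^ 2 ≤ P ^ 2 := by
      have : x * (99 / 100) ≤ P := by linarith
      gcongr
    have h2 : (x * (99 / 100)) ^ 2 = x ^ 2 * (9801 / 10000) := by ring
    have h3 : 0 < x ^ 2 := by positivity
    rw [h2] at h1
    linarith

theorem two_geom {ρ κ R : ℝ} (hρ : 0 < ρ) (hκ : 0 < κ) :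
    ∃ κ₁ κ₂ c ε₁ ρ₁ R₂ : ℝ, 0 < κ₁ ∧ 0 < κ₂ ∧ 0 < c ∧ 0 < ε₁ ∧ 0 < ρ₁ ∧
    ∀ a z₁ z₀ : Vec d, PairG ρ κ R a z₁ z₀ → ∀ η : Vec d, nsq η = 1 →
      len (η - dirk a z₀) ≤ κ₁ →
        dot (dirk a z₁) η ^ 2 ≤ 1 - c ∧
        ∀ σ : Vec d, nsq σ = 1 → len (σ - refl η (dirk a z₁)) ≤ κ₂ →
          Tr ε₁ ρ₁ R₂ a z₁ σ ∧ ρ₁ ≤ len (post a z₁ σ - z₀) ∧ len (post a z₁ σ - z₀) ≤ R₂ ∧
          0 < dot (dirk (post a z₁ σ) z₀) η ∧ 1 / 2 ≤ dot (dirk (post a z₁ σ) z₀) η ^ 2 ∧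
          dot (dirk (post a z₁ σ) z₀) η ^ 2 ≤ 1 - ε₁ / 2 := by
  by_cases hR0 : ρ ≤ R
  swap
  · refine ⟨1, 1, 1, 1, 1, 1, one_pos, one_pos, one_pos, one_pos, one_pos, ?_⟩
    rintro a z₁ z₀ ⟨h1, h2, h3, -, -⟩
    exact absurd (h1.trans (h2.trans h3)) hR0
  have hR : 0 < R := hρ.trans_le hR0
  obtain ⟨c₁, hc₁⟩ : ∃ c₁ : ℝ, c₁ = κ / R ^ 4 := ⟨_, rfl⟩
  have hc : 0 < c₁ := by rw [hc₁]; positivity
  obtain ⟨m, hm⟩ : ∃ m : ℝ, m = ρ ^ 2 * c₁ / R ^ 2 := ⟨_, rfl⟩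
  have hm0 : 0 < m := by rw [hm]; positivity
  have hmR : m * R ^ 2 = ρ ^ 2 * c₁ := by rw [hm]; field_simp
  have hmc : m ≤ c₁ := by
    have h1 : ρ ^ 2 ≤ R ^ 2 := by gcongr
    have h2 : m * R ^ 2 ≤ c₁ * R ^ 2 := by rw [hmR]; nlinarith
    exact le_of_mul_le_mul_right h2 (by positivity)
  refine ⟨m / 100, m / 100, c₁ / 2, m, ρ, 2 * R, by positivity, by positivity, by positivity, hm0, hρ, ?_⟩
  rintro a z₁ z₀ ⟨hy, hyx, hx, hxy, hk⟩ η hη hηd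
  have ha1 : a ≠ z₁ := by
    rintro rfl
    rw [sub_self, len_zero] at hy
    linarith
  have ha0 : a ≠ z₀ := by
    rintro rfl
    rw [sub_self, len_zero] at hyx
    linarith
  obtain ⟨n, hn⟩ : ∃ n, n = dirk a z₁ := ⟨_, rfl⟩
  obtain ⟨e, he⟩ : ∃ e, e = dirk a z₀ := ⟨_, rfl⟩
  have hn1 : nsq n = 1 := by rw [hn]; exact nsq_dirk ha1
  have he1 : nsq e = 1 := by rw [he]; exact nsq_dirk ha0
  obtain ⟨y, hyd⟩ : ∃ y, y = len (a - z₁) := ⟨_, rfl⟩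
  obtain ⟨x, hxd⟩ : ∃ x, x = len (a - z₀) := ⟨_, rfl⟩
  have hY : a - z₁ = y • n := by rw [hyd, hn, len_smul_dirk]
  have hX : a - z₀ = x • e := by rw [hxd, he, len_smul_dirk]
  rw [← hyd] at hy hyx
  rw [← hxd] at hyx hx
  rw [← he] at hηd
  rw [← hn]
  have hx0 : 0 < x := by linarith
  have hy0 : 0 < y := by linarith
  obtain ⟨t₀, ht₀⟩ : ∃ t₀, t₀ = dot n e := ⟨_, rfl⟩
  obtain ⟨t, ht⟩ : ∃ t, t = dot n η := ⟨_, rfl⟩
  -- lower bound for `1 - t₀²`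
  have hlow : c₁ ≤ 1 - t₀ ^ 2 := by
    rw [hY, hX, nsq_smul, nsq_smul, hn1, he1, smul_dot, dot_smul, ← ht₀] at hk
    have h1 : κ ≤ (x * y) ^ 2 * (1 - t₀ ^ 2) := by nlinarith
    have h2 : (x * y) ^ 2 ≤ R ^ 4 := by
      have h3 : x * y ≤ R * R := mul_le_mul hx (hyx.trans hx) hy0.le hR.le
      have h4 : 0 ≤ x * y := by positivity
      nlinarith
    have h5 : 0 ≤ 1 - t₀ ^ 2 := by
      by_contra h
      push Not at h
      have : 0 < (x * y) ^ 2 := by positivity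
      nlinarith
    rw [hc₁, div_le_iff₀ (by positivity)]
    nlinarith
  -- upper bound for `1 - t₀²` and `t₀ > 0`
  have hXY : nsq (x • e - y • n) ≤ (ρ / 4) ^ 2 := by
    have h1 : x • e - y • n = -(z₀ - z₁) := by rw [← hX, ← hY]; abel
    rw [h1, ← len_sq, len_neg]
    have := len_nonneg (z₀ - z₁)
    gcongr
  have hXY2 : nsq (x • e - y • n) = x ^ 2 - 2 * (x * y * t₀) + y ^ 2 := by
    rw [nsq_sub, nsq_smul, nsq_smul, he1, hn1, smul_dot, dot_smul, dot_comm e n, ← ht₀]; ring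
  rw [hXY2] at hXY
  have hup : 1 - t₀ ^ 2 ≤ 1 / 16 := by
    have h1 : y ^ 2 * (1 - t₀ ^ 2) ≤ (ρ / 4) ^ 2 := by nlinarith [sq_nonneg (x - y * t₀)]
    have h2 : (ρ / 4) ^ 2 ≤ y ^ 2 * (1 / 16) := by nlinarith
    exact le_of_mul_le_mul_left (h1.trans h2) (by positivity)
  have ht₀p : 0 < t₀ := by
    by_contra h
    push Not at h
    have : x * y * t₀ ≤ 0 := mul_nonpos_of_nonneg_of_nonpos (by positivity) h
    nlinarith
  have hc16 : c₁ ≤ 1 / 16 := hlow.trans hup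
  obtain ⟨q, hq⟩ : ∃ q, q = m / 100 := ⟨_, rfl⟩
  rw [← hq]
  rw [← hq] at hηd
  have hq0 : 0 < q := by rw [hq]; positivity
  have hqm : m = 100 * q := by rw [hq]; ring
  have hqs : q ≤ 1 / 1600 := by rw [hq]; linarith
  -- `t` near `t₀`
  have htt : |t - t₀| ≤ q := by
    rw [ht, ht₀, ← dot_sub]
    refine (tg_cs _ _).trans ?_
    rw [tg_len_one hn1, one_mul]
    exact hηd
  have ht1 : |t| ≤ 1 := by rw [ht]; exact dot_le_one hn1 hη
  have ht01 : |t₀| ≤ 1 := by rw [ht₀]; exact dot_le_one hn1 he1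
  have htsq : |t ^ 2 - t₀ ^ 2| ≤ 2 * q := by
    have h1 : t ^ 2 - t₀ ^ 2 = (t - t₀) * (t + t₀) := by ring
    rw [h1, abs_mul]
    have h2 : |t + t₀| ≤ 2 := (abs_add_le _ _).trans (by linarith)
    calc |t - t₀| * |t + t₀| ≤ q * 2 := mul_le_mul htt h2 (abs_nonneg _) hq0.le
      _ = 2 * q := by ring
  have htsq' := abs_le.1 htsq
  refine ⟨by rw [← ht]; linarith, ?_⟩
  intro σ hσ hσd
  -- the cosine
  obtain ⟨τ, hτ⟩ : ∃ τ, τ = σ - refl η n := ⟨_, rfl⟩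
  rw [← hτ] at hσd
  have hσe : σ = (2 * t) • η - n + τ := by
    rw [hτ, refl_apply, dot_comm η n, ← ht]; abel
  have hcos : cosTh a z₁ σ = 2 * t ^ 2 - 1 + dot n τ := by
    rw [cosTh_eq, ← hn, hσe, dot_add, dot_sub, dot_smul, ← ht, dot_self, hn1]; ring
  have hnτ : |dot n τ| ≤ q := by
    refine (tg_cs _ _).trans ?_
    rw [tg_len_one hn1, one_mul]
    exact hσd
  have hnτ' := abs_le.1 hnτ
  -- the vector `V`
  obtain ⟨W, hW⟩ : ∃ W, W = (y / 2) • (σ - ((2 * t₀) • e - n)) := ⟨_, rfl⟩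
  obtain ⟨V₀, hV₀⟩ : ∃ V₀, V₀ = x • e + y • (t₀ • e - n) := ⟨_, rfl⟩
  obtain ⟨V, hV⟩ : ∃ V, V = post a z₁ σ - z₀ := ⟨_, rfl⟩
  have hVW : V = V₀ + W := by
    rw [hV, post_eq, ← hyd, ← hn, hV₀, hW, ← hX]
    ext i
    simp only [Pi.sub_apply, Pi.add_apply, Pi.smul_apply, smul_eq_mul]
    ring
  have hWl : len W ≤ 5 / 2 * R * q := by
    rw [hW, len_smul (by positivity)]
    have h1 : σ - ((2 * t₀) • e - n) = τ + ((2 * t) • (η - e) + (2 * (t - t₀)) • e) := by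
      rw [hσe]
      ext i
      simp only [Pi.sub_apply, Pi.add_apply, Pi.smul_apply, smul_eq_mul]
      ring
    have h2 : len ((2 * t) • (η - e)) ≤ 2 * q := by
      have h3 : len ((2 * t) • (η - e)) ^ 2 ≤ (2 * q) ^ 2 := by
        rw [len_sq, nsq_smul, ← len_sq]
        have h4 : t ^ 2 ≤ 1 := by rw [← sq_abs]; nlinarith [abs_nonneg t]
        have h5 : len (η - e) ^ 2 ≤ q ^ 2 := by
          have := len_nonneg (η - e)
          gcongr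
        nlinarith [sq_nonneg (len (η - e)), sq_nonneg q]
      exact tg_sq h3 (by positivity)
    have h2' : len ((2 * (t - t₀)) • e) ≤ 2 * q := by
      have h3 : len ((2 * (t - t₀)) • e) ^ 2 ≤ (2 * q) ^ 2 := by
        rw [len_sq, nsq_smul, he1]
        have h4 : (t - t₀) ^ 2 ≤ q ^ 2 := by
          rw [← sq_abs]; have := abs_nonneg (t - t₀); gcongr
        nlinarith
      exact tg_sq h3 (by positivity)
    have h6 : len (σ - ((2 * t₀) • e - n)) ≤ 5 * q := by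
      rw [h1]
      have h7 := tg_tri τ ((2 * t) • (η - e) + (2 * (t - t₀)) • e)
      have h8 := tg_tri ((2 * t) • (η - e)) ((2 * (t - t₀)) • e)
      linarith
    calc y / 2 * len (σ - ((2 * t₀) • e - n)) ≤ R / 2 * (5 * q) := by
          have := len_nonneg (σ - ((2 * t₀) • e - n))
          gcongr
          linarith
      _ = 5 / 2 * R * q := by ring
  have hV₀n : nsq V₀ = x ^ 2 + y ^ 2 * (1 - t₀ ^ 2) := by
    rw [hV₀, nsq_add, nsq_smul, nsq_smul, nsq_sub, nsq_smul, he1, hn1, smul_dot, dot_smul, dot_sub,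
      dot_smul, dot_self, he1, smul_dot, dot_comm e n, ← ht₀]
    ring
  have hV₀e : dot V₀ e = x := by
    rw [dot_comm, hV₀, dot_add, dot_smul, dot_smul, dot_sub, dot_smul, dot_self, he1, dot_comm e n,
      ← ht₀]
    ring
  -- scalar estimates
  have hRq : R ^ 2 * q = ρ ^ 2 * c₁ / 100 := by rw [hq, ← hmR]; ring
  have hyt1 : ρ ^ 2 * c₁ ≤ y ^ 2 * (1 - t₀ ^ 2) := by gcongr
  have hyt2 : y ^ 2 * (1 - t₀ ^ 2) ≤ x ^ 2 / 16 := by
    have h1 : y ^ 2 ≤ x ^ 2 := by gcongr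
    nlinarith
  have hρx : ρ ^ 2 ≤ x ^ 2 := by gcongr; linarith
  have hρc : ρ ^ 2 * c₁ ≤ x ^ 2 / 16 := hyt1.trans hyt2
  have hVn : nsq V = len V₀ ^ 2 + 2 * dot V₀ W + len W ^ 2 := by
    rw [hVW, nsq_add, len_sq, len_sq]
  obtain ⟨hLlo, hLup⟩ := tg_num (x := x) (R := R) (ρ := ρ) (c := c₁) (q := q)
    (s := y ^ 2 * (1 - t₀ ^ 2)) hρ (by linarith) hx hq0 hqs hRq hyt1 hyt2 (len_nonneg V₀)
    (len_nonneg W) (by rw [len_sq, hV₀n]) hWl (tg_cs V₀ W) hVn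
  have hVl0 := len_nonneg V
  have hVup : len V ≤ 11 / 10 * x := by
    have h1 : len V ^ 2 ≤ (11 / 10 * x) ^ 2 := by
      have h2 : (11 / 10 * x) ^ 2 = 121 / 100 * x ^ 2 := by ring
      have h3 : 0 < x ^ 2 := by positivity
      rw [len_sq, h2]; linarith
    exact tg_sq h1 (by positivity)
  have hVlo : x ≤ len V := by
    have h1 : x ^ 2 ≤ len V ^ 2 := by
      rw [len_sq]
      have : 0 < ρ ^ 2 * c₁ := by positivity
      linarith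
    exact tg_sq h1 hVl0
  have hVη : |dot V η - x| ≤ 36 / 10 * R * q := by
    have h1 : dot V η - x = dot W e + dot V (η - e) := by
      rw [dot_sub, ← hV₀e, hVW, dot_comm (V₀ + W) e, dot_add, dot_comm e V₀, dot_comm e W]
      ring
    rw [h1]
    refine (abs_add_le _ _).trans ?_
    have h2 := tg_cs W e
    have h3 := tg_cs V (η - e)
    rw [tg_len_one he1, mul_one] at h2
    have h4 : len V * len (η - e) ≤ 11 / 10 * R * q := by
      have := len_nonneg (η - e)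
      calc len V * len (η - e) ≤ (11 / 10 * x) * q := by gcongr
        _ ≤ 11 / 10 * R * q := by gcongr
    linarith
  have hVη' := abs_le.1 hVη
  obtain ⟨hVηp, hsq1, hsq2⟩ := tg_num2 hρ (by linarith) hx hc hc16 hq0 hqs hRq hqm hLlo hLup hVη
  have hVne : post a z₁ σ ≠ z₀ := by
    intro h
    rw [h, sub_self] at hV
    rw [hV, len_zero] at hVlo
    linarith
  have hVpos : 0 < len V := by linarith
  have hdir : dot (dirk (post a z₁ σ) z₀) η = (len V)⁻¹ * dot V η := by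
    unfold dirk
    rw [smul_dot, ← hV]
  refine ⟨⟨?_, ?_, ?_, ?_⟩, ?_, ?_, ?_, ?_, ?_⟩
  · rw [← hyd]; exact hy
  · rw [← hyd]; linarith
  · rw [hcos]; linarith
  · rw [hcos]; linarith
  · rw [← hV]; linarith
  · rw [← hV]; linarith
  · rw [hdir]; positivity
  · rw [hdir, mul_pow, inv_pow, len_sq, ← div_eq_inv_mul, le_div_iff₀ (by rw [← len_sq]; positivity)]
    linarith
  · rw [hdir, mul_pow, inv_pow, len_sq, ← div_eq_inv_mul, div_le_iff₀ (by rw [← len_sq]; positivity)]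
    exact hsq1

end Pool.Agent.H15.AV
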