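import Pool.Agent.H15.AVB.Proj
import Pool.Agent.H15.AVB.HAg
import Pool.Agent.H15.AVB.TwoG

/-!
# Two collisions reach a neighborhood

MODULE Two. For fixed `σ₁`, `v₁ = post a z₁ σ₁`, bound the inner integral below by `post_polar_ge` with
`v = v₁`, `w = z₀`; exchange the integrals; for `len (η - dirk a z₀) ≤ κ₁` restrict `σ₁` to the cap
`len (σ₁ - refl η n) ≤ κ₂`, `n = dirk a z₁` (`two_geom`: all conditions hold there). Since
`v₁ - z₀ = (a - z₀) + (B)(σ₁ - n)`, `B = len (a - z₁)/2`, `dot (v₁ - z₀) η = A + B dot σ₁ η`, and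
`proj_cap` (`σ₀ := refl η n`, `dot σ₀ η = dot n η`) gives a lower bound by
`∫_{|τ - n·η| ≤ j} F(z₀ + (A + Bτ) η) dτ`; substitute `r = A + Bτ`, `r - (a-z₀)·η = B (τ - n·η)`. Polar
coordinates around `z₀` (`polar`, `rad d`): every `b` with `len (b - a) ≤ r₀` is `z₀ + r η` with
`len (η - dirk a z₀) ≤ 2 r₀/ρ ≤ κ₁` and `|r - (a-z₀)·η| = |(b-a)·η| ≤ r₀ ≤ (ρ/2) j`; `r ≤ R + r₀` bounds
the weight `r^(d-1)`.
-/

set_option autoImplicit false

open MeasureTheory Set Filter Topology Pool.Agent.H25.Kin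
open scoped ENNReal

namespace Pool.Agent.H15.AV

variable {d : ℕ}

private lemma two_abs_dot (u v : Vec d) : |dot u v| ≤ len u * len v := by
  have h := dot_sq_le u v
  rw [← len_sq u, ← len_sq v, ← mul_pow] at h
  exact abs_le_of_sq_le_sq h (mul_nonneg (len_nonneg u) (len_nonneg v))

private lemma two_len_add (u v : Vec d) : len (u + v) ≤ len u + len v := by
  have h := two_abs_dot u v
  have h1 : len (u + v) ^ 2 ≤ (len u + len v) ^ 2 := by
    rw [len_sq, nsq_add, ← len_sq u, ← len_sq v]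
    nlinarith [le_abs_self (dot u v)]
  exact (pow_le_pow_iff_left₀ (len_nonneg _) (add_nonneg (len_nonneg _) (len_nonneg _))
    two_ne_zero).1 h1

private lemma two_len_smul (c : ℝ) {η : Vec d} (hη : nsq η = 1) : len (c • η) = |c| := by
  unfold len
  rw [nsq_smul, hη, mul_one, Real.sqrt_sq_eq_abs]

private lemma two_geo {X η : Vec d} {ρ κ₁ R r s : ℝ} (hρ : 0 < ρ) (h1 : ρ ≤ len X)
    (h2 : len X ≤ R) (hη : nsq η = 1) (hs : 0 < s) (hb : len (s • η - X) ≤ r)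
    (hr1 : 2 * r ≤ ρ * κ₁) :
    len (η - (len X)⁻¹ • X) ≤ κ₁ ∧ |s - dot X η| ≤ r ∧ s ≤ R + r := by
  have hη1 : len η = 1 := by unfold len; rw [hη, Real.sqrt_one]
  have hsη : len (s • η) = s := by rw [two_len_smul s hη, abs_of_pos hs]
  have a1 : s ≤ r + len X := by
    have := two_len_add (s • η - X) X
    rw [sub_add_cancel, hsη] at this
    linarith
  have a2 : len X ≤ s + r := by
    have := two_len_add (s • η) (X - s • η)
    rw [add_sub_cancel, hsη, len_comm X] at this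
    linarith
  refine ⟨?_, ?_, by linarith⟩
  · have hX : 0 < len X := lt_of_lt_of_le hρ h1
    have e1 : len X • (η - (len X)⁻¹ • X) = (s • η - X) + (len X - s) • η := by
      rw [smul_sub, smul_inv_smul₀ hX.ne', sub_smul]
      abel
    have e2 : len X * len (η - (len X)⁻¹ • X) ≤ 2 * r := by
      rw [← len_smul hX.le, e1]
      refine (two_len_add _ _).trans ?_
      rw [two_len_smul _ hη]
      have : |len X - s| ≤ r := by
        rw [abs_le]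
        constructor <;> linarith
      linarith
    have e3 : ρ * len (η - (len X)⁻¹ • X) ≤ ρ * κ₁ :=
      (mul_le_mul_of_nonneg_right h1 (len_nonneg _)).trans (e2.trans hr1)
    exact le_of_mul_le_mul_left e3 hρ
  · have e1 : s - dot X η = dot η (s • η - X) := by
      rw [dot_sub, dot_smul, dot_self, hη, dot_comm X]
      ring
    rw [e1]
    refine (two_abs_dot _ _).trans ?_
    rw [hη1, one_mul]
    exact hb

private lemma two_rad {G : ℝ → ℝ≥0∞} (hG : Measurable G) :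
    ∫⁻ ρ, G ρ.1 ∂(rad d) = ∫⁻ s in Ioi (0 : ℝ), ENNReal.ofReal (s ^ (d - 1)) * G s := by
  have h1 : Measurable fun r : Ioi (0 : ℝ) => ENNReal.ofReal (r.1 ^ (d - 1)) :=
    (measurable_subtype_coe.pow_const _).ennreal_ofReal
  have h2 : Measurable fun r : Ioi (0 : ℝ) => G r.1 := hG.comp measurable_subtype_coe
  unfold rad Measure.volumeIoiPow
  rw [lintegral_withDensity_eq_lintegral_mul _ h1 h2]
  exact lintegral_subtype_comap measurableSet_Ioi
    (fun s : ℝ => ENNReal.ofReal (s ^ (d - 1)) * G s)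

private lemma two_subst {A' B j t : ℝ} (hB : 0 < B) (Φ : ℝ → ℝ≥0∞) :
    ∫⁻ s in Icc (A' - B * j) (A' + B * j), Φ s =
      ENNReal.ofReal B * ∫⁻ τ in Icc (t - j) (t + j), Φ (A' + B * (τ - t)) := by
  have himg : (fun τ : ℝ => A' + B * (τ - t)) '' Icc (t - j) (t + j) =
      Icc (A' - B * j) (A' + B * j) := by
    ext s
    simp only [mem_image, mem_Icc]
    constructor
    · rintro ⟨τ, ⟨h1, h2⟩, rfl⟩
      constructor <;> nlinarith
    · rintro ⟨h1, h2⟩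
      refine ⟨t + (s - A') / B, ⟨?_, ?_⟩, ?_⟩
      · have : -j ≤ (s - A') / B := by rw [le_div_iff₀ hB]; linarith
        linarith
      · have : (s - A') / B ≤ j := by rw [div_le_iff₀ hB]; linarith
        linarith
      · field_simp
        ring
  have hder : ∀ τ ∈ Icc (t - j) (t + j), HasDerivWithinAt (fun τ : ℝ => A' + B * (τ - t))
      ((fun _ : ℝ => B) τ) (Icc (t - j) (t + j)) τ := by
    intro τ _
    have h := (((hasDerivAt_id τ).sub_const t).const_mul B).const_add A'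
    have h' : HasDerivAt (fun τ : ℝ => A' + B * (τ - t)) (B * 1) τ := h
    rw [mul_one] at h'
    exact h'.hasDerivWithinAt
  have hinj : InjOn (fun τ : ℝ => A' + B * (τ - t)) (Icc (t - j) (t + j)) := by
    intro x _ y _ hxy
    have h : A' + B * (x - t) = A' + B * (y - t) := hxy
    have h' : B * (x - t) = B * (y - t) := by linarith
    have := mul_left_cancel₀ hB.ne' h'
    linarith
  rw [← himg, lintegral_image_eq_lintegral_abs_deriv_mul measurableSet_Icc hder hinj Φ,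
    ← lintegral_const_mul' _ _ ENNReal.ofReal_ne_top]
  simp only [abs_of_pos hB]

private lemma two_polar (hd : 1 ≤ d) {a z₀ : Vec d} {ρ κ₁ R r : ℝ} (hρ : 0 < ρ)
    (h1 : ρ ≤ len (a - z₀)) (h2 : len (a - z₀) ≤ R) (hr1 : 2 * r ≤ ρ * κ₁)
    {F : Vec d → ℝ≥0∞} (hF : Measurable F) :
    ∫⁻ b in {b : Vec d | len (b - a) ≤ r}, F b ≤ ENNReal.ofReal ((R + r) ^ (d - 1)) *
      ∫⁻ η in {η : Vec d | len (η - dirk a z₀) ≤ κ₁},
        (∫⁻ s in Icc (dot (a - z₀) η - r) (dot (a - z₀) η + r), F (z₀ + s • η)) ∂(surf d) := by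
  have hSm : MeasurableSet {b : Vec d | len (b - a) ≤ r} :=
    (isClosed_le (continuous_len.comp (continuous_id.sub continuous_const))
      continuous_const).measurableSet
  have hCm : MeasurableSet {η : Vec d | len (η - dirk a z₀) ≤ κ₁} :=
    (isClosed_le (continuous_len.comp (continuous_id.sub continuous_const))
      continuous_const).measurableSet
  set G : Vec d → ℝ≥0∞ := ({b : Vec d | len (b - a) ≤ r}).indicator F with hG
  have hGm : Measurable G := hF.indicator hSm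
  have e1 : ∫⁻ b in {b : Vec d | len (b - a) ≤ r}, F b = ∫⁻ z, G (z₀ + z) := by
    rw [← lintegral_indicator hSm, lintegral_add_left_eq_self G z₀]
  have e1' : ∫⁻ z, G (z₀ + z) = ∫⁻ σ, ∫⁻ ρ, G (z₀ + ρ.1 • σ) ∂(rad d) ∂(surf d) :=
    polar hd (G := fun z => G (z₀ + z)) (hGm.comp (measurable_const_add z₀))
  rw [e1, e1', ← lintegral_indicator hCm, ← lintegral_const_mul' _ _ ENNReal.ofReal_ne_top]
  refine lintegral_mono_ae ?_
  filter_upwards [surf_ae] with η hη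
  have hcη : Continuous fun s : ℝ => z₀ + s • η := by fun_prop
  have hGη : Measurable fun s : ℝ => G (z₀ + s • η) := hGm.comp hcη.measurable
  have e2 : ∫⁻ ρ, G (z₀ + ρ.1 • η) ∂(rad d) =
      ∫⁻ s in Ioi (0 : ℝ), ENNReal.ofReal (s ^ (d - 1)) * G (z₀ + s • η) := two_rad hGη
  rw [e2]
  have hgeo : ∀ s : ℝ, 0 < s → len (z₀ + s • η - a) ≤ r →
      len (η - dirk a z₀) ≤ κ₁ ∧ |s - dot (a - z₀) η| ≤ r ∧ s ≤ R + r := by
    intro s hs hb
    have e3 : s • η - (a - z₀) = z₀ + s • η - a := by abel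
    exact two_geo hρ h1 h2 hη hs (by rw [e3]; exact hb) hr1
  by_cases hη1 : len (η - dirk a z₀) ≤ κ₁
  · rw [indicator_of_mem (by exact hη1), ← lintegral_const_mul' _ _ ENNReal.ofReal_ne_top,
      ← lintegral_indicator measurableSet_Ioi, ← lintegral_indicator measurableSet_Icc]
    refine lintegral_mono fun s => ?_
    by_cases hs : s ∈ Ioi (0 : ℝ)
    · rw [indicator_of_mem hs]
      by_cases hb : len (z₀ + s • η - a) ≤ r
      · obtain ⟨-, g2, g3⟩ := hgeo s hs hb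
        rw [abs_le] at g2
        have hsI : s ∈ Icc (dot (a - z₀) η - r) (dot (a - z₀) η + r) :=
          ⟨by linarith [g2.1], by linarith [g2.2]⟩
        rw [indicator_of_mem hsI]
        have hs0 : (0 : ℝ) < s := hs
        refine mul_le_mul' (ENNReal.ofReal_le_ofReal (pow_le_pow_left₀ hs0.le g3 _)) ?_
        exact indicator_le_self _ _ _
      · have : G (z₀ + s • η) = 0 := by
          rw [hG]
          exact indicator_of_notMem (show z₀ + s • η ∉ {b : Vec d | len (b - a) ≤ r} from hb) F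
        rw [this, mul_zero]
        exact zero_le
    · rw [indicator_of_notMem hs]
      exact zero_le
  · rw [indicator_of_notMem (by exact hη1), mul_zero]
    refine le_of_eq ?_
    rw [← lintegral_indicator measurableSet_Ioi, lintegral_eq_zero_of_ae_eq_zero]
    refine Eventually.of_forall fun s => ?_
    by_cases hs : s ∈ Ioi (0 : ℝ)
    · rw [indicator_of_mem hs]
      have : G (z₀ + s • η) = 0 := by
        rw [hG]
        exact indicator_of_notMem (show z₀ + s • η ∉ {b : Vec d | len (b - a) ≤ r} from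
          fun hb => hη1 (hgeo s hs hb).1) F
      rw [this, mul_zero]
      rfl
    · rw [indicator_of_notMem hs]
      rfl

private lemma two_dot {a z₀ z₁ σ η : Vec d} : dot (post a z₁ σ - z₀) η =
    dot (a - z₀) η + len (a - z₁) / 2 * (dot σ η - dot (dirk a z₁) η) := by
  rw [post_eq, dot_comm _ η, dot_comm _ η, dot_comm _ η, dot_comm _ η, dot_sub, dot_add, dot_smul,
    dot_sub, dot_sub]
  ring

/-- the set of good pairs of directions -/
private def twoC (ε₁ ρ₁ R₂ : ℝ) (a z₁ z₀ : Vec d) : Set (Vec d × Vec d) :=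
  {p | (Tr ε₁ ρ₁ R₂ a z₁ p.1 ∧
    ρ₁ ≤ len (post a z₁ p.1 - z₀) ∧ len (post a z₁ p.1 - z₀) ≤ R₂) ∧
    0 < dot (dirk (post a z₁ p.1) z₀) p.2 ∧ 1 / 2 ≤ dot (dirk (post a z₁ p.1) z₀) p.2 ^ 2 ∧
    dot (dirk (post a z₁ p.1) z₀) p.2 ^ 2 ≤ 1 - ε₁ / 2}

/-- the integrand -/
private noncomputable def twoH (ε₁ ρ₁ R₂ : ℝ) (a z₁ z₀ : Vec d) (F : Vec d → ℝ≥0∞) :
    Vec d × Vec d → ℝ≥0∞ := (twoC ε₁ ρ₁ R₂ a z₁ z₀).indicator
    (fun p => F (z₀ + dot (post a z₁ p.1 - z₀) p.2 • p.2))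

private lemma two_m1 (a z₁ : Vec d) : Measurable fun p : Vec d × Vec d => post a z₁ p.1 := by
  have hc1 : Continuous fun p : Vec d × Vec d => ((a, z₁, p.1) : Vec d × Vec d × Vec d) := by
    fun_prop
  exact (continuous_post.comp hc1).measurable

private lemma two_m4 {f : Vec d × Vec d → Vec d} (hf : Measurable f) (z₀ : Vec d) :
    Measurable fun p : Vec d × Vec d => dirk (f p) z₀ := by
  unfold dirk
  have h : Measurable fun p : Vec d × Vec d => len (f p - z₀) :=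
    continuous_len.measurable.comp (hf.sub_const z₀)
  exact h.inv.smul (hf.sub_const z₀)

private lemma two_measC (ε₁ ρ₁ R₂ : ℝ) (a z₁ z₀ : Vec d) :
    MeasurableSet (twoC ε₁ ρ₁ R₂ a z₁ z₀) := by
  have m1 := two_m1 a z₁
  have m2 : Measurable fun p : Vec d × Vec d => cosTh a z₁ p.1 := by
    have hc1 : Continuous fun p : Vec d × Vec d => ((a, z₁, p.1) : Vec d × Vec d × Vec d) := by
      fun_prop
    exact measurable_cosTh.comp hc1.measurable
  have m3 : Measurable fun p : Vec d × Vec d => len (post a z₁ p.1 - z₀) :=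
    continuous_len.measurable.comp (m1.sub_const z₀)
  have m4 : Measurable fun p : Vec d × Vec d => dirk (post a z₁ p.1) z₀ := two_m4 m1 z₀
  have m5 : Measurable fun p : Vec d × Vec d => dot (dirk (post a z₁ p.1) z₀) p.2 :=
    continuous_dot.measurable.comp (m4.prodMk measurable_snd)
  have s0 : MeasurableSet {p : Vec d × Vec d | 0 ≤ cosTh a z₁ p.1} :=
    measurableSet_le measurable_const m2
  have s0' : MeasurableSet {p : Vec d × Vec d | cosTh a z₁ p.1 ≤ 1 - ε₁} :=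
    measurableSet_le m2 measurable_const
  have s1 : MeasurableSet {p : Vec d × Vec d | Tr ε₁ ρ₁ R₂ a z₁ p.1} := by
    by_cases h1 : ρ₁ ≤ len (a - z₁) ∧ len (a - z₁) ≤ R₂
    · have e : {p : Vec d × Vec d | Tr ε₁ ρ₁ R₂ a z₁ p.1} =
          {p : Vec d × Vec d | 0 ≤ cosTh a z₁ p.1} ∩
            {p : Vec d × Vec d | cosTh a z₁ p.1 ≤ 1 - ε₁} := by
        ext p
        exact ⟨fun h => ⟨h.2.2.1, h.2.2.2⟩, fun h => ⟨h1.1, h1.2, h.1, h.2⟩⟩
      rw [e]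
      exact s0.inter s0'
    · have e : {p : Vec d × Vec d | Tr ε₁ ρ₁ R₂ a z₁ p.1} = ∅ := by
        ext p
        exact ⟨fun h => h1 ⟨h.1, h.2.1⟩, fun h => h.elim⟩
      rw [e]
      exact MeasurableSet.empty
  have s2 : MeasurableSet {p : Vec d × Vec d | ρ₁ ≤ len (post a z₁ p.1 - z₀)} :=
    measurableSet_le measurable_const m3
  have s3 : MeasurableSet {p : Vec d × Vec d | len (post a z₁ p.1 - z₀) ≤ R₂} :=
    measurableSet_le m3 measurable_const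
  have s4 : MeasurableSet {p : Vec d × Vec d | 0 < dot (dirk (post a z₁ p.1) z₀) p.2} :=
    measurableSet_lt measurable_const m5
  have s5 : MeasurableSet {p : Vec d × Vec d |
      1 / 2 ≤ dot (dirk (post a z₁ p.1) z₀) p.2 ^ 2} :=
    measurableSet_le measurable_const (m5.pow_const 2)
  have s6 : MeasurableSet {p : Vec d × Vec d |
      dot (dirk (post a z₁ p.1) z₀) p.2 ^ 2 ≤ 1 - ε₁ / 2} :=
    measurableSet_le (m5.pow_const 2) measurable_const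
  have e : twoC ε₁ ρ₁ R₂ a z₁ z₀ = ({p : Vec d × Vec d | Tr ε₁ ρ₁ R₂ a z₁ p.1} ∩
      ({p : Vec d × Vec d | ρ₁ ≤ len (post a z₁ p.1 - z₀)} ∩
        {p : Vec d × Vec d | len (post a z₁ p.1 - z₀) ≤ R₂})) ∩
      ({p : Vec d × Vec d | 0 < dot (dirk (post a z₁ p.1) z₀) p.2} ∩
        ({p : Vec d × Vec d | 1 / 2 ≤ dot (dirk (post a z₁ p.1) z₀) p.2 ^ 2} ∩
          {p : Vec d × Vec d | dot (dirk (post a z₁ p.1) z₀) p.2 ^ 2 ≤ 1 - ε₁ / 2})) := by
    ext p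
    exact ⟨fun h => ⟨⟨h.1.1, h.1.2.1, h.1.2.2⟩, h.2.1, h.2.2.1, h.2.2.2⟩,
      fun h => ⟨⟨h.1.1, h.1.2.1, h.1.2.2⟩, h.2.1, h.2.2.1, h.2.2.2⟩⟩
  rw [e]
  exact (s1.inter (s2.inter s3)).inter (s4.inter (s5.inter s6))

private lemma two_measH (ε₁ ρ₁ R₂ : ℝ) (a z₁ z₀ : Vec d) {F : Vec d → ℝ≥0∞}
    (hF : Measurable F) : Measurable (twoH ε₁ ρ₁ R₂ a z₁ z₀ F) := by
  refine Measurable.indicator (hF.comp ?_) (two_measC _ _ _ _ _ _)
  have m6 : Measurable fun p : Vec d × Vec d => dot (post a z₁ p.1 - z₀) p.2 :=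
    continuous_dot.measurable.comp (((two_m1 a z₁).sub_const z₀).prodMk measurable_snd)
  exact (m6.smul measurable_snd).const_add z₀

open Classical in
/-- the inner integral -/
private lemma two_one (hd : 2 ≤ d) {ε₁ ρ₁ R₂ : ℝ} (hε₁ : 0 < ε₁) (hρ₁ : 0 < ρ₁) (a z₁ z₀ : Vec d)
    {F : Vec d → ℝ≥0∞} (hF : Measurable F) (σ₁ : Vec d) :
    ∫⁻ η, twoH ε₁ ρ₁ R₂ a z₁ z₀ F (σ₁, η) ∂(surf d) ≤ ∫⁻ σ₀, (if Tr ε₁ ρ₁ R₂ a z₁ σ₁ ∧
      Tr ε₁ ρ₁ R₂ (post a z₁ σ₁) z₀ σ₀ then F (post (post a z₁ σ₁) z₀ σ₀) else 0) ∂(surf d) := by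
  by_cases hT : Tr ε₁ ρ₁ R₂ a z₁ σ₁ ∧ ρ₁ ≤ len (post a z₁ σ₁ - z₀) ∧
      len (post a z₁ σ₁ - z₀) ≤ R₂
  · have hne : post a z₁ σ₁ ≠ z₀ := by
      intro h
      have := hT.2.1
      rw [h, sub_self, len_zero] at this
      linarith
    have h := post_polar_ge hd hne hε₁ hF
    refine le_trans (le_of_eq ?_) (h.trans (le_of_eq ?_))
    · refine lintegral_congr fun η => ?_
      by_cases hq : 0 < dot (dirk (post a z₁ σ₁) z₀) η ∧
          1 / 2 ≤ dot (dirk (post a z₁ σ₁) z₀) η ^ 2 ∧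
          dot (dirk (post a z₁ σ₁) z₀) η ^ 2 ≤ 1 - ε₁ / 2
      · rw [if_pos hq]
        exact indicator_of_mem (show (σ₁, η) ∈ twoC ε₁ ρ₁ R₂ a z₁ z₀ from ⟨hT, hq⟩) _
      · rw [if_neg hq]
        exact indicator_of_notMem
          (show (σ₁, η) ∉ twoC ε₁ ρ₁ R₂ a z₁ z₀ from fun h => hq h.2) _
    · refine lintegral_congr fun σ₀ => ?_
      by_cases hq : 0 ≤ cosTh (post a z₁ σ₁) z₀ σ₀ ∧ cosTh (post a z₁ σ₁) z₀ σ₀ ≤ 1 - ε₁
      · rw [if_pos hq, if_pos ⟨hT.1, hT.2.1, hT.2.2, hq.1, hq.2⟩]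
      · rw [if_neg hq, if_neg]
        rintro ⟨_, _, _, h3, h4⟩
        exact hq ⟨h3, h4⟩
  · have hz : ∀ η, twoH ε₁ ρ₁ R₂ a z₁ z₀ F (σ₁, η) = 0 := fun η =>
      indicator_of_notMem (show (σ₁, η) ∉ twoC ε₁ ρ₁ R₂ a z₁ z₀ from fun h => hT h.1) _
    simp only [hz, lintegral_zero]
    exact zero_le

private lemma two_capm (w : Vec d) (κ : ℝ) : MeasurableSet {σ : Vec d | len (σ - w) ≤ κ} :=
  (isClosed_le (continuous_len.comp (continuous_id.sub continuous_const))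
    continuous_const).measurableSet

/-- the radial integral for one direction -/
private lemma two_two {ε₁ ρ₁ R₂ κ₂ c j A₁ B R ρ r : ℝ} {a z₁ z₀ η : Vec d} (hη : nsq η = 1)
    (hj : 0 < j) (hne1 : a ≠ z₁) (hB : B = len (a - z₁) / 2) (hB0 : 0 < B)
    (hBl : ρ / 2 ≤ B) (hBu : B ≤ |R| / 2) (hr2 : r ≤ ρ / 2 * j)
    (hproj : ∀ σ₀ η : Vec d, nsq σ₀ = 1 → nsq η = 1 → dot σ₀ η ^ 2 ≤ 1 - c →
      ∀ φ : ℝ → ℝ≥0∞, Measurable φ →
      ∫⁻ τ in Icc (dot σ₀ η - j) (dot σ₀ η + j), φ τ ≤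
        ENNReal.ofReal A₁ * ∫⁻ σ in {σ : Vec d | len (σ - σ₀) ≤ κ₂}, φ (dot σ η) ∂(surf d))
    (g1 : dot (dirk a z₁) η ^ 2 ≤ 1 - c)
    (g2 : ∀ σ : Vec d, nsq σ = 1 → len (σ - refl η (dirk a z₁)) ≤ κ₂ →
      (σ, η) ∈ twoC ε₁ ρ₁ R₂ a z₁ z₀) {F : Vec d → ℝ≥0∞} (hF : Measurable F) :
    ∫⁻ s in Icc (dot (a - z₀) η - r) (dot (a - z₀) η + r), F (z₀ + s • η) ≤
      ENNReal.ofReal (|R| / 2 * A₁) * ∫⁻ σ₁, twoH ε₁ ρ₁ R₂ a z₁ z₀ F (σ₁, η) ∂(surf d) := by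
  have hΦm : Measurable fun τ : ℝ =>
      F (z₀ + (dot (a - z₀) η + B * (τ - dot (dirk a z₁) η)) • η) := by
    have hcc : Continuous fun τ : ℝ =>
        z₀ + (dot (a - z₀) η + B * (τ - dot (dirk a z₁) η)) • η := by fun_prop
    exact hF.comp hcc.measurable
  have hdr : dot (refl η (dirk a z₁)) η = dot (dirk a z₁) η := by
    rw [dot_comm, dot_refl hη, dot_comm]
  have h3 := hproj (refl η (dirk a z₁)) η (by rw [nsq_refl hη, nsq_dirk hne1]) hη
    (by rw [hdr]; exact g1) _ hΦm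
  rw [hdr] at h3
  have h4 : ∫⁻ σ in {σ : Vec d | len (σ - refl η (dirk a z₁)) ≤ κ₂},
      F (z₀ + (dot (a - z₀) η + B * (dot σ η - dot (dirk a z₁) η)) • η) ∂(surf d) ≤
      ∫⁻ σ₁, twoH ε₁ ρ₁ R₂ a z₁ z₀ F (σ₁, η) ∂(surf d) := by
    rw [← lintegral_indicator (two_capm _ _)]
    refine lintegral_mono_ae ?_
    filter_upwards [surf_ae] with σ hσ
    by_cases hσ2 : len (σ - refl η (dirk a z₁)) ≤ κ₂
    · have hm := g2 σ hσ hσ2
      rw [indicator_of_mem (by exact hσ2)]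
      have e : dot (post a z₁ σ - z₀) η =
          dot (a - z₀) η + B * (dot σ η - dot (dirk a z₁) η) := by
        rw [hB]
        exact two_dot
      have e2 : twoH ε₁ ρ₁ R₂ a z₁ z₀ F (σ, η) = F (z₀ + dot (post a z₁ σ - z₀) η • η) :=
        indicator_of_mem hm _
      rw [e2, e]
    · rw [indicator_of_notMem (by exact hσ2)]
      exact zero_le
  have hBj : ρ / 2 * j ≤ B * j := mul_le_mul_of_nonneg_right hBl hj.le
  have h5 : ∫⁻ s in Icc (dot (a - z₀) η - r) (dot (a - z₀) η + r), F (z₀ + s • η) ≤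
      ∫⁻ s in Icc (dot (a - z₀) η - B * j) (dot (a - z₀) η + B * j), F (z₀ + s • η) :=
    lintegral_mono_set (Icc_subset_Icc (by linarith) (by linarith))
  have h6 := two_subst (A' := dot (a - z₀) η) (j := j) (t := dot (dirk a z₁) η) hB0
    (fun s => F (z₀ + s • η))
  rw [h6] at h5
  refine h5.trans ?_
  rw [ENNReal.ofReal_mul (by positivity : (0 : ℝ) ≤ |R| / 2), mul_assoc]
  exact mul_le_mul' (ENNReal.ofReal_le_ofReal hBu) (h3.trans (mul_le_mul' le_rfl h4))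

open Classical in
theorem two_step (hd : 2 ≤ d) {ρ κ R : ℝ} (hρ : 0 < ρ) (hκ : 0 < κ) :
    ∃ r ε₁ ρ₁ R₂ A : ℝ, 0 < r ∧ 0 < ε₁ ∧ 0 < ρ₁ ∧ 0 ≤ A ∧
    ∀ a z₁ z₀ : Vec d, PairG ρ κ R a z₁ z₀ → ∀ F : Vec d → ℝ≥0∞, Measurable F →
      ∫⁻ b in {b : Vec d | len (b - a) ≤ r}, F b ≤
        ENNReal.ofReal A * ∫⁻ σ₁, ∫⁻ σ₀, (if Tr ε₁ ρ₁ R₂ a z₁ σ₁ ∧
          Tr ε₁ ρ₁ R₂ (post a z₁ σ₁) z₀ σ₀ then F (post (post a z₁ σ₁) z₀ σ₀) else 0)
            ∂(surf d) ∂(surf d) := by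
  obtain ⟨κ₁, κ₂, c, ε₁, ρ₁, R₂, hκ₁, hκ₂, hc, hε₁, hρ₁, hgeom⟩ :=
    two_geom (d := d) (R := R) hρ hκ
  obtain ⟨j, A₁, hj, hA₁, hproj⟩ := proj_cap hd hc hκ₂
  obtain ⟨r, hr0, hr1, hr2⟩ : ∃ r : ℝ, 0 < r ∧ 2 * r ≤ ρ * κ₁ ∧ r ≤ ρ / 2 * j := by
    refine ⟨min (ρ * κ₁ / 2) (ρ / 2 * j), lt_min (by positivity) (by positivity), ?_,
      min_le_right _ _⟩
    have := min_le_left (ρ * κ₁ / 2) (ρ / 2 * j)
    linarith
  refine ⟨r, ε₁, ρ₁, R₂, (|R| + r) ^ (d - 1) * (|R| / 2 * A₁), hr0, hε₁, hρ₁, by positivity, ?_⟩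
  intro a z₁ z₀ hP F hF
  obtain ⟨p1, p2, p3, p4, p5⟩ := id hP
  have hRa : R ≤ |R| := le_abs_self R
  have hne1 : a ≠ z₁ := by
    rintro rfl
    rw [sub_self, len_zero] at p1
    linarith
  have step2 : ∀ᵐ η ∂(surf d), len (η - dirk a z₀) ≤ κ₁ →
      ∫⁻ s in Icc (dot (a - z₀) η - r) (dot (a - z₀) η + r), F (z₀ + s • η) ≤
        ENNReal.ofReal (|R| / 2 * A₁) *
          ∫⁻ σ₁, twoH ε₁ ρ₁ R₂ a z₁ z₀ F (σ₁, η) ∂(surf d) := by
    filter_upwards [surf_ae] with η hη hcap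
    obtain ⟨g1, g2⟩ := hgeom a z₁ z₀ hP η hη hcap
    refine two_two (κ₂ := κ₂) (c := c) (j := j) (B := len (a - z₁) / 2) (ρ := ρ) hη hj hne1
      rfl (by linarith) (by linarith) (by linarith) hr2 hproj g1 (fun σ hσ hσ2 => ?_) hF
    obtain ⟨q1, q2, q3, q4, q5, q6⟩ := g2 σ hσ hσ2
    exact ⟨⟨q1, q2, q3⟩, q4, q5, q6⟩
  have step3 : ∫⁻ η in {η : Vec d | len (η - dirk a z₀) ≤ κ₁},
        (∫⁻ s in Icc (dot (a - z₀) η - r) (dot (a - z₀) η + r), F (z₀ + s • η)) ∂(surf d) ≤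
      ENNReal.ofReal (|R| / 2 * A₁) *
        ∫⁻ η, ∫⁻ σ₁, twoH ε₁ ρ₁ R₂ a z₁ z₀ F (σ₁, η) ∂(surf d) ∂(surf d) := by
    rw [← lintegral_indicator (two_capm _ _), ← lintegral_const_mul' _ _ ENNReal.ofReal_ne_top]
    refine lintegral_mono_ae ?_
    filter_upwards [step2] with η hη
    by_cases hη1 : len (η - dirk a z₀) ≤ κ₁
    · rw [indicator_of_mem (by exact hη1)]
      exact hη hη1
    · rw [indicator_of_notMem (by exact hη1)]
      exact zero_le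
  have step4 : ∫⁻ η, ∫⁻ σ₁, twoH ε₁ ρ₁ R₂ a z₁ z₀ F (σ₁, η) ∂(surf d) ∂(surf d) =
      ∫⁻ σ₁, ∫⁻ η, twoH ε₁ ρ₁ R₂ a z₁ z₀ F (σ₁, η) ∂(surf d) ∂(surf d) :=
    lintegral_lintegral_swap
      ((two_measH ε₁ ρ₁ R₂ a z₁ z₀ hF).comp measurable_swap).aemeasurable
  rw [step4] at step3
  have step5 := two_polar (d := d) (by omega) hρ (p1.trans p2) (p3.trans hRa) hr1 hF
  have step6 : ∫⁻ σ₁, ∫⁻ η, twoH ε₁ ρ₁ R₂ a z₁ z₀ F (σ₁, η) ∂(surf d) ∂(surf d) ≤
      ∫⁻ σ₁, ∫⁻ σ₀, (if Tr ε₁ ρ₁ R₂ a z₁ σ₁ ∧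
          Tr ε₁ ρ₁ R₂ (post a z₁ σ₁) z₀ σ₀ then F (post (post a z₁ σ₁) z₀ σ₀) else 0)
            ∂(surf d) ∂(surf d) :=
    lintegral_mono fun σ₁ => two_one hd hε₁ hρ₁ a z₁ z₀ hF σ₁
  rw [ENNReal.ofReal_mul (by positivity : (0 : ℝ) ≤ (|R| + r) ^ (d - 1)), mul_assoc]
  exact step5.trans (mul_le_mul' le_rfl (step3.trans (mul_le_mul' le_rfl step6)))

end Pool.Agent.H15.AV
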